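import Pool.Agent.P.MP_064970_gt.PL.Calc

/-! Row PL-Cacc: `b` with `φ = χ²`; for the density use `g1` on dyadic annuli, `Dil² / |z|² ≤ 2 |h|² + 2 U² / |z|²`. -/

open Complex InnerProductSpace Set Filter Topology Metric MeasureTheory
open scoped Real ComplexConjugate ENNReal

namespace MW.PL

open MW.AN

namespace Cacc

theorem real_ball (a : ℂ) {r : ℝ} (hr : 0 ≤ r) : volume.real (ball a r) = π * r ^ 2 := by
  rw [measureReal_def, Complex.volume_ball, ENNReal.toReal_mul, ENNReal.toReal_pow,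
    ENNReal.toReal_ofReal hr, ENNReal.coe_toReal, NNReal.coe_real_pi, mul_comm]

theorem sq_intOn {U : ℂ → ℝ} {h : ℂ → ℂ} (hD : Data U h) (a : ℂ) (r : ℝ) :
    IntegrableOn (fun z => ‖h z‖ ^ 2) (ball a r) := by
  refine Measure.integrableOn_of_bounded (M := 1) measure_ball_lt_top.ne
    (hD.meas.norm.pow_const 2).aestronglyMeasurable (ae_of_all _ fun z => ?_)
  rw [Real.norm_eq_abs, abs_of_nonneg (sq_nonneg _)]
  exact pow_le_one₀ (norm_nonneg _) (hD.le z)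

theorem one_le_of {a z : ℂ} {s : ℝ} (hs : 0 < s) (hz : z ∉ ball a s) :
    1 ≤ ‖z - a‖ ^ 2 / s ^ 2 := by
  rw [mem_ball, dist_eq_norm, not_lt] at hz
  rw [le_div_iff₀ (by positivity), one_mul]
  exact pow_le_pow_left₀ hs.le hz 2

end Cacc

open Cacc

theorem cacc : S_Cacc := by
  obtain ⟨K, hK, hK'⟩ := deriv_cut_bound
  refine ⟨16 * π * K ^ 2, by positivity, fun U h μ hI a s B hs hB => ?_⟩
  have hs2 : 0 < 2 * s := by linarith
  have hc1 : ContDiff ℝ 1 cut := cut_contDiff.of_le (by norm_num)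
  have hg : ContDiff ℝ 1 fun t => cut t ^ 2 := hc1.pow 2
  have hg0 : ∀ t : ℝ, 1 ≤ t → cut t ^ 2 = 0 := fun t ht => by rw [cut_eq_zero ht]; simp
  have hb := hI.b _ (contDiff_radial hg a (2 * s)) (hasCompactSupport_radial hg0 a hs2)
  set χ : ℂ → ℝ := fun z => cut (‖z - a‖ ^ 2 / (2 * s) ^ 2) with hχ
  have hχc : Continuous χ := hc1.continuous.comp (by fun_prop)
  have hχ0 : ∀ z, z ∉ ball a (2 * s) → χ z = 0 := fun z hz => cut_eq_zero (one_le_of hs2 hz)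
  have hd : ∀ z, dbar (fun w => ((cut (‖w - a‖ ^ 2 / (2 * s) ^ 2) ^ 2 : ℝ) : ℂ)) z =
      ((2 * χ z * deriv cut (‖z - a‖ ^ 2 / (2 * s) ^ 2) : ℝ) : ℂ) * (z - a) / ((2 * s : ℝ) : ℂ) ^ 2 := by
    intro z
    have h1 := ((hc1.differentiable one_ne_zero) (‖z - a‖ ^ 2 / (2 * s) ^ 2)).hasDerivAt
    have h2 : HasDerivAt (fun t => cut t ^ 2) (2 * χ z * deriv cut (‖z - a‖ ^ 2 / (2 * s) ^ 2))
        (‖z - a‖ ^ 2 / (2 * s) ^ 2) := by
      refine (h1.fun_pow 2).congr_deriv ?_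
      simp [hχ]
    exact (dbar_radial (g := fun t => cut t ^ 2) a (2 * s) h2).2.1
  have hX : Integrable fun z => χ z ^ 2 * ‖h z‖ ^ 2 := by
    have e : (fun z => χ z ^ 2 * ‖h z‖ ^ 2) =
        (ball a (2 * s)).indicator fun z => χ z ^ 2 * ‖h z‖ ^ 2 := by
      funext z
      by_cases hz : z ∈ ball a (2 * s)
      · rw [indicator_of_mem hz]
      · rw [indicator_of_notMem hz, hχ0 z hz]; simp
    rw [e, integrable_indicator_iff measurableSet_ball]
    refine (sq_intOn hI.toData a (2 * s)).bdd_mul (c := 1) (hχc.pow 2).aestronglyMeasurable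
      (ae_of_all _ fun z => ?_)
    rw [Real.norm_eq_abs, abs_of_nonneg (sq_nonneg _)]
    exact pow_le_one₀ (cut_mem _).1 (cut_mem _).2
  have hY : Integrable ((ball a (2 * s)).indicator fun _ : ℂ => (B * K / s) ^ 2) :=
    (integrable_indicator_iff measurableSet_ball).2 (integrableOn_const measure_ball_lt_top.ne)
  have pt : ∀ z, ‖(U z : ℂ) * h z *
      dbar (fun w => ((cut (‖w - a‖ ^ 2 / (2 * s) ^ 2) ^ 2 : ℝ) : ℂ)) z‖ ≤
      χ z ^ 2 * ‖h z‖ ^ 2 / 4 + (ball a (2 * s)).indicator (fun _ => (B * K / s) ^ 2) z := by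
    intro z
    rw [hd]
    by_cases hz : z ∈ ball a (2 * s)
    · rw [indicator_of_mem hz]
      have hU : U z ≤ B := hB z (ball_subset_closedBall hz)
      have hU0 := hI.nonneg z
      have hχ1 : 0 ≤ χ z := (cut_mem _).1
      have hza : ‖z - a‖ ≤ 2 * s := by
        rw [mem_ball, dist_eq_norm] at hz
        exact hz.le
      have e : ‖(U z : ℂ) * h z * (((2 * χ z * deriv cut (‖z - a‖ ^ 2 / (2 * s) ^ 2) : ℝ) : ℂ) *
          (z - a) / ((2 * s : ℝ) : ℂ) ^ 2)‖ = U z * ‖h z‖ *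
          (2 * χ z * |deriv cut (‖z - a‖ ^ 2 / (2 * s) ^ 2)| * ‖z - a‖ / (2 * s) ^ 2) := by
        rw [norm_mul, norm_mul, norm_div, norm_mul, norm_pow, norm_real, norm_real, norm_real,
          Real.norm_eq_abs, Real.norm_eq_abs, Real.norm_eq_abs, abs_of_nonneg hU0,
          abs_of_pos hs2, abs_mul, abs_of_nonneg (mul_nonneg two_pos.le hχ1)]
      rw [e]
      calc _ ≤ B * ‖h z‖ * (2 * χ z * K * (2 * s) / (2 * s) ^ 2) := by
            have hB0 : 0 ≤ B := hU0.trans hU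
            gcongr
            exact hK' _
        _ = χ z * ‖h z‖ * (B * K / s) := by field_simp
        _ ≤ _ := by nlinarith [sq_nonneg (χ z * ‖h z‖ / 2 - B * K / s)]
    · rw [indicator_of_notMem hz, hχ0 z hz]
      simp
  have h1 := norm_integral_le_of_norm_le ((hX.div_const 4).add hY) (ae_of_all _ pt)
  have h2 : ∫ z, (χ z ^ 2 * ‖h z‖ ^ 2 / 4 +
      (ball a (2 * s)).indicator (fun _ => (B * K / s) ^ 2) z) =
      (∫ z, χ z ^ 2 * ‖h z‖ ^ 2) / 4 + 4 * π * K ^ 2 * B ^ 2 := by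
    rw [integral_add (hX.div_const 4) hY, integral_div, integral_indicator measurableSet_ball,
      setIntegral_const, real_ball a hs2.le, smul_eq_mul]
    field_simp
    ring
  have h3 : ∫ z, ((cut (‖z - a‖ ^ 2 / (2 * s) ^ 2) ^ 2 : ℝ) : ℂ) * ((‖h z‖ ^ 2 : ℝ) : ℂ) =
      ((∫ z, χ z ^ 2 * ‖h z‖ ^ 2 : ℝ) : ℂ) := by
    rw [← integral_complex_ofReal]
    simp only [hχ, ofReal_mul]
  rw [h3] at hb
  have h4 := congrArg norm hb
  rw [norm_real, norm_mul, norm_neg, Complex.norm_two] at h4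
  have h5 := Real.le_norm_self (∫ z, χ z ^ 2 * ‖h z‖ ^ 2)
  have h6 : ∫ z in ball a s, ‖h z‖ ^ 2 ≤ ∫ z, χ z ^ 2 * ‖h z‖ ^ 2 := by
    refine le_trans (le_of_eq ?_) (setIntegral_le_integral (s := ball a s) hX
      (ae_of_all _ fun z => by positivity))
    refine setIntegral_congr_fun measurableSet_ball fun z hz => ?_
    have hz1 : χ z = 1 := by
      refine cut_eq_one ?_
      rw [mem_ball, dist_eq_norm] at hz
      rw [div_le_iff₀ (by positivity)]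
      nlinarith [norm_nonneg (z - a)]
    simp [hz1]
  have h7 := h1.trans (le_of_eq h2)
  linarith

namespace Cacc

theorem annulus (hc : S_Cacc) {U : ℂ → ℝ} {h : ℂ → ℂ} {μ : Measure ℂ} (hI : Ids U h μ) {δ : ℝ}
    (hδ : 0 < δ) : ∃ r₂ : ℝ, 0 < r₂ ∧ ∀ r, r₂ ≤ r →
      volume.real (Fz U ∩ {z | r ≤ ‖z‖ ∧ ‖z‖ ≤ 2 * r}) ≤ δ * r ^ 2 := by
  obtain ⟨Cc, hCc, hc⟩ := hc
  obtain ⟨C, r₀, hr₀, hg⟩ := hI.g1
  have hπ := Real.pi_pos
  obtain ⟨η, hη, hη'⟩ : ∃ η : ℝ, 0 < η ∧ |C| * (η ^ 2 * (200 * Cc + 20000 * π)) ≤ δ := by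
    have hE : 0 < (|C| + 1) * (200 * Cc + 20000 * π) := by positivity
    refine ⟨√(δ / ((|C| + 1) * (200 * Cc + 20000 * π))), Real.sqrt_pos.2 (div_pos hδ hE), ?_⟩
    rw [Real.sq_sqrt (div_pos hδ hE).le]
    calc _ ≤ (|C| + 1) * (δ / ((|C| + 1) * (200 * Cc + 20000 * π)) * (200 * Cc + 20000 * π)) := by
          gcongr
          linarith
      _ = δ := by field_simp
  obtain ⟨r₁, hr₁, hM⟩ := hI.toData.Mx_sub η hη
  refine ⟨max r₀ r₁, lt_max_of_lt_left hr₀, fun r hr => ?_⟩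
  have h0 : r₀ ≤ r := (le_max_left _ _).trans hr
  have h1 : r₁ ≤ r := (le_max_right _ _).trans hr
  have hr0 : 0 < r := hr₀.trans_le h0
  have hB : Bd U 0 (2 * (5 * r)) (η * (2 * (5 * r))) := fun z hz =>
    (hI.toData.bd_Mx _ z hz).trans (hM _ (by linarith))
  have hh := hc U h μ hI 0 (5 * r) _ (by linarith) hB
  set S : Set ℂ := Om U ∩ {z | r / 2 ≤ ‖z‖ ∧ ‖z‖ ≤ 4 * r} with hS
  have hSm : MeasurableSet S := hI.toData.isOpen_Om.measurableSet.inter
    ((isClosed_le continuous_const continuous_norm).and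
      (isClosed_le continuous_norm continuous_const)).measurableSet
  have hSb : S ⊆ ball 0 (5 * r) := fun z hz => by
    rw [mem_ball_zero_iff]
    linarith [hz.2.2]
  have i1 := (sq_intOn hI.toData 0 (5 * r)).const_mul 2
  have i2 : IntegrableOn (fun _ : ℂ => 800 * η ^ 2) (ball 0 (5 * r)) :=
    integrableOn_const measure_ball_lt_top.ne
  have i3 : IntegrableOn (fun z => 2 * ‖h z‖ ^ 2 + 800 * η ^ 2) (ball 0 (5 * r)) := i1.add i2
  have k1 : ∫ z in S, Dil U h z ^ 2 / ‖z‖ ^ 2 ≤ ∫ z in S, (2 * ‖h z‖ ^ 2 + 800 * η ^ 2) := by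
    refine integral_mono_of_nonneg (ae_of_all _ fun z => by positivity) (i3.mono_set hSb)
      (ae_restrict_of_forall_mem hSm fun z hz => ?_)
    have z1 : r / 2 ≤ ‖z‖ := hz.2.1
    have z0 : 0 < ‖z‖ := by linarith
    have u0 := hI.nonneg z
    have u1 : U z ≤ η * (2 * (5 * r)) :=
      hB z (by rw [mem_closedBall_zero_iff]; linarith [hz.2.2])
    have u2 : U z ≤ 20 * η * ‖z‖ := by nlinarith [mul_le_mul_of_nonneg_left z1 hη.le]
    have u3 : U z ^ 2 ≤ (20 * η * ‖z‖) ^ 2 := pow_le_pow_left₀ u0 u2 2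
    have v : |(h z * z).re| ≤ ‖h z‖ * ‖z‖ := (abs_re_le_norm _).trans (norm_mul_le _ _)
    have v2 : (h z * z).re ^ 2 ≤ (‖h z‖ * ‖z‖) ^ 2 := by
      rw [← sq_abs]
      exact pow_le_pow_left₀ (abs_nonneg _) v 2
    show Dil U h z ^ 2 / ‖z‖ ^ 2 ≤ 2 * ‖h z‖ ^ 2 + 800 * η ^ 2
    rw [div_le_iff₀ (by positivity), Dil]
    nlinarith [sq_nonneg ((h z * z).re + U z)]
  have k2 : ∫ z in S, (2 * ‖h z‖ ^ 2 + 800 * η ^ 2) ≤
      ∫ z in ball (0 : ℂ) (5 * r), (2 * ‖h z‖ ^ 2 + 800 * η ^ 2) :=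
    setIntegral_mono_set i3 (ae_of_all _ fun z => by positivity) hSb.eventuallyLE
  rw [integral_add i1 i2, integral_const_mul, setIntegral_const, real_ball 0 (by linarith),
    smul_eq_mul] at k2
  have k0 : 0 ≤ ∫ z in S, Dil U h z ^ 2 / ‖z‖ ^ 2 := integral_nonneg fun z => by positivity
  have k3 : ∫ z in S, Dil U h z ^ 2 / ‖z‖ ^ 2 ≤ η ^ 2 * (200 * Cc + 20000 * π) * r ^ 2 := by
    nlinarith
  calc _ ≤ C * ∫ z in S, Dil U h z ^ 2 / ‖z‖ ^ 2 := hg r h0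
    _ ≤ |C| * (η ^ 2 * (200 * Cc + 20000 * π) * r ^ 2) :=
        mul_le_mul (le_abs_self C) k3 k0 (abs_nonneg C)
    _ = |C| * (η ^ 2 * (200 * Cc + 20000 * π)) * r ^ 2 := by ring
    _ ≤ δ * r ^ 2 := mul_le_mul_of_nonneg_right hη' (sq_nonneg r)

theorem Ar_step (U : ℂ → ℝ) (ρ : ℝ) :
    Ar U 0 (2 * ρ) ≤ Ar U 0 ρ + volume.real (Fz U ∩ {z | ρ ≤ ‖z‖ ∧ ‖z‖ ≤ 2 * ρ}) := by
  refine le_trans (measureReal_mono ?_ ?_) (measureReal_union_le _ _)
  · rintro z ⟨h1, h2⟩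
    rw [mem_ball_zero_iff] at h2
    rcases lt_or_ge ‖z‖ ρ with h3 | h3
    · exact Or.inl ⟨h1, mem_ball_zero_iff.2 h3⟩
    · exact Or.inr ⟨h1, h3, h2.le⟩
  · refine (measure_union_lt_top ?_ ?_).ne
    · exact (measure_mono inter_subset_right).trans_lt measure_ball_lt_top
    · refine (measure_mono fun z hz => ?_).trans_lt
        (measure_closedBall_lt_top (x := (0 : ℂ)) (r := 2 * ρ))
      exact mem_closedBall_zero_iff.2 hz.2.2

end Cacc

theorem dens_of (h : S_Cacc) : S_Dens := by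
  intro U g μ hI ε hε
  obtain ⟨r₂, hr₂, ha⟩ := annulus h hI (half_pos hε)
  have hπ := Real.pi_pos
  have key : ∀ k : ℕ, ∀ r : ℝ, 0 ≤ r → r ≤ 2 ^ k * (2 * r₂) →
      Ar U 0 r ≤ π * (2 * r₂) ^ 2 + ε / 2 * r ^ 2 := by
    have base : ∀ r : ℝ, 0 ≤ r → r ≤ 2 * r₂ → Ar U 0 r ≤ π * (2 * r₂) ^ 2 + ε / 2 * r ^ 2 := by
      intro r h0 h1
      refine (Ar_le U 0 r).trans (le_add_of_le_of_nonneg ?_ (by positivity))
      gcongr
    intro k
    induction k with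
    | zero => exact fun r h0 h1 => base r h0 (by simpa using h1)
    | succ k ih =>
      intro r h0 h1
      rcases le_total r (2 * r₂) with h2 | h2
      · exact base r h0 h2
      · have h3 := ih (r / 2) (by linarith) (by rw [pow_succ] at h1; linarith)
        have h4 := Ar_step U (r / 2)
        have h5 := ha (r / 2) (by linarith)
        have h6 : Ar U 0 (2 * (r / 2)) = Ar U 0 r := by congr 1; ring
        nlinarith [mul_nonneg hε.le (sq_nonneg r)]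
  refine ⟨√(π * (2 * r₂) ^ 2 / (ε / 2)), Real.sqrt_pos.2 (by positivity), fun r hr => ?_⟩
  have h0 : 0 ≤ r := (Real.sqrt_nonneg _).trans hr
  obtain ⟨k, hk⟩ := pow_unbounded_of_one_lt (r / (2 * r₂)) (one_lt_two (α := ℝ))
  rw [div_lt_iff₀ (by positivity)] at hk
  have h1 := key k r h0 hk.le
  have h2 := (Real.sqrt_le_left h0).1 hr
  rw [div_le_iff₀ (half_pos hε)] at h2
  linarith

end MW.PL
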