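import Pool.Agent.P.MP_064970_gt.PL.Calc

/-! Row PL-Circ: `|F| < ∞` by `LIC.sq`; `S_Vir` gives `m² ≤ 4π |F|`; with `S_IsoEq`,
`∫∫ (1 + Re k) ≤ 0`, so `n(z) n(w) conj (w - z) = -(w - z)` for all `z ≠ w` in the frontier
(`MeanC.supp`, continuity). `n` is not constant because `∫ n dμ = 0` ((c) with cutoffs). If
`n₁ ≠ n₂` then `(w₁ - w₂) / (n₁ - n₂)` is real; three points of the unit circle are affinely
independent. -/

open Complex InnerProductSpace Set Filter Topology Metric MeasureTheory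
open scoped Real ComplexConjugate ENNReal

namespace MW.PL

open MW.AN

theorem Circ_tend (ν : Measure ℂ) (A : Set ℂ) :
    Tendsto (fun r : ℝ => ν (A ∩ ball 0 r)) atTop (𝓝 (ν A)) := by
  have h1 := tendsto_measure_iUnion_atTop (μ := ν) (s := fun r : ℝ => A ∩ ball (0 : ℂ) r)
    fun r s hrs => inter_subset_inter_right _ (ball_subset_ball hrs)
  have h2 : ⋃ r : ℝ, A ∩ ball (0 : ℂ) r = A := by
    refine Subset.antisymm (iUnion_subset fun r => inter_subset_left) fun z hz => ?_
    exact mem_iUnion.2 ⟨‖z‖ + 1, hz, by simp⟩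
  rwa [h2] at h1

theorem Circ_fin (h₂ : S_Dens) (h₃ : S_LI) {U : ℂ → ℝ} {h : ℂ → ℂ} {μ : Measure ℂ}
    (H : Ids U h μ) [IsFiniteMeasure μ] : volume (Fz U) < ∞ := by
  obtain ⟨c₀, C, hc, hC, hL⟩ := h₃
  obtain ⟨r₀, hr₀, hd⟩ := h₂ U h μ H (c₀ / 4) (by positivity)
  refine lt_of_le_of_lt (le_of_tendsto (Circ_tend volume (Fz U)) ?_)
    (ENNReal.ofReal_lt_top (r := C * μ.real univ ^ 2))
  filter_upwards [eventually_ge_atTop r₀] with R hR
  have hsub : ∀ w ∈ Fz U ∩ ball 0 R, ball w R ⊆ ball 0 (2 * R) := fun w hw =>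
    ball_subset_ball' (by linarith [mem_ball.1 hw.2])
  have h1 := (hL U h μ H).sq (Fz U ∩ ball 0 R) (ball 0 (2 * R)) R
    (H.toData.isClosed_Fz.measurableSet.inter measurableSet_ball) inter_subset_left
    measurableSet_ball isBounded_ball (hr₀.trans_le hR) hsub fun w hw =>
      (Ar_mono U (hsub w hw)).trans ((hd _ (by linarith)).trans_eq (by ring))
  have h2 : volume (Fz U ∩ ball 0 R) ≠ ∞ :=
    ((measure_mono inter_subset_right).trans_lt measure_ball_lt_top).ne
  rw [← ENNReal.ofReal_toReal h2]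
  refine ENNReal.ofReal_le_ofReal (h1.trans (mul_le_mul_of_nonneg_left
    (pow_le_pow_left₀ measureReal_nonneg (measureReal_mono (subset_univ _)) 2) hC.le))

theorem Circ_vir (h₄ : S_Vir) {U : ℂ → ℝ} {h : ℂ → ℂ} {μ : Measure ℂ}
    (H : Ids U h μ) [IsFiniteMeasure μ] (hm : 0 < μ.real univ) (hF : volume (Fz U) < ∞) :
    μ.real univ ^ 2 ≤ 4 * π * volume.real (Fz U) := by
  have ht : Tendsto (fun r : ℝ => μ.real (ball 0 r)) atTop (𝓝 (μ.real univ)) := by
    have := (ENNReal.tendsto_toReal (measure_ne_top μ univ)).comp (Circ_tend μ univ)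
    simpa [Function.comp_def, Measure.real] using this
  have key : ∀ ε' : ℝ, 0 < ε' → (1 - ε') * μ.real univ ^ 2 / (4 * π) ≤ volume.real (Fz U) := by
    intro ε' hε'
    obtain ⟨ε, γ, hε, hγ, hV⟩ := h₄ ε' hε'
    obtain ⟨r₀, hr₀, hV⟩ := hV U h μ H
    refine le_of_tendsto (((ht.pow 2).const_mul (1 - ε')).div_const (4 * π)) ?_
    filter_upwards [eventually_ge_atTop r₀, (ht.const_mul (1 + ε)).eventually
      (lt_mem_nhds (show μ.real univ < (1 + ε) * μ.real univ by nlinarith))] with r hr h1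
    refine (hV r hr fun s hs => ?_).trans (measureReal_mono inter_subset_left hF.ne)
    have h2 : 1 ≤ (s / r) ^ γ :=
      Real.one_le_rpow ((one_le_div (hr₀.trans_le hr)).2 hs) hγ.le
    have h3 : μ.real (ball 0 s) ≤ μ.real univ := measureReal_mono (subset_univ _)
    nlinarith
  have h1 : Tendsto (fun ε' : ℝ => (1 - ε') * μ.real univ ^ 2 / (4 * π)) (𝓝[>] 0)
      (𝓝 ((1 - 0) * μ.real univ ^ 2 / (4 * π))) :=
    Tendsto.mono_left (Continuous.tendsto (by fun_prop) 0) nhdsWithin_le_nhds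
  have h2 := le_of_tendsto h1 (by filter_upwards [self_mem_nhdsWithin] with ε' h using key ε' h)
  rw [sub_zero, one_mul, div_le_iff₀ (by positivity)] at h2
  linarith

theorem Circ_supp {K : Set ℂ} {μ : Measure ℂ} (h0 : μ Kᶜ = 0)
    (hs : ∀ z ∈ K, ∀ s > 0, 0 < μ.real (ball z s)) {P : ℂ → ℂ} (hP : ContinuousOn P K)
    (hz : ∀ᵐ z ∂μ, P z = 0) : ∀ z ∈ K, P z = 0 := by
  intro z hzK
  by_contra hne
  obtain ⟨s, hs0, h1⟩ := Metric.mem_nhdsWithin_iff.1 ((hP z hzK).eventually_ne hne)
  have h2 : μ (ball z s) = 0 := by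
    refine measure_mono_null (t := Kᶜ ∪ {w | ¬ P w = 0}) (fun w hw => ?_)
      (measure_union_null h0 (ae_iff.1 hz))
    by_cases h3 : w ∈ K
    · exact Or.inr (h1 ⟨hw, h3⟩)
    · exact Or.inl h3
  have := hs z hzK s hs0
  rw [Measure.real, h2] at this
  simp at this

theorem Circ_eq {a : ℂ} (h1 : ‖a‖ ≤ 1) (h2 : 1 + a.re = 0) : a = -1 := by
  have h3 : a.re = -1 := by linarith
  have h4 : ‖a‖ ^ 2 ≤ 1 := pow_le_one₀ (norm_nonneg _) h1
  rw [Complex.sq_norm, Complex.normSq_apply, h3] at h4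
  exact Complex.ext (by simpa using h3) (by simpa using (by nlinarith : a.im * a.im = 0))

theorem Circ_rel (h₅ : S_IsoEq) {U : ℂ → ℝ} {h : ℂ → ℂ} {μ : Measure ℂ}
    (H : Ids U h μ) [IsFiniteMeasure μ] (hF : volume (Fz U) < ∞)
    (hs : ∀ z ∈ frontier (Om U), ∀ s > 0, 0 < μ.real (ball z s))
    (hv : μ.real univ ^ 2 ≤ 4 * π * volume.real (Fz U)) :
    μ.real univ ^ 2 = 4 * π * volume.real (Fz U) ∧ ∀ z ∈ frontier (Om U), ∀ w ∈ frontier (Om U),
      conj (h z) * conj (h w) * conj (w - z) + (w - z) = 0 := by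
  have hE := h₅ U h μ H (measure_lt_top μ _) hF
  set k : ℂ × ℂ → ℂ := fun p => conj (h p.1) * conj (h p.2) * (conj (p.2 - p.1) / (p.2 - p.1))
    with hk
  have hk1 : ∀ p, ‖k p‖ ≤ 1 := fun p => by
    simp only [hk, norm_mul, norm_div, Complex.norm_conj]
    exact mul_le_one₀ (mul_le_one₀ (H.le _) (norm_nonneg _) (H.le _)) (by positivity)
      (div_self_le_one _)
  have hc : Measurable fun z : ℂ => conj z := Complex.continuous_conj.measurable
  have hkm : Measurable k :=
    ((hc.comp (H.meas.comp measurable_fst)).mul (hc.comp (H.meas.comp measurable_snd))).mul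
      ((hc.comp (measurable_snd.sub measurable_fst)).div (measurable_snd.sub measurable_fst))
  have hre : ∀ p, |(k p).re| ≤ 1 := fun p => (Complex.abs_re_le_norm _).trans (hk1 p)
  have hki : Integrable (fun p => (k p).re) (μ.prod μ) :=
    (integrable_const (1 : ℝ)).mono' (Complex.measurable_re.comp hkm).aestronglyMeasurable
      (Eventually.of_forall hre)
  have hnn : 0 ≤ fun p => 1 + (k p).re := fun p => by
    have := (abs_le.1 (hre p)).1
    simp only [Pi.zero_apply]
    linarith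
  have hI : ∫ p, (1 + (k p).re) ∂μ.prod μ = μ.real univ ^ 2 - 4 * π * volume.real (Fz U) := by
    rw [integral_add (integrable_const _) hki, integral_prod _ hki, hE, integral_const,
      ← univ_prod_univ, measureReal_prod_prod]
    simp only [hk, smul_eq_mul]
    ring
  have h0 : ∫ p, (1 + (k p).re) ∂μ.prod μ = 0 :=
    le_antisymm (by rw [hI]; linarith) (integral_nonneg hnn)
  refine ⟨by rw [hI] at h0; linarith, ?_⟩
  have h1 := Measure.ae_ae_of_ae_prod
    ((integral_eq_zero_iff_of_nonneg hnn ((integrable_const _).add hki)).1 h0)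
  have hcn : ContinuousOn (fun z => conj (h z)) (frontier (Om U)) :=
    Complex.continuous_conj.comp_continuousOn (H.cont.mono frontier_subset_closure)
  have h2 : ∀ᵐ z ∂μ, ∀ w ∈ frontier (Om U),
      conj (h z) * conj (h w) * conj (w - z) + (w - z) = 0 := by
    filter_upwards [h1] with z hz
    refine Circ_supp H.supp hs (((continuousOn_const.mul hcn).mul
      (Continuous.continuousOn (by fun_prop))).add (Continuous.continuousOn (by fun_prop))) ?_
    filter_upwards [hz] with w hw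
    have h3 := Circ_eq (hk1 (z, w)) hw
    simp only [hk] at h3
    by_cases h4 : w - z = 0
    · simp [h4]
    · field_simp at h3
      linear_combination h3
  intro z hz w hw
  refine Circ_supp (P := fun z => conj (h z) * conj (h w) * conj (w - z) + (w - z)) H.supp hs
    (((hcn.mul continuousOn_const).mul
      (Continuous.continuousOn (by fun_prop))).add (Continuous.continuousOn (by fun_prop))) ?_ z hz
  filter_upwards [h2] with z hz using hz w hw

theorem Circ_ne {U : ℂ → ℝ} {h : ℂ → ℂ} {μ : Measure ℂ}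
    (H : Ids U h μ) [IsFiniteMeasure μ] (hF : volume (Fz U) < ∞)
    (hs : ∀ z ∈ frontier (Om U), ∀ s > 0, 0 < μ.real (ball z s)) :
    ∃ z ∈ frontier (Om U), ∃ w ∈ frontier (Om U), h z ≠ h w := by
  by_contra hcon
  push Not at hcon
  obtain ⟨a, ha⟩ := H.ne
  obtain ⟨C, hC, hb⟩ := deriv_cut_bound
  have hp := hs a ha 1 one_pos
  have key : ∀ s : ℝ, 2 * (‖a‖ + 1) ≤ s → μ.real (ball a 1) / 2 ≤ C * volume.real (Fz U) / s := by
    intro s hs1
    have hs0 : 0 < s := lt_of_lt_of_le (by positivity) hs1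
    have hcd : ContDiff ℝ 1 cut := cut_contDiff.of_le (by norm_num)
    have hφ := contDiff_radial hcd 0 s
    have hφc := hasCompactSupport_radial (g := cut) (fun t => cut_eq_zero) 0 hs0
    have h1 := H.c _ hφ hφc
    have h2 : ‖∫ z in Fz U, dbar (fun w : ℂ => ((cut (‖w - 0‖ ^ 2 / s ^ 2) : ℝ) : ℂ)) z‖ ≤
        C / s * volume.real (Fz U) := by
      refine norm_setIntegral_le_of_norm_le_const hF fun z _ => ?_
      rw [(dbar_radial 0 s (hcd.differentiable one_ne_zero _).hasDerivAt).2.1]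
      by_cases h3 : 1 ≤ ‖z - 0‖ ^ 2 / s ^ 2
      · rw [deriv_cut_eq_zero (Or.inr h3)]
        simp only [Complex.ofReal_zero, zero_mul, zero_div, norm_zero]
        positivity
      · rw [not_le, div_lt_one (by positivity)] at h3
        have h4 : ‖z - 0‖ ≤ s := (lt_of_pow_lt_pow_left₀ 2 hs0.le h3).le
        rw [norm_div, norm_mul, norm_pow, Complex.norm_real, Complex.norm_real,
          Real.norm_of_nonneg hs0.le, Real.norm_eq_abs, div_le_div_iff₀ (by positivity) hs0]
        have := mul_le_mul (hb (‖z - 0‖ ^ 2 / s ^ 2)) h4 (norm_nonneg _) hC.le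
        nlinarith
    have h3 : ∫ z, ((cut (‖z - 0‖ ^ 2 / s ^ 2) : ℝ) : ℂ) * conj (h z) ∂μ =
        ((∫ z, cut (‖z - 0‖ ^ 2 / s ^ 2) ∂μ : ℝ) : ℂ) * conj (h a) := by
      rw [← integral_complex_ofReal, ← integral_mul_const]
      refine integral_congr_ae ?_
      filter_upwards [show ∀ᵐ z ∂μ, z ∈ frontier (Om U) from H.supp] with z hz
      rw [hcon z hz a ha]
    have h4 : μ.real (ball a 1) ≤ ∫ z, cut (‖z - 0‖ ^ 2 / s ^ 2) ∂μ := by
      rw [← integral_indicator_one measurableSet_ball]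
      refine integral_mono ((integrable_const (1 : ℝ)).indicator measurableSet_ball)
        ((integrable_const (1 : ℝ)).mono' (Continuous.aestronglyMeasurable
          (hcd.continuous.comp (by fun_prop))) (Eventually.of_forall fun z => ?_)) fun z => ?_
      · rw [Real.norm_of_nonneg (cut_mem _).1]
        exact (cut_mem _).2
      · by_cases hz : z ∈ ball a 1
        · rw [indicator_of_mem hz, Pi.one_apply, cut_eq_one]
          rw [div_le_iff₀ (by positivity), sub_zero]
          have h5 : ‖z‖ ≤ s / 2 := by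
            linarith [norm_le_insert' z a, mem_ball_iff_norm.1 hz]
          nlinarith [norm_nonneg z]
        · rw [indicator_of_notMem hz]
          exact (cut_mem _).1
    rw [h1, h3, norm_mul, norm_mul, Complex.norm_conj, H.one a ha, Complex.norm_real,
      Real.norm_of_nonneg (hp.le.trans h4)] at h2
    rw [mul_div_right_comm]
    norm_num at h2 h4 ⊢
    linarith
  have h0 : Tendsto (fun s : ℝ => C * volume.real (Fz U) / s) atTop (𝓝 0) :=
    tendsto_const_nhds.div_atTop tendsto_id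
  have := ge_of_tendsto h0 ((eventually_ge_atTop _).mono key)
  linarith

theorem Circ_alg {K : Set ℂ} {n : ℂ → ℂ} (h1 : ∀ z ∈ K, n z * conj (n z) = 1)
    (h2 : ∀ z ∈ K, ∀ w ∈ K, n z * n w * conj (w - z) + (w - z) = 0) {a b : ℂ} (ha : a ∈ K)
    (hb : b ∈ K) (hne : n a ≠ n b) : ∃ (z₀ : ℂ) (R : ℝ), ∀ z ∈ K, z = z₀ + R * n z := by
  have hd : n a - n b ≠ 0 := sub_ne_zero.2 hne
  obtain ⟨R, hR⟩ : ∃ R : ℂ, R * (n a - n b) = a - b := ⟨(a - b) / (n a - n b), by field_simp⟩
  have hR' : conj R * (conj (n a) - conj (n b)) = conj (a - b) := by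
    rw [← hR, map_mul, map_sub]
  have hre : conj R = R := by
    refine mul_right_cancel₀ hd ?_
    linear_combination (-1 : ℂ) * h2 b hb a ha - n a * n b * hR' - hR
      + conj R * n b * h1 a ha - conj R * n a * h1 b hb
  obtain ⟨r, rfl⟩ := Complex.conj_eq_iff_real.1 hre
  refine ⟨a - r * n a, r, fun z hz => ?_⟩
  have h3 := h2 a ha z hz
  have h4 := h2 b hb z hz
  rw [hre] at hR'
  simp only [map_sub] at h3 h4 hR'
  have h5 : (n a - n b) * (n z * (conj z - conj a - r * (conj (n z) - conj (n a)))) = 0 := by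
    linear_combination h3 - h4 - hR - n b * n z * hR' - r * (n a - n b) * h1 z hz
      + r * n z * h1 a ha - r * n z * h1 b hb
  have h6 := (mul_eq_zero.1 h5).resolve_left hd
  linear_combination h3 - n a * h6 - r * n a * h1 z hz + r * n z * h1 a ha

theorem circ_of (h₁ : S_Mean) (h₂ : S_Dens) (h₃ : S_LI) (h₄ : S_Vir) (h₅ : S_IsoEq) : S_Circ := by
  intro U h μ H hμ
  have : IsFiniteMeasure μ := ⟨hμ⟩
  obtain ⟨C, -, hM⟩ := h₁
  have hs := (hM U h μ H).supp
  have hF := Circ_fin h₂ h₃ H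
  obtain ⟨a, ha⟩ := H.ne
  have hm : 0 < μ.real univ := (hs a ha 1 one_pos).trans_le (measureReal_mono (subset_univ _))
  obtain ⟨h1, h2⟩ := Circ_rel h₅ H hF hs (Circ_vir h₄ H hm hF)
  obtain ⟨z, hz, w, hw, hne⟩ := Circ_ne H hF hs
  refine ⟨hF, h1, Circ_alg (n := fun z => conj (h z)) (fun z hz => ?_) h2 hz hw
    fun e => hne ((starRingEnd ℂ).injective e)⟩
  rw [Complex.mul_conj, Complex.normSq_eq_norm_sq, Complex.norm_conj, H.one z hz]
  simp

end MW.PL
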