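import Pool.Agent.P.MP_064970_gt.PL.Calc

/-! Row PL-Grad: `S_RepH2` with `B = ∅`: `π |h|² ≤ near + 16 Ar / r² + 4 tail`. On the bad set use
Cauchy–Schwarz and `S_Cacc`; the mass bound is `noat` with `ρ = 2 r`, `s = 4 r`. -/

open Complex InnerProductSpace Set Filter Topology Metric MeasureTheory
open scoped Real ComplexConjugate ENNReal

namespace MW.PL

open MW.AN

namespace Grad

theorem k2_mid {z w : ℂ} {r : ℝ} (hr : 0 < r) (hw : w ∉ ball z (r / 4)) :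
    k2 z w ≤ ENNReal.ofReal (16 / r ^ 2) := by
  unfold k2
  refine ENNReal.ofReal_le_ofReal ?_
  rw [mem_ball, dist_eq_norm, not_lt] at hw
  have h1 : ‖w - z‖⁻¹ ≤ (r / 4)⁻¹ := inv_anti₀ (by positivity) hw
  calc ‖w - z‖⁻¹ ^ 2 ≤ (r / 4)⁻¹ ^ 2 := pow_le_pow_left₀ (by positivity) h1 2
    _ = 16 / r ^ 2 := by field_simp; norm_num

theorem k2_far {z w : ℂ} {r : ℝ} (hr : 0 < r) (hz : z ∈ ball (0 : ℂ) r)
    (hw : w ∉ ball (0 : ℂ) (2 * r)) : k2 z w ≤ ENNReal.ofReal 4 * k2 0 w := by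
  unfold k2
  rw [← ENNReal.ofReal_mul (by norm_num)]
  refine ENNReal.ofReal_le_ofReal ?_
  rw [mem_ball_zero_iff, not_lt] at hw
  rw [mem_ball_zero_iff] at hz
  have h0 : 0 < ‖w‖ := by linarith
  have h1 : ‖w‖ / 2 ≤ ‖w - z‖ := by
    have := norm_sub_norm_le w z
    linarith
  have h2 : ‖w - z‖⁻¹ ≤ (‖w‖ / 2)⁻¹ := inv_anti₀ (by positivity) h1
  calc ‖w - z‖⁻¹ ^ 2 ≤ (‖w‖ / 2)⁻¹ ^ 2 := pow_le_pow_left₀ (by positivity) h2 2
    _ = 4 * ‖w - 0‖⁻¹ ^ 2 := by rw [sub_zero]; field_simp; norm_num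

/-- The whole singular integral at a good point. -/
theorem k2_total {U : ℂ → ℝ} (hF : MeasurableSet (Fz U)) {z : ℂ} {r a b c : ℝ} (hr : 0 < r)
    (ha : 0 ≤ a) (hb : 0 ≤ b) (hc : 0 ≤ c) (hz : z ∈ ball (0 : ℂ) r)
    (h₁ : ∫⁻ w in Fz U ∩ ball z (r / 4), k2 z w ≤ ENNReal.ofReal a)
    (h₂ : Ar U 0 (2 * r) ≤ b * r ^ 2)
    (h₃ : ∫⁻ w in Fz U \ ball 0 (2 * r), k2 0 w ≤ ENNReal.ofReal c) :
    ∫⁻ w in Fz U, k2 z w ≤ ENNReal.ofReal (a + 16 * b + 4 * c) := by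
  have hsub : Fz U ⊆ (Fz U ∩ ball z (r / 4) ∪ (Fz U ∩ ball 0 (2 * r)) \ ball z (r / 4))
      ∪ Fz U \ ball 0 (2 * r) := by
    intro w hw
    by_cases h1 : w ∈ ball (0 : ℂ) (2 * r)
    · by_cases h2 : w ∈ ball z (r / 4)
      · exact Or.inl (Or.inl ⟨hw, h2⟩)
      · exact Or.inl (Or.inr ⟨⟨hw, h1⟩, h2⟩)
    · exact Or.inr ⟨hw, h1⟩
  have hvol : volume (Fz U ∩ ball 0 (2 * r)) ≤ ENNReal.ofReal (b * r ^ 2) := by
    have hfin : volume (Fz U ∩ ball 0 (2 * r)) ≠ ∞ :=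
      ((measure_mono inter_subset_right).trans_lt measure_ball_lt_top).ne
    rw [← ENNReal.ofReal_toReal hfin]
    exact ENNReal.ofReal_le_ofReal h₂
  have hmid : ∫⁻ w in (Fz U ∩ ball 0 (2 * r)) \ ball z (r / 4), k2 z w
      ≤ ENNReal.ofReal (16 * b) := by
    calc _ ≤ ∫⁻ _ in (Fz U ∩ ball 0 (2 * r)) \ ball z (r / 4), ENNReal.ofReal (16 / r ^ 2) :=
          setLIntegral_mono' ((hF.inter measurableSet_ball).diff measurableSet_ball)
            fun w hw => k2_mid hr hw.2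
      _ = ENNReal.ofReal (16 / r ^ 2) * volume ((Fz U ∩ ball 0 (2 * r)) \ ball z (r / 4)) :=
          setLIntegral_const _ _
      _ ≤ ENNReal.ofReal (16 / r ^ 2) * ENNReal.ofReal (b * r ^ 2) :=
          mul_le_mul_right ((measure_mono sdiff_subset).trans hvol) _
      _ = ENNReal.ofReal (16 * b) := by
          rw [← ENNReal.ofReal_mul (by positivity)]
          congr 1
          field_simp
  have hfar : ∫⁻ w in Fz U \ ball 0 (2 * r), k2 z w ≤ ENNReal.ofReal (4 * c) := by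
    calc _ ≤ ∫⁻ w in Fz U \ ball 0 (2 * r), ENNReal.ofReal 4 * k2 0 w :=
          setLIntegral_mono' (hF.diff measurableSet_ball) fun w hw => k2_far hr hz hw.2
      _ = ENNReal.ofReal 4 * ∫⁻ w in Fz U \ ball 0 (2 * r), k2 0 w :=
          lintegral_const_mul' _ _ ENNReal.ofReal_ne_top
      _ ≤ ENNReal.ofReal 4 * ENNReal.ofReal c := mul_le_mul_right h₃ _
      _ = ENNReal.ofReal (4 * c) := by rw [← ENNReal.ofReal_mul (by norm_num)]
  calc _ ≤ ∫⁻ w in (Fz U ∩ ball z (r / 4) ∪ (Fz U ∩ ball 0 (2 * r)) \ ball z (r / 4))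
          ∪ Fz U \ ball 0 (2 * r), k2 z w := lintegral_mono_set hsub
    _ ≤ (∫⁻ w in Fz U ∩ ball z (r / 4) ∪ (Fz U ∩ ball 0 (2 * r)) \ ball z (r / 4), k2 z w)
          + ∫⁻ w in Fz U \ ball 0 (2 * r), k2 z w := lintegral_union_le _ _ _
    _ ≤ ((∫⁻ w in Fz U ∩ ball z (r / 4), k2 z w)
          + ∫⁻ w in (Fz U ∩ ball 0 (2 * r)) \ ball z (r / 4), k2 z w)
          + ∫⁻ w in Fz U \ ball 0 (2 * r), k2 z w :=
        add_le_add (lintegral_union_le _ _ _) le_rfl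
    _ ≤ (ENNReal.ofReal a + ENNReal.ofReal (16 * b)) + ENNReal.ofReal (4 * c) :=
        add_le_add (add_le_add h₁ hmid) hfar
    _ = ENNReal.ofReal (a + 16 * b + 4 * c) := by
        rw [ENNReal.ofReal_add (by positivity) (by positivity),
          ENNReal.ofReal_add ha (by positivity)]

end Grad

open Grad

theorem grad_of (h₁ : S_Mean) (h₂ : S_Cacc) (h₃ : S_RepH2) (h₄ : S_Key) : S_Grad := by
  obtain ⟨C₁, hC₁, h₁⟩ := h₁
  obtain ⟨C₂, hC₂, h₂⟩ := h₂
  intro ε K hε hK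
  set a : ℝ := ε / (3 * (C₂ * K ^ 2)) with ha
  set b : ℝ := ε / 12 with hb
  have ha0 : 0 < a := by positivity
  have hb0 : 0 < b := by positivity
  obtain ⟨η₀, hη₀, hkey⟩ := h₄ (4 * a * (ε / 3)) (b ^ 2) (2 * C₁ * K) (by positivity)
    (by positivity) (by positivity)
  refine ⟨min η₀ (b ^ 2 / 20), lt_min hη₀ (by positivity), ?_⟩
  intro U h μ hI r σ hr hσ hσ1 hB hAr htail
  set η : ℝ := min η₀ (b ^ 2 / 20) with hη
  have hη1 : η ≤ η₀ := min_le_left _ _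
  have hη2 : η ≤ b ^ 2 / 20 := min_le_right _ _
  have hη0 : 0 < η := lt_min hη₀ (by positivity)
  have hD : Data U h := hI.toData
  have hF : MeasurableSet (Fz U) := hD.isClosed_Fz.measurableSet
  -- the mass bound
  have hmass : μ.real (ball 0 (2 * r)) ≤ 2 * C₁ * K * σ * r := by
    have h1 := (h₁ U h μ hI).noat 0 (2 * r) (4 * r) (K * σ * r) (by positivity) (by linarith)
      (by rw [show 2 * (4 * r) = 8 * r by ring]; exact hB)
    have e1 : 4 * r / (2 * r) = 2 := by field_simp; norm_num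
    rw [e1] at h1
    have h2 : (1 / 2 : ℝ) ≤ Real.log 2 := by linarith [Real.log_two_gt_d9]
    have h3 : 0 ≤ μ.real (ball 0 (2 * r)) := measureReal_nonneg
    nlinarith
  obtain ⟨Bad, hBm, hBv, hgood⟩ := hkey U h μ hI 0 r σ hr hσ hσ1 hmass
    (hAr.trans (by gcongr))
  -- the bound at good points
  have hpt : ∀ z ∈ ball (0 : ℂ) r, z ∉ Bad → z ∈ Om U → ‖h z‖ ≤ b * σ := by
    intro z hz hzB hzO
    have h1 := h₃ U h μ hI z hzO ∅ MeasurableSet.empty Bornology.isBounded_empty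
    rw [inter_empty, sdiff_empty, setIntegral_empty, sub_zero] at h1
    have h2 := k2_total hF hr (by positivity) (by positivity : 0 ≤ η * σ ^ 2) (by positivity) hz
      (hgood z ⟨hz, hzB⟩) hAr htail
    have h3 := h1.trans h2
    rw [← ofReal_norm, ENNReal.ofReal_le_ofReal_iff (by positivity), norm_mul, norm_pow,
      Complex.norm_real, Real.norm_of_nonneg Real.pi_pos.le] at h3
    have h4 : η * σ ^ 2 ≤ b ^ 2 / 20 * σ ^ 2 := by gcongr
    have h5 : 2 * ‖h z‖ ^ 2 ≤ π * ‖h z‖ ^ 2 :=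
      mul_le_mul_of_nonneg_right Real.two_le_pi (by positivity)
    have h6 : ‖h z‖ ^ 2 ≤ (b * σ) ^ 2 := by
      rw [mul_pow]
      linarith
    exact (pow_le_pow_iff_left₀ (norm_nonneg _) (by positivity) two_ne_zero).1 h6
  -- integrability
  have hfin : volume (ball (0 : ℂ) r) ≠ ∞ := measure_ball_lt_top.ne
  have hm1 : Measurable fun z => ‖h z‖ := hD.meas.norm
  have hI1 : IntegrableOn (fun z => ‖h z‖) (ball 0 r) :=
    Measure.integrableOn_of_bounded (M := 1) hfin hm1.aestronglyMeasurable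
      (Eventually.of_forall fun z => by rw [norm_norm]; exact hD.le z)
  have hI2 : IntegrableOn (fun z => ‖h z‖ ^ 2) (ball 0 r) :=
    Measure.integrableOn_of_bounded (M := 1) hfin (hm1.pow_const 2).aestronglyMeasurable
      (Eventually.of_forall fun z => by
        rw [norm_pow, norm_norm]
        exact pow_le_one₀ (norm_nonneg _) (hD.le z))
  have hI3 : IntegrableOn (fun _ : ℂ => b * σ) (ball 0 r) := integrableOn_const hfin
  have hI4 : IntegrableOn (Bad.indicator fun _ : ℂ => σ / (4 * a)) (ball 0 r) :=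
    (integrableOn_const hfin).indicator hBm
  have hI5 : IntegrableOn (fun z => a / σ * ‖h z‖ ^ 2) (ball 0 r) := hI2.const_mul _
  have hI6 : IntegrableOn (fun z => b * σ + a / σ * ‖h z‖ ^ 2) (ball 0 r) := hI3.add hI5
  have hI7 : IntegrableOn (fun z => b * σ + a / σ * ‖h z‖ ^ 2
      + Bad.indicator (fun _ : ℂ => σ / (4 * a)) z) (ball 0 r) := hI6.add hI4
  have hle : ∀ᵐ z ∂(volume.restrict (ball (0 : ℂ) r)),
      ‖h z‖ ≤ b * σ + a / σ * ‖h z‖ ^ 2 + Bad.indicator (fun _ : ℂ => σ / (4 * a)) z := by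
    filter_upwards [ae_restrict_mem measurableSet_ball, ae_restrict_of_ae hD.ae_zero] with z hz h0
    have hq : 0 ≤ a / σ * ‖h z‖ ^ 2 := by positivity
    have hbσ : 0 ≤ b * σ := by positivity
    by_cases hzB : z ∈ Bad
    · rw [indicator_of_mem hzB]
      have e1 : a / σ * ‖h z‖ ^ 2 + σ / (4 * a) - ‖h z‖ = a / σ * (‖h z‖ - σ / (2 * a)) ^ 2 := by
        field_simp
        ring
      have e2 : 0 ≤ a / σ * (‖h z‖ - σ / (2 * a)) ^ 2 := by positivity
      linarith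
    · rw [indicator_of_notMem hzB]
      by_cases hzO : z ∈ Om U
      · linarith [hpt z hz hzB hzO]
      · rw [h0 hzO, norm_zero] at *
        linarith
  have hcacc := h₂ U h μ hI 0 r (K * σ * r) hr
    fun z hz => hB z (closedBall_subset_closedBall (by linarith) hz)
  have hA : ∫ _ in ball (0 : ℂ) r, b * σ ≤ ε / 3 * σ * r ^ 2 := by
    rw [setIntegral_const, smul_eq_mul, Measure.real, Complex.volume_ball, ENNReal.toReal_mul,
      ENNReal.toReal_pow, ENNReal.toReal_ofReal hr.le, ENNReal.coe_toReal, NNReal.coe_real_pi]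
    have h1 : r ^ 2 * π ≤ r ^ 2 * 4 := mul_le_mul_of_nonneg_left Real.pi_le_four (by positivity)
    calc r ^ 2 * π * (b * σ) ≤ r ^ 2 * 4 * (b * σ) :=
          mul_le_mul_of_nonneg_right h1 (by positivity)
      _ = ε / 3 * σ * r ^ 2 := by rw [hb]; ring
  have hBq : ∫ z in ball (0 : ℂ) r, a / σ * ‖h z‖ ^ 2 ≤ ε / 3 * σ * r ^ 2 := by
    rw [integral_const_mul]
    calc a / σ * ∫ z in ball (0 : ℂ) r, ‖h z‖ ^ 2 ≤ a / σ * (C₂ * (K * σ * r) ^ 2) :=
          mul_le_mul_of_nonneg_left hcacc (by positivity)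
      _ = ε / 3 * σ * r ^ 2 := by rw [ha]; field_simp
  have hC : ∫ z in ball (0 : ℂ) r, Bad.indicator (fun _ : ℂ => σ / (4 * a)) z
      ≤ ε / 3 * σ * r ^ 2 := by
    rw [integral_indicator hBm, setIntegral_const, smul_eq_mul]
    have h1 : (volume.restrict (ball (0 : ℂ) r)).real Bad ≤ 4 * a * (ε / 3) * r ^ 2 := by
      refine ENNReal.toReal_le_of_le_ofReal (by positivity) ?_
      exact (Measure.restrict_apply_le _ _).trans hBv
    calc _ ≤ 4 * a * (ε / 3) * r ^ 2 * (σ / (4 * a)) :=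
          mul_le_mul_of_nonneg_right h1 (by positivity)
      _ = ε / 3 * σ * r ^ 2 := by field_simp
  calc ∫ z in ball (0 : ℂ) r, ‖h z‖
      ≤ ∫ z in ball (0 : ℂ) r,
          (b * σ + a / σ * ‖h z‖ ^ 2 + Bad.indicator (fun _ : ℂ => σ / (4 * a)) z) :=
        integral_mono_ae hI1 hI7 hle
    _ = (∫ _ in ball (0 : ℂ) r, b * σ) + (∫ z in ball (0 : ℂ) r, a / σ * ‖h z‖ ^ 2)
          + ∫ z in ball (0 : ℂ) r, Bad.indicator (fun _ : ℂ => σ / (4 * a)) z := by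
        rw [integral_add hI6 hI4, integral_add hI3 hI5]
    _ ≤ ε * σ * r ^ 2 := by linarith

end MW.PL
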