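import Pool.Agent.P.MP_064970_gt.PL.Calc

/-! Row PL-IdsP: `green` with `H = 1, h, h²`, and with `φ U`, `φ U²` in place of `φ`;
`∫_F = ∫ - ∫_Om`; (a) is `green` for `h²` together with the conjugate of (c) for `conj φ`. -/

open Complex InnerProductSpace Set Filter Topology Metric MeasureTheory
open scoped Real ComplexConjugate ENNReal

namespace MW.PL

open MW.AN

/-- Test functions allowed in Green's formula. -/
def IdsP_Adm (U : ℂ → ℝ) (φ : ℂ → ℂ) : Prop :=
  Continuous φ ∧ HasCompactSupport φ ∧ ContDiffOn ℝ 1 φ (Om U) ∧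
    ∃ B : ℝ, ∀ z ∈ Om U, ‖fderiv ℝ φ z‖ ≤ B

variable {U : ℂ → ℝ} {h : ℂ → ℂ} {μ : Measure ℂ} {φ : ℂ → ℂ}

theorem IdsP_adm (U : ℂ → ℝ) (hφ : ContDiff ℝ 1 φ) (hc : HasCompactSupport φ) : IdsP_Adm U φ := by
  obtain ⟨B, hB⟩ := (hφ.continuous_fderiv one_ne_zero).bounded_above_of_compact_support
    (hc.fderiv ℝ)
  exact ⟨hφ.continuous, hc, hφ.contDiffOn, B, fun z _ => hB z⟩

theorem IdsP_cont (hD : Data U h) : Continuous fun z => (U z : ℂ) :=
  continuous_ofReal.comp hD.lip.continuous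

theorem IdsP_cd (hD : Data U h) : ContDiffOn ℝ 1 (fun z => (U z : ℂ)) (Om U) :=
  ofRealCLM.contDiff.comp_contDiffOn (hD.U_contDiffOn.of_le one_le_two)

theorem IdsP_da (hD : Data U h) (hφ : ContDiffOn ℝ 1 φ (Om U)) {z : ℂ} (hz : z ∈ Om U) :
    DifferentiableAt ℝ φ z :=
  (hφ.differentiableOn one_ne_zero).differentiableAt (hD.isOpen_Om.mem_nhds hz)

theorem IdsP_Adm.mul (hD : Data U h) (hφ : IdsP_Adm U φ) :
    IdsP_Adm U fun z => φ z * (U z : ℂ) := by
  obtain ⟨h1, h2, h3, B, hB⟩ := hφ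
  refine ⟨h1.mul (IdsP_cont hD), h2.mul_right, h3.mul (IdsP_cd hD), ?_⟩
  obtain ⟨M, hM⟩ := h1.bounded_above_of_compact_support h2
  obtain ⟨K, hK⟩ := h2.isCompact.exists_bound_of_continuousOn (IdsP_cont hD).continuousOn
  have hL : LipschitzWith 1 fun z => (U z : ℂ) := by
    have h5 := isometry_ofReal.lipschitz.comp hD.lip
    rwa [mul_one] at h5
  refine ⟨M + |K| * B, fun z hz => ?_⟩
  rw [fderiv_fun_mul (IdsP_da hD h3 hz) (IdsP_da hD (IdsP_cd hD) hz)]
  refine (norm_add_le _ _).trans (add_le_add ?_ ?_)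
  · rw [norm_smul]
    have h4 := norm_fderiv_le_of_lipschitz ℝ hL (x₀ := z)
    calc ‖φ z‖ * ‖fderiv ℝ (fun z => (U z : ℂ)) z‖ ≤ M * 1 :=
          mul_le_mul (hM z) (by simpa using h4) (norm_nonneg _) ((norm_nonneg _).trans (hM z))
      _ = M := mul_one M
  · rw [norm_smul]
    by_cases hs : z ∈ tsupport φ
    · exact mul_le_mul ((hK z hs).trans (le_abs_self K)) (hB z hz) (norm_nonneg _) (abs_nonneg K)
    · rw [fderiv_of_notMem_tsupport ℝ hs, norm_zero, mul_zero]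
      exact mul_nonneg (abs_nonneg K) ((norm_nonneg _).trans (hB z hz))

theorem IdsP_off (hD : Data U h) {z : ℂ} (hz : z ∉ Om U) : U z = 0 :=
  le_antisymm (not_lt.1 hz) (hD.nonneg z)

theorem IdsP_ae (hD : Data U h) (hM : Mu U h μ) : ∀ᵐ z ∂μ, h z * conj (h z) = 1 ∧ U z = 0 := by
  have h1 : ∀ᵐ z ∂μ, z ∈ frontier (Om U) := hM.supp
  filter_upwards [h1] with z hz
  refine ⟨by rw [mul_conj', hD.one z hz]; simp, IdsP_off hD fun h2 => ?_⟩
  rw [hD.isOpen_Om.frontier_eq] at hz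
  exact hz.2 h2

theorem IdsP_int {g k : ℂ → ℂ} (hg : Continuous g) (hc : HasCompactSupport g) (hk : Measurable k)
    (hb : ∀ z, ‖k z‖ ≤ 1) : Integrable fun z => g z * k z :=
  (hg.integrable_of_hasCompactSupport hc).mul_bdd hk.aestronglyMeasurable (ae_of_all _ hb)

theorem IdsP_green (hM : Mu U h μ) {H : ℂ → ℂ} (h1 : ContinuousOn H (closure (Om U)))
    (h2 : DifferentiableOn ℂ H (Om U)) (hφ : IdsP_Adm U φ) :
    ∫ z in Om U, H z * dbar φ z = -(1 / 2) * ∫ z, φ z * H z * conj (h z) ∂μ :=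
  hM.green H φ h1 h2 hφ.1 hφ.2.1 hφ.2.2.1 hφ.2.2.2

theorem IdsP_zero (hD : Data U h) (hM : Mu U h μ) {H : ℂ → ℂ}
    (h1 : ContinuousOn H (closure (Om U))) (h2 : DifferentiableOn ℂ H (Om U))
    (hφ : IdsP_Adm U φ) {G : ℂ → ℂ}
    (hG : ∀ z ∈ Om U, G z = H z * (dbar φ z * U z + φ z * (conj (h z) / 2)))
    (h0 : ∀ z, U z = 0 → h z = 0 → G z = 0) : ∫ z, G z = 0 := by
  have e1 := IdsP_green hM h1 h2 (hφ.mul hD)
  have e2 : ∫ z, φ z * (U z : ℂ) * H z * conj (h z) ∂μ = 0 := by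
    refine integral_eq_zero_of_ae ?_
    filter_upwards [IdsP_ae hD hM] with z hz
    simp [hz.2]
  rw [e2, mul_zero] at e1
  rw [← e1, ← setIntegral_eq_integral_of_ae_compl_eq_zero (s := Om U)]
  · refine setIntegral_congr_fun hD.isOpen_Om.measurableSet fun z hz => ?_
    rw [hG z hz, dbar_mul (IdsP_da hD hφ.2.2.1 hz) (IdsP_da hD (IdsP_cd hD) hz), (hD.dbar_U hz).1]
  · filter_upwards [hD.ae_zero] with z hz hz'
    exact h0 z (IdsP_off hD hz') (hz hz')

theorem IdsP_c (hD : Data U h) (hM : Mu U h μ) (hφ : ContDiff ℝ 1 φ) (hc : HasCompactSupport φ) :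
    ∫ z in Fz U, dbar φ z = (1 / 2) * ∫ z, φ z * conj (h z) ∂μ := by
  have e1 := IdsP_green hM (H := fun _ => 1) continuousOn_const (differentiableOn_const 1)
    (IdsP_adm U hφ hc)
  have e2 := integral_add_compl hD.isOpen_Om.measurableSet
    ((continuous_dbar hφ).1.integrable_of_hasCompactSupport (μ := volume)
      (hasCompactSupport_dbar hc).1)
  rw [(integral_dbar_eq_zero hφ hc).1] at e2
  simp only [one_mul, mul_one] at e1
  rw [hD.Fz_eq]
  linear_combination e2 - e1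

theorem IdsP_whole (hD : Data U h) {G : ℂ → ℂ} (h0 : ∀ z, h z = 0 → G z = 0) :
    ∫ z in Om U, G z = ∫ z, G z := by
  refine setIntegral_eq_integral_of_ae_compl_eq_zero ?_
  filter_upwards [hD.ae_zero] with z hz hz'
  exact h0 z (hz hz')

theorem IdsP_m (hD : Data U h) (hM : Mu U h μ) (hφ : ContDiff ℝ 1 φ) (hc : HasCompactSupport φ) :
    ∫ z, h z * dbar φ z = -(1 / 2) * ∫ z, φ z ∂μ := by
  rw [← IdsP_whole hD fun z hz => by rw [hz, zero_mul],
    IdsP_green hM hD.cont hD.h_diff (IdsP_adm U hφ hc)]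
  congr 1
  refine integral_congr_ae ?_
  filter_upwards [IdsP_ae hD hM] with z hz
  rw [mul_assoc, hz.1, mul_one]

theorem IdsP_a (hD : Data U h) (hM : Mu U h μ) (hφ : ContDiff ℝ 1 φ) (hc : HasCompactSupport φ) :
    (∫ z in Fz U, del φ z) + ∫ z, h z ^ 2 * dbar φ z = 0 := by
  have e1 := IdsP_green hM (H := fun z => h z ^ 2) (hD.cont.pow 2) (hD.h_diff.pow 2)
    (IdsP_adm U hφ hc)
  rw [IdsP_whole hD fun z hz => by simp [hz]] at e1
  have e2 : ∫ z, φ z * h z ^ 2 * conj (h z) ∂μ = ∫ z, φ z * h z ∂μ := by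
    refine integral_congr_ae ?_
    filter_upwards [IdsP_ae hD hM] with z hz
    linear_combination φ z * h z * hz.1
  have e3 := IdsP_c hD hM (φ := fun z => conj (φ z)) (conjCLE.contDiff.comp hφ)
    (hc.comp_left (g := conj) (map_zero _))
  simp only [fun z => (dbar_conj φ z).1, ← map_mul, integral_conj] at e3
  have e4 := congrArg conj e3
  simp only [map_mul, conj_conj, map_div₀, map_one, map_ofNat] at e4
  rw [e1, e2, e4]
  ring

theorem IdsP_b (hD : Data U h) (hM : Mu U h μ) (hφ : ContDiff ℝ 1 φ) (hc : HasCompactSupport φ) :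
    ∫ z, φ z * ((‖h z‖ ^ 2 : ℝ) : ℂ) = -2 * ∫ z, (U z : ℂ) * h z * dbar φ z := by
  have i1 : Integrable fun z => φ z * ((‖h z‖ ^ 2 : ℝ) : ℂ) :=
    IdsP_int hφ.continuous hc (measurable_ofReal.comp (hD.meas.norm.pow_const 2)) fun z => by
      rw [norm_real, norm_pow, norm_norm]
      exact pow_le_one₀ (norm_nonneg _) (hD.le z)
  have i2 : Integrable fun z => (U z : ℂ) * h z * dbar φ z := by
    refine (IdsP_int ((IdsP_cont hD).mul (continuous_dbar hφ).1)
      (hasCompactSupport_dbar hc).1.mul_left hD.meas hD.le).congr (ae_of_all _ fun z => ?_)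
    exact mul_right_comm _ _ _
  have e := IdsP_zero hD hM hD.cont hD.h_diff (IdsP_adm U hφ hc)
    (G := fun z => φ z * ((‖h z‖ ^ 2 : ℝ) : ℂ) / 2 + (U z : ℂ) * h z * dbar φ z)
    (fun z _ => by rw [ofReal_pow, ← mul_conj']; ring) fun z _ hz => by simp [hz]
  rw [integral_add (i1.div_const 2) i2, integral_div] at e
  linear_combination 2 * e

theorem IdsP_conj (hD : Data U h) : Measurable (fun z => conj (h z)) ∧ ∀ z, ‖conj (h z)‖ ≤ 1 :=
  ⟨continuous_conj.measurable.comp hD.meas, fun z => by rw [norm_conj]; exact hD.le z⟩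

theorem IdsP_p1 (hD : Data U h) (hM : Mu U h μ) (hφ : ContDiff ℝ 1 φ) (hc : HasCompactSupport φ) :
    ∫ z, (U z : ℂ) * dbar φ z = -(1 / 2) * ∫ z, φ z * conj (h z) := by
  have i1 := IdsP_int hφ.continuous hc (IdsP_conj hD).1 (IdsP_conj hD).2
  have i2 : Integrable fun z => (U z : ℂ) * dbar φ z :=
    ((IdsP_cont hD).mul (continuous_dbar hφ).1).integrable_of_hasCompactSupport
      (hasCompactSupport_dbar hc).1.mul_left
  have e := IdsP_zero hD hM (H := fun _ => 1) continuousOn_const (differentiableOn_const 1)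
    (IdsP_adm U hφ hc) (G := fun z => φ z * conj (h z) / 2 + (U z : ℂ) * dbar φ z)
    (fun z _ => by ring) fun z h1 hz => by simp [hz, h1]
  rw [integral_add (i1.div_const 2) i2, integral_div] at e
  linear_combination e

theorem IdsP_p2 (hD : Data U h) (hM : Mu U h μ) (hφ : ContDiff ℝ 1 φ) (hc : HasCompactSupport φ) :
    ∫ z, (U z : ℂ) ^ 2 * dbar φ z = -∫ z, φ z * U z * conj (h z) := by
  have i1 : Integrable fun z => φ z * U z * conj (h z) :=
    IdsP_int (hφ.continuous.mul (IdsP_cont hD)) hc.mul_right (IdsP_conj hD).1 (IdsP_conj hD).2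
  have i2 : Integrable fun z => (U z : ℂ) ^ 2 * dbar φ z :=
    (((IdsP_cont hD).pow 2).mul (continuous_dbar hφ).1).integrable_of_hasCompactSupport
      (hasCompactSupport_dbar hc).1.mul_left
  have e := IdsP_zero hD hM (H := fun _ => 1) continuousOn_const (differentiableOn_const 1)
    ((IdsP_adm U hφ hc).mul hD)
    (G := fun z => φ z * U z * conj (h z) + (U z : ℂ) ^ 2 * dbar φ z)
    (fun z hz => by
      rw [dbar_mul (IdsP_da hD hφ.contDiffOn hz) (IdsP_da hD (IdsP_cd hD) hz), (hD.dbar_U hz).1]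
      ring) fun z h1 _ => by simp [h1]
  rw [integral_add i1 i2] at e
  linear_combination e

theorem ids_of : S_Ids := fun _ _ _ hD hM =>
  { toData := hD
    fin := hM.fin
    supp := hM.supp
    c := fun _ => IdsP_c hD hM
    m := fun _ => IdsP_m hD hM
    a := fun _ => IdsP_a hD hM
    b := fun _ => IdsP_b hD hM
    p1 := fun _ => IdsP_p1 hD hM
    p2 := fun _ => IdsP_p2 hD hM }

end MW.PL
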