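import Pool.Agent.P.MP_064970_gt.PL.Calc

/-! Row PL-Iso: With `χ w = cut (|w|² / (2R)²)`, `c_T ζ = cut (|ζ|² / T²)`, `n = conj h`. For interior `w`:
`π = ½ ∫ c_T n(z) / (z - w) dμ(z) - T⁻² ∫_F cut'`. Integrate against `χ` over `F`, Fubini, and use (c)
for `w ↦ χ c_T (1 - cut (|w - z|² / τ²)) conj (w - z) / (w - z)`, `τ → 0`:
`∫_F χ = -(1 / 4π) ∫∫ χ(w) c_T n(z) n(w) conj (w - z) / (w - z) + err`,
`|err| ≤ C (A² / T² + μ (ball 0 3R) A / T)`, `A = Ar 0 (3R)`. For the identity take `T = R → ∞`. -/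

open Complex InnerProductSpace Set Filter Topology Metric MeasureTheory
open scoped Real ComplexConjugate ENNReal

namespace MW.PL

open MW.AN

/-- The radial cutoff. -/
noncomputable def Iso_rad (s : ℝ) (a w : ℂ) : ℝ := cut (‖w - a‖ ^ 2 / s ^ 2)

/-- Its radial derivative. -/
noncomputable def Iso_rho (s : ℝ) (a w : ℂ) : ℝ := deriv cut (‖w - a‖ ^ 2 / s ^ 2) / s ^ 2

/-- The Cauchy kernel, cut off at the scales `τ` and `T`. -/
noncomputable def Iso_K (T τ : ℝ) (a w : ℂ) : ℂ :=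
  (((Iso_rad T a w : ℝ) : ℂ) - ((Iso_rad τ a w : ℝ) : ℂ)) * (w - a)⁻¹

/-- The integrand of the double boundary integral. -/
noncomputable def Iso_G (h : ℂ → ℂ) (R T τ : ℝ) (p : ℂ × ℂ) : ℂ :=
  conj (h p.1) * ((Iso_rad (2 * R) 0 p.2 : ℝ) * (Iso_K T τ p.1 p.2 * conj (p.2 - p.1))
    * conj (h p.2))

theorem Iso_norm_le {α E : Type*} [MeasurableSpace α] [NormedAddCommGroup E] [NormedSpace ℝ E]
    (ν : Measure α) {f : α → E} {s : Set α} {B : ℝ} (hν : ν s < ∞) (hB : ∀ w ∈ s, ‖f w‖ ≤ B)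
    (h0 : ∀ w, w ∉ s → f w = 0) : ‖∫ w, f w ∂ν‖ ≤ B * ν.real s := by
  rw [← setIntegral_eq_integral_of_forall_compl_eq_zero h0]
  exact norm_setIntegral_le_of_norm_le_const hν hB

theorem Iso_integrable {α E : Type*} [MeasurableSpace α] [NormedAddCommGroup E]
    (ν : Measure α) {f : α → E} {s : Set α} {B : ℝ} (hf : AEStronglyMeasurable f ν)
    (hν : ν s < ∞) (hB : ∀ w, ‖f w‖ ≤ B) (h0 : ∀ w, w ∉ s → f w = 0) : Integrable f ν :=
  (Measure.integrableOn_of_bounded hν.ne hf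
    (Eventually.of_forall hB)).integrable_of_forall_notMem_eq_zero h0

theorem Iso_one_le {s : ℝ} (hs : 0 < s) {a w : ℂ} (h : w ∉ ball a s) :
    1 ≤ ‖w - a‖ ^ 2 / s ^ 2 := by
  rw [mem_ball_iff_norm, not_lt] at h
  rw [le_div_iff₀ (by positivity), one_mul]
  exact pow_le_pow_left₀ hs.le h 2

theorem Iso_rad_zero {s : ℝ} (hs : 0 < s) {a w : ℂ} (h : w ∉ ball a s) : Iso_rad s a w = 0 :=
  cut_eq_zero (Iso_one_le hs h)

theorem Iso_rho_zero {s : ℝ} (hs : 0 < s) {a w : ℂ} (h : w ∉ ball a s) : Iso_rho s a w = 0 := by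
  rw [Iso_rho, deriv_cut_eq_zero (Or.inr (Iso_one_le hs h)), zero_div]

theorem Iso_rad_one {s : ℝ} (hs : 0 < s) {a w : ℂ} (h : ‖w - a‖ ≤ s / 2) : Iso_rad s a w = 1 := by
  refine cut_eq_one ?_
  rw [div_le_iff₀ (by positivity)]
  have := pow_le_pow_left₀ (norm_nonneg _) h 2
  linarith

theorem Iso_rad_abs (s : ℝ) (a w : ℂ) : ‖((Iso_rad s a w : ℝ) : ℂ)‖ ≤ 1 := by
  rw [Complex.norm_real, Real.norm_eq_abs, Iso_rad, abs_of_nonneg (cut_mem _).1]
  exact (cut_mem _).2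

theorem Iso_rad_cont (s : ℝ) : Continuous fun p : ℂ × ℂ => Iso_rad s p.1 p.2 :=
  cut_contDiff.continuous.comp (by fun_prop)

theorem Iso_rho_cont (s : ℝ) : Continuous fun p : ℂ × ℂ => Iso_rho s p.1 p.2 :=
  ((cut_contDiff.continuous_deriv (by norm_num)).comp (by fun_prop)).div_const _

theorem Iso_rho_le {C : ℝ} (hC : ∀ t, |deriv cut t| ≤ C) (s : ℝ) (a w : ℂ) :
    ‖Iso_rho s a w‖ ≤ C / s ^ 2 := by
  rw [Real.norm_eq_abs, Iso_rho, abs_div, abs_of_nonneg (sq_nonneg s)]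
  exact div_le_div_of_nonneg_right (hC _) (sq_nonneg s)

theorem Iso_rho_mul {C : ℝ} (hC : ∀ t, |deriv cut t| ≤ C) {s : ℝ} (hs : 0 < s) (a w : ℂ) :
    ‖((Iso_rho s a w : ℝ) : ℂ)‖ * ‖w - a‖ ≤ C / s := by
  have h0 : 0 ≤ C := (abs_nonneg _).trans (hC 0)
  by_cases h : w ∈ ball a s
  · rw [Complex.norm_real]
    calc _ ≤ C / s ^ 2 * s :=
          mul_le_mul (Iso_rho_le hC s a w) (mem_ball_iff_norm.1 h).le (norm_nonneg _)
            (by positivity)
      _ = C / s := by field_simp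
  · rw [Iso_rho_zero hs h]; simp; positivity

theorem Iso_dbar_rad (s : ℝ) (a w : ℂ) :
    DifferentiableAt ℝ (fun w => ((Iso_rad s a w : ℝ) : ℂ)) w ∧
      dbar (fun w => ((Iso_rad s a w : ℝ) : ℂ)) w = (Iso_rho s a w : ℝ) * (w - a) := by
  have h := dbar_radial (z := w) a s
    ((cut_contDiff.differentiable (by norm_num) (‖w - a‖ ^ 2 / s ^ 2)).hasDerivAt)
  refine ⟨h.1, h.2.1.trans ?_⟩
  simp only [Iso_rho]
  push_cast
  ring

theorem Iso_rad_contDiff (s : ℝ) (a : ℂ) : ContDiff ℝ 1 fun w => ((Iso_rad s a w : ℝ) : ℂ) :=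
  contDiff_radial (cut_contDiff.of_le (by norm_num)) a s

section kernel
variable {T τ : ℝ}

theorem Iso_K_contDiff (hτ : 0 < τ) (hT : τ ≤ T) (a : ℂ) : ContDiff ℝ 1 (Iso_K T τ a) := by
  have h := (contDiff_cauchy a hτ).sub (contDiff_cauchy a (hτ.trans_le hT))
  convert h using 2 with w
  simp only [Iso_K, Iso_rad]
  ring

theorem Iso_K_zero (hτ : 0 < τ) (hT : τ ≤ T) {a w : ℂ} (h : w ∉ ball a T) :
    Iso_K T τ a w = 0 := by
  rw [Iso_K, Iso_rad_zero (hτ.trans_le hT) h,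
    Iso_rad_zero hτ fun h' => h (ball_subset_ball hT h')]
  simp

theorem Iso_K_supp (hτ : 0 < τ) (hT : τ ≤ T) (a : ℂ) : HasCompactSupport (Iso_K T τ a) :=
  HasCompactSupport.intro (isCompact_closedBall a T) fun _ h =>
    Iso_K_zero hτ hT fun h' => h (ball_subset_closedBall h')

theorem Iso_K_sub (T τ : ℝ) (a w : ℂ) : Iso_K T τ a w = Iso_K T τ 0 (w - a) := by
  simp [Iso_K, Iso_rad]

theorem Iso_K_swap (T τ : ℝ) (a w : ℂ) : Iso_K T τ w a = -Iso_K T τ a w := by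
  simp only [Iso_K, Iso_rad]
  rw [norm_sub_rev a w, ← neg_sub w a, inv_neg, mul_neg]

theorem Iso_K_cont (hτ : 0 < τ) (hT : τ ≤ T) : Continuous fun p : ℂ × ℂ => Iso_K T τ p.1 p.2 := by
  simp only [Iso_K_sub T τ (Prod.fst _)]
  exact (Iso_K_contDiff hτ hT 0).continuous.comp (by fun_prop)

theorem Iso_K_bdd (hτ : 0 < τ) (hT : τ ≤ T) : ∃ B, ∀ a w, ‖Iso_K T τ a w‖ ≤ B := by
  obtain ⟨B, hB⟩ := (Iso_K_supp hτ hT 0).exists_bound_of_continuous
    (Iso_K_contDiff hτ hT 0).continuous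
  exact ⟨B, fun a w => by rw [Iso_K_sub]; exact hB _⟩

theorem Iso_K_conj (T τ : ℝ) (a w : ℂ) : ‖Iso_K T τ a w * conj (w - a)‖ ≤ 1 := by
  rw [Iso_K, mul_assoc, norm_mul, norm_mul, norm_inv, Complex.norm_conj, ← Complex.ofReal_sub,
    Complex.norm_real, Real.norm_eq_abs]
  refine mul_le_one₀ ?_ (by positivity) ?_
  · have h1 := cut_mem (‖w - a‖ ^ 2 / T ^ 2)
    have h2 := cut_mem (‖w - a‖ ^ 2 / τ ^ 2)
    rw [abs_le, Iso_rad, Iso_rad]
    constructor <;> linarith [h1.1, h1.2, h2.1, h2.2]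
  · exact inv_mul_le_one_of_le₀ le_rfl (norm_nonneg _)

theorem Iso_K_dbar (hτ : 0 < τ) (hT : τ ≤ T) (a w : ℂ) :
    dbar (Iso_K T τ a) w = (Iso_rho T a w : ℝ) - (Iso_rho τ a w : ℝ) := by
  by_cases h : w = a
  · subst h
    have h1 : Iso_K T τ w =ᶠ[𝓝 w] fun _ => 0 := by
      filter_upwards [closedBall_mem_nhds w (half_pos hτ)] with v hv
      rw [mem_closedBall_iff_norm] at hv
      rw [Iso_K, Iso_rad_one hτ hv, Iso_rad_one (hτ.trans_le hT) (by linarith)]
      simp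
    rw [dbar_congr h1, (dbar_of_hasDerivAt (hasDerivAt_const w (0 : ℂ))).1]
    simp [Iso_rho, deriv_cut_eq_zero (t := 0) (Or.inl (by norm_num))]
  · have h0 : w - a ≠ 0 := sub_ne_zero.2 h
    have h1 : HasDerivAt (fun w : ℂ => (w - a)⁻¹) (-1 / (w - a) ^ 2) w :=
      ((hasDerivAt_id w).sub_const a).inv h0
    have h2 := Iso_dbar_rad T a w
    have h3 := Iso_dbar_rad τ a w
    have h4 := dbar_mul (z := w) (h2.1.fun_sub h3.1) (h1.differentiableAt.restrictScalars ℝ)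
    rw [dbar_sub h2.1 h3.1, h2.2, h3.2, (dbar_of_hasDerivAt h1).1] at h4
    refine h4.trans ?_
    field_simp
    ring

end kernel

attribute [local irreducible] Iso_rad Iso_rho Iso_K

theorem Iso_ball_lt (U : ℂ → ℝ) (c : ℂ) (r : ℝ) : (volume.restrict (Fz U)) (ball c r) < ∞ :=
  (Measure.restrict_le_self _).trans_lt measure_ball_lt_top

theorem Iso_real (U : ℂ → ℝ) (c : ℂ) (r : ℝ) :
    (volume.restrict (Fz U)).real (ball c r) = Ar U c r := by
  rw [Ar, measureReal_restrict_apply measurableSet_ball, inter_comm]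

theorem Iso_far {R T : ℝ} (hT : T ≤ R) {z w : ℂ} (hz : z ∉ ball (0 : ℂ) (3 * R))
    (hw : w ∈ ball (0 : ℂ) (2 * R)) : w ∉ ball z T := by
  intro h
  rw [mem_ball] at hw h
  refine hz (mem_ball.2 ?_)
  have := dist_triangle_left z 0 w
  linarith

variable {U : ℂ → ℝ} {h : ℂ → ℂ} {μ : Measure ℂ}

/-- The second use of the divergence formula. -/
theorem Iso_inner {C : ℝ} (hC : ∀ t, |deriv cut t| ≤ C) (hI : Ids U h μ) {R T τ : ℝ}
    (hτ : 0 < τ) (hT : τ ≤ T) (hR : T ≤ R) (z : ℂ) :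
    ‖(1 / 2 * ∫ w, (Iso_rad (2 * R) 0 w : ℝ) * (Iso_K T τ z w * conj (w - z)) * conj (h w) ∂μ)
      - ∫ w in Fz U, (Iso_rad (2 * R) 0 w : ℝ) * Iso_K T τ z w‖
      ≤ 2 * C / T * Ar U 0 (3 * R) + C * π * τ := by
  have hT0 : 0 < T := hτ.trans_le hT
  have hR0 : 0 < 2 * R := by linarith
  have hC0 : 0 ≤ C := (abs_nonneg _).trans (hC 0)
  have hcj : ContDiff ℝ 1 fun w : ℂ => conj (w - z) :=
    Complex.conjCLE.contDiff.comp (contDiff_id.sub contDiff_const)
  have hK := Iso_K_contDiff hτ hT z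
  have hχ := Iso_rad_contDiff (2 * R) 0
  have hout : ∀ w, w ∉ ball (0 : ℂ) (3 * R) → w ∉ ball (0 : ℂ) (2 * R) := fun w hw hw' =>
    hw (ball_subset_ball (by linarith) hw')
  set e1 : ℂ → ℂ := fun w => (Iso_rho (2 * R) 0 w : ℝ) * (w - 0) * (Iso_K T τ z w * conj (w - z))
    + (Iso_rad (2 * R) 0 w : ℝ) * ((Iso_rho T z w : ℝ) * conj (w - z)) with he1
  set e2 : ℂ → ℂ := fun w => (Iso_rad (2 * R) 0 w : ℝ) * ((Iso_rho τ z w : ℝ) * conj (w - z))
    with he2
  have hd : ∀ w, dbar (fun w => (Iso_rad (2 * R) 0 w : ℝ) * (Iso_K T τ z w * conj (w - z))) w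
      = e1 w - e2 w + (Iso_rad (2 * R) 0 w : ℝ) * Iso_K T τ z w := by
    intro w
    have d1 := hK.differentiable one_ne_zero w
    have d2 := hcj.differentiable one_ne_zero w
    rw [dbar_mul (Iso_dbar_rad _ 0 w).1 (d1.fun_mul d2), dbar_mul d1 d2, (Iso_dbar_rad _ 0 w).2,
      Iso_K_dbar hτ hT, (dbar_conj (fun w => w - z) w).1,
      (dbar_of_hasDerivAt ((hasDerivAt_id' w).sub_const z)).2]
    simp only [he1, he2, map_one]
    ring
  have hρ : ∀ (s : ℝ) (a : ℂ), Continuous fun w => ((Iso_rho s a w : ℝ) : ℂ) := fun s a =>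
    Complex.continuous_ofReal.comp ((Iso_rho_cont s).comp (Continuous.prodMk_right a))
  have b1 : ∀ w, ‖e1 w‖ ≤ 2 * C / T := by
    intro w
    have h1 := Iso_rho_mul hC hR0 0 w
    have h2 := Iso_rho_mul hC hT0 z w
    have h3 : C / (2 * R) ≤ C / T := div_le_div_of_nonneg_left hC0 hT0 (by linarith)
    have h4 := mul_le_mul h1 (Iso_K_conj T τ z w) (norm_nonneg _) (by positivity)
    have h5 := mul_le_mul (Iso_rad_abs (2 * R) 0 w) h2 (by positivity) zero_le_one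
    have h6 : 2 * C / T = C / T + C / T := by ring
    rw [← norm_mul, ← norm_mul] at h4
    rw [← Complex.norm_conj (w - z), ← norm_mul, ← norm_mul] at h5
    exact (norm_add_le _ _).trans (by linarith)
  have z1 : ∀ w, w ∉ ball (0 : ℂ) (3 * R) → e1 w = 0 := fun w hw => by
    simp [he1, Iso_rho_zero hR0 (hout w hw), Iso_rad_zero hR0 (hout w hw)]
  have b2 : ∀ w, ‖e2 w‖ ≤ C / τ := by
    intro w
    rw [he2, norm_mul, norm_mul, Complex.norm_conj]
    simpa using mul_le_mul (Iso_rad_abs (2 * R) 0 w) (Iso_rho_mul hC hτ z w) (by positivity)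
      zero_le_one
  have z2 : ∀ w, w ∉ ball z τ → e2 w = 0 := fun w hw => by simp [he2, Iso_rho_zero hτ hw]
  have i1 : Integrable e1 (volume.restrict (Fz U)) :=
    Iso_integrable _ ((((hρ _ _).mul (by fun_prop)).mul (hK.continuous.mul hcj.continuous)).add
      (hχ.continuous.mul ((hρ _ _).mul hcj.continuous))).aestronglyMeasurable
      (Iso_ball_lt U _ _) b1 z1
  have i2 : Integrable e2 (volume.restrict (Fz U)) :=
    Iso_integrable _ (hχ.continuous.mul ((hρ _ _).mul hcj.continuous)).aestronglyMeasurable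
      (Iso_ball_lt U _ _) b2 z2
  have i3 : Integrable (fun w => (Iso_rad (2 * R) 0 w : ℝ) * Iso_K T τ z w)
      (volume.restrict (Fz U)) :=
    ((hχ.continuous.mul hK.continuous).integrable_of_hasCompactSupport
      (Iso_K_supp hτ hT z).mul_left).restrict
  have hc := hI.c _ (hχ.mul (hK.mul hcj)) (Iso_K_supp hτ hT z).mul_right.mul_left
  simp only [hd] at hc
  rw [integral_add (f := fun w => e1 w - e2 w) (i1.sub i2) i3, integral_sub i1 i2] at hc
  have n1 := Iso_norm_le _ (Iso_ball_lt U 0 (3 * R)) (fun w _ => b1 w) z1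
  have n2 := Iso_norm_le _ (Iso_ball_lt U z τ) (fun w _ => b2 w) z2
  rw [Iso_real] at n1 n2
  have n3 : C / τ * Ar U z τ ≤ C * π * τ :=
    calc _ ≤ C / τ * (π * τ ^ 2) := mul_le_mul_of_nonneg_left (Ar_le U z τ) (by positivity)
      _ = C * π * τ := by field_simp
  rw [← hc, add_sub_cancel_right]
  exact (norm_sub_le _ _).trans (add_le_add n1 (n2.trans n3))

theorem Iso_G_meas (hm : Measurable h) (R : ℝ) {T τ : ℝ} (hτ : 0 < τ) (hT : τ ≤ T) :
    Measurable (Iso_G h R T τ) := by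
  have h1 : Measurable fun z => conj (h z) := Complex.continuous_conj.measurable.comp hm
  have h2 : Continuous fun p : ℂ × ℂ =>
      (Iso_rad (2 * R) 0 p.2 : ℝ) * (Iso_K T τ p.1 p.2 * conj (p.2 - p.1)) :=
    ((Iso_rad_contDiff (2 * R) 0).continuous.comp continuous_snd).mul
      ((Iso_K_cont hτ hT).mul (Complex.continuous_conj.comp (by fun_prop)))
  exact (h1.comp measurable_fst).mul (h2.measurable.mul (h1.comp measurable_snd))

theorem Iso_G_le (hle : ∀ z, ‖h z‖ ≤ 1) (R T τ : ℝ) (p : ℂ × ℂ) : ‖Iso_G h R T τ p‖ ≤ 1 := by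
  rw [Iso_G, norm_mul, norm_mul, norm_mul, Complex.norm_conj, Complex.norm_conj]
  exact mul_le_one₀ (hle _) (by positivity) (mul_le_one₀
    (mul_le_one₀ (Iso_rad_abs _ _ _) (by positivity) (Iso_K_conj _ _ _ _)) (by positivity) (hle _))

theorem Iso_G_int (hI : Ids U h μ) {R T τ : ℝ} (hτ : 0 < τ) (hT : τ ≤ T) (hR : T ≤ R) :
    Integrable (Iso_G h R T τ) (μ.prod μ) := by
  have := hI.fin
  refine Iso_integrable _ (s := ball 0 (3 * R) ×ˢ ball 0 (2 * R))
    (Iso_G_meas hI.meas R hτ hT).aestronglyMeasurable ?_ (Iso_G_le hI.le R T τ) fun p hp => ?_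
  · rw [Measure.prod_prod]
    exact ENNReal.mul_lt_top measure_ball_lt_top measure_ball_lt_top
  · by_cases h2 : p.2 ∈ ball (0 : ℂ) (2 * R)
    · simp [Iso_G, Iso_K_zero hτ hT (Iso_far hR (fun h1 => hp ⟨h1, h2⟩) h2)]
    · simp [Iso_G, Iso_rad_zero (by linarith : 0 < 2 * R) h2]

theorem Iso_b_meas (U : ℂ → ℝ) (s : ℝ) :
    StronglyMeasurable fun w => ∫ z in Fz U, Iso_rho s w z :=
  (Iso_rho_cont s).stronglyMeasurable.integral_prod_right'

theorem Iso_b_le {C : ℝ} (hC : ∀ t, |deriv cut t| ≤ C) (U : ℂ → ℝ) {s : ℝ} (hs : 0 < s) (w : ℂ) :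
    ‖∫ z in Fz U, Iso_rho s w z‖ ≤ C / s ^ 2 * Ar U w s := by
  rw [← Iso_real]
  exact Iso_norm_le _ (Iso_ball_lt U _ _) (fun z _ => Iso_rho_le hC s w z)
    fun z hz => Iso_rho_zero hs hz

theorem Iso_b_le' {C : ℝ} (hC : ∀ t, |deriv cut t| ≤ C) (U : ℂ → ℝ) {s : ℝ} (hs : 0 < s)
    (w : ℂ) : ‖∫ z in Fz U, Iso_rho s w z‖ ≤ C * π := by
  have hC0 : 0 ≤ C := (abs_nonneg _).trans (hC 0)
  calc _ ≤ C / s ^ 2 * (π * s ^ 2) :=
        (Iso_b_le hC U hs w).trans (mul_le_mul_of_nonneg_left (Ar_le U w s) (by positivity))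
    _ = C * π := by field_simp

/-- The identity with error at fixed scales. -/
theorem Iso_key {C : ℝ} (hC : ∀ t, |deriv cut t| ≤ C) (hI : Ids U h μ) {R T τ : ℝ}
    (hτ : 0 < τ) (hT : τ ≤ T) (hR : T ≤ R) :
    ‖((∫ w in Fz U, Iso_rad (2 * R) 0 w * ∫ z in Fz U, Iso_rho τ w z : ℝ) : ℂ)
      - 1 / 4 * ∫ p, Iso_G h R T τ p ∂(μ.prod μ)‖
      ≤ C * (Ar U 0 (3 * R) ^ 2 / T ^ 2 + μ.real (ball 0 (3 * R)) * Ar U 0 (3 * R) / T)
        + C * π * μ.real (ball 0 (3 * R)) * τ := by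
  have := hI.fin
  have hT0 : 0 < T := hτ.trans_le hT
  have hR0 : 0 < 2 * R := by linarith
  have hC0 : 0 ≤ C := (abs_nonneg _).trans (hC 0)
  have hχ := (Iso_rad_contDiff (2 * R) 0).continuous
  have hχr : Continuous (Iso_rad (2 * R) 0) := (Iso_rad_cont _).comp (Continuous.prodMk_right 0)
  have hχ1 : ∀ w, ‖Iso_rad (2 * R) 0 w‖ ≤ 1 := fun w => by
    simpa using Iso_rad_abs (2 * R) 0 w
  have hn : Measurable fun z => conj (h z) := Complex.continuous_conj.measurable.comp hI.meas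
  obtain ⟨B, hB⟩ := Iso_K_bdd hτ hT
  have hρi : ∀ s : ℝ, 0 < s → ∀ w, Integrable (Iso_rho s w) (volume.restrict (Fz U)) :=
    fun s hs w => Iso_integrable _
      ((Iso_rho_cont s).comp (Continuous.prodMk_right w)).aestronglyMeasurable
      (Iso_ball_lt U w s) (Iso_rho_le hC s w) fun z hz => Iso_rho_zero hs hz
  have hbi : ∀ s : ℝ, 0 < s → Integrable
      (fun w => Iso_rad (2 * R) 0 w * ∫ z in Fz U, Iso_rho s w z) (volume.restrict (Fz U)) :=
    fun s hs => Iso_integrable _ (B := 1 * (C * π))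
      (hχr.aestronglyMeasurable.mul (Iso_b_meas U s).aestronglyMeasurable)
      (Iso_ball_lt U 0 (2 * R))
      (fun w => by
        rw [norm_mul]
        exact mul_le_mul (hχ1 w) (Iso_b_le' hC U hs w) (norm_nonneg _) zero_le_one)
      fun w hw => by simp [Iso_rad_zero hR0 hw]
  -- the first use of the divergence formula
  have s1 : ∀ w, (((∫ z in Fz U, Iso_rho T w z) - ∫ z in Fz U, Iso_rho τ w z : ℝ) : ℂ)
      = -(1 / 2) * ∫ z, conj (h z) * Iso_K T τ z w ∂μ := by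
    intro w
    have hc := hI.c _ (Iso_K_contDiff hτ hT w) (Iso_K_supp hτ hT w)
    simp only [Iso_K_dbar hτ hT, ← Complex.ofReal_sub] at hc
    rw [← integral_sub (hρi T hT0 w) (hρi τ hτ w), ← integral_complex_ofReal, hc, neg_mul,
      ← mul_neg, ← integral_neg]
    congr 2
    funext z
    rw [Iso_K_swap T τ z w]
    ring
  -- Fubini
  have f1 : Integrable (fun p : ℂ × ℂ => conj (h p.1) *
      ((Iso_rad (2 * R) 0 p.2 : ℝ) * Iso_K T τ p.1 p.2)) (μ.prod (volume.restrict (Fz U))) := by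
    have m1 : Continuous fun p : ℂ × ℂ => ((Iso_rad (2 * R) 0 p.2 : ℝ) : ℂ) * Iso_K T τ p.1 p.2 :=
      (hχ.comp continuous_snd).mul (Iso_K_cont hτ hT)
    have m2 : Measurable fun p : ℂ × ℂ => conj (h p.1) *
        ((Iso_rad (2 * R) 0 p.2 : ℝ) * Iso_K T τ p.1 p.2) :=
      (hn.comp measurable_fst).mul m1.measurable
    refine Iso_integrable _ (s := ball 0 (3 * R) ×ˢ ball 0 (2 * R)) (B := 1 * (1 * B))
      m2.aestronglyMeasurable ?_ (fun p => ?_) fun p hp => ?_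
    · rw [Measure.prod_prod]
      exact ENNReal.mul_lt_top measure_ball_lt_top (Iso_ball_lt U _ _)
    · rw [norm_mul, norm_mul, Complex.norm_conj]
      exact mul_le_mul (hI.le _) (mul_le_mul (Iso_rad_abs _ _ _) (hB _ _) (norm_nonneg _)
        zero_le_one) (by positivity) zero_le_one
    · by_cases h2 : p.2 ∈ ball (0 : ℂ) (2 * R)
      · simp [Iso_K_zero hτ hT (Iso_far hR (fun h1 => hp ⟨h1, h2⟩) h2)]
      · simp [Iso_rad_zero hR0 h2]
  have s2 : (((∫ w in Fz U, Iso_rad (2 * R) 0 w * ∫ z in Fz U, Iso_rho T w z)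
      - ∫ w in Fz U, Iso_rad (2 * R) 0 w * ∫ z in Fz U, Iso_rho τ w z : ℝ) : ℂ)
      = -(1 / 2) * ∫ z, conj (h z) *
        (∫ w in Fz U, (Iso_rad (2 * R) 0 w : ℝ) * Iso_K T τ z w) ∂μ := by
    rw [← integral_sub (hbi T hT0) (hbi τ hτ), ← integral_complex_ofReal]
    simp only [← mul_sub, Complex.ofReal_mul, s1, ← integral_const_mul (conj (h _))]
    rw [integral_integral_swap f1, ← integral_const_mul]
    congr 1
    funext w
    rw [mul_left_comm, ← integral_const_mul]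
    congr 2
    funext z
    ring
  have g2 := Iso_G_int hI hτ hT hR
  have s3 : ∫ p, Iso_G h R T τ p ∂(μ.prod μ) = ∫ z, conj (h z) * (∫ w,
      (Iso_rad (2 * R) 0 w : ℝ) * (Iso_K T τ z w * conj (w - z)) * conj (h w) ∂μ) ∂μ := by
    rw [integral_prod _ g2]
    simp only [Iso_G, integral_const_mul]
  have i1 := f1.integral_prod_left
  have i2 := g2.integral_prod_left
  simp only [Iso_G, integral_const_mul] at i1 i2
  have n1 : ‖∫ w in Fz U, Iso_rad (2 * R) 0 w * ∫ z in Fz U, Iso_rho T w z‖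
      ≤ 1 * (C / T ^ 2 * Ar U 0 (3 * R)) * Ar U 0 (3 * R) := by
    refine (Iso_norm_le _ (Iso_ball_lt U 0 (2 * R)) (B := 1 * (C / T ^ 2 * Ar U 0 (3 * R)))
      (fun w hw => ?_) fun w hw => by simp [Iso_rad_zero hR0 hw]).trans ?_
    · rw [norm_mul]
      refine mul_le_mul (hχ1 w) ((Iso_b_le hC U hT0 w).trans (mul_le_mul_of_nonneg_left
        (Ar_mono U fun z hz => ?_) (by positivity))) (norm_nonneg _) zero_le_one
      by_contra hz'
      exact Iso_far hR hz' hw (mem_ball_comm.1 hz)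
    · rw [Iso_real]
      have := Ar_nonneg U 0 (3 * R)
      exact mul_le_mul_of_nonneg_left (Ar_mono U (ball_subset_ball (by linarith))) (by positivity)
  have n2 : ‖∫ z, 1 / 2 * (conj (h z) * (∫ w,
      (Iso_rad (2 * R) 0 w : ℝ) * (Iso_K T τ z w * conj (w - z)) * conj (h w) ∂μ)) - conj (h z) *
        (∫ w in Fz U, (Iso_rad (2 * R) 0 w : ℝ) * Iso_K T τ z w) ∂μ‖
      ≤ 1 * (2 * C / T * Ar U 0 (3 * R) + C * π * τ) * μ.real (ball 0 (3 * R)) := by
    refine Iso_norm_le _ measure_ball_lt_top (fun z _ => ?_) fun z hz => ?_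
    · rw [mul_left_comm, ← mul_sub, norm_mul, Complex.norm_conj]
      exact mul_le_mul (hI.le z) (Iso_inner hC hI hτ hT hR z) (norm_nonneg _) zero_le_one
    · have h0 : ∀ w, ((Iso_rad (2 * R) 0 w : ℝ) : ℂ) * Iso_K T τ z w = 0 := by
        intro w
        by_cases h2 : w ∈ ball (0 : ℂ) (2 * R)
        · simp [Iso_K_zero hτ hT (Iso_far hR hz h2)]
        · simp [Iso_rad_zero hR0 h2]
      simp [← mul_assoc, h0]
  rw [integral_sub (i2.const_mul _) i1, integral_const_mul, ← s3] at n2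
  rw [← Complex.norm_real] at n1
  rw [Complex.ofReal_sub] at s2
  set J1 := ((∫ w in Fz U, Iso_rad (2 * R) 0 w * ∫ z in Fz U, Iso_rho T w z : ℝ) : ℂ)
  set J2 := ((∫ w in Fz U, Iso_rad (2 * R) 0 w * ∫ z in Fz U, Iso_rho τ w z : ℝ) : ℂ)
  set S := ∫ z, conj (h z) * (∫ w in Fz U, (Iso_rad (2 * R) 0 w : ℝ) * Iso_K T τ z w) ∂μ
  set M := ∫ p, Iso_G h R T τ p ∂(μ.prod μ)
  have e : J2 - 1 / 4 * M = J1 - 1 / 2 * (1 / 2 * M - S) := by linear_combination -s2
  rw [e]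
  refine (norm_sub_le _ _).trans ?_
  rw [norm_mul]
  have e2 : ‖(1 / 2 : ℂ)‖ = 1 / 2 := by simp
  have p1 : 0 ≤ C * π * μ.real (ball 0 (3 * R)) * τ := by positivity
  have e3 : C * (Ar U 0 (3 * R) ^ 2 / T ^ 2 + μ.real (ball 0 (3 * R)) * Ar U 0 (3 * R) / T)
      + C * π * μ.real (ball 0 (3 * R)) * τ = 1 * (C / T ^ 2 * Ar U 0 (3 * R)) * Ar U 0 (3 * R)
      + 1 / 2 * (1 * (2 * C / T * Ar U 0 (3 * R) + C * π * τ) * μ.real (ball 0 (3 * R)))
      + 1 / 2 * (C * π * μ.real (ball 0 (3 * R)) * τ) := by ring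
  rw [e2, e3]
  linarith

/-- The concentrating kernel sees the interior of the zero set. -/
theorem Iso_lim (hD : Data U h) {τ : ℕ → ℝ} (hτ : ∀ k, 0 < τ k) (hτ0 : Tendsto τ atTop (𝓝 0))
    {χ : ℕ → ℂ → ℝ} {χ' : ℂ → ℝ} (hm : ∀ k, Continuous (χ k)) {b : ℂ → ℝ}
    (hb : Integrable b (volume.restrict (Fz U))) (hle : ∀ k w, ‖χ k w‖ ≤ b w)
    (hl : ∀ w, Tendsto (fun k => χ k w) atTop (𝓝 (χ' w))) :
    Tendsto (fun k => ∫ w in Fz U, χ k w * ∫ z in Fz U, Iso_rho (τ k) w z) atTop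
      (𝓝 ((∫ w in Fz U, χ' w) * -π)) := by
  obtain ⟨C, hC0, hC⟩ := deriv_cut_bound
  rw [← integral_mul_const]
  refine tendsto_integral_of_dominated_convergence (fun w => b w * (C * π))
    (fun k => (hm k).aestronglyMeasurable.mul (Iso_b_meas U _).aestronglyMeasurable)
    (hb.mul_const _) (fun k => Eventually.of_forall fun w => ?_) ?_
  · rw [norm_mul]
    exact mul_le_mul (hle k w) (Iso_b_le' hC U (hτ k) w) (norm_nonneg _)
      ((norm_nonneg _).trans (hle k w))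
  · refine (ae_restrict_iff' hD.isClosed_Fz.measurableSet).2 ?_
    filter_upwards [hD.ae_interior] with w hw hwF
    obtain ⟨ε, hε, hsub⟩ := Metric.mem_nhds_iff.1 (mem_interior_iff_mem_nhds.1 (hw hwF))
    refine (hl w).mul (tendsto_const_nhds.congr' ?_)
    filter_upwards [hτ0.eventually (gt_mem_nhds hε)] with k hk
    rw [setIntegral_eq_integral_of_forall_compl_eq_zero fun z hz =>
      Iso_rho_zero (hτ k) fun hz' => hz (hsub (ball_subset_ball hk.le hz'))]
    simp only [Iso_rho]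
    rw [integral_div, integral_deriv_cut w (hτ k)]
    have := (hτ k).ne'
    field_simp

theorem iso : S_Iso := by
  obtain ⟨C, hC0, hC⟩ := deriv_cut_bound
  refine ⟨C, hC0, fun U h μ hI R T Q hT hR hQ => ?_⟩
  have := hI.fin
  have hR0 : 0 < 2 * R := by linarith
  have hχr : Continuous (Iso_rad (2 * R) 0) := (Iso_rad_cont _).comp (Continuous.prodMk_right 0)
  have hχi : Integrable (Iso_rad (2 * R) 0) (volume.restrict (Fz U)) :=
    Iso_integrable _ (B := 1) hχr.aestronglyMeasurable (Iso_ball_lt U 0 (2 * R))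
      (fun w => by simpa using Iso_rad_abs (2 * R) 0 w) fun w hw => Iso_rad_zero hR0 hw
  let τ : ℕ → ℝ := fun k => T * (1 / ((k : ℝ) + 1))
  have hτ : ∀ k, 0 < τ k := fun k => by positivity
  have hτT : ∀ k, τ k ≤ T := fun k => mul_le_of_le_one_right hT.le
    ((div_le_one (by positivity)).2 (by linarith [Nat.cast_nonneg (α := ℝ) k]))
  have hτ0 : Tendsto τ atTop (𝓝 0) := by
    simpa only [mul_zero] using (tendsto_one_div_add_atTop_nhds_zero_nat (𝕜 := ℝ)).const_mul T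
  have l1 := Iso_lim hI.toData hτ hτ0 (χ := fun _ => Iso_rad (2 * R) 0) (fun _ => hχr) hχi.norm
    (fun _ _ => le_rfl) fun w => tendsto_const_nhds
  set E := C * (Ar U 0 (3 * R) ^ 2 / T ^ 2 + μ.real (ball 0 (3 * R)) * Ar U 0 (3 * R) / T)
    with hE
  have hb : ∀ k, ‖∫ w in Fz U, Iso_rad (2 * R) 0 w * ∫ z in Fz U, Iso_rho (τ k) w z‖
      ≤ 1 / 4 * (Q * μ.real (ball 0 (2 * R))) + (E + C * π * μ.real (ball 0 (3 * R)) * τ k) := by
    intro k
    have h1 := Iso_key hC hI (hτ k) (hτT k) hR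
    have h2 : ‖∫ p, Iso_G h R T (τ k) p ∂(μ.prod μ)‖ ≤ Q * μ.real (ball 0 (2 * R)) := by
      rw [integral_prod_symm _ (Iso_G_int hI (hτ k) (hτT k) hR)]
      refine Iso_norm_le _ measure_ball_lt_top (fun w hw => ?_) fun w hw => ?_
      · refine (Iso_norm_le _ (s := ball w T) measure_ball_lt_top
          (fun z _ => Iso_G_le hI.le R T (τ k) (z, w)) fun z hz => ?_).trans ?_
        · simp [Iso_G, Iso_K_zero (hτ k) (hτT k) fun h' => hz (mem_ball_comm.1 h')]
        · simpa using hQ w hw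
      · simp [Iso_G, Iso_rad_zero hR0 hw]
    rw [← Complex.norm_real]
    refine (norm_le_insert' _ (1 / 4 * ∫ p, Iso_G h R T (τ k) p ∂(μ.prod μ))).trans
      (add_le_add ?_ h1)
    rw [norm_mul]
    have e2 : ‖(1 / 4 : ℂ)‖ = 1 / 4 := by simp
    rw [e2]
    linarith
  have l2 := le_of_tendsto_of_tendsto' l1.norm
    (((hτ0.const_mul (C * π * μ.real (ball 0 (3 * R)))).const_add E).const_add
      (1 / 4 * (Q * μ.real (ball 0 (2 * R))))) hb
  have h3 : Ar U 0 R ≤ ∫ w in Fz U, Iso_rad (2 * R) 0 w := by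
    refine le_trans ?_ (setIntegral_le_integral (s := ball 0 R) hχi
      (Eventually.of_forall fun w => by rw [Iso_rad]; exact (cut_mem _).1))
    rw [setIntegral_congr_fun measurableSet_ball (g := fun _ => 1) fun w hw =>
      Iso_rad_one hR0 (by have := mem_ball_iff_norm.1 hw; linarith)]
    simp [← Iso_real]
  have h4 := Ar_nonneg U 0 R
  have hE0 : 0 ≤ E := by
    have := Ar_nonneg U 0 (3 * R)
    positivity
  rw [norm_mul, norm_neg, Real.norm_of_nonneg (h4.trans h3), Real.norm_of_nonneg Real.pi_pos.le,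
    mul_zero, add_zero] at l2
  have h5 : Ar U 0 R * π ≤ (Q * μ.real (ball 0 (2 * R)) / (4 * π) + E) * π := by
    have e : (Q * μ.real (ball 0 (2 * R)) / (4 * π) + E) * π
        = 1 / 4 * (Q * μ.real (ball 0 (2 * R))) + E * π := by field_simp
    have h6 := mul_le_mul_of_nonneg_right h3 Real.pi_pos.le
    have h7 : E * 1 ≤ E * π := mul_le_mul_of_nonneg_left (by linarith [Real.pi_gt_three]) hE0
    linarith
  exact le_of_mul_le_mul_right h5 Real.pi_pos

theorem isoEq : S_IsoEq := by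
  obtain ⟨C, hC0, hC⟩ := deriv_cut_bound
  intro U h μ hI hμ hF
  have : IsFiniteMeasure μ := ⟨hμ⟩
  have : IsFiniteMeasure (volume.restrict (Fz U)) := ⟨by simpa using hF⟩
  let τ : ℕ → ℝ := fun k => 1 / ((k : ℝ) + 1)
  let R : ℕ → ℝ := fun k => (k : ℝ) + 1
  have hτ : ∀ k, 0 < τ k := fun k => by positivity
  have hR1 : ∀ k, 1 ≤ R k := fun k => by simp [R]
  have hτ1 : ∀ k, τ k ≤ 1 := fun k => (div_le_one (by positivity)).2 (hR1 k)
  have hτ0 : Tendsto τ atTop (𝓝 0) := tendsto_one_div_add_atTop_nhds_zero_nat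
  have hR : Tendsto R atTop atTop := tendsto_atTop_add_const_right _ _ tendsto_natCast_atTop_atTop
  have hone : ∀ (a w : ℂ), ∀ᶠ k in atTop, Iso_rad (2 * R k) a w = 1 ∧ Iso_rad (R k) a w = 1 := by
    intro a w
    filter_upwards [hR.eventually_ge_atTop (2 * ‖w - a‖)] with k hk
    have := hR1 k
    exact ⟨Iso_rad_one (by linarith) (by linarith), Iso_rad_one (by linarith) (by linarith)⟩
  have l1 := Iso_lim hI.toData hτ hτ0 (χ := fun k => Iso_rad (2 * R k) 0) (χ' := fun _ => 1)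
    (fun k => (Iso_rad_cont _).comp (Continuous.prodMk_right 0)) (integrable_const 1)
    (fun k w => by simpa using Iso_rad_abs (2 * R k) 0 w)
    fun w => tendsto_const_nhds.congr' ((hone 0 w).mono fun k hk => hk.1.symm)
  set G : ℂ × ℂ → ℂ := fun p => conj (h p.1) * conj (h p.2) * (conj (p.2 - p.1) / (p.2 - p.1))
    with hG
  have hl : ∀ p, Tendsto (fun k => Iso_G h (R k) (R k) (τ k) p) atTop (𝓝 (G p)) := by
    intro p
    by_cases hp : p.2 - p.1 = 0
    · simp [Iso_G, hG, hp]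
    · refine tendsto_const_nhds.congr' ?_
      filter_upwards [hone 0 p.2, hone p.1 p.2,
        hτ0.eventually (gt_mem_nhds (norm_pos_iff.2 hp))] with k h1 h2 h3
      have h4 := Iso_rad_zero (hτ k) (a := p.1) (w := p.2) fun h' =>
        absurd (mem_ball_iff_norm.1 h') (not_lt.2 h3.le)
      simp only [Iso_G, Iso_K, hG, h1.1, h2.2, h4]
      push_cast
      ring
  have hm : ∀ k, AEStronglyMeasurable (Iso_G h (R k) (R k) (τ k)) (μ.prod μ) := fun k =>
    (Iso_G_meas hI.meas _ (hτ k) ((hτ1 k).trans (hR1 k))).aestronglyMeasurable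
  have l2 := tendsto_integral_of_dominated_convergence (fun _ => (1 : ℝ)) hm (integrable_const _)
    (fun k => Eventually.of_forall (Iso_G_le hI.le _ _ _)) (Eventually.of_forall hl)
  have hGi : Integrable G (μ.prod μ) :=
    (integrable_const (1 : ℝ)).mono'
      (aestronglyMeasurable_of_tendsto_ae atTop hm (Eventually.of_forall hl))
      (Eventually.of_forall fun p => le_of_tendsto' (hl p).norm fun k => Iso_G_le hI.le _ _ _ p)
  have l3 := ((Complex.continuous_ofReal.tendsto _).comp l1).sub (l2.const_mul (1 / 4))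
  set A := volume.real (Fz U)
  have l4 : Tendsto (fun k => (C * (A ^ 2 + μ.real univ * A) + C * π * μ.real univ) * τ k) atTop
      (𝓝 0) := by simpa using hτ0.const_mul (C * (A ^ 2 + μ.real univ * A) + C * π * μ.real univ)
  have l5 := le_of_tendsto_of_tendsto' l3.norm l4 fun k => by
    refine (Iso_key hC hI (hτ k) ((hτ1 k).trans (hR1 k)) le_rfl).trans ?_
    have a0 := Ar_nonneg U 0 (3 * R k)
    have a1 : Ar U 0 (3 * R k) ≤ A := measureReal_mono inter_subset_left hF.ne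
    have a2 : μ.real (ball 0 (3 * R k)) ≤ μ.real univ := measureReal_mono (subset_univ _)
    have a3 : Ar U 0 (3 * R k) ^ 2 / R k ^ 2 ≤ A ^ 2 * τ k := by
      rw [div_eq_mul_one_div]
      refine mul_le_mul (pow_le_pow_left₀ a0 a1 2) ?_ (by positivity) (by positivity)
      exact one_div_le_one_div_of_le (by positivity) (by nlinarith [hR1 k])
    have a4 : μ.real (ball 0 (3 * R k)) * Ar U 0 (3 * R k) / R k ≤ μ.real univ * A * τ k := by
      rw [div_eq_mul_one_div]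
      exact mul_le_mul_of_nonneg_right (mul_le_mul a2 a1 a0 (by positivity)) (hτ k).le
    have a5 : C * π * μ.real (ball 0 (3 * R k)) * τ k ≤ C * π * μ.real univ * τ k :=
      mul_le_mul_of_nonneg_right (mul_le_mul_of_nonneg_left a2 (by positivity)) (hτ k).le
    have a6 := mul_le_mul_of_nonneg_left (add_le_add a3 a4) hC0.le
    linarith
  have l6 := congrArg Complex.re (sub_eq_zero.1 (norm_le_zero_iff.1 l5))
  have l7 : (∫ p, G p ∂(μ.prod μ)).re = ∫ z, ∫ w, (G (z, w)).re ∂μ ∂μ := by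
    exact (integral_re hGi).symm.trans (integral_prod _ hGi.re)
  have l8 : (1 / 4 * ∫ p, G p ∂(μ.prod μ)).re = 1 / 4 * (∫ p, G p ∂(μ.prod μ)).re := by
    rw [show (1 / 4 : ℂ) = ((1 / 4 : ℝ) : ℂ) by push_cast; rfl, Complex.re_ofReal_mul]
  rw [l8, l7, Complex.ofReal_re] at l6
  simp only [integral_const, measureReal_restrict_apply_univ, smul_eq_mul, mul_one] at l6
  change 4 * π * A = -∫ z, ∫ w, (G (z, w)).re ∂μ ∂μ
  linarith

end MW.PL
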