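import Pool.Agent.P.MP_064970_gt.PL.Calc

/-! Row PL-Key. Scales `t_j = t / 2^j` with `t = τ r`. The bad set is where
`∑ μ (ball z t_j) / t_j ≥ ε σ` (Chebyshev and `lintegral_measure_ball`). Off it, `disc` gives
`Ar z t_{j+1} ≤ C μ (ball z t_j)²` by induction. Choose `ε`, then `τ`, then `η`. -/

open Complex InnerProductSpace Set Filter Topology Metric MeasureTheory
open scoped Real ComplexConjugate ENNReal

namespace MW.PL

open MW.AN

theorem key_vol (U : ℂ → ℝ) (c : ℂ) (R : ℝ) :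
    volume (Fz U ∩ ball c R) = ENNReal.ofReal (Ar U c R) := by
  unfold Ar
  rw [Measure.real, ENNReal.ofReal_toReal]
  exact ((measure_mono inter_subset_right).trans_lt measure_ball_lt_top).ne

theorem key_piece (U : ℂ → ℝ) (z c : ℂ) {R ρ : ℝ} (hρ : 0 < ρ) :
    ∫⁻ w in (Fz U ∩ ball c R) \ ball z ρ, k2 z w ≤ ENNReal.ofReal (Ar U c R / ρ ^ 2) := by
  have h1 : ∫⁻ w in (Fz U ∩ ball c R) \ ball z ρ, k2 z w
      ≤ ∫⁻ _w in (Fz U ∩ ball c R) \ ball z ρ, ENNReal.ofReal (ρ⁻¹ ^ 2) := by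
    refine setLIntegral_mono measurable_const fun w hw => ?_
    have h2 : ρ ≤ ‖w - z‖ := by
      have := hw.2
      rw [mem_ball_iff_norm] at this
      exact not_lt.mp this
    unfold k2
    refine ENNReal.ofReal_le_ofReal ?_
    have h3 : ‖w - z‖⁻¹ ≤ ρ⁻¹ := inv_anti₀ hρ h2
    exact pow_le_pow_left₀ (inv_nonneg.mpr (norm_nonneg _)) h3 2
  refine h1.trans ?_
  rw [setLIntegral_const]
  calc ENNReal.ofReal (ρ⁻¹ ^ 2) * volume ((Fz U ∩ ball c R) \ ball z ρ)
      ≤ ENNReal.ofReal (ρ⁻¹ ^ 2) * volume (Fz U ∩ ball c R) := by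
        gcongr
        exact sdiff_subset
    _ = ENNReal.ofReal (Ar U c R / ρ ^ 2) := by
        rw [key_vol, ← ENNReal.ofReal_mul (by positivity)]
        congr 1
        field_simp

/-- Dyadic decomposition of the singular integral. -/
theorem key_split (U : ℂ → ℝ) (z c : ℂ) {R s t : ℝ} (ht : 0 < t) (hs : ball z s ⊆ ball c R) :
    ∫⁻ w in Fz U ∩ ball z s, k2 z w ≤ ENNReal.ofReal (Ar U c R / (t / 2 ^ 1) ^ 2)
      + ∑' j : ℕ, ENNReal.ofReal (Ar U z (t / 2 ^ (j + 1)) / (t / 2 ^ (j + 2)) ^ 2) := by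
  have hsub : Fz U ∩ ball z s ⊆ (((Fz U ∩ ball c R) \ ball z (t / 2 ^ 1)) ∪
      ⋃ j : ℕ, (Fz U ∩ ball z (t / 2 ^ (j + 1))) \ ball z (t / 2 ^ (j + 2))) ∪ {z} := by
    intro w hw
    by_cases hwz : w = z
    · exact Or.inr hwz
    refine Or.inl ?_
    by_cases h1 : w ∈ ball z (t / 2 ^ 1)
    · refine Or.inr ?_
      have hpos : 0 < ‖w - z‖ := norm_pos_iff.mpr (sub_ne_zero.mpr hwz)
      have hex : ∃ n : ℕ, w ∉ ball z (t / 2 ^ (n + 1)) := by
        obtain ⟨n, hn⟩ := pow_unbounded_of_one_lt (t / ‖w - z‖) (one_lt_two (α := ℝ))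
        refine ⟨n, ?_⟩
        rw [mem_ball_iff_norm, not_lt, div_le_iff₀ (by positivity)]
        rw [div_lt_iff₀ hpos] at hn
        have h2 : (0 : ℝ) < 2 ^ n * ‖w - z‖ := by positivity
        rw [pow_succ]
        nlinarith
      obtain ⟨n, hn1, hn2⟩ := Nat.exists_not_and_succ_of_not_zero_of_exists
        (p := fun n : ℕ => w ∉ ball z (t / 2 ^ (n + 1))) (by simpa using h1) hex
      exact mem_iUnion.mpr ⟨n, ⟨hw.1, not_not.mp hn1⟩, hn2⟩
    · exact Or.inl ⟨⟨hw.1, hs hw.2⟩, h1⟩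
  refine (lintegral_mono_set hsub).trans ?_
  refine (lintegral_union_le _ _ _).trans ?_
  rw [setLIntegral_measure_zero {z} _ (measure_singleton z), add_zero]
  refine (lintegral_union_le _ _ _).trans (add_le_add (key_piece U z c (by positivity)) ?_)
  refine (lintegral_iUnion_le _ _).trans (ENNReal.tsum_le_tsum fun j => ?_)
  exact key_piece U z z (by positivity)

/-- The sum of the one-dimensional densities at the dyadic scales. -/
noncomputable def keyM (μ : Measure ℂ) (t : ℝ) (z : ℂ) : ℝ≥0∞ :=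
  ∑' j : ℕ, μ (ball z (t / 2 ^ j)) * ENNReal.ofReal (t / 2 ^ j)⁻¹

theorem measurable_keyM (μ : Measure ℂ) [SFinite μ] (t : ℝ) : Measurable (keyM μ t) :=
  Measurable.ennreal_tsum fun _ => (measurable_measure_ball μ _).mul_const _

theorem lintegral_keyM (μ : Measure ℂ) [SFinite μ] [IsFiniteMeasureOnCompacts μ] (c : ℂ)
    {r t B : ℝ} (ht : 0 < t) (htr : t ≤ r) (hB : μ.real (ball c (2 * r)) ≤ B) :
    ∫⁻ z in ball c r, keyM μ t z ≤ ENNReal.ofReal (8 * t * B) := by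
  have hB0 : 0 ≤ B := measureReal_nonneg.trans hB
  have hμ : μ (ball c (2 * r)) ≤ ENNReal.ofReal B := by
    rw [← ENNReal.ofReal_toReal (measure_ball_lt_top (μ := μ) (x := c) (r := 2 * r)).ne]
    exact ENNReal.ofReal_le_ofReal hB
  unfold keyM
  rw [lintegral_tsum fun _ => ((measurable_measure_ball μ _).mul_const _).aemeasurable]
  have h1 : ∀ j : ℕ, ∫⁻ z in ball c r, μ (ball z (t / 2 ^ j)) * ENNReal.ofReal (t / 2 ^ j)⁻¹
      ≤ ENNReal.ofReal (8 * t * B / 2 / 2 ^ j) := by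
    intro j
    have hp : (0 : ℝ) < t / 2 ^ j := by positivity
    have hle : t / 2 ^ j ≤ t := div_le_self ht.le (one_le_pow₀ one_le_two)
    rw [lintegral_mul_const _ (measurable_measure_ball μ _)]
    calc (∫⁻ z in ball c r, μ (ball z (t / 2 ^ j))) * ENNReal.ofReal (t / 2 ^ j)⁻¹
        ≤ (ENNReal.ofReal (π * (t / 2 ^ j) ^ 2) * ENNReal.ofReal B)
            * ENNReal.ofReal (t / 2 ^ j)⁻¹ := by
          gcongr
          refine (lintegral_measure_ball μ c r _).trans ?_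
          gcongr
          exact (measure_mono (ball_subset_ball (by linarith))).trans hμ
      _ = ENNReal.ofReal (π * (t / 2 ^ j) * B) := by
          rw [← ENNReal.ofReal_mul (by positivity), ← ENNReal.ofReal_mul (by positivity)]
          congr 1
          field_simp
      _ ≤ ENNReal.ofReal (8 * t * B / 2 / 2 ^ j) := by
          refine ENNReal.ofReal_le_ofReal ?_
          have h4 : π * (t / 2 ^ j) * B ≤ 4 * (t / 2 ^ j) * B := by
            gcongr
            exact Real.pi_le_four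
          refine h4.trans (le_of_eq ?_)
          ring
  refine (ENNReal.tsum_le_tsum h1).trans (le_of_eq ?_)
  rw [← ENNReal.ofReal_tsum_of_nonneg (fun j => by positivity) (summable_geometric_two' _),
    tsum_geometric_two']

/-- Off the bad set the areas at the dyadic scales are controlled. -/
theorem key_point {c₀ C : ℝ} (hC : 0 < C) {U : ℂ → ℝ} {μ : Measure ℂ}
    [IsFiniteMeasureOnCompacts μ] (hL : LIC c₀ C U μ) (z : ℂ) {t e : ℝ} (ht : 0 < t) (he : 0 ≤ e)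
    (h0 : Ar U z t ≤ c₀ / 4 * t ^ 2) (hec : 16 * C * e ^ 2 ≤ c₀)
    (hM : keyM μ t z ≤ ENNReal.ofReal e) :
    ∑' j : ℕ, ENNReal.ofReal (Ar U z (t / 2 ^ (j + 1)) / (t / 2 ^ (j + 2)) ^ 2)
      ≤ ENNReal.ofReal (16 * C * e ^ 2) := by
  have hterm : ∀ j : ℕ, μ (ball z (t / 2 ^ j)) * ENNReal.ofReal (t / 2 ^ j)⁻¹
      = ENNReal.ofReal (μ.real (ball z (t / 2 ^ j)) * (t / 2 ^ j)⁻¹) := by
    intro j
    rw [ENNReal.ofReal_mul measureReal_nonneg, Measure.real,
      ENNReal.ofReal_toReal measure_ball_lt_top.ne]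
  have hm : ∀ j : ℕ, μ.real (ball z (t / 2 ^ j)) ≤ e * (t / 2 ^ j) := by
    intro j
    have hp : (0 : ℝ) < t / 2 ^ j := by positivity
    have h1 : μ (ball z (t / 2 ^ j)) * ENNReal.ofReal (t / 2 ^ j)⁻¹ ≤ ENNReal.ofReal e :=
      (ENNReal.le_tsum j).trans hM
    rw [hterm, ENNReal.ofReal_le_ofReal_iff he, ← div_eq_mul_inv, div_le_iff₀ hp] at h1
    exact h1
  have hstep : ∀ j : ℕ, Ar U z (t / 2 ^ j) ≤ c₀ / 4 * (t / 2 ^ j) ^ 2 →
      Ar U z (t / 2 ^ (j + 1)) ≤ C * μ.real (ball z (t / 2 ^ j)) ^ 2 := by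
    intro j hj
    have h2 : 2 * (t / 2 ^ (j + 1)) = t / 2 ^ j := by
      rw [pow_succ]
      field_simp
    have h3 := hL.disc z (t / 2 ^ (j + 1)) (by positivity) (by
      rw [h2]
      refine hj.trans (le_of_eq ?_)
      rw [← h2]
      ring)
    rwa [h2] at h3
  have hind : ∀ j : ℕ, Ar U z (t / 2 ^ j) ≤ c₀ / 4 * (t / 2 ^ j) ^ 2 := by
    intro j
    induction j with
    | zero => simpa using h0
    | succ j ih =>
      refine (hstep j ih).trans ?_
      have h2 : t / 2 ^ j = 2 * (t / 2 ^ (j + 1)) := by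
        rw [pow_succ]
        field_simp
      calc C * μ.real (ball z (t / 2 ^ j)) ^ 2 ≤ C * (e * (t / 2 ^ j)) ^ 2 := by
            gcongr
            exact hm j
        _ = (16 * C * e ^ 2) / 4 * (t / 2 ^ (j + 1)) ^ 2 := by
            rw [h2]
            ring
        _ ≤ c₀ / 4 * (t / 2 ^ (j + 1)) ^ 2 := by gcongr
  have hle : ∀ j : ℕ, ENNReal.ofReal (Ar U z (t / 2 ^ (j + 1)) / (t / 2 ^ (j + 2)) ^ 2)
      ≤ ENNReal.ofReal (16 * C * e)
        * (μ (ball z (t / 2 ^ j)) * ENNReal.ofReal (t / 2 ^ j)⁻¹) := by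
    intro j
    rw [hterm, ← ENNReal.ofReal_mul (by positivity)]
    refine ENNReal.ofReal_le_ofReal ?_
    rw [div_le_iff₀ (by positivity)]
    refine (hstep j (hind j)).trans ?_
    have h5 : 0 ≤ μ.real (ball z (t / 2 ^ j)) := measureReal_nonneg
    calc C * μ.real (ball z (t / 2 ^ j)) ^ 2
        = C * μ.real (ball z (t / 2 ^ j)) * μ.real (ball z (t / 2 ^ j)) := by ring
      _ ≤ C * μ.real (ball z (t / 2 ^ j)) * (e * (t / 2 ^ j)) := by
          gcongr
          exact hm j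
      _ = 16 * C * e * (μ.real (ball z (t / 2 ^ j)) * (t / 2 ^ j)⁻¹) * (t / 2 ^ (j + 2)) ^ 2 := by
          rw [pow_add]
          field_simp
          ring
  refine (ENNReal.tsum_le_tsum hle).trans ?_
  rw [ENNReal.tsum_mul_left]
  calc ENNReal.ofReal (16 * C * e) * keyM μ t z
      ≤ ENNReal.ofReal (16 * C * e) * ENNReal.ofReal e := by gcongr
    _ = ENNReal.ofReal (16 * C * e ^ 2) := by
        rw [← ENNReal.ofReal_mul (by positivity)]
        congr 1
        ring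

theorem key_of (h : S_LI) : S_Key := by
  obtain ⟨c₀, C, hc₀, hC, hLI⟩ := h
  intro δ η' K hδ hη' hK
  obtain ⟨ε, hε, hε1, hε2⟩ : ∃ ε : ℝ, 0 < ε ∧ 16 * C * ε ^ 2 ≤ c₀ ∧ 16 * C * ε ^ 2 ≤ η' / 2 := by
    refine ⟨min 1 (min c₀ (η' / 2) / (16 * C)), by positivity, ?_⟩
    have h1 : min 1 (min c₀ (η' / 2) / (16 * C)) ≤ 1 := min_le_left _ _
    have h2 : min 1 (min c₀ (η' / 2) / (16 * C)) ≤ min c₀ (η' / 2) / (16 * C) := min_le_right _ _
    have h3 : 0 < min 1 (min c₀ (η' / 2) / (16 * C)) := by positivity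
    generalize min 1 (min c₀ (η' / 2) / (16 * C)) = ε at h1 h2 h3
    rw [le_div_iff₀ (by positivity)] at h2
    have h4 : 16 * C * ε ^ 2 ≤ min c₀ (η' / 2) := by
      have h5 : 0 ≤ ε * (16 * C) := by positivity
      nlinarith
    exact ⟨h4.trans (min_le_left _ _), h4.trans (min_le_right _ _)⟩
  obtain ⟨τ, hτ, hτ1, hτ2⟩ : ∃ τ : ℝ, 0 < τ ∧ τ ≤ 1 ∧ 8 * τ * K ≤ δ * ε := by
    refine ⟨min 1 (δ * ε / (8 * K)), by positivity, min_le_left _ _, ?_⟩
    have h2 : min 1 (δ * ε / (8 * K)) ≤ δ * ε / (8 * K) := min_le_right _ _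
    rw [le_div_iff₀ (by positivity)] at h2
    linarith
  refine ⟨τ ^ 2 * min (c₀ / 4) (η' / 8), by positivity, ?_⟩
  intro U h μ hI c r σ hr hσ hσ1 hμ hA
  have := hI.fin
  have hL := hLI U h μ hI
  have ht : 0 < τ * r := by positivity
  have htr : τ * r ≤ r := by nlinarith
  have hσ2 : σ ^ 2 ≤ 1 := by nlinarith
  have hes : 0 < ε * σ := by positivity
  have hmeas : MeasurableSet {z | ENNReal.ofReal (ε * σ) ≤ keyM μ (τ * r) z} :=
    measurableSet_le measurable_const (measurable_keyM μ _)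
  refine ⟨{z | ENNReal.ofReal (ε * σ) ≤ keyM μ (τ * r) z} ∩ ball c r,
    hmeas.inter measurableSet_ball, ?_, ?_⟩
  · rw [← Measure.restrict_apply hmeas]
    refine (meas_ge_le_lintegral_div (measurable_keyM μ _).aemeasurable
      (by simpa using hes) ENNReal.ofReal_ne_top).trans ?_
    refine ENNReal.div_le_of_le_mul ((lintegral_keyM μ c ht htr hμ).trans ?_)
    rw [← ENNReal.ofReal_mul (by positivity)]
    refine ENNReal.ofReal_le_ofReal ?_
    calc 8 * (τ * r) * (K * σ * r) = (8 * τ * K) * (σ * r ^ 2) := by ring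
      _ ≤ (δ * ε) * (σ * r ^ 2) := by gcongr
      _ = δ * r ^ 2 * (ε * σ) := by ring
  · intro z hz
    have hM : keyM μ (τ * r) z ≤ ENNReal.ofReal (ε * σ) := by
      by_contra hcon
      exact hz.2 ⟨(not_le.mp hcon).le, hz.1⟩
    have hzc : dist z c < r := hz.1
    have hb : ∀ s : ℝ, s ≤ r → ball z s ⊆ ball c (2 * r) := fun s hs =>
      ball_subset_ball' (by linarith)
    have hm1 : min (c₀ / 4) (η' / 8) ≤ c₀ / 4 := min_le_left _ _
    have hm2 : min (c₀ / 4) (η' / 8) ≤ η' / 8 := min_le_right _ _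
    have h0 : Ar U z (τ * r) ≤ c₀ / 4 * (τ * r) ^ 2 := by
      refine ((Ar_mono U (hb _ htr)).trans hA).trans ?_
      calc τ ^ 2 * min (c₀ / 4) (η' / 8) * σ ^ 2 * r ^ 2 ≤ τ ^ 2 * (c₀ / 4) * 1 * r ^ 2 := by
            gcongr
        _ = c₀ / 4 * (τ * r) ^ 2 := by ring
    have hec : 16 * C * (ε * σ) ^ 2 ≤ c₀ := by
      calc 16 * C * (ε * σ) ^ 2 = 16 * C * ε ^ 2 * σ ^ 2 := by ring
        _ ≤ c₀ * 1 := by gcongr
        _ = c₀ := mul_one _
    have h1 := key_point hC hL z ht hes.le h0 hec hM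
    refine (key_split U z c ht (hb (r / 4) (by linarith))).trans ?_
    have h2 : Ar U c (2 * r) / (τ * r / 2 ^ 1) ^ 2 ≤ η' / 2 * σ ^ 2 := by
      rw [div_le_iff₀ (by positivity)]
      refine hA.trans ?_
      calc τ ^ 2 * min (c₀ / 4) (η' / 8) * σ ^ 2 * r ^ 2 ≤ τ ^ 2 * (η' / 8) * σ ^ 2 * r ^ 2 := by
            gcongr
        _ = η' / 2 * σ ^ 2 * (τ * r / 2 ^ 1) ^ 2 := by ring
    have h3 : 16 * C * (ε * σ) ^ 2 ≤ η' / 2 * σ ^ 2 := by
      calc 16 * C * (ε * σ) ^ 2 = 16 * C * ε ^ 2 * σ ^ 2 := by ring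
        _ ≤ η' / 2 * σ ^ 2 := by gcongr
    refine (add_le_add (ENNReal.ofReal_le_ofReal h2)
      (h1.trans (ENNReal.ofReal_le_ofReal h3))).trans (le_of_eq ?_)
    rw [← ENNReal.ofReal_add (by positivity) (by positivity)]
    congr 1
    ring

end MW.PL
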