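import Pool.Agent.P.MP_064970_gt.PL.Calc

/-! Row PL-LI: Integrate `S_Rep1` over `A` (almost every point is interior), Tonelli,
`lintegral_k1_le`. `sq`: `B = √|A|`. `disc`: `A = F ∩ ball z s`, `T = s`. -/

open Complex InnerProductSpace Set Filter Topology Metric MeasureTheory
open scoped Real ComplexConjugate ENNReal

namespace MW.PL

open MW.AN

theorem li_k1_symm (w z : ℂ) : k1 w z = k1 z w := by
  unfold k1
  rw [norm_sub_rev]

/-- The kernel `1_{|z - w| < T} / |z - w|`. -/
theorem li_meas (T : ℝ) : Measurable (Function.uncurry fun w z : ℂ =>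
    (ball w T).indicator (k1 w) z) := by
  have hS : MeasurableSet {p : ℂ × ℂ | dist p.2 p.1 < T} :=
    (isOpen_lt (continuous_snd.dist continuous_fst) continuous_const).measurableSet
  have : (Function.uncurry fun w z : ℂ => (ball w T).indicator (k1 w) z)
      = {p : ℂ × ℂ | dist p.2 p.1 < T}.indicator (Function.uncurry k1) := by
    funext p
    by_cases hp : dist p.2 p.1 < T
    · have h1 : p.2 ∈ ball p.1 T := hp
      have h2 : p ∈ {p : ℂ × ℂ | dist p.2 p.1 < T} := hp
      simp only [Function.uncurry, indicator_of_mem h1, indicator_of_mem h2]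
    · have h1 : p.2 ∉ ball p.1 T := hp
      have h2 : p ∉ {p : ℂ × ℂ | dist p.2 p.1 < T} := hp
      simp only [Function.uncurry, indicator_of_notMem h1, indicator_of_notMem h2]
  rw [this]
  exact measurable_k1.indicator hS

/-- Tonelli. -/
theorem li_tonelli (μ : Measure ℂ) [SFinite μ] {A N : Set ℂ} {T B : ℝ} (hA : MeasurableSet A)
    (hN : MeasurableSet N) (hB : 0 ≤ B) (hAN : ∀ w ∈ A, ball w T ⊆ N)
    (hζ : ∀ ζ ∈ N, volume.real (A ∩ ball ζ T) ≤ B ^ 2) :
    ∫⁻ w in A, ∫⁻ z in ball w T, k1 w z ∂μ ≤ ENNReal.ofReal (8 * B) * μ N := by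
  have h1 : ∀ w : ℂ, ∫⁻ z in ball w T, k1 w z ∂μ
      = ∫⁻ z, (ball w T).indicator (k1 w) z ∂μ := fun w =>
    (lintegral_indicator measurableSet_ball _).symm
  simp only [h1]
  rw [lintegral_lintegral_swap (li_meas T).aemeasurable]
  have h2 : ∀ z : ℂ, ∫⁻ w in A, (ball w T).indicator (k1 w) z
      ≤ N.indicator (fun _ => ENNReal.ofReal (8 * B)) z := by
    intro z
    by_cases hz : z ∈ N
    · rw [indicator_of_mem hz]
      have e : (fun w : ℂ => (ball w T).indicator (k1 w) z) = (ball z T).indicator (k1 z) := by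
        funext w
        by_cases hw : w ∈ ball z T
        · have hw' : z ∈ ball w T := mem_ball_comm.1 hw
          rw [indicator_of_mem hw, indicator_of_mem hw', li_k1_symm]
        · have hw' : z ∉ ball w T := fun h => hw (mem_ball_comm.1 h)
          rw [indicator_of_notMem hw, indicator_of_notMem hw']
      rw [e, lintegral_indicator measurableSet_ball, Measure.restrict_restrict measurableSet_ball,
        inter_comm]
      have hfin : volume (A ∩ ball z T) < ∞ :=
        lt_of_le_of_lt (measure_mono inter_subset_right) measure_ball_lt_top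
      refine (lintegral_k1_le z hfin).trans (ENNReal.ofReal_le_ofReal ?_)
      have : √(volume.real (A ∩ ball z T)) ≤ B := by
        rw [Real.sqrt_le_left hB]
        exact hζ z hz
      linarith
    · rw [indicator_of_notMem hz]
      have : ∫⁻ w in A, (ball w T).indicator (k1 w) z = ∫⁻ _w in A, (0 : ℝ≥0∞) := by
        refine setLIntegral_congr_fun hA fun w hw => ?_
        exact indicator_of_notMem (fun h => hz (hAN w hw h)) _
      rw [this]
      simp
  refine (lintegral_mono h2).trans ?_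
  rw [lintegral_indicator hN, setLIntegral_const]

theorem li_gen {C : ℝ} (hC : 0 < C) {U : ℂ → ℝ} {h : ℂ → ℂ} {μ : Measure ℂ} (hI : Ids U h μ)
    (hR : ∀ w ∈ interior (Fz U), ∀ T > 0,
      (1 : ℝ≥0∞) ≤ (∫⁻ z in ball w T, k1 w z ∂μ) + ENNReal.ofReal (C * Ar U w T / T ^ 2))
    (A N : Set ℂ) (T B : ℝ) (hA : MeasurableSet A) (hAF : A ⊆ Fz U) (hN : MeasurableSet N)
    (hNb : Bornology.IsBounded N) (hT : 0 < T) (hB : 0 ≤ B) (hAN : ∀ w ∈ A, ball w T ⊆ N)
    (hd : ∀ w ∈ A, Ar U w T ≤ 1 / (2 * C) * T ^ 2)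
    (hζ : ∀ ζ ∈ N, volume.real (A ∩ ball ζ T) ≤ B ^ 2) :
    volume.real A ≤ 16 * B * μ.real N := by
  have := hI.fin
  have hμN : μ N < ∞ := hNb.measure_lt_top
  have hlow : ∀ᵐ w ∂(volume.restrict A),
      ENNReal.ofReal (1 / 2) ≤ ∫⁻ z in ball w T, k1 w z ∂μ := by
    rw [ae_restrict_iff' hA]
    filter_upwards [hI.toData.ae_interior] with w hw hwA
    have h1 := hR w (hw (hAF hwA)) T hT
    have h2 : C * Ar U w T / T ^ 2 ≤ 1 / 2 := by
      rw [div_le_iff₀ (by positivity)]
      calc C * Ar U w T ≤ C * (1 / (2 * C) * T ^ 2) :=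
            mul_le_mul_of_nonneg_left (hd w hwA) hC.le
        _ = 1 / 2 * T ^ 2 := by field_simp
    have h3 : (1 : ℝ≥0∞) = ENNReal.ofReal (1 / 2) + ENNReal.ofReal (1 / 2) := by
      rw [← ENNReal.ofReal_add (by norm_num) (by norm_num)]
      norm_num
    have h4 : ENNReal.ofReal (1 / 2) + ENNReal.ofReal (1 / 2)
        ≤ (∫⁻ z in ball w T, k1 w z ∂μ) + ENNReal.ofReal (1 / 2) := by
      rw [← h3]
      exact h1.trans (add_le_add le_rfl (ENNReal.ofReal_le_ofReal h2))
    exact (ENNReal.add_le_add_iff_right ENNReal.ofReal_ne_top).1 h4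
  have h5 : ENNReal.ofReal (1 / 2) * volume A ≤ ENNReal.ofReal (8 * B) * μ N := by
    rw [← setLIntegral_const]
    exact (lintegral_mono_ae hlow).trans (li_tonelli μ hA hN hB hAN hζ)
  have h6 := ENNReal.toReal_mono
    (ENNReal.mul_ne_top ENNReal.ofReal_ne_top hμN.ne) h5
  rw [ENNReal.toReal_mul, ENNReal.toReal_mul, ENNReal.toReal_ofReal (by norm_num),
    ENNReal.toReal_ofReal (by positivity)] at h6
  simp only [Measure.real]
  linarith

theorem li_sq {x m : ℝ} (hx : 0 ≤ x) (_hm : 0 ≤ m) (h : x ≤ 16 * √x * m) : x ≤ 256 * m ^ 2 := by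
  have hs := Real.sq_sqrt hx
  have h0 := Real.sqrt_nonneg x
  nlinarith [sq_nonneg (√x - 16 * m)]

theorem li_of (h : S_Rep1) : S_LI := by
  obtain ⟨C, hC, hR⟩ := h
  refine ⟨1 / (2 * C), 256, by positivity, by norm_num, fun U h μ hI => ?_⟩
  have hsq : ∀ (A N : Set ℂ) (T : ℝ), MeasurableSet A → A ⊆ Fz U → MeasurableSet N →
      Bornology.IsBounded N → 0 < T → (∀ w ∈ A, ball w T ⊆ N) →
      (∀ w ∈ A, Ar U w T ≤ 1 / (2 * C) * T ^ 2) → volume.real A ≤ 256 * μ.real N ^ 2 := by
    intro A N T hA hAF hN hNb hT hAN hd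
    have hAsub : A ⊆ N := fun w hw => hAN w hw (mem_ball_self hT)
    have hfin : volume A ≠ ∞ := (lt_of_le_of_lt (measure_mono hAsub) hNb.measure_lt_top).ne
    refine li_sq measureReal_nonneg measureReal_nonneg ?_
    refine li_gen hC hI (hR U h μ hI) A N T _ hA hAF hN hNb hT (Real.sqrt_nonneg _) hAN hd ?_
    intro ζ _
    rw [Real.sq_sqrt measureReal_nonneg]
    exact measureReal_mono inter_subset_left hfin
  refine ⟨?_, hsq, ?_⟩
  · intro A N T B hA hAF hN hNb hT hB hAN hd hζ
    have h1 := li_gen hC hI (hR U h μ hI) A N T B hA hAF hN hNb hT hB hAN hd hζ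
    have h2 : 0 ≤ B * μ.real N := mul_nonneg hB measureReal_nonneg
    nlinarith
  · intro z s hs hd
    have hball : ∀ w ∈ Fz U ∩ ball z s, ball w s ⊆ ball z (2 * s) := by
      intro w hw
      refine ball_subset_ball' ?_
      have : dist w z < s := hw.2
      linarith
    exact hsq (Fz U ∩ ball z s) (ball z (2 * s)) s
      (hI.toData.isClosed_Fz.measurableSet.inter measurableSet_ball) inter_subset_left
      measurableSet_ball isBounded_ball hs hball
      (fun w hw => (Ar_mono U (hball w hw)).trans hd)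

end MW.PL
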