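import Pool.Agent.P.MP_064970_gt.PL.Calc

/-! Row PL-Mean: `S a s = s⁻² ∫ ρ (|z - a|² / s²) U`, `ρ t = (4/π) (1 - t)₊³`, `P t = (1 - t)₊⁴ / π`.
By `p1` and `m`: `s ∂_s S = ½ ∫ P (|w - a|² / s²) dμ`. So `S` increases, `S a s → U a` as `s → 0`,
`c μ (ball a (s₁/2)) log (s₂/s₁) ≤ S a s₂ - S a s₁ ≤ C μ (ball a s₂) log (s₂/s₁)`.
`noat`: `s₁ = 2 ρ`, `s₂ = 2 s`. `trans`: differentiate `S (b + t (a - b)) s` in `t` and use `p1`.
`up`: `U a ≤ S a (s₃/4) ≤ C S 0 s₃`. -/

open Complex InnerProductSpace Set Filter Topology Metric MeasureTheory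
open scoped Real ComplexConjugate ENNReal

namespace MW.PL

open MW.AN

namespace MeanA

theorem hasDerivAt_pp (n : ℕ) (t : ℝ) :
    HasDerivAt (fun t : ℝ => (max t 0) ^ (n + 2)) (((n : ℝ) + 2) * (max t 0) ^ (n + 1)) t := by
  rcases lt_trichotomy t 0 with ht | ht | ht
  · have h : (fun t : ℝ => (max t 0) ^ (n + 2)) =ᶠ[𝓝 t] fun _ => 0 := by
      filter_upwards [Iio_mem_nhds ht] with x hx
      simp [max_eq_right (le_of_lt (mem_Iio.1 hx))]
    have h0 := (hasDerivAt_const t (0 : ℝ)).congr_of_eventuallyEq h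
    simpa [max_eq_right ht.le] using h0
  · subst ht
    rw [hasDerivAt_iff_isLittleO_nhds_zero]
    have h1 : (fun h : ℝ => (max h 0) ^ (n + 2)) =O[𝓝 0] fun h => h ^ (n + 2) := by
      apply Asymptotics.IsBigO.of_bound 1
      filter_upwards with x
      rw [one_mul, norm_pow, norm_pow]
      gcongr
      rw [Real.norm_eq_abs, Real.norm_eq_abs, abs_of_nonneg (le_max_right _ _)]
      exact max_le (le_abs_self x) (abs_nonneg x)
    have h2 := h1.trans_isLittleO (Asymptotics.isLittleO_pow_id (𝕜 := ℝ) (n := n + 2) (by omega))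
    simpa using h2
  · have h : (fun t : ℝ => (max t 0) ^ (n + 2)) =ᶠ[𝓝 t] fun t => t ^ (n + 2) := by
      filter_upwards [Ioi_mem_nhds ht] with x hx
      simp [max_eq_left (le_of_lt (mem_Ioi.1 hx))]
    have h0 := (hasDerivAt_pow (n + 2) t).congr_of_eventuallyEq h
    simpa [max_eq_left ht.le] using h0

/-- The weight of the radial mean. -/
noncomputable def rho (t : ℝ) : ℝ := 4 / π * (max (1 - t) 0) ^ 3

/-- Derivative of `rho`. -/
noncomputable def rho1 (t : ℝ) : ℝ := -(12 / π) * (max (1 - t) 0) ^ 2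

/-- Primitive of `-rho`. -/
noncomputable def PP (t : ℝ) : ℝ := (max (1 - t) 0) ^ 4 / π

theorem hasDerivAt_rho (t : ℝ) : HasDerivAt rho (rho1 t) t := by
  have h1 : HasDerivAt (fun t : ℝ => 1 - t) (-1) t := by
    simpa using (hasDerivAt_id t).const_sub 1
  have h2 := ((hasDerivAt_pp 1 (1 - t)).comp t h1).const_mul (4 / π)
  refine HasDerivAt.congr_deriv (f := rho) h2 ?_
  simp only [rho1]
  push_cast
  ring

theorem hasDerivAt_PP (t : ℝ) : HasDerivAt PP (-rho t) t := by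
  have h1 : HasDerivAt (fun t : ℝ => 1 - t) (-1) t := by
    simpa using (hasDerivAt_id t).const_sub 1
  have h2 := ((hasDerivAt_pp 2 (1 - t)).comp t h1).div_const π
  refine HasDerivAt.congr_deriv (f := PP) h2 ?_
  simp only [rho]
  push_cast
  ring

theorem continuous_rho : Continuous rho := by
  unfold rho; fun_prop

theorem continuous_rho1 : Continuous rho1 := by
  unfold rho1; fun_prop

theorem continuous_PP : Continuous PP := by
  unfold PP; fun_prop

theorem deriv_rho : deriv rho = rho1 := funext fun t => (hasDerivAt_rho t).deriv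

theorem contDiff_rho : ContDiff ℝ 1 rho := by
  rw [contDiff_one_iff_deriv, deriv_rho]
  exact ⟨fun t => (hasDerivAt_rho t).differentiableAt, continuous_rho1⟩

theorem contDiff_PP : ContDiff ℝ 1 PP := by
  have h : deriv PP = fun t => -rho t := funext fun t => (hasDerivAt_PP t).deriv
  rw [contDiff_one_iff_deriv, h]
  exact ⟨fun t => (hasDerivAt_PP t).differentiableAt, continuous_rho.neg⟩

theorem rho_zero (t : ℝ) (ht : 1 ≤ t) : rho t = 0 := by
  simp [rho, max_eq_right (sub_nonpos.2 ht)]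

theorem rho1_zero (t : ℝ) (ht : 1 ≤ t) : rho1 t = 0 := by
  simp [rho1, max_eq_right (sub_nonpos.2 ht)]

theorem PP_zero (t : ℝ) (ht : 1 ≤ t) : PP t = 0 := by
  simp [PP, max_eq_right (sub_nonpos.2 ht)]

theorem rho_nonneg (t : ℝ) : 0 ≤ rho t := by
  unfold rho; positivity

theorem PP_nonneg (t : ℝ) : 0 ≤ PP t := by
  unfold PP; positivity

theorem max_le_one {t : ℝ} (ht : 0 ≤ t) : max (1 - t) 0 ≤ 1 := max_le (by linarith) zero_le_one

theorem rho_le {t : ℝ} (ht : 0 ≤ t) : rho t ≤ 2 := by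
  have h1 : (max (1 - t) 0) ^ 3 ≤ 1 := pow_le_one₀ (le_max_right _ _) (max_le_one ht)
  have h2 : 4 / π ≤ 2 := by
    rw [div_le_iff₀ Real.pi_pos]; linarith [Real.pi_gt_three]
  calc rho t ≤ 4 / π * 1 := by unfold rho; gcongr
    _ ≤ 2 := by linarith

theorem abs_rho1_le {t : ℝ} (ht : 0 ≤ t) : |rho1 t| ≤ 4 := by
  have h1 : (max (1 - t) 0) ^ 2 ≤ 1 := pow_le_one₀ (le_max_right _ _) (max_le_one ht)
  have h2 : 12 / π ≤ 4 := by
    rw [div_le_iff₀ Real.pi_pos]; linarith [Real.pi_gt_three]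
  have h3 : 0 ≤ 12 / π * (max (1 - t) 0) ^ 2 := by positivity
  have h4 : 12 / π * (max (1 - t) 0) ^ 2 ≤ 12 / π * 1 := by gcongr
  unfold rho1
  rw [neg_mul, abs_neg, abs_of_nonneg h3]
  linarith

theorem PP_le {t : ℝ} (ht : 0 ≤ t) : PP t ≤ 1 := by
  have h1 : (max (1 - t) 0) ^ 4 ≤ 1 := pow_le_one₀ (le_max_right _ _) (max_le_one ht)
  unfold PP
  rw [div_le_iff₀ Real.pi_pos]; linarith [Real.pi_gt_three]

theorem le_rho {t : ℝ} (ht : t ≤ 1 / 4) : 1 / 4 ≤ rho t := by
  have h1 : (3 / 4 : ℝ) ≤ max (1 - t) 0 := le_max_of_le_left (by linarith)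
  have h2 : (3 / 4 : ℝ) ^ 3 ≤ (max (1 - t) 0) ^ 3 := by gcongr
  have h3 : 1 ≤ 4 / π := by
    rw [le_div_iff₀ Real.pi_pos]; linarith [Real.pi_le_four]
  calc (1 / 4 : ℝ) ≤ 1 * (3 / 4) ^ 3 := by norm_num
    _ ≤ rho t := by unfold rho; gcongr

theorem le_PP {t : ℝ} (ht : t ≤ 1 / 4) : 1 / 16 ≤ PP t := by
  have h1 : (3 / 4 : ℝ) ≤ max (1 - t) 0 := le_max_of_le_left (by linarith)
  have h2 : (3 / 4 : ℝ) ^ 4 ≤ (max (1 - t) 0) ^ 4 := by gcongr
  unfold PP
  rw [le_div_iff₀ Real.pi_pos]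
  nlinarith [Real.pi_le_four]

theorem integral_rho01 : ∫ t in (0 : ℝ)..1, rho t = 1 / π := by
  have h := intervalIntegral.integral_eq_sub_of_hasDerivAt (f := fun t => -PP t) (f' := rho)
    (a := 0) (b := 1) (fun t _ => by simpa using (hasDerivAt_PP t).fun_neg)
    (continuous_rho.intervalIntegrable _ _)
  rw [h]
  simp [PP]

theorem integral_rho (a : ℂ) {s : ℝ} (hs : 0 < s) :
    ∫ w : ℂ, rho (‖w - a‖ ^ 2 / s ^ 2) = s ^ 2 := by
  rw [integral_radial continuous_rho rho_zero a hs, integral_rho01]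
  field_simp

theorem one_le_tau {a z : ℂ} {s : ℝ} (hs : 0 < s) (hz : s ≤ ‖z - a‖) :
    1 ≤ ‖z - a‖ ^ 2 / s ^ 2 := by
  rw [le_div_iff₀ (by positivity), one_mul]
  gcongr

theorem tau_le {a z : ℂ} {s : ℝ} (hs : 0 < s) (hz : ‖z - a‖ ≤ s / 2) :
    ‖z - a‖ ^ 2 / s ^ 2 ≤ 1 / 4 := by
  rw [div_le_iff₀ (by positivity)]
  calc ‖z - a‖ ^ 2 ≤ (s / 2) ^ 2 := by gcongr
    _ = 1 / 4 * s ^ 2 := by ring

theorem tau_nonneg (a z : ℂ) (s : ℝ) : 0 ≤ ‖z - a‖ ^ 2 / s ^ 2 := by positivity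

theorem integrable_rad (ν : Measure ℂ) [IsFiniteMeasureOnCompacts ν] {g : ℝ → ℝ}
    (hg : Continuous g) (h0 : ∀ t, 1 ≤ t → g t = 0) {f : ℂ → ℝ} (hf : Continuous f) (a : ℂ)
    {s : ℝ} (hs : 0 < s) : Integrable (fun z => g (‖z - a‖ ^ 2 / s ^ 2) * f z) ν := by
  apply Continuous.integrable_of_hasCompactSupport (by fun_prop)
  apply HasCompactSupport.intro (isCompact_closedBall a s)
  intro z hz
  rw [mem_closedBall_iff_norm, not_le] at hz
  rw [h0 _ (one_le_tau hs hz.le), zero_mul]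

theorem integrable_rad1 (ν : Measure ℂ) [IsFiniteMeasureOnCompacts ν] {g : ℝ → ℝ}
    (hg : Continuous g) (h0 : ∀ t, 1 ≤ t → g t = 0) (a : ℂ)
    {s : ℝ} (hs : 0 < s) : Integrable (fun z => g (‖z - a‖ ^ 2 / s ^ 2)) ν := by
  simpa using integrable_rad ν hg h0 (f := fun _ => 1) continuous_const a hs

/-- The radial mean. -/
noncomputable def SS (U : ℂ → ℝ) (a : ℂ) (s : ℝ) : ℝ :=
  (∫ z, rho (‖z - a‖ ^ 2 / s ^ 2) * U z) / s ^ 2

/-- The smoothed mass. -/
noncomputable def GG (μ : Measure ℂ) (a : ℂ) (s : ℝ) : ℝ := ∫ z, PP (‖z - a‖ ^ 2 / s ^ 2) ∂μ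

variable {U : ℂ → ℝ} {h : ℂ → ℂ} {μ : Measure ℂ}

theorem dbar_conj_sub (a z : ℂ) : dbar (fun w => conj (w - a)) z = 1 := by
  have h1 : HasDerivAt (fun w : ℂ => w - a) 1 z := (hasDerivAt_id z).sub_const a
  rw [(dbar_conj (fun w => w - a) z).1, (dbar_of_hasDerivAt h1).2, map_one]

theorem contDiff_conj_sub (a : ℂ) : ContDiff ℝ 1 (fun w : ℂ => conj (w - a)) :=
  Complex.conjCLE.contDiff.comp (contDiff_id.sub contDiff_const)

theorem key (hI : Ids U h μ) (a : ℂ) {s : ℝ} (hs : 0 < s) :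
    ∫ z, U z * (rho1 (‖z - a‖ ^ 2 / s ^ 2) * (‖z - a‖ ^ 2 / s ^ 2) + rho (‖z - a‖ ^ 2 / s ^ 2))
      = -(s ^ 2 / 4) * GG μ a s := by
  have hs' : (s : ℂ) ≠ 0 := by exact_mod_cast hs.ne'
  have e1 := hI.p1 (fun w => ((rho (‖w - a‖ ^ 2 / s ^ 2) : ℝ) : ℂ) * conj (w - a))
    ((contDiff_radial contDiff_rho a s).mul (contDiff_conj_sub a))
    (hasCompactSupport_radial rho_zero a hs).mul_right
  have e2 := hI.m (fun w => ((PP (‖w - a‖ ^ 2 / s ^ 2) : ℝ) : ℂ))
    (contDiff_radial contDiff_PP a s) (hasCompactSupport_radial PP_zero a hs)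
  have d1 : ∀ z, (U z : ℂ) * dbar (fun w => ((rho (‖w - a‖ ^ 2 / s ^ 2) : ℝ) : ℂ) * conj (w - a)) z
      = ((U z * (rho1 (‖z - a‖ ^ 2 / s ^ 2) * (‖z - a‖ ^ 2 / s ^ 2)
          + rho (‖z - a‖ ^ 2 / s ^ 2)) : ℝ) : ℂ) := by
    intro z
    have hr := dbar_radial (z := z) a s (hasDerivAt_rho _)
    rw [dbar_mul hr.1 ((contDiff_conj_sub a).differentiable (by simp) z), hr.2.1, dbar_conj_sub]
    have : (z - a) * conj (z - a) = ((‖z - a‖ ^ 2 : ℝ) : ℂ) := by
      rw [Complex.mul_conj, Complex.normSq_eq_norm_sq]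
    push_cast at this ⊢
    rw [← this]
    ring
  have d2 : ∀ z, h z * dbar (fun w => ((PP (‖w - a‖ ^ 2 / s ^ 2) : ℝ) : ℂ)) z
      = -(1 / (s : ℂ) ^ 2) * conj (((rho (‖z - a‖ ^ 2 / s ^ 2) : ℝ) : ℂ) * conj (z - a)
          * conj (h z)) := by
    intro z
    have hr := dbar_radial (z := z) a s (hasDerivAt_PP _)
    rw [hr.2.1]
    simp only [map_mul, Complex.conj_conj, Complex.conj_ofReal]
    push_cast
    ring
  simp only [d1] at e1
  simp only [d2] at e2
  rw [integral_const_mul, integral_conj, integral_complex_ofReal] at e2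
  rw [integral_complex_ofReal] at e1
  set X := ∫ z, ((rho (‖z - a‖ ^ 2 / s ^ 2) : ℝ) : ℂ) * conj (z - a) * conj (h z) with hX
  have e3 : conj X = ((s ^ 2 / 2 * GG μ a s : ℝ) : ℂ) := by
    unfold GG
    push_cast
    field_simp at e2 ⊢
    linear_combination -e2
  have e4 : X = ((s ^ 2 / 2 * GG μ a s : ℝ) : ℂ) := by
    rw [← Complex.conj_conj X, e3, Complex.conj_ofReal]
  rw [e4] at e1
  have e5 : ((∫ z, U z * (rho1 (‖z - a‖ ^ 2 / s ^ 2) * (‖z - a‖ ^ 2 / s ^ 2)
      + rho (‖z - a‖ ^ 2 / s ^ 2)) : ℝ) : ℂ) = ((-(s ^ 2 / 4) * GG μ a s : ℝ) : ℂ) := by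
    refine Eq.trans e1 ?_
    push_cast
    ring
  exact_mod_cast e5

theorem locBd (hI : Ids U h μ) (R : ℝ) : ∃ B : ℝ, ∀ z : ℂ, ‖z‖ ≤ R → |U z| ≤ B := by
  obtain ⟨B, hB⟩ := (isCompact_closedBall (0 : ℂ) R).exists_bound_of_continuousOn
    hI.lip.continuous.continuousOn
  exact ⟨B, fun z hz => hB z (mem_closedBall_zero_iff.2 hz)⟩

theorem hasDerivAt_SS (hI : Ids U h μ) (a : ℂ) {s : ℝ} (hs : 0 < s) :
    HasDerivAt (SS U a) (GG μ a s / (2 * s)) s := by
  have hU := hI.lip.continuous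
  have h1 := hasDerivAt_radial_integral volume contDiff_rho rho_zero hU.measurable (locBd hI) a hs
  have h2 : HasDerivAt (fun s : ℝ => s ^ 2) (2 * s) s := by simpa using hasDerivAt_pow 2 s
  have h3 := h1.div h2 (by positivity)
  refine HasDerivAt.congr_deriv (f := SS U a) h3 ?_
  have k := key hI a hs
  have i1 : Integrable (fun z => rho (‖z - a‖ ^ 2 / s ^ 2) * U z) :=
    integrable_rad volume continuous_rho rho_zero hU a hs
  have i2 : Integrable (fun z => (rho1 (‖z - a‖ ^ 2 / s ^ 2) * (‖z - a‖ ^ 2 / s ^ 2)) * U z) :=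
    integrable_rad volume (g := fun t => rho1 t * t) (continuous_rho1.mul continuous_id)
      (fun t ht => by rw [rho1_zero t ht, zero_mul]) hU a hs
  have k1 : ∫ z, U z * (rho1 (‖z - a‖ ^ 2 / s ^ 2) * (‖z - a‖ ^ 2 / s ^ 2)
      + rho (‖z - a‖ ^ 2 / s ^ 2))
      = (∫ z, (rho1 (‖z - a‖ ^ 2 / s ^ 2) * (‖z - a‖ ^ 2 / s ^ 2)) * U z)
        + ∫ z, rho (‖z - a‖ ^ 2 / s ^ 2) * U z := by
    rw [← integral_add i2 i1]
    congr 1; ext z; ring
  have k2 : ∫ z, -2 * (‖z - a‖ ^ 2 / s ^ 2) * deriv rho (‖z - a‖ ^ 2 / s ^ 2) / s * U z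
      = -2 / s * ∫ z, (rho1 (‖z - a‖ ^ 2 / s ^ 2) * (‖z - a‖ ^ 2 / s ^ 2)) * U z := by
    rw [← integral_const_mul, deriv_rho]
    congr 1; ext z; ring
  rw [k2]
  rw [k1] at k
  set A := ∫ z, (rho1 (‖z - a‖ ^ 2 / s ^ 2) * (‖z - a‖ ^ 2 / s ^ 2)) * U z
  set B := ∫ z, rho (‖z - a‖ ^ 2 / s ^ 2) * U z
  have hA : A = -(s ^ 2 / 4) * GG μ a s - B := by linarith
  rw [hA]
  field_simp
  ring

theorem le_of_deriv {f f' : ℝ → ℝ} {x y : ℝ} (hxy : x ≤ y)
    (hf : ∀ t ∈ Icc x y, HasDerivAt f (f' t) t) (h0 : ∀ t ∈ Icc x y, 0 ≤ f' t) : f x ≤ f y := by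
  refine monotoneOn_of_deriv_nonneg (convex_Icc x y)
    (fun t ht => (hf t ht).continuousAt.continuousWithinAt)
    (fun t ht => (hf t (interior_subset ht)).differentiableAt.differentiableWithinAt)
    (fun t ht => ?_) (left_mem_Icc.2 hxy) (right_mem_Icc.2 hxy) hxy
  rw [(hf t (interior_subset ht)).deriv]
  exact h0 t (interior_subset ht)

theorem SS_lower (hI : Ids U h μ) (a : ℂ) {x y m : ℝ} (hx : 0 < x) (hxy : x ≤ y)
    (hm : ∀ t ∈ Icc x y, m ≤ GG μ a t) :
    SS U a x + m / 2 * Real.log (y / x) ≤ SS U a y := by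
  have h1 := le_of_deriv (f := fun t => SS U a t - m / 2 * Real.log t)
    (f' := fun t => GG μ a t / (2 * t) - m / 2 * t⁻¹) hxy
    (fun t ht => (hasDerivAt_SS hI a (hx.trans_le ht.1)).sub
      ((Real.hasDerivAt_log (hx.trans_le ht.1).ne').const_mul (m / 2)))
    (fun t ht => by
      have ht0 : 0 < t := hx.trans_le ht.1
      have : GG μ a t / (2 * t) - m / 2 * t⁻¹ = (GG μ a t - m) / (2 * t) := by field_simp
      rw [this]
      exact div_nonneg (sub_nonneg.2 (hm t ht)) (by positivity))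
  rw [Real.log_div (hx.trans_le hxy).ne' hx.ne']
  linarith

theorem SS_upper (hI : Ids U h μ) (a : ℂ) {x y m : ℝ} (hx : 0 < x) (hxy : x ≤ y)
    (hm : ∀ t ∈ Icc x y, GG μ a t ≤ m) :
    SS U a y ≤ SS U a x + m / 2 * Real.log (y / x) := by
  have h1 := le_of_deriv (f := fun t => m / 2 * Real.log t - SS U a t)
    (f' := fun t => m / 2 * t⁻¹ - GG μ a t / (2 * t)) hxy
    (fun t ht => ((Real.hasDerivAt_log (hx.trans_le ht.1).ne').const_mul (m / 2)).sub
      (hasDerivAt_SS hI a (hx.trans_le ht.1)))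
    (fun t ht => by
      have ht0 : 0 < t := hx.trans_le ht.1
      have : m / 2 * t⁻¹ - GG μ a t / (2 * t) = (m - GG μ a t) / (2 * t) := by field_simp
      rw [this]
      exact div_nonneg (sub_nonneg.2 (hm t ht)) (by positivity))
  rw [Real.log_div (hx.trans_le hxy).ne' hx.ne']
  linarith

theorem GG_nonneg (μ : Measure ℂ) (a : ℂ) (s : ℝ) : 0 ≤ GG μ a s :=
  integral_nonneg fun _ => PP_nonneg _

theorem GG_le (μ : Measure ℂ) [IsFiniteMeasureOnCompacts μ] (a : ℂ) {s r : ℝ} (hs : 0 < s)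
    (hsr : s ≤ r) : GG μ a s ≤ μ.real (ball a r) := by
  have hfin : μ (ball a r) < ∞ := measure_ball_lt_top
  have h1 : GG μ a s ≤ ∫ z, (ball a r).indicator (fun _ => (1 : ℝ)) z ∂μ := by
    refine integral_mono (integrable_rad1 μ continuous_PP PP_zero a hs)
      ((integrable_indicator_iff measurableSet_ball).2 (integrableOn_const hfin.ne)) fun z => ?_
    by_cases hz : z ∈ ball a r
    · rw [indicator_of_mem hz]; exact PP_le (tau_nonneg a z s)
    · rw [indicator_of_notMem hz]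
      rw [mem_ball_iff_norm, not_lt] at hz
      exact (PP_zero _ (one_le_tau hs (hsr.trans hz))).le
  rwa [integral_indicator_const _ measurableSet_ball, smul_eq_mul, mul_one] at h1

theorem le_GG (μ : Measure ℂ) [IsFiniteMeasureOnCompacts μ] (a : ℂ) {s r : ℝ} (hs : 0 < s)
    (hsr : 2 * r ≤ s) : μ.real (ball a r) / 16 ≤ GG μ a s := by
  have hfin : μ (ball a r) < ∞ := measure_ball_lt_top
  have h1 : ∫ z, (ball a r).indicator (fun _ => (1 / 16 : ℝ)) z ∂μ ≤ GG μ a s := by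
    refine integral_mono
      ((integrable_indicator_iff measurableSet_ball).2 (integrableOn_const hfin.ne))
      (integrable_rad1 μ continuous_PP PP_zero a hs) fun z => ?_
    by_cases hz : z ∈ ball a r
    · rw [indicator_of_mem hz]
      rw [mem_ball_iff_norm] at hz
      exact le_PP (tau_le hs (by linarith))
    · rw [indicator_of_notMem hz]
      exact PP_nonneg _
  rw [integral_indicator_const _ measurableSet_ball, smul_eq_mul] at h1
  linarith

theorem SS_nonneg (hI : Ids U h μ) (a : ℂ) (s : ℝ) : 0 ≤ SS U a s :=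
  div_nonneg (integral_nonneg fun z => mul_nonneg (rho_nonneg _) (hI.nonneg z)) (sq_nonneg s)

theorem SS_le (hI : Ids U h μ) {a : ℂ} {s B : ℝ} (hs : 0 < s) (hB : Bd U a s B) :
    SS U a s ≤ B := by
  unfold SS
  have e : B * s ^ 2 = ∫ z, B * rho (‖z - a‖ ^ 2 / s ^ 2) := by
    rw [integral_const_mul, integral_rho a hs]
  rw [div_le_iff₀ (by positivity), e]
  refine integral_mono (integrable_rad volume continuous_rho rho_zero hI.lip.continuous a hs)
    ((integrable_rad1 volume continuous_rho rho_zero a hs).const_mul B) fun z => ?_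
  by_cases hz : z ∈ closedBall a s
  · simp only
    rw [mul_comm B]
    exact mul_le_mul_of_nonneg_left (hB z hz) (rho_nonneg _)
  · rw [mem_closedBall_iff_norm, not_le] at hz
    simp only
    rw [rho_zero _ (one_le_tau hs hz.le)]
    simp

theorem abs_sub_le_lip (hI : Ids U h μ) (z a : ℂ) : |U z - U a| ≤ ‖z - a‖ := by
  have := hI.lip.dist_le_mul z a
  rwa [Real.dist_eq, dist_eq_norm, NNReal.coe_one, one_mul] at this

theorem sub_le_SS (hI : Ids U h μ) (a : ℂ) {s : ℝ} (hs : 0 < s) : U a - s ≤ SS U a s := by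
  unfold SS
  have e : (U a - s) * s ^ 2 = ∫ z, (U a - s) * rho (‖z - a‖ ^ 2 / s ^ 2) := by
    rw [integral_const_mul, integral_rho a hs]
  rw [le_div_iff₀ (by positivity), e]
  refine integral_mono ((integrable_rad1 volume continuous_rho rho_zero a hs).const_mul _)
    (integrable_rad volume continuous_rho rho_zero hI.lip.continuous a hs) fun z => ?_
  by_cases hz : z ∈ closedBall a s
  · simp only
    rw [mul_comm (U a - s)]
    rw [mem_closedBall_iff_norm] at hz
    have := (abs_le.1 (abs_sub_le_lip hI z a)).1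
    exact mul_le_mul_of_nonneg_left (by linarith) (rho_nonneg _)
  · rw [mem_closedBall_iff_norm, not_le] at hz
    simp only
    rw [rho_zero _ (one_le_tau hs hz.le)]
    simp

theorem SS_le_add (hI : Ids U h μ) (a : ℂ) {s : ℝ} (hs : 0 < s) : SS U a s ≤ U a + s := by
  refine SS_le hI hs fun z hz => ?_
  rw [mem_closedBall_iff_norm] at hz
  have := (abs_le.1 (abs_sub_le_lip hI z a)).2
  linarith

theorem le_SS (hI : Ids U h μ) (a : ℂ) {s : ℝ} (hs : 0 < s) : U a ≤ SS U a s := by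
  refine le_of_forall_pos_le_add fun ε hε => ?_
  have hm : 0 < min ε s := lt_min hε hs
  have h1 := SS_lower hI a (m := 0) hm (min_le_right ε s) fun t _ => GG_nonneg μ a t
  have h2 := sub_le_SS hI a hm
  have h3 := min_le_left ε s
  simp only [zero_div, zero_mul, add_zero] at h1
  linarith

theorem integrableOn_U (hI : Ids U h μ) (a : ℂ) (s : ℝ) : IntegrableOn U (ball a s) :=
  (hI.lip.continuous.continuousOn.integrableOn_compact (isCompact_closedBall a s)).mono_set
    ball_subset_closedBall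

theorem SS_le_int (hI : Ids U h μ) (a : ℂ) {s : ℝ} (hs : 0 < s) :
    SS U a s ≤ 2 / s ^ 2 * ∫ z in ball a s, U z := by
  have h1 : ∫ z, rho (‖z - a‖ ^ 2 / s ^ 2) * U z ≤ 2 * ∫ z in ball a s, U z := by
    rw [← integral_indicator measurableSet_ball, ← integral_const_mul]
    refine integral_mono (integrable_rad volume continuous_rho rho_zero hI.lip.continuous a hs)
      (((integrable_indicator_iff measurableSet_ball).2 (integrableOn_U hI a s)).const_mul 2)
      fun z => ?_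
    by_cases hz : z ∈ ball a s
    · simp only
      rw [indicator_of_mem hz]
      exact mul_le_mul_of_nonneg_right (rho_le (tau_nonneg a z s)) (hI.nonneg z)
    · simp only
      rw [indicator_of_notMem hz]
      rw [mem_ball_iff_norm, not_lt] at hz
      rw [rho_zero _ (one_le_tau hs hz)]
      simp
  unfold SS
  rw [div_le_iff₀ (by positivity)]
  calc _ ≤ _ := h1
    _ = _ := by field_simp

theorem le_SS_center (hI : Ids U h μ) (a c : ℂ) {s : ℝ} (hs : 0 < s) (hac : 4 * ‖a - c‖ ≤ s) :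
    U a ≤ 128 * SS U c s := by
  have hs4 : 0 < s / 4 := by positivity
  have h1 := (le_SS hI a hs4).trans (SS_le_int hI a hs4)
  have h2 : ∫ z in ball a (s / 4), U z ≤ 4 * ∫ z, rho (‖z - c‖ ^ 2 / s ^ 2) * U z := by
    rw [← integral_indicator measurableSet_ball, ← integral_const_mul]
    refine integral_mono
      ((integrable_indicator_iff measurableSet_ball).2 (integrableOn_U hI a _))
      ((integrable_rad volume continuous_rho rho_zero hI.lip.continuous c hs).const_mul 4)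
      fun z => ?_
    by_cases hz : z ∈ ball a (s / 4)
    · simp only
      rw [indicator_of_mem hz]
      rw [mem_ball_iff_norm] at hz
      have h3 : ‖z - c‖ ≤ s / 2 := by
        have := norm_sub_le_norm_sub_add_norm_sub z a c
        linarith
      have h4 := le_rho (tau_le hs h3)
      nlinarith [hI.nonneg z]
    · simp only
      rw [indicator_of_notMem hz]
      exact mul_nonneg (by norm_num) (mul_nonneg (rho_nonneg _) (hI.nonneg z))
  calc U a ≤ 2 / (s / 4) ^ 2 * ∫ z in ball a (s / 4), U z := h1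
    _ ≤ 2 / (s / 4) ^ 2 * (4 * ∫ z, rho (‖z - c‖ ^ 2 / s ^ 2) * U z) := by gcongr
    _ = 128 * SS U c s := by unfold SS; field_simp; ring

theorem integrableOn_h (hI : Ids U h μ) (R : ℝ) : IntegrableOn (fun z => ‖h z‖) (ball 0 R) := by
  refine Measure.integrableOn_of_bounded (M := 1) measure_ball_lt_top.ne
    hI.meas.norm.aestronglyMeasurable (Eventually.of_forall fun z => ?_)
  simpa using hI.le z

theorem trans_key (hI : Ids U h μ) (c v : ℂ) {s R : ℝ} (hs : 0 < s) (hc : ‖c‖ + s ≤ R) :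
    ∫ z, rho1 (‖z - c‖ ^ 2 / s ^ 2) * (-2 * ((z - c) * conj v).re / s ^ 2) * U z
      ≤ 2 * ‖v‖ * ∫ z in ball 0 R, ‖h z‖ := by
  have hφ := contDiff_radial contDiff_rho c s
  have hφc := hasCompactSupport_radial rho_zero c hs
  have e1 := hI.p1 _ hφ hφc
  have hi : Integrable (fun z => (U z : ℂ)
      * dbar (fun w => ((rho (‖w - c‖ ^ 2 / s ^ 2) : ℝ) : ℂ)) z) :=
    ((Complex.continuous_ofReal.comp hI.lip.continuous).mul
      (continuous_dbar hφ).1).integrable_of_hasCompactSupport (hasCompactSupport_dbar hφc).1.mul_left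
  have h1 : ∫ z, rho1 (‖z - c‖ ^ 2 / s ^ 2) * (-2 * ((z - c) * conj v).re / s ^ 2) * U z
      = (∫ z, (-2 * conj v) * ((U z : ℂ)
        * dbar (fun w => ((rho (‖w - c‖ ^ 2 / s ^ 2) : ℝ) : ℂ)) z)).re := by
    have := integral_re (hi.const_mul (-2 * conj v))
    simp only [RCLike.re_to_complex] at this
    rw [← this]
    congr 1; ext z
    rw [(dbar_radial (z := z) c s (hasDerivAt_rho _)).2.1]
    have : -2 * conj v * ((U z : ℂ) * (((rho1 (‖z - c‖ ^ 2 / s ^ 2) : ℝ) : ℂ) * (z - c) / s ^ 2))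
        = ((rho1 (‖z - c‖ ^ 2 / s ^ 2) * (-2 / s ^ 2) * U z : ℝ) : ℂ) * ((z - c) * conj v) := by
      push_cast; ring
    rw [this, Complex.re_ofReal_mul]
    ring
  have h2 : ‖∫ z, ((rho (‖z - c‖ ^ 2 / s ^ 2) : ℝ) : ℂ) * conj (h z)‖
      ≤ 2 * ∫ z in ball 0 R, ‖h z‖ := by
    rw [← integral_indicator measurableSet_ball, ← integral_const_mul]
    refine norm_integral_le_of_norm_le
      (((integrable_indicator_iff measurableSet_ball).2 (integrableOn_h hI R)).const_mul 2)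
      (Eventually.of_forall fun z => ?_)
    rw [norm_mul, Complex.norm_real, Complex.norm_conj, Real.norm_of_nonneg (rho_nonneg _)]
    by_cases hz : z ∈ ball (0 : ℂ) R
    · rw [indicator_of_mem hz]
      exact mul_le_mul_of_nonneg_right (rho_le (tau_nonneg c z s)) (norm_nonneg _)
    · rw [indicator_of_notMem hz]
      rw [mem_ball_zero_iff, not_lt] at hz
      have := norm_sub_norm_le z c
      rw [rho_zero _ (one_le_tau hs (by linarith))]
      simp
  rw [h1, integral_const_mul, e1]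
  refine (Complex.re_le_norm _).trans ?_
  rw [norm_mul, norm_mul, norm_mul, Complex.norm_conj]
  have h3 : ‖(-2 : ℂ)‖ = 2 := by simp
  have h4 : ‖(-(1 / 2) : ℂ)‖ = 1 / 2 := by simp
  rw [h3, h4]
  nlinarith [norm_nonneg v]

theorem hasDerivAt_trans (hI : Ids U h μ) (b v : ℂ) {s : ℝ} (hs : 0 < s) (t₀ : ℝ) :
    HasDerivAt (fun t : ℝ => ∫ z, rho (‖z - (b + t * v)‖ ^ 2 / s ^ 2) * U z)
      (∫ z, rho1 (‖z - (b + t₀ * v)‖ ^ 2 / s ^ 2)
        * (-2 * ((z - (b + t₀ * v)) * conj v).re / s ^ 2) * U z) t₀ := by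
  have hU := hI.lip.continuous
  obtain ⟨B, hB⟩ := locBd hI (‖b‖ + (|t₀| + 1) * ‖v‖ + s)
  have hB0 : 0 ≤ B := (abs_nonneg _).trans (hB 0 (by simp; positivity))
  refine (hasDerivAt_integral_of_dominated_loc_of_deriv_le (s := ball t₀ 1)
    (F := fun (t : ℝ) (z : ℂ) => rho (‖z - (b + t * v)‖ ^ 2 / s ^ 2) * U z)
    (F' := fun (t : ℝ) (z : ℂ) => rho1 (‖z - (b + t * v)‖ ^ 2 / s ^ 2)
        * (-2 * ((z - (b + t * v)) * conj v).re / s ^ 2) * U z)
    (bound := (closedBall (0 : ℂ) (‖b‖ + (|t₀| + 1) * ‖v‖ + s)).indicator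
      fun _ => 4 * (2 * (s * ‖v‖) / s ^ 2) * B)
    (ball_mem_nhds t₀ one_pos)
    (Eventually.of_forall fun t =>
      (integrable_rad volume continuous_rho rho_zero hU _ hs).aestronglyMeasurable)
    (integrable_rad volume continuous_rho rho_zero hU _ hs) ?_
    (Eventually.of_forall fun z t ht => ?_)
    ((integrable_indicator_iff measurableSet_closedBall).2
      (integrableOn_const measure_closedBall_lt_top.ne))
    (Eventually.of_forall fun z t _ => ?_)).2
  · have := continuous_rho1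
    have h2 : Continuous fun z : ℂ => conj v := continuous_const
    exact Continuous.aestronglyMeasurable (by fun_prop)
  · by_cases hz : ‖z - (b + t * v)‖ ≤ s
    · have ht' : |t| ≤ |t₀| + 1 := by
        rw [mem_ball, Real.dist_eq] at ht
        have := abs_sub_abs_le_abs_sub t t₀
        linarith
      have hz' : ‖z‖ ≤ ‖b‖ + (|t₀| + 1) * ‖v‖ + s := by
        have h1 := norm_sub_norm_le z (b + t * v)
        have h2 := norm_add_le b (t * v)
        rw [norm_mul, Complex.norm_real, Real.norm_eq_abs] at h2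
        have h3 : |t| * ‖v‖ ≤ (|t₀| + 1) * ‖v‖ := by gcongr
        linarith
      rw [indicator_of_mem (mem_closedBall_zero_iff.2 hz'), Real.norm_eq_abs, abs_mul, abs_mul]
      have h4 : |(-2 * ((z - (b + t * v)) * conj v).re / s ^ 2)| ≤ 2 * (s * ‖v‖) / s ^ 2 := by
        rw [abs_div, abs_mul, abs_of_pos (pow_pos hs 2), abs_neg, abs_two]
        have h5 := Complex.abs_re_le_norm ((z - (b + t * v)) * conj v)
        rw [norm_mul, Complex.norm_conj] at h5
        have h6 : ‖z - (b + t * v)‖ * ‖v‖ ≤ s * ‖v‖ := by gcongr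
        gcongr
        exact h5.trans h6
      have h7 := abs_rho1_le (tau_nonneg (b + t * v) z s)
      have h8 := hB z hz'
      gcongr
    · rw [rho1_zero _ (one_le_tau hs (not_le.1 hz).le)]
      simp only [zero_mul, norm_zero]
      exact indicator_nonneg (fun _ _ => by positivity) z
  · have h1 : HasDerivAt (fun t : ℝ => z - (b + t * v)) (-v) t := by
      have h0 : HasDerivAt (fun t : ℝ => (t : ℂ)) 1 t := Complex.ofRealCLM.hasDerivAt
      simpa using ((h0.mul_const v).const_add b).const_sub z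
    have h2 := ((hasDerivAt_rho _).comp t (h1.norm_sq.div_const (s ^ 2))).mul_const (U z)
    refine HasDerivAt.congr_deriv h2 ?_
    congr 3
    rw [Complex.inner]
    simp
    ring

theorem SS_trans (hI : Ids U h μ) (a b : ℂ) {s R : ℝ} (hs : 0 < s) (ha : ‖a‖ + s ≤ R)
    (hb : ‖b‖ + s ≤ R) :
    SS U a s ≤ SS U b s + 2 * ‖a - b‖ / s ^ 2 * ∫ z in ball 0 R, ‖h z‖ := by
  set K := 2 * ‖a - b‖ * ∫ z in ball (0 : ℂ) R, ‖h z‖ with hK
  have h1 := le_of_deriv
    (f := fun t : ℝ => K * t - ∫ z, rho (‖z - (b + t * (a - b))‖ ^ 2 / s ^ 2) * U z)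
    (f' := fun t : ℝ => K * 1 - ∫ z, rho1 (‖z - (b + t * (a - b))‖ ^ 2 / s ^ 2)
        * (-2 * ((z - (b + t * (a - b))) * conj (a - b)).re / s ^ 2) * U z) zero_le_one
    (fun t _ => ((hasDerivAt_id t).const_mul K).sub (hasDerivAt_trans hI b (a - b) hs t))
    (fun t ht => by
      have h2 : ‖b + t * (a - b)‖ + s ≤ R := by
        have h3 : b + t * (a - b) = ((1 - t : ℝ) : ℂ) * b + t * a := by push_cast; ring
        have h4 := norm_add_le (((1 - t : ℝ) : ℂ) * b) (t * a)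
        rw [norm_mul, norm_mul, Complex.norm_real, Complex.norm_real,
          Real.norm_of_nonneg (sub_nonneg.2 ht.2), Real.norm_of_nonneg ht.1] at h4
        rw [h3]
        nlinarith [ht.1, ht.2]
      have := trans_key hI (b + t * (a - b)) (a - b) hs h2
      linarith)
  simp only [Complex.ofReal_zero, zero_mul, add_zero, mul_zero, Complex.ofReal_one, one_mul,
    add_sub_cancel, mul_one] at h1
  have h5 : 2 * ‖a - b‖ / s ^ 2 * ∫ z in ball (0 : ℂ) R, ‖h z‖ = K / s ^ 2 := by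
    rw [hK]; ring
  rw [h5]
  unfold SS
  rw [← add_div]
  gcongr
  linarith

end MeanA

open MeanA in
theorem mean : S_Mean := by
  refine ⟨128, by norm_num, fun U h μ hI => ?_⟩
  have := hI.fin
  refine ⟨fun a ρ s B hρ hρs hB => ?_, fun a s hs => ?_, fun a b s R B hs ha hb hB => ?_,
    fun a s₁ s₂ s₃ B h1 h12 h23 ha hB => ?_, fun z hz s hs => ?_⟩
  · have h1 := SS_lower hI a (x := 2 * ρ) (y := 2 * s) (m := μ.real (ball a ρ) / 16)
      (by positivity) (by linarith)
      (fun t ht => le_GG μ a (lt_of_lt_of_le (by positivity) ht.1) ht.1)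
    have h2 := SS_le hI (by linarith) hB
    have h3 := SS_nonneg hI a (2 * ρ)
    have h4 := SS_nonneg hI a (2 * s)
    rw [mul_div_mul_left _ _ two_ne_zero] at h1
    linarith
  · refine ((le_SS hI a hs).trans (SS_le_int hI a hs)).trans ?_
    have : 0 ≤ ∫ z in ball a s, U z := integral_nonneg fun z => hI.nonneg z
    gcongr
    norm_num
  · have h1 := SS_trans hI a b hs ha hb
    have h2 := le_SS hI a hs
    have h3 := SS_le hI hs hB
    have h4 : 0 ≤ ∫ z in ball (0 : ℂ) R, ‖h z‖ := integral_nonneg fun z => norm_nonneg _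
    have h5 : 2 * ‖a - b‖ / s ^ 2 * ∫ z in ball (0 : ℂ) R, ‖h z‖
        ≤ 128 * ‖a - b‖ / s ^ 2 * ∫ z in ball (0 : ℂ) R, ‖h z‖ := by
      gcongr
      norm_num
    linarith
  · have h2 : 0 < s₂ := h1.trans_le h12
    have h3 : 0 < s₃ := h2.trans_le h23
    have e0 := le_SS_center hI a 0 h3 (by simpa using ha)
    have e1 := SS_le hI h1 hB
    have e2 := SS_upper hI 0 h1 h12 fun t ht => GG_le μ 0 (h1.trans_le ht.1) ht.2
    have e3 := SS_upper hI 0 h2 h23 fun t ht => GG_le μ 0 (h2.trans_le ht.1) ht.2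
    have l2 : 0 ≤ μ.real (ball 0 s₂) * Real.log (s₂ / s₁) :=
      mul_nonneg measureReal_nonneg (Real.log_nonneg ((one_le_div h1).2 h12))
    have l3 : 0 ≤ μ.real (ball 0 s₃) * Real.log (s₃ / s₂) :=
      mul_nonneg measureReal_nonneg (Real.log_nonneg ((one_le_div h2).2 h23))
    linarith
  · by_contra hc
    have h0 : μ.real (ball z s) = 0 := le_antisymm (not_lt.1 hc) measureReal_nonneg
    have hUz : U z = 0 := by
      have := hI.toData.isOpen_Om.frontier_eq ▸ hz
      exact le_antisymm (not_lt.1 this.2) (hI.nonneg z)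
    have hS : SS U z s ≤ 0 := by
      refine le_of_forall_pos_le_add fun ε hε => ?_
      have hm : 0 < min ε s := lt_min hε hs
      have e1 := SS_upper hI z hm (min_le_right ε s) fun t ht => GG_le μ z (hm.trans_le ht.1) ht.2
      have e2 := SS_le_add hI z hm
      have e3 := min_le_left ε s
      rw [h0] at e1
      simp only [zero_div, zero_mul, add_zero] at e1
      linarith
    obtain ⟨w, hw, hwz⟩ := Metric.mem_closure_iff.1 (frontier_subset_closure hz) (s / 4)
      (by positivity)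
    rw [dist_comm, dist_eq_norm] at hwz
    have e4 := le_SS_center hI w z hs (by linarith)
    have e5 : 0 < U w := hw
    linarith

end MW.PL
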