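import Pool.Agent.P.MP_064970_gt.PL.Calc

/-! Row PL-P6: At a peak `k`, `r = 2^k`, `σ = Mx r / r`. For `s ≥ r` and small `t`, `LIC.gen` with
`T = t s`, `LIC.disc` and `noat` give `Ar 0 s ≤ C Mx (8 s)² / log (1/t)`; so the hypotheses of `S_Grad`
hold at radius `2 r` (`q₂ < 2` makes the tail converge). `trans` from the maximum point to `0` at
scale `2^(k - J)`, `q₁^J ≥ 2`, gives a contradiction. -/

open Complex InnerProductSpace Set Filter Topology Metric MeasureTheory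
open scoped Real ComplexConjugate ENNReal

namespace MW.PL

open MW.AN

theorem P6_vol_ne (U : ℂ → ℝ) (c : ℂ) (r : ℝ) : volume (Fz U ∩ ball c r) ≠ ∞ :=
  ((measure_mono inter_subset_right).trans_lt measure_ball_lt_top).ne

theorem P6_ball_sub {w : ℂ} {a b c : ℝ} (hw : ‖w‖ ≤ a) (h : a + b ≤ c) :
    ball w b ⊆ ball (0 : ℂ) c :=
  ball_subset_ball' (by rw [dist_zero_right]; linarith)

/-- The area of the zero set is small against the square of the maximum. -/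
theorem P6_area {c₀ C Cm : ℝ} {U : ℂ → ℝ} {h : ℂ → ℂ} {μ : Measure ℂ} (hc₀ : 0 < c₀)
    (hC : 0 < C) (hCm : 0 < Cm) (hD : Data U h) (hM : MeanC Cm U h μ) (hL : LIC c₀ C U μ)
    (hdens : ∀ ε > 0, ∃ r₀ : ℝ, 0 < r₀ ∧ ∀ r, r₀ ≤ r → Ar U 0 r ≤ ε * r ^ 2) {η : ℝ}
    (hη : 0 < η) : ∃ s₀ : ℝ, 0 < s₀ ∧ ∀ s, s₀ ≤ s → Ar U 0 s ≤ η * Mx U (8 * s) ^ 2 := by
  have hl2 : 0 < Real.log 2 := Real.log_pos (by norm_num)
  have hsC : 0 < √C := Real.sqrt_pos.mpr hC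
  obtain ⟨L, hL0, hLe⟩ : ∃ L : ℝ, 0 < L ∧ C * √C * Cm ^ 2 = η * L * Real.log 2 :=
    ⟨C * √C * Cm ^ 2 / (η * Real.log 2), by positivity, by field_simp⟩
  obtain ⟨t, ht0, ht1, htL⟩ : ∃ t : ℝ, 0 < t ∧ t < 1 ∧ Real.log t = -L :=
    ⟨Real.exp (-L), Real.exp_pos _, Real.exp_lt_one_iff.mpr (by linarith), Real.log_exp _⟩
  obtain ⟨r₀, hr₀, hd⟩ := hdens (c₀ * t ^ 2 / 16) (by positivity)
  refine ⟨r₀, hr₀, fun s hs => ?_⟩
  have hs0 : 0 < s := hr₀.trans_le hs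
  have hts : t * s < s := by nlinarith
  have hT : 0 < t * s := by positivity
  have h4 : Ar U 0 (4 * s) ≤ c₀ * (t * s) ^ 2 :=
    (hd (4 * s) (by linarith)).trans_eq (by ring)
  set X := Mx U (8 * s) with hX
  have hX0 : 0 ≤ X := (hD.Mx_mono (r := 8 * s) (by positivity) le_rfl).1
  have hbd : Bd U 0 (8 * s) X := hD.bd_Mx _
  have hN : μ.real (ball 0 (2 * s)) ≤ Cm * X / Real.log 2 := by
    have h1 := hM.noat 0 (2 * s) (4 * s) X (by positivity) (by linarith)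
      (by rwa [show 2 * (4 * s) = 8 * s by ring])
    rw [show 4 * s / (2 * s) = 2 by field_simp; norm_num] at h1
    rwa [le_div_iff₀ hl2]
  have hζ : ∀ ζ ∈ ball (0 : ℂ) (2 * s), Ar U ζ (t * s) ≤ (√C * (Cm * X / L)) ^ 2 := by
    intro ζ hζ
    have hζ' : ‖ζ‖ ≤ 2 * s := (mem_ball_zero_iff.mp hζ).le
    have h1 := hL.disc ζ (t * s) hT
      ((Ar_mono U (P6_ball_sub (c := 4 * s) hζ' (by linarith))).trans h4)
    have h2 := hM.noat ζ (2 * (t * s)) (2 * s) X (by positivity) (by linarith) (fun z hz =>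
      hbd z (closedBall_subset_closedBall' (by rw [dist_zero_right]; linarith) hz))
    have h3 : Real.log (2 * s / (2 * (t * s))) = L := by
      rw [show 2 * s / (2 * (t * s)) = t⁻¹ by field_simp, Real.log_inv, htL, neg_neg]
    rw [h3, ← le_div_iff₀ hL0] at h2
    rw [mul_pow, Real.sq_sqrt hC.le]
    exact h1.trans (mul_le_mul_of_nonneg_left
      (pow_le_pow_left₀ measureReal_nonneg h2 2) hC.le)
  have key := hL.gen (Fz U ∩ ball 0 s) (ball 0 (2 * s)) (t * s) (√C * (Cm * X / L))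
    (hD.isClosed_Fz.measurableSet.inter measurableSet_ball) inter_subset_left measurableSet_ball
    isBounded_ball hT (by positivity)
    (fun w hw => P6_ball_sub (mem_ball_zero_iff.mp hw.2).le (by linarith))
    (fun w hw => (Ar_mono U (P6_ball_sub (c := 4 * s) (mem_ball_zero_iff.mp hw.2).le
      (by linarith))).trans h4)
    (fun ζ hζ' => (measureReal_mono (inter_subset_inter_left _ inter_subset_left)
      (P6_vol_ne U ζ _)).trans (hζ ζ hζ'))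
  refine key.trans ((mul_le_mul_of_nonneg_left hN (by positivity)).trans_eq ?_)
  have e : C * (√C * (Cm * X / L)) * (Cm * X / Real.log 2) =
      C * √C * Cm ^ 2 * X ^ 2 / (L * Real.log 2) := by field_simp
  rw [e, hLe]
  field_simp

/-- Dyadic summation of the tail integral. -/
theorem P6_tail {U : ℂ → ℝ} {ρ E θ : ℝ} (hρ : 0 < ρ) (hE : 0 ≤ E) (h0 : 0 ≤ θ) (h1 : θ < 1)
    (h : ∀ j : ℕ, Ar U 0 (2 ^ (j + 1) * ρ) ≤ E * θ ^ j * (2 ^ j * ρ) ^ 2) :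
    ∫⁻ w in Fz U \ ball 0 ρ, k2 0 w ≤ ENNReal.ofReal (E * (1 - θ)⁻¹) := by
  have hcov : Fz U \ ball 0 ρ ⊆
      ⋃ j : ℕ, (Fz U ∩ ball 0 (2 ^ (j + 1) * ρ)) ∩ {w : ℂ | 2 ^ j * ρ ≤ ‖w‖} := by
    intro w hw
    have hw' : 1 ≤ ‖w‖ / ρ := by
      rw [le_div_iff₀ hρ, one_mul]
      exact not_lt.mp fun hh => hw.2 (mem_ball_zero_iff.mpr hh)
    obtain ⟨j, hj, hj'⟩ := exists_nat_pow_near hw' (one_lt_two (α := ℝ))
    rw [le_div_iff₀ hρ] at hj
    rw [div_lt_iff₀ hρ] at hj'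
    exact mem_iUnion.mpr ⟨j, ⟨hw.1, mem_ball_zero_iff.mpr hj'⟩, hj⟩
  have hj : ∀ j : ℕ, ∫⁻ w in (Fz U ∩ ball 0 (2 ^ (j + 1) * ρ)) ∩ {w : ℂ | 2 ^ j * ρ ≤ ‖w‖},
      k2 0 w ≤ ENNReal.ofReal (E * θ ^ j) := by
    intro j
    have hp : 0 < 2 ^ j * ρ := by positivity
    refine (setLIntegral_mono (g := fun _ => ENNReal.ofReal ((2 ^ j * ρ)⁻¹ ^ 2)) measurable_const
      fun w hw => ?_).trans ?_
    · refine ENNReal.ofReal_le_ofReal (pow_le_pow_left₀ (by positivity) ?_ 2)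
      rw [sub_zero]
      exact inv_anti₀ hp hw.2
    · rw [setLIntegral_const]
      have hv : volume ((Fz U ∩ ball 0 (2 ^ (j + 1) * ρ)) ∩ {w : ℂ | 2 ^ j * ρ ≤ ‖w‖}) ≤
          ENNReal.ofReal (E * θ ^ j * (2 ^ j * ρ) ^ 2) := by
        refine (measure_mono inter_subset_left).trans ?_
        rw [← ofReal_measureReal (P6_vol_ne U 0 _)]
        exact ENNReal.ofReal_le_ofReal (h j)
      refine (mul_le_mul_right hv _).trans_eq ?_
      rw [← ENNReal.ofReal_mul (by positivity)]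
      congr 1
      field_simp
  refine (lintegral_mono_set hcov).trans ((lintegral_iUnion_le _ _).trans
    ((ENNReal.tsum_le_tsum hj).trans_eq ?_))
  rw [← ENNReal.ofReal_tsum_of_nonneg (fun j => by positivity)
    ((summable_geometric_of_lt_one h0 h1).mul_left E), tsum_mul_left,
    tsum_geometric_of_lt_one h0 h1]

theorem p6_of (h₁ : S_Mean) (h₂ : S_Dens) (h₃ : S_LI) (h₄ : S_Grad) (h₅ : S_P5) (h₆ : S_Peak) :
    S_P6 := by
  intro U h μ hI q hq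
  obtain ⟨Cm, hCm, hM⟩ := h₁
  obtain ⟨c₀, C, hc₀, hC, hL⟩ := h₃
  have hD : Data U h := hI.toData
  have hM := hM U h μ hI
  obtain ⟨q₀, C₀, hq₀, hq₀', hP5⟩ := h₅ U h μ hI
  by_contra hcon
  push Not at hcon
  obtain ⟨q₁, hq₁, hq₁q, hq₁'⟩ : ∃ q₁ : ℝ, 1 < q₁ ∧ q₁ ≤ q ∧ q₁ ≤ 3 / 2 :=
    ⟨min q (3 / 2), lt_min hq (by norm_num), min_le_left _ _, min_le_right _ _⟩
  obtain ⟨q₂, h02, h12, h22⟩ : ∃ q₂ : ℝ, q₀ < q₂ ∧ q₁ ≤ q₂ ∧ q₂ < 2 :=
    ⟨max ((q₀ + 2) / 2) (3 / 2), lt_max_of_lt_left (by linarith),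
      le_max_of_le_right hq₁', max_lt (by linarith) (by norm_num)⟩
  have hq₂ : 0 < q₂ := hq₀.trans h02
  have hM0 : ∀ k : ℕ, 0 ≤ Mx U (2 ^ k) := fun k =>
    (hD.Mx_mono (r := 2 ^ k) (by positivity) le_rfl).1
  have hpk := h₆ (fun k => Mx U (2 ^ k)) C₀ q₀ q₁ q₂ hM0 hq₀ h02 (by linarith) h12 hP5 (by
    intro C'
    obtain ⟨k, hk⟩ := hcon (max C' 0)
    refine ⟨k, lt_of_le_of_lt ?_ hk⟩
    exact (mul_le_mul_of_nonneg_right (le_max_left C' 0) (by positivity)).trans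
      (mul_le_mul_of_nonneg_left (pow_le_pow_left₀ (by linarith) hq₁q k) (le_max_right _ _)))
  obtain ⟨J, hJ⟩ := pow_unbounded_of_one_lt (2 : ℝ) hq₁
  obtain ⟨η, hη, hG⟩ := h₄ (1 / (16 * Cm * 4 ^ J)) 8 (by positivity) (by norm_num)
  obtain ⟨θ, hθ0, hθ1, hθ⟩ : ∃ θ : ℝ, 0 ≤ θ ∧ θ < 1 ∧ q₂ ^ 2 = 4 * θ :=
    ⟨q₂ ^ 2 / 4, by positivity, by nlinarith, by ring⟩
  have hθ' : 0 < 1 - θ := by linarith
  obtain ⟨s₀, hs₀, hA⟩ := P6_area hc₀ hC hCm hD hM (hL U h μ hI) (h₂ U h μ hI)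
    (η := η * (1 - θ) / 256) (by positivity)
  obtain ⟨r₁, hr₁, hsub⟩ := hD.Mx_sub 1 one_pos
  obtain ⟨T, hT⟩ := pow_unbounded_of_one_lt (max s₀ r₁) (one_lt_two (α := ℝ))
  obtain ⟨k, hk, hMk, hup, hdown⟩ := hpk (max T J)
  have hTk : (2 : ℝ) ^ T ≤ 2 ^ k := pow_le_pow_right₀ one_le_two ((le_max_left _ _).trans hk)
  have hJk : J ≤ k := (le_max_right _ _).trans hk
  obtain ⟨r, hr⟩ : ∃ r : ℝ, r = 2 ^ k := ⟨_, rfl⟩
  have hr0 : 0 < r := by rw [hr]; positivity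
  have hrs : s₀ ≤ r := by rw [hr]; linarith [le_max_left s₀ r₁]
  have hrr : r₁ ≤ r := by rw [hr]; linarith [le_max_right s₀ r₁]
  obtain ⟨σ, hσ⟩ : ∃ σ : ℝ, Mx U r = σ * r := ⟨Mx U r / r, by field_simp⟩
  simp only [← hr] at hMk hup hdown
  have hσ0 : 0 < σ := by
    rw [hσ] at hMk
    exact (mul_pos_iff_of_pos_right hr0).mp hMk
  have hσ1 : σ ≤ 1 := by
    have := hsub r hrr
    rw [hσ] at this
    exact le_of_mul_le_mul_right this hr0
  have hup' : ∀ j : ℕ, Mx U (2 ^ j * r) ≤ σ * r * q₂ ^ j := by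
    intro j
    have := hup j
    rwa [pow_add, ← hr, mul_comm r, hσ] at this
  have harea : ∀ j : ℕ, Ar U 0 (2 ^ j * r) ≤ η * (1 - θ) / 256 * (σ * r * q₂ ^ (j + 3)) ^ 2 := by
    intro j
    have h1 : r ≤ 2 ^ j * r := le_mul_of_one_le_left hr0.le (one_le_pow₀ one_le_two)
    refine (hA _ (hrs.trans h1)).trans (mul_le_mul_of_nonneg_left ?_ (by positivity))
    have e : 8 * (2 ^ j * r) = 2 ^ (j + 3) * r := by ring
    rw [e]
    exact pow_le_pow_left₀ (hD.Mx_mono (r := 2 ^ (j + 3) * r) (by positivity) le_rfl).1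
      (hup' _) 2
  have hpow : ∀ n : ℕ, q₂ ^ n ≤ 2 ^ n := fun n => pow_le_pow_left₀ hq₂.le h22.le n
  have hgrad := hG U h μ hI (2 * r) σ (by positivity) hσ0 hσ1 ?_ ?_ ?_
  · obtain ⟨a, ha, hUa⟩ := hD.exists_Mx hr0.le
    obtain ⟨s, hs⟩ : ∃ s : ℝ, s = 2 ^ (k - J) := ⟨_, rfl⟩
    have hs0 : 0 < s := by rw [hs]; positivity
    have hsr : r = 2 ^ J * s := by rw [hr, hs, ← pow_add, Nat.add_sub_cancel' hJk]
    have hsr' : s ≤ r := by
      rw [hsr]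
      exact le_mul_of_one_le_left hs0.le (one_le_pow₀ one_le_two)
    have h1 := hM.trans a 0 s (2 * r) (Mx U s) hs0 (by linarith)
      (by rw [norm_zero]; linarith) (hD.bd_Mx s)
    have h2 : Mx U s * 2 ≤ σ * r := by
      have h3 := hdown J hJk
      rw [← hs, hσ] at h3
      exact (mul_le_mul_of_nonneg_left hJ.le (hD.Mx_mono hs0.le le_rfl).1).trans h3
    have h3 : Cm * ‖a - 0‖ / s ^ 2 * ∫ z in ball 0 (2 * r), ‖h z‖ ≤
        Cm * r / s ^ 2 * (1 / (16 * Cm * 4 ^ J) * σ * (2 * r) ^ 2) := by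
      refine (mul_le_mul_of_nonneg_left hgrad (by positivity)).trans
        (mul_le_mul_of_nonneg_right ?_ (by positivity))
      rw [sub_zero]
      gcongr
    have h4 : Cm * r / s ^ 2 * (1 / (16 * Cm * 4 ^ J) * σ * (2 * r) ^ 2) = σ * r / 4 := by
      have e : (4 : ℝ) ^ J = (2 ^ J) ^ 2 := by rw [← pow_mul, mul_comm, pow_mul]; norm_num
      have e' : (2 * r) ^ 2 = 4 * (4 ^ J * s ^ 2) := by
        rw [e, ← mul_pow, ← hsr]
        ring
      rw [e']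
      field_simp
      norm_num
    rw [hUa, hσ] at h1
    have h5 : 0 < σ * r := by positivity
    linarith
  · intro z hz
    have h1 := hD.bd_Mx _ z hz
    have h2 := hup' 4
    rw [show (2 : ℝ) ^ 4 * r = 8 * (2 * r) by ring] at h2
    have h3 := mul_le_mul_of_nonneg_left (hpow 4) (show 0 ≤ σ * r by positivity)
    linarith
  · have h1 := harea 2
    rw [show (2 : ℝ) ^ 2 * r = 2 * (2 * r) by ring] at h1
    have h2 : (σ * r * q₂ ^ (2 + 3)) ^ 2 ≤ (σ * r * 2 ^ (2 + 3)) ^ 2 := by gcongr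
    have h3 : η * (1 - θ) / 256 ≤ η / 256 := by nlinarith
    refine h1.trans ((mul_le_mul h3 h2 (by positivity) (by positivity)).trans_eq ?_)
    ring
  · refine (P6_tail (E := η * σ ^ 2 * (1 - θ)) (by positivity) (by positivity) hθ0 hθ1
      fun j => ?_).trans_eq (by congr 1; field_simp)
    have h1 := harea (j + 3)
    rw [show (2 : ℝ) ^ (j + 3) * r = 2 ^ (j + 1) * (2 * (2 * r)) by ring] at h1
    refine h1.trans ?_
    have e : (σ * r * q₂ ^ (j + 3 + 3)) ^ 2 = (σ * r) ^ 2 * (4 * θ) ^ j * q₂ ^ 12 := by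
      rw [← hθ]
      ring
    have e' : (4 : ℝ) ^ j = (2 ^ j) ^ 2 := by rw [← pow_mul, mul_comm, pow_mul]; norm_num
    have h2 : (σ * r) ^ 2 * (4 * θ) ^ j * q₂ ^ 12 ≤ (σ * r) ^ 2 * (4 * θ) ^ j * 2 ^ 12 :=
      mul_le_mul_of_nonneg_left (hpow 12) (by positivity)
    rw [e]
    refine (mul_le_mul_of_nonneg_left h2 (by positivity)).trans_eq ?_
    rw [mul_pow 4 θ, e']
    ring

end MW.PL
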