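import Pool.Agent.P.MP_064970_gt.PL.Calc

/-! Row PL-P7: Suppose the mass is unbounded. By order zero there are `r` with `m = μ (ball 0 r)` large and
`μ (ball 0 s) ≤ (1 + ε) m (s / r)^γ` for `s ≥ r`. `S_Vir` against `S_Iso` (`R = 2 r`, `T = K m`,
`Ar 0 (6r) ≤ C m²`) gives `z` with `|z| < 4 r`, `μ (ball z (K m)) ≥ (1 - ε₃) m`; order zero gives
`|z| ≥ (K m)²`; `noat` at `z` (`ρ = K m`, `s = |z|`) against `up` (`s₁ = 1`, `s₂ = |z| / 2`,
`s₃ = 12 |z|`, `μ (ball 0 s₂) ≤ 2 ε₃ m`). -/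

open Complex InnerProductSpace Set Filter Topology Metric MeasureTheory
open scoped Real ComplexConjugate ENNReal

namespace MW.PL

open MW.AN

variable {U : ℂ → ℝ} {h : ℂ → ℂ} {μ : Measure ℂ}

theorem p7_fin (hI : Ids U h μ) (c : ℂ) (r : ℝ) : μ (ball c r) ≠ ∞ := by
  haveI := hI.fin
  exact measure_ball_lt_top.ne

theorem p7_mono (hI : Ids U h μ) {a b : ℂ} {s t : ℝ} (hs : ball a s ⊆ ball b t) :
    μ.real (ball a s) ≤ μ.real (ball b t) :=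
  measureReal_mono hs (p7_fin hI b t)

theorem p7_mono0 (hI : Ids U h μ) {s t : ℝ} (hs : s ≤ t) :
    μ.real (ball 0 s) ≤ μ.real (ball 0 t) :=
  p7_mono hI (ball_subset_ball hs)

/-- Order zero in the continuous variable. -/
theorem p7_Mpow (hI : Ids U h μ) (h0 : Ord0 U) {γ : ℝ} (hγ : 0 < γ) :
    ∃ C : ℝ, 0 < C ∧ ∀ r, 1 ≤ r → Mx U r ≤ C * r ^ γ := by
  obtain ⟨C, hC⟩ := h0 (2 ^ γ) (Real.one_lt_rpow (by norm_num) hγ)
  refine ⟨(|C| + 1) * 2 ^ γ, by positivity, fun r hr => ?_⟩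
  obtain ⟨k, hk1, hk2⟩ := exists_nat_pow_near hr (by norm_num : (1 : ℝ) < 2)
  have h1 : Mx U r ≤ Mx U (2 ^ (k + 1)) := (hI.toData.Mx_mono (by linarith) hk2.le).2
  have h2 : ((2 : ℝ) ^ γ) ^ (k + 1) = (2 ^ (k + 1)) ^ γ := by
    rw [← Real.rpow_natCast, ← Real.rpow_mul (by norm_num), mul_comm,
      Real.rpow_mul (by norm_num), Real.rpow_natCast]
  have h3 : ((2 : ℝ) ^ (k + 1)) ^ γ ≤ (2 * r) ^ γ :=
    Real.rpow_le_rpow (by positivity) (by rw [pow_succ]; linarith) hγ.le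
  have h4 : (2 * r) ^ γ = 2 ^ γ * r ^ γ := Real.mul_rpow (by norm_num) (by linarith)
  have h5 := hC (k + 1)
  have h6 : (0 : ℝ) ≤ (2 ^ (k + 1)) ^ γ := by positivity
  rw [h2] at h5
  calc Mx U r ≤ C * (2 ^ (k + 1)) ^ γ := h1.trans h5
    _ ≤ (|C| + 1) * (2 ^ (k + 1)) ^ γ :=
        mul_le_mul_of_nonneg_right (by linarith [le_abs_self C]) h6
    _ ≤ (|C| + 1) * (2 ^ γ * r ^ γ) :=
        mul_le_mul_of_nonneg_left (h4 ▸ h3) (by positivity)
    _ = (|C| + 1) * 2 ^ γ * r ^ γ := by ring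

/-- The mass has order zero. -/
theorem p7_mpow {Cm : ℝ} (hCm : 0 < Cm) (hI : Ids U h μ) (hM : MeanC Cm U h μ) (h0 : Ord0 U)
    {γ : ℝ} (hγ : 0 < γ) :
    ∃ C : ℝ, 0 < C ∧ ∀ r, 1 ≤ r → μ.real (ball 0 r) ≤ C * r ^ γ := by
  obtain ⟨C, hC, hb⟩ := p7_Mpow hI h0 hγ
  refine ⟨2 * Cm * C * 4 ^ γ, by positivity, fun r hr => ?_⟩
  have h1 := hM.noat 0 r (2 * r) (Mx U (2 * (2 * r))) (by linarith) (by linarith)
    (hI.toData.bd_Mx _)
  have h2 : 2 * r / r = 2 := by field_simp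
  rw [h2] at h1
  have h3 := hb (2 * (2 * r)) (by linarith)
  have h4 : (2 * (2 * r)) ^ γ = 4 ^ γ * r ^ γ := by
    rw [← Real.mul_rpow (by norm_num) (by linarith)]; congr 1; ring
  rw [h4] at h3
  have h5 : (1 / 2 : ℝ) ≤ Real.log 2 := by linarith [Real.log_two_gt_d9]
  have h6 : 0 ≤ μ.real (ball (0 : ℂ) r) := measureReal_nonneg
  have h7 := mul_le_mul_of_nonneg_left h5 h6
  have h8 := mul_le_mul_of_nonneg_left h3 hCm.le
  nlinarith

/-- A near maximum of `m s / s ^ γ`. -/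
theorem p7_peak {m : ℝ → ℝ} {C γ ε r₁ : ℝ} (hε : 0 < ε) (hr₁ : 1 ≤ r₁) (hpos : 0 < m r₁)
    (hb : ∀ s, 1 ≤ s → m s ≤ C * s ^ γ) :
    ∃ r, r₁ ≤ r ∧ ∀ s, r ≤ s → m s ≤ (1 + ε) * m r * (s / r) ^ γ := by
  set S : Set ℝ := (fun s => m s / s ^ γ) '' Ici r₁ with hS
  have hbdd : BddAbove S := by
    refine ⟨C, ?_⟩
    rintro _ ⟨s, hs, rfl⟩
    have hs1 : 1 ≤ s := hr₁.trans hs
    have : 0 < s ^ γ := Real.rpow_pos_of_pos (by linarith) γ
    exact (div_le_iff₀ this).2 (hb s hs1)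
  have hne : S.Nonempty := ⟨_, r₁, self_mem_Ici, rfl⟩
  have hp : 0 < sSup S := by
    refine lt_of_lt_of_le ?_ (le_csSup hbdd ⟨r₁, self_mem_Ici, rfl⟩)
    exact div_pos hpos (Real.rpow_pos_of_pos (by linarith) γ)
  have hlt : sSup S / (1 + ε) < sSup S := div_lt_self hp (by linarith)
  obtain ⟨_, ⟨r, hr, rfl⟩, hr2⟩ := exists_lt_of_lt_csSup hne hlt
  have hr0 : 0 < r := by have : r₁ ≤ r := hr; linarith
  refine ⟨r, hr, fun s hs => ?_⟩
  have hs0 : 0 < s := by linarith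
  have h1 : m s / s ^ γ ≤ sSup S := le_csSup hbdd ⟨s, le_trans (α := ℝ) hr hs, rfl⟩
  have h2 : sSup S ≤ (1 + ε) * (m r / r ^ γ) := by
    have := (div_lt_iff₀ (by linarith : 0 < 1 + ε)).1 hr2
    linarith
  have h3 : 0 < s ^ γ := Real.rpow_pos_of_pos hs0 γ
  have h4 := (div_le_iff₀ h3).1 (h1.trans h2)
  rw [Real.div_rpow hs0.le hr0.le]
  calc m s ≤ (1 + ε) * (m r / r ^ γ) * s ^ γ := h4
    _ = (1 + ε) * m r * (s ^ γ / r ^ γ) := by ring

theorem p7_unb (hI : Ids U h μ) (hinf : ¬ μ univ < ∞) (X : ℝ) :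
    ∃ r : ℝ, X < μ.real (ball 0 r) := by
  by_contra hc
  push Not at hc
  apply hinf
  have h1 : (univ : Set ℂ) = ⋃ n : ℕ, ball 0 (n : ℝ) := (iUnion_ball_nat (0 : ℂ)).symm
  have h2 : Monotone fun n : ℕ => ball (0 : ℂ) (n : ℝ) := fun a b hab =>
    ball_subset_ball (by exact_mod_cast hab)
  rw [h1, h2.measure_iUnion]
  refine lt_of_le_of_lt (iSup_le fun n => ?_) (ENNReal.ofReal_lt_top (r := X))
  rw [← ENNReal.ofReal_toReal (p7_fin hI 0 n)]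
  exact ENNReal.ofReal_le_ofReal (hc n)

/-- Good scales: the virial bound holds and the mass hardly grows up to `48 r`. -/
theorem p7_scale {Cm : ℝ} (hCm : 0 < Cm) (h₄ : S_Vir) (hI : Ids U h μ) (hM : MeanC Cm U h μ)
    (h0 : Ord0 U) (hinf : ¬ μ univ < ∞) {δ : ℝ} (hδ : 0 < δ) (hδ1 : δ ≤ 1) (X Y : ℝ) :
    ∃ r : ℝ, 1 ≤ r ∧ Y ≤ r ∧ X < μ.real (ball 0 r) ∧
      μ.real (ball 0 (48 * r)) ≤ (1 + δ) * μ.real (ball 0 r) ∧
      (1 - δ) * μ.real (ball 0 r) ^ 2 / (4 * π) ≤ Ar U 0 (2 * r) := by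
  obtain ⟨ε, γ, hε, hγ, hV⟩ := h₄ δ hδ
  obtain ⟨r₀, hr₀, hV⟩ := hV U h μ hI
  have hl : 0 < Real.log (1 + δ / 3) := Real.log_pos (by linarith)
  have hl48 : 0 < Real.log 48 := Real.log_pos (by norm_num)
  set γ' : ℝ := min γ (Real.log (1 + δ / 3) / Real.log 48) with hγ'
  set ε' : ℝ := min ε (δ / 3) with hε'
  have hγ'0 : 0 < γ' := lt_min hγ (div_pos hl hl48)
  have hε'0 : 0 < ε' := lt_min hε (by linarith)
  have h48 : (48 : ℝ) ^ γ' ≤ 1 + δ / 3 := by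
    rw [Real.rpow_def_of_pos (by norm_num), ← Real.le_log_iff_exp_le (by linarith)]
    have := (le_div_iff₀ hl48).1 (min_le_right γ (Real.log (1 + δ / 3) / Real.log 48))
    linarith
  obtain ⟨C, -, hC⟩ := p7_mpow hCm hI hM h0 hγ'0
  obtain ⟨r₂, hr₂⟩ := p7_unb hI hinf (max X 0)
  set r₁ : ℝ := max (max r₂ 1) (max r₀ Y) with hr₁
  have e1 : r₂ ≤ r₁ := (le_max_left _ _).trans (le_max_left _ _)
  have e2 : 1 ≤ r₁ := (le_max_right _ _).trans (le_max_left _ _)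
  have e3 : r₀ ≤ r₁ := (le_max_left _ _).trans (le_max_right _ _)
  have e4 : Y ≤ r₁ := (le_max_right _ _).trans (le_max_right _ _)
  have e5 := p7_mono0 hI e1
  obtain ⟨r, hr, hp⟩ := p7_peak (m := fun s => μ.real (ball (0 : ℂ) s)) hε'0 e2
    (lt_of_lt_of_le (lt_of_le_of_lt (le_max_right X 0) hr₂) e5) hC
  have e6 := p7_mono0 hI hr
  have e7 : 0 ≤ μ.real (ball (0 : ℂ) r) := measureReal_nonneg
  have hr0 : 0 < r := by linarith
  refine ⟨r, by linarith, by linarith, by linarith [le_max_left X 0], ?_, ?_⟩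
  · have h1 := hp (48 * r) (by linarith)
    have h2 : 48 * r / r = 48 := by field_simp
    rw [h2] at h1
    have h3 : 1 + ε' ≤ 1 + δ / 3 := by linarith [min_le_right ε (δ / 3)]
    have h4 : (1 + ε') * (48 : ℝ) ^ γ' ≤ (1 + δ / 3) * (1 + δ / 3) :=
      mul_le_mul h3 h48 (by positivity) (by linarith)
    have h5 : (1 + ε') * (48 : ℝ) ^ γ' ≤ 1 + δ := by nlinarith
    have h6 := mul_le_mul_of_nonneg_right h5 e7
    calc μ.real (ball 0 (48 * r)) ≤ (1 + ε') * μ.real (ball 0 r) * 48 ^ γ' := h1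
      _ = (1 + ε') * 48 ^ γ' * μ.real (ball 0 r) := by ring
      _ ≤ _ := h6
  · refine hV r (by linarith) fun s hs => (hp s hs).trans ?_
    have h1 : 1 ≤ s / r := (one_le_div hr0).2 hs
    have h2 : (s / r) ^ γ' ≤ (s / r) ^ γ := Real.rpow_le_rpow_of_exponent_le h1 (min_le_left _ _)
    have h3 : 1 + ε' ≤ 1 + ε := by linarith [min_le_left ε (δ / 3)]
    exact mul_le_mul (mul_le_mul_of_nonneg_right h3 e7) h2 (by positivity) (by positivity)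

/-- The arithmetic of `S_Vir` against `S_Iso`. -/
theorem p7_arith {δ m m₄ m₆ A A₂ CI CL K : ℝ} (hδ : 0 < δ) (hδ1 : δ ≤ 1 / 6) (hm : 0 < m)
    (hCI : 0 < CI) (hCL : 0 < CL) (hK : 1 ≤ K)
    (hKδ : 4 * π * CI * (16 * CL ^ 2 + 8 * CL) ≤ δ * K)
    (h4 : m₄ ≤ (1 + δ) * m) (h6 : m₆ ≤ 2 * m) (hA0 : 0 ≤ A)
    (hA : A ≤ 4 * CL * m ^ 2) (hV : (1 - δ) * m ^ 2 / (4 * π) ≤ A₂)
    (hI : A₂ ≤ (1 - 3 * δ) * m * m₄ / (4 * π) + CI * (A ^ 2 / (K * m) ^ 2 + m₆ * A / (K * m))) :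
    False := by
  have hπ : 0 < 4 * π := by positivity
  have hK0 : 0 < K := by linarith
  have h1 : A ^ 2 / (K * m) ^ 2 ≤ 16 * CL ^ 2 * m ^ 2 / K := by
    rw [div_le_div_iff₀ (by positivity) hK0]
    have a1 : A ^ 2 ≤ (4 * CL * m ^ 2) ^ 2 := pow_le_pow_left₀ hA0 hA 2
    have a2 : K ≤ K ^ 2 := by nlinarith
    calc A ^ 2 * K ≤ (4 * CL * m ^ 2) ^ 2 * K ^ 2 := mul_le_mul a1 a2 hK0.le (by positivity)
      _ = 16 * CL ^ 2 * m ^ 2 * (K * m) ^ 2 := by ring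
  have h2 : m₆ * A / (K * m) ≤ 8 * CL * m ^ 2 / K := by
    rw [div_le_div_iff₀ (by positivity) hK0]
    have a1 : m₆ * A ≤ 2 * m * (4 * CL * m ^ 2) := mul_le_mul h6 hA hA0 (by positivity)
    calc m₆ * A * K ≤ 2 * m * (4 * CL * m ^ 2) * K := mul_le_mul_of_nonneg_right a1 hK0.le
      _ = 8 * CL * m ^ 2 * (K * m) := by ring
  have h3 : CI * (A ^ 2 / (K * m) ^ 2 + m₆ * A / (K * m)) ≤ δ * m ^ 2 / (4 * π) := by
    have a1 : CI * (A ^ 2 / (K * m) ^ 2 + m₆ * A / (K * m))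
        ≤ CI * (16 * CL ^ 2 * m ^ 2 / K + 8 * CL * m ^ 2 / K) :=
      mul_le_mul_of_nonneg_left (add_le_add h1 h2) hCI.le
    refine a1.trans ?_
    have a2 : CI * (16 * CL ^ 2 * m ^ 2 / K + 8 * CL * m ^ 2 / K)
        = CI * (16 * CL ^ 2 + 8 * CL) * m ^ 2 / K := by ring
    rw [a2, div_le_div_iff₀ hK0 hπ]
    have a3 := mul_le_mul_of_nonneg_right hKδ (sq_nonneg m)
    linarith
  have h5 : (1 - 3 * δ) * m * m₄ / (4 * π) ≤ (1 - 3 * δ) * m * ((1 + δ) * m) / (4 * π) :=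
    div_le_div_of_nonneg_right
      (mul_le_mul_of_nonneg_left h4 (mul_nonneg (by linarith) hm.le)) hπ.le
  have h7 : (1 - δ) * m ^ 2 / (4 * π)
      ≤ ((1 - 3 * δ) * m * ((1 + δ) * m) + δ * m ^ 2) / (4 * π) := by
    rw [add_div]; linarith
  rw [div_le_div_iff_of_pos_right hπ] at h7
  have h8 : 0 < δ ^ 2 * m ^ 2 := by positivity
  nlinarith

/-- A disc of radius `ρ` far from the origin cannot carry most of the mass. -/
theorem p7_far {Cm δ m r ρ : ℝ} {z : ℂ} (hCm : 0 < Cm) (hI : Ids U h μ) (hM : MeanC Cm U h μ)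
    (hδ : 0 < δ) (hδ1 : δ ≤ 1 / 6) (hδ2 : 32 * δ * Cm ^ 2 ≤ 1) (hm : 1 ≤ m) (hρ : 2 ≤ ρ)
    (hz : ρ ^ 2 ≤ ‖z‖) (hzr : ‖z‖ < 4 * r) (h48 : μ.real (ball 0 (48 * r)) ≤ (1 + δ) * m)
    (hQ : (1 - 3 * δ) * m ≤ μ.real (ball z ρ)) :
    Real.log ‖z‖ ≤ 8 * Cm ^ 2 * (Mx U 1 + 2 * Real.log 24) := by
  set t : ℝ := ‖z‖ with ht
  have hρt : 2 * ρ ≤ t := by nlinarith
  have ht4 : 4 ≤ t := by linarith
  have hM1 : 0 ≤ Mx U 1 := (hI.toData.Mx_mono (r := 1) (r' := 1) (by norm_num) le_rfl).1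
  have hdis : Disjoint (ball (0 : ℂ) (t / 2)) (ball z ρ) := by
    refine ball_disjoint_ball ?_
    rw [dist_zero_left]; linarith
  have hsub : ball (0 : ℂ) (t / 2) ∪ ball z ρ ⊆ ball 0 (48 * r) := by
    refine union_subset (ball_subset_ball (by linarith)) (ball_subset_ball' ?_)
    rw [dist_zero_right]; linarith
  have h1 : μ.real (ball 0 (t / 2)) + μ.real (ball z ρ) ≤ μ.real (ball 0 (48 * r)) := by
    rw [← measureReal_union hdis measurableSet_ball (p7_fin hI _ _) (p7_fin hI _ _)]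
    exact measureReal_mono hsub (p7_fin hI _ _)
  have h2 : μ.real (ball 0 (t / 2)) ≤ 4 * δ * m := by linarith
  have h3 : μ.real (ball 0 (12 * t)) ≤ 2 * m := by
    have := p7_mono0 hI (show 12 * t ≤ 48 * r by linarith)
    nlinarith
  have hlt : 0 ≤ Real.log t := Real.log_nonneg (by linarith)
  have hl24 : 0 ≤ Real.log 24 := Real.log_nonneg (by norm_num)
  have hl2 : 0 ≤ Real.log (t / 2) := Real.log_nonneg (by linarith)
  have hl2' : Real.log (t / 2) ≤ Real.log t := Real.log_le_log (by linarith) (by linarith)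
  have hB : Bd U z (2 * t) (Cm * (Mx U 1 + 4 * δ * m * Real.log t + 2 * m * Real.log 24)) := by
    intro a ha
    have ha3 : ‖a‖ ≤ 3 * t := by
      have a1 : dist a z ≤ 2 * t := ha
      rw [dist_eq_norm] at a1
      have a2 : ‖a‖ ≤ ‖a - z‖ + ‖z‖ := by simpa using norm_add_le (a - z) z
      linarith
    have a3 := hM.up a 1 (t / 2) (12 * t) (Mx U 1) one_pos (by linarith) (by linarith)
      (by linarith) (hI.toData.bd_Mx 1)
    have a4 : 12 * t / (t / 2) = 24 := by field_simp; norm_num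
    rw [a4, div_one] at a3
    refine a3.trans (mul_le_mul_of_nonneg_left ?_ hCm.le)
    have a5 : μ.real (ball 0 (t / 2)) * Real.log (t / 2) ≤ 4 * δ * m * Real.log t :=
      mul_le_mul h2 hl2' hl2 (by positivity)
    have a6 := mul_le_mul_of_nonneg_right h3 hl24
    linarith
  have h4 := hM.noat z ρ t _ (by linarith) (by linarith) hB
  have h5 : Real.log t / 2 ≤ Real.log (t / ρ) := by
    rw [Real.log_div (by linarith) (by linarith)]
    have a1 : Real.log (ρ ^ 2) ≤ Real.log t := Real.log_le_log (by positivity) hz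
    rw [Real.log_pow] at a1
    push_cast at a1
    linarith
  have h6 : m / 2 ≤ μ.real (ball z ρ) := by nlinarith
  have h7 : m / 2 * (Real.log t / 2) ≤ μ.real (ball z ρ) * Real.log (t / ρ) :=
    mul_le_mul h6 h5 (by positivity) measureReal_nonneg
  have h8 : 0 ≤ m * Real.log t := by positivity
  have h9 := mul_le_mul_of_nonneg_right hδ2 h8
  have h10 : Cm ^ 2 * Mx U 1 ≤ Cm ^ 2 * Mx U 1 * m := le_mul_of_one_le_right (by positivity) hm
  have h11 : m * Real.log t ≤ m * (8 * Cm ^ 2 * (Mx U 1 + 2 * Real.log 24)) := by nlinarith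
  exact le_of_mul_le_mul_left h11 (by linarith)

theorem p7_of (h₁ : S_Mean) (h₂ : S_Dens) (h₃ : S_LI) (h₄ : S_Vir) (h₅ : S_Iso) : S_P7 := by
  intro U h μ hI h0
  by_contra hinf
  obtain ⟨Cm, hCm, hM⟩ := h₁
  replace hM := hM U h μ hI
  obtain ⟨c₀, CL, hc₀, hCL, hL⟩ := h₃
  replace hL := hL U h μ hI
  obtain ⟨CI, hCI, hIso⟩ := h₅
  replace hIso := hIso U h μ hI
  obtain ⟨rD, hrD, hD⟩ := h₂ U h μ hI (c₀ / 4) (by positivity)
  obtain ⟨C, hC, hb⟩ := p7_mpow hCm hI hM h0 (γ := 1 / 4) (by norm_num)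
  have hb4 : ∀ s, 1 ≤ s → μ.real (ball 0 s) ^ 4 ≤ C ^ 4 * s := by
    intro s hs
    have a1 := pow_le_pow_left₀ measureReal_nonneg (hb s hs) 4
    have a2 : (s ^ (1 / 4 : ℝ)) ^ 4 = s := by
      rw [← Real.rpow_natCast, ← Real.rpow_mul (by linarith)]; norm_num
    rwa [mul_pow, a2] at a1
  obtain ⟨δ, hδ, hδ1, hδ2⟩ : ∃ δ : ℝ, 0 < δ ∧ δ ≤ 1 / 6 ∧ 32 * δ * Cm ^ 2 ≤ 1 := by
    refine ⟨min (1 / 6) (1 / (32 * Cm ^ 2)), by positivity, min_le_left _ _, ?_⟩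
    have := (le_div_iff₀ (by positivity)).1 (min_le_right (1 / 6) (1 / (32 * Cm ^ 2)))
    linarith
  obtain ⟨K, hK, hKδ⟩ : ∃ K : ℝ, 2 ≤ K ∧ 4 * π * CI * (16 * CL ^ 2 + 8 * CL) ≤ δ * K := by
    refine ⟨max 2 (4 * π * CI * (16 * CL ^ 2 + 8 * CL) / δ), le_max_left _ _, ?_⟩
    have := (div_le_iff₀ hδ).1 (le_max_right 2 (4 * π * CI * (16 * CL ^ 2 + 8 * CL) / δ))
    linarith
  set L : ℝ := 8 * Cm ^ 2 * (Mx U 1 + 2 * Real.log 24) with hLdef
  obtain ⟨r, hr1, hrD', hX, h48, hV⟩ := p7_scale hCm h₄ hI hM h0 hinf hδ (by linarith)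
    (1 + Real.exp L + K * C ^ 4 + 6 * C ^ 2 * K) rD
  set m : ℝ := μ.real (ball (0 : ℂ) r) with hm
  have p1 : 0 < Real.exp L := Real.exp_pos L
  have p2 : 0 < K * C ^ 4 := by positivity
  have p3 : 0 < 6 * C ^ 2 * K := by positivity
  have hm1 : 1 ≤ m := by linarith
  have hm0 : 0 < m := by linarith
  have h2m : μ.real (ball 0 (48 * r)) ≤ 2 * m := by nlinarith
  have hT : K * m ≤ 2 * r := by
    have a1 : m ^ 4 ≤ C ^ 4 * r := hb4 r hr1
    have a2 : m ^ 2 ≤ m ^ 4 := pow_le_pow_right₀ hm1 (by norm_num)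
    have a3 : K * C ^ 4 * m ≤ m * m := mul_le_mul_of_nonneg_right (by linarith) hm0.le
    have a4 : C ^ 4 * (K * m) ≤ C ^ 4 * r := by nlinarith
    have a5 := le_of_mul_le_mul_left a4 (by positivity)
    linarith
  have hρ : 2 ≤ K * m := by nlinarith
  have hA : Ar U 0 (3 * (2 * r)) ≤ 4 * CL * m ^ 2 := by
    have a1 := hD (2 * (3 * (2 * r))) (by linarith)
    have a2 := hL.disc 0 (3 * (2 * r)) (by linarith) (a1.trans (le_of_eq (by ring)))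
    have a3 : μ.real (ball 0 (2 * (3 * (2 * r)))) ≤ 2 * m :=
      (p7_mono0 hI (by linarith)).trans h2m
    have a4 := pow_le_pow_left₀ measureReal_nonneg a3 2
    have a5 := mul_le_mul_of_nonneg_left a4 hCL.le
    linarith
  obtain ⟨z, hz, hQ⟩ : ∃ z ∈ ball (0 : ℂ) (2 * (2 * r)),
      (1 - 3 * δ) * m < μ.real (ball z (K * m)) := by
    by_contra hc
    push Not at hc
    exact p7_arith hδ hδ1 hm0 hCI hCL (by linarith) hKδ
      ((p7_mono0 hI (show 2 * (2 * r) ≤ 48 * r by linarith)).trans h48)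
      ((p7_mono0 hI (show 3 * (2 * r) ≤ 48 * r by linarith)).trans h2m)
      (Ar_nonneg _ _ _) hA hV (hIso (2 * r) (K * m) _ (by linarith) hT hc)
  rw [mem_ball_zero_iff] at hz
  have hfar : (K * m) ^ 2 ≤ ‖z‖ := by
    by_contra hc
    push Not at hc
    have a0 : K * m ≤ (K * m) ^ 2 := by nlinarith
    have a1 : μ.real (ball z (K * m)) ≤ μ.real (ball 0 (2 * (K * m) ^ 2)) := by
      refine p7_mono hI (ball_subset_ball' ?_)
      rw [dist_zero_right]; linarith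
    have a2 := hb4 (2 * (K * m) ^ 2) (by linarith)
    have a3 : m / 2 ≤ μ.real (ball 0 (2 * (K * m) ^ 2)) := by nlinarith
    have a4 := (pow_le_pow_left₀ (by positivity) a3 4).trans a2
    have a5 : (6 * C ^ 2 * K) ^ 2 ≤ m ^ 2 := pow_le_pow_left₀ p3.le (by linarith) 2
    have a6 := mul_le_mul_of_nonneg_right a5 (sq_nonneg m)
    have a7 : 0 < C ^ 4 * K ^ 2 * m ^ 2 := by positivity
    nlinarith
  have h1 := p7_far hCm hI hM hδ hδ1 hδ2 hm1 hρ hfar (by linarith) h48 hQ.le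
  have h2 : Real.exp L < ‖z‖ := by nlinarith
  have h3 : L < Real.log ‖z‖ := (Real.lt_log_iff_exp_lt (by linarith)).2 h2
  linarith

end MW.PL
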