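import Pool.Agent.P.MP_064970_gt.PL.Calc

/-! Row PL-P8: (c) with `conj (z - z₀) χ_L` gives `|F| = R m / 2`, so `R > 0`, `m = 2 π R`. The open disc
and the exterior are connected and miss the frontier; finite positive area: `F` is the closed disc.
`(z - z₀) h - R` vanishes on the circle and tends to `m / 2π - R = 0` (`S_RepH`); maximum modulus.
Then `D (U - R log (|z - z₀| / R)) = 0` on the exterior. -/

open Complex InnerProductSpace Set Filter Topology Metric MeasureTheory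
open scoped Real ComplexConjugate ENNReal

namespace MW.PL

open MW.AN

theorem P8_ext_conn (z₀ : ℂ) {ρ : ℝ} (hρ : 0 ≤ ρ) : IsPreconnected (closedBall z₀ ρ)ᶜ := by
  have h : (closedBall z₀ ρ)ᶜ
      = (fun p : ℝ × ℝ => z₀ + p.1 * exp (p.2 * I)) '' (Ioi ρ ×ˢ univ) := by
    ext z
    simp only [mem_compl_iff, mem_closedBall, dist_eq_norm, not_le, mem_image, mem_prod, mem_Ioi,
      mem_univ, and_true]
    constructor
    · intro hz
      exact ⟨(‖z - z₀‖, arg (z - z₀)), hz, by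
        simp only [norm_mul_exp_arg_mul_I]; ring⟩
    · rintro ⟨p, hp, rfl⟩
      rw [add_sub_cancel_left, norm_mul, norm_exp_ofReal_mul_I, mul_one, norm_real,
        Real.norm_of_nonneg (hρ.trans hp.le)]
      exact hp
  rw [h]
  exact (isPreconnected_Ioi.prod isPreconnected_univ).image _ (by fun_prop)

theorem P8_side {U : ℂ → ℝ} {h : ℂ → ℂ} (hD : Data U h) {S : Set ℂ} (hS : IsPreconnected S)
    (hd : ∀ z ∈ S, z ∉ frontier (Om U)) : S ⊆ Om U ∨ S ⊆ Fz U := by
  have h1 : S ⊆ Om U ∪ (closure (Om U))ᶜ := by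
    intro z hz
    by_cases hc : z ∈ closure (Om U)
    · rw [closure_eq_self_union_frontier] at hc
      exact Or.inl (hc.resolve_right (hd z hz))
    · exact Or.inr hc
  refine (hS.subset_or_subset hD.isOpen_Om isClosed_closure.isOpen_compl
    (disjoint_compl_right_iff_subset.2 subset_closure) h1).imp_right fun h2 => ?_
  rw [hD.Fz_eq]
  exact h2.trans (compl_subset_compl.2 subset_closure)

/-- The zero set is the closed disc. -/
theorem P8_disc {U : ℂ → ℝ} {h : ℂ → ℂ} (hD : Data U h) {z₀ : ℂ} {ρ : ℝ} (hρ : 0 ≤ ρ)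
    (hs : frontier (Om U) ⊆ sphere z₀ ρ) (h0 : volume (Fz U) ≠ 0) (h1 : volume (Fz U) < ∞) :
    0 < ρ ∧ Om U = (closedBall z₀ ρ)ᶜ := by
  have hext : (closedBall z₀ ρ)ᶜ ⊆ Om U := by
    refine (P8_side hD (P8_ext_conn z₀ hρ) fun z hz hf =>
      hz (sphere_subset_closedBall (hs hf))).resolve_right fun hF => ?_
    have h2 : volume (univ : Set ℂ) ≤ volume (closedBall z₀ ρ) + volume (Fz U) := by
      refine (measure_mono ?_).trans (measure_union_le _ _)
      intro z _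
      by_cases hz : z ∈ closedBall z₀ ρ
      · exact Or.inl hz
      · exact Or.inr (hF hz)
    rw [measure_univ_of_isAddLeftInvariant, top_le_iff] at h2
    exact (ENNReal.add_lt_top.2 ⟨measure_closedBall_lt_top, h1⟩).ne h2
  have hnot : ¬ ball z₀ ρ ⊆ Om U := by
    intro hb
    refine h0 (measure_mono_null (t := sphere z₀ ρ) (fun z hz => ?_)
      (Measure.addHaar_sphere volume z₀ ρ))
    rw [hD.Fz_eq] at hz
    rw [← closedBall_sdiff_ball]
    exact ⟨by_contra fun hc => hz (hext hc), fun hc => hz (hb hc)⟩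
  have hin : ball z₀ ρ ⊆ Fz U :=
    (P8_side hD (convex_ball z₀ ρ).isPreconnected fun z hz hf =>
      (mem_ball.1 hz).ne (mem_sphere.1 (hs hf))).resolve_left hnot
  have hpos : 0 < ρ := by
    refine hρ.lt_of_ne fun he => hnot ?_
    rw [← he, ball_zero]
    exact empty_subset _
  refine ⟨hpos, subset_antisymm ?_ hext⟩
  have h3 : closedBall z₀ ρ ⊆ Fz U := by
    rw [← closure_ball z₀ hpos.ne']
    exact hD.isClosed_Fz.closure_subset_iff.2 hin
  rw [hD.Fz_eq] at h3
  exact subset_compl_comm.1 h3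

/-- Decay of `h` at infinity. -/
theorem P8_decay (h₂ : S_RepH) {U : ℂ → ℝ} {h : ℂ → ℂ} {μ : Measure ℂ} (hI : Ids U h μ)
    (hm : μ univ < ∞) {z₀ : ℂ} {ρ : ℝ} (hs : frontier (Om U) ⊆ sphere z₀ ρ) {z : ℂ}
    (hz : z ∈ Om U) (hρ : ρ < ‖z - z₀‖) : ‖h z‖ ≤ (‖z - z₀‖ - ρ)⁻¹ * μ.real univ := by
  have h1 := h₂ U h μ hI z hz (closedBall z₀ ρ) measurableSet_closedBall isBounded_closedBall
  have h2 : μ (closedBall z₀ ρ)ᶜ = 0 :=
    measure_mono_null (compl_subset_compl.2 (hs.trans sphere_subset_closedBall)) hI.supp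
  rw [setLIntegral_measure_zero _ _ h2, nonpos_iff_eq_zero, enorm_eq_zero, sub_eq_zero] at h1
  have hp : 0 < ‖z - z₀‖ - ρ := sub_pos.2 hρ
  have h3 : ‖∫ w in closedBall z₀ ρ, (z - w)⁻¹ ∂μ‖
      ≤ (‖z - z₀‖ - ρ)⁻¹ * μ.real (closedBall z₀ ρ) := by
    refine norm_setIntegral_le_of_norm_le_const ((measure_mono (subset_univ _)).trans_lt hm)
      fun w hw => ?_
    rw [norm_inv]
    refine inv_anti₀ hp ?_
    have h4 : ‖z - z₀‖ ≤ ‖z - w‖ + ‖w - z₀‖ := norm_sub_le_norm_sub_add_norm_sub z w z₀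
    have h5 : ‖w - z₀‖ ≤ ρ := mem_closedBall_iff_norm.1 hw
    linarith
  rw [← h1, norm_mul, norm_mul, norm_real, Real.norm_of_nonneg Real.pi_pos.le,
    Complex.norm_ofNat] at h3
  have h6 : μ.real (closedBall z₀ ρ) ≤ μ.real univ := measureReal_mono (subset_univ _) hm.ne
  have h7 := mul_le_mul_of_nonneg_left h6 (inv_pos.2 hp).le
  nlinarith [Real.pi_gt_three, norm_nonneg (h z)]

/-- Maximum modulus outside a disc. -/
theorem P8_max {G : ℂ → ℂ} {z₀ : ℂ} {ρ m : ℝ} (hm : 0 ≤ m)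
    (hd : DiffContOnCl ℂ G (closedBall z₀ ρ)ᶜ) (h0 : ∀ z ∈ frontier (closedBall z₀ ρ)ᶜ, G z = 0)
    (hb : ∀ z, ρ < ‖z - z₀‖ → ‖G z‖ ≤ (‖z - z₀‖ - ρ)⁻¹ * m) {z : ℂ} (hz : ρ < ‖z - z₀‖)
    (hρ : 0 < ρ) : G z = 0 := by
  have key : ∀ L : ℝ, ‖z - z₀‖ < L → ‖G z‖ ≤ (L - ρ)⁻¹ * m := by
    intro L hL
    have hLρ : ρ < L := hz.trans hL
    refine Complex.norm_le_of_forall_mem_frontier_norm_le (U := (closedBall z₀ ρ)ᶜ ∩ ball z₀ L)
      (isBounded_ball.subset inter_subset_right) (hd.mono inter_subset_left) (fun w hw => ?_)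
      (subset_closure ⟨?_, mem_ball_iff_norm.2 hL⟩)
    · rcases frontier_inter_subset _ _ hw with hw | hw
      · rw [h0 w hw.1, norm_zero]
        exact mul_nonneg (inv_pos.2 (sub_pos.2 hLρ)).le hm
      · have h1 : ‖w - z₀‖ = L := by
          have := hw.2
          rwa [frontier_ball z₀ (hρ.trans hLρ).ne', mem_sphere_iff_norm] at this
        have := hb w (h1 ▸ hLρ)
        rwa [h1] at this
    · rw [mem_compl_iff, mem_closedBall_iff_norm, not_le]
      exact hz
  have hlim : Tendsto (fun L : ℝ => (L - ρ)⁻¹ * m) atTop (𝓝 (0 * m)) :=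
    (tendsto_inv_atTop_zero.comp (tendsto_atTop_add_const_right _ (-ρ) tendsto_id)).mul_const m
  rw [zero_mul] at hlim
  exact norm_le_zero_iff.1 (ge_of_tendsto hlim ((eventually_gt_atTop _).mono key))

theorem P8_log (z₀ : ℂ) {ρ : ℝ} (hρ : 0 < ρ) {z : ℂ} (hz : z ≠ z₀) :
    HasFDerivAt (fun w : ℂ => Real.log (‖w - z₀‖ / ρ))
      (reCLM.comp ((ContinuousLinearMap.toSpanSingleton ℂ (z - z₀)⁻¹).restrictScalars ℝ)) z := by
  have hz' : z - z₀ ≠ 0 := sub_ne_zero.2 hz
  have h1 : HasDerivAt (fun w : ℂ => (w - z₀) / (z - z₀)) (1 / (z - z₀)) z :=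
    ((hasDerivAt_id z).sub_const z₀).div_const _
  have h2 := h1.clog (by rw [div_self hz']; exact one_mem_slitPlane)
  rw [div_self hz', div_one, one_div] at h2
  refine ((hasFDerivAt_re_of h2).add_const (Real.log (‖z - z₀‖ / ρ))).congr_of_eventuallyEq ?_
  filter_upwards [eventually_ne_nhds hz] with w hw
  have hw' : ‖w - z₀‖ ≠ 0 := norm_ne_zero_iff.2 (sub_ne_zero.2 hw)
  have hz'' : ‖z - z₀‖ ≠ 0 := norm_ne_zero_iff.2 hz'
  rw [log_re, norm_div, Real.log_div hw' hz'', Real.log_div hw' hρ.ne', Real.log_div hz'' hρ.ne']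
  ring

theorem p8_of (h₁ : S_Mean) (h₂ : S_RepH) (h₃ : S_Circ) : S_P8 := by
  intro U h μ hI hm
  have hD : Data U h := hI.toData
  obtain ⟨C, -, hC⟩ := h₁
  obtain ⟨hF, hmF, z₀, R, hz₀⟩ := h₃ U h μ hI hm
  have hs : frontier (Om U) ⊆ sphere z₀ |R| := by
    intro z hz
    rw [mem_sphere_iff_norm, sub_eq_iff_eq_add'.2 (hz₀ z hz), norm_mul, norm_conj, hD.one z hz,
      mul_one, norm_real, Real.norm_eq_abs]
  have hmpos : 0 < μ.real univ := by
    obtain ⟨p, hp⟩ := hD.ne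
    exact ((hC U h μ hI).supp p hp 1 one_pos).trans_le (measureReal_mono (subset_univ _) hm.ne)
  have hF0 : volume (Fz U) ≠ 0 := by
    intro h0
    rw [measureReal_def volume, h0, ENNReal.toReal_zero, mul_zero] at hmF
    exact (pow_pos hmpos 2).ne' hmF
  obtain ⟨hρ, hOm⟩ := P8_disc hD (abs_nonneg R) hs hF0 hF
  have hmem : ∀ z, z ∈ Om U ↔ |R| < ‖z - z₀‖ := by
    intro z
    rw [hOm, mem_compl_iff, mem_closedBall_iff_norm, not_le]
  have hcl : ∀ z, z ∈ closure (Om U) ↔ |R| ≤ ‖z - z₀‖ := by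
    intro z
    rw [hOm, closure_compl, interior_closedBall z₀ hρ.ne', mem_compl_iff, mem_ball_iff_norm,
      not_lt]
  have hne : ∀ z ∈ closure (Om U), z - z₀ ≠ 0 := fun z hz =>
    norm_pos_iff.1 (hρ.trans_le ((hcl z).1 hz))
  have hfr : ∀ z ∈ frontier (Om U), h z - R / (z - z₀) = 0 := by
    intro z hz
    rw [sub_eq_zero, eq_div_iff (hne z (frontier_subset_closure hz)),
      sub_eq_iff_eq_add'.2 (hz₀ z hz), mul_left_comm, mul_conj, normSq_eq_norm_sq, hD.one z hz]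
    simp
  have hh : ∀ z ∈ closure (Om U), h z = R / (z - z₀) := by
    intro z hz
    rw [closure_eq_self_union_frontier] at hz
    refine sub_eq_zero.1 (hz.elim (fun hz => ?_) (hfr z))
    refine P8_max (G := fun z => h z - R / (z - z₀)) (m := μ.real univ + |R|) (by positivity)
      ?_ (hOm ▸ hfr) (fun w hw => ?_) ((hmem z).1 hz) hρ
    · rw [← hOm]
      refine ⟨hD.h_diff.sub ?_, hD.cont.sub ?_⟩
      · exact (differentiableOn_const _).div (by fun_prop) fun w hw => hne w (subset_closure hw)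
      · exact continuousOn_const.div (by fun_prop) hne
    · refine (norm_sub_le _ _).trans ?_
      rw [mul_add]
      refine add_le_add (P8_decay h₂ hI hm hs ((hmem w).2 hw) hw) ?_
      rw [norm_div, norm_real, Real.norm_eq_abs, div_eq_inv_mul]
      exact mul_le_mul_of_nonneg_right (inv_anti₀ (sub_pos.2 hw) (by linarith)) hρ.le
  have hder : ∀ z ∈ Om U, HasFDerivAt (fun w => U w - R * Real.log (‖w - z₀‖ / |R|))
      (0 : ℂ →L[ℝ] ℝ) z := by
    intro z hz
    have h1 := (harm_diff (hD.harm z hz)).hasFDerivAt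
    have h2 := (P8_log z₀ hρ (sub_ne_zero.1 (hne z (subset_closure hz)))).const_mul R
    refine (h1.sub h2).congr_fderiv (ContinuousLinearMap.ext fun v => ?_)
    change fderiv ℝ U z v - R * (v * (z - z₀)⁻¹).re = 0
    rw [hD.fderiv_U hz, hh z (subset_closure hz), div_eq_mul_inv, mul_assoc, re_ofReal_mul,
      mul_comm v, sub_self]
  obtain ⟨c, hc⟩ := hD.isOpen_Om.exists_is_const_of_fderiv_eq_zero (𝕜 := ℝ)
    (f := fun w => U w - R * Real.log (‖w - z₀‖ / |R|)) (hOm ▸ P8_ext_conn z₀ hρ.le)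
    (fun z hz => (hder z hz).differentiableAt.differentiableWithinAt)
    (fun z hz => (hder z hz).fderiv)
  have hcont : ContinuousOn (fun w => U w - R * Real.log (‖w - z₀‖ / |R|)) (closure (Om U)) := by
    refine hD.lip.continuous.continuousOn.sub (continuousOn_const.mul ?_)
    exact ContinuousOn.log (by fun_prop) fun w hw =>
      div_ne_zero (norm_ne_zero_iff.2 (hne w hw)) hρ.ne'
  have hc' : EqOn (fun w => U w - R * Real.log (‖w - z₀‖ / |R|)) (fun _ => c) (closure (Om U)) :=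
    EqOn.of_subset_closure hc hcont continuousOn_const subset_closure subset_rfl
  have hzero : ∀ z, ‖z - z₀‖ ≤ |R| → U z = 0 := by
    intro z hz
    have : z ∈ Fz U := by
      rw [hD.Fz_eq, mem_compl_iff, hmem, not_lt]
      exact hz
    exact this
  have hc0 : c = 0 := by
    have hn : ‖(z₀ + (|R| : ℝ)) - z₀‖ = |R| := by simp
    have := hc' ((hcl _).2 hn.ge)
    simp only [hn, hzero _ hn.le, div_self hρ.ne', Real.log_one, mul_zero, sub_zero] at this
    exact this.symm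
  have hU : ∀ z, |R| ≤ ‖z - z₀‖ → U z = R * Real.log (‖z - z₀‖ / |R|) := fun z hz =>
    sub_eq_zero.1 ((hc' ((hcl z).2 hz)).trans hc0)
  have hR : 0 < R := by
    have hn : ‖(z₀ + (2 * |R| : ℝ)) - z₀‖ = 2 * |R| := by
      rw [add_sub_cancel_left, norm_real, Real.norm_of_nonneg (by positivity)]
    have h1 : 0 < U (z₀ + (2 * |R| : ℝ)) := (hmem _).2 (by rw [hn]; linarith)
    rw [hU _ (by rw [hn]; linarith), hn, mul_div_assoc, div_self hρ.ne', mul_one] at h1
    exact (mul_pos_iff_of_pos_right (Real.log_pos one_lt_two)).1 h1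
  rw [abs_of_pos hR] at hzero hU hcl
  exact ⟨z₀, R, hR, hzero, fun z hz => ⟨hU z hz, hh z ((hcl z).2 hz)⟩⟩

end MW.PL
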