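import Pool.Agent.P.MP_064970_gt.PL.Calc

/-! Row PL-Rep: Test functions `K τ - K L`, where `K s w = (1 - cut (|w - a|² / s²)) / (w - a)` is the
regularised Cauchy kernel; `τ → 0` (`tendsto_deriv_cut`) and `L → ∞` in (m) and (a), `L = T` in (c).
The terms at scale `L` are `O(L⁻² ∫_{D_L} (|h| + 1_F))`. -/

open Complex InnerProductSpace Set Filter Topology Metric MeasureTheory
open scoped Real ComplexConjugate ENNReal

namespace MW.PL

open MW.AN

/-- The radial cutoff at scale `s` about `a`. -/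
noncomputable def repC (a : ℂ) (s : ℝ) (w : ℂ) : ℂ := ((cut (‖w - a‖ ^ 2 / s ^ 2) : ℝ) : ℂ)

/-- The approximate Dirac mass (total mass `-π`) at scale `s` about `a`. -/
noncomputable def repD (a : ℂ) (s : ℝ) (w : ℂ) : ℂ :=
  ((deriv cut (‖w - a‖ ^ 2 / s ^ 2) / s ^ 2 : ℝ) : ℂ)

/-- The regularised Cauchy kernel. -/
noncomputable def repK (a : ℂ) (s : ℝ) (w : ℂ) : ℂ := (1 - repC a s w) * (w - a)⁻¹

/-- The test function. -/
noncomputable def repP (a : ℂ) (τ L : ℝ) (w : ℂ) : ℂ := repK a τ w - repK a L w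

variable {a w : ℂ} {s τ L : ℝ}

theorem rep_far (hs : 0 < s) (hw : s ≤ ‖w - a‖) : 1 ≤ ‖w - a‖ ^ 2 / s ^ 2 := by
  rw [le_div_iff₀ (by positivity), one_mul]
  exact pow_le_pow_left₀ hs.le hw 2

theorem repC_far (hs : 0 < s) (hw : s ≤ ‖w - a‖) : repC a s w = 0 := by
  unfold repC
  rw [cut_eq_zero (rep_far hs hw)]; simp

theorem repD_far (hs : 0 < s) (hw : s ≤ ‖w - a‖) : repD a s w = 0 := by
  unfold repD
  rw [deriv_cut_eq_zero (Or.inr (rep_far hs hw))]; simp

theorem repC_near (hs : 0 < s) (hw : ‖w - a‖ ≤ s / 2) : repC a s w = 1 := by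
  unfold repC
  rw [cut_eq_one]
  · simp
  · rw [div_le_iff₀ (by positivity)]
    have := pow_le_pow_left₀ (norm_nonneg _) hw 2
    nlinarith

theorem norm_repC_le (a : ℂ) (s : ℝ) (w : ℂ) : ‖repC a s w‖ ≤ 1 := by
  unfold repC
  rw [Complex.norm_real, Real.norm_eq_abs, abs_of_nonneg (cut_mem _).1]
  exact (cut_mem _).2

theorem norm_repC_sub_le (a : ℂ) (s t : ℝ) (w : ℂ) : ‖repC a s w - repC a t w‖ ≤ 1 := by
  unfold repC
  rw [← ofReal_sub, Complex.norm_real, Real.norm_eq_abs, abs_le]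
  have h1 := cut_mem (‖w - a‖ ^ 2 / s ^ 2)
  have h2 := cut_mem (‖w - a‖ ^ 2 / t ^ 2)
  constructor <;> linarith [h1.1, h1.2, h2.1, h2.2]

theorem norm_repD_le {C : ℝ} (hC : ∀ t, |deriv cut t| ≤ C) (a : ℂ) (s : ℝ) (w : ℂ) :
    ‖repD a s w‖ ≤ C / s ^ 2 := by
  unfold repD
  rw [Complex.norm_real, Real.norm_eq_abs, abs_div, abs_of_nonneg (sq_nonneg s)]
  exact div_le_div_of_nonneg_right (hC _) (sq_nonneg s)

theorem rep_cut_hasDerivAt (t : ℝ) : HasDerivAt cut (deriv cut t) t :=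
  (cut_contDiff.differentiable (by norm_num) t).hasDerivAt

theorem repC_contDiff (a : ℂ) (s : ℝ) : ContDiff ℝ 1 (repC a s) :=
  contDiff_radial (cut_contDiff.of_le (by norm_num)) a s

theorem repC_compact (a : ℂ) (hs : 0 < s) : HasCompactSupport (repC a s) :=
  hasCompactSupport_radial (fun _ ht => cut_eq_zero ht) a hs

theorem repK_contDiff (a : ℂ) (hs : 0 < s) : ContDiff ℝ 1 (repK a s) := contDiff_cauchy a hs

theorem repP_contDiff (a : ℂ) (hτ : 0 < τ) (hL : 0 < L) : ContDiff ℝ 1 (repP a τ L) :=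
  (repK_contDiff a hτ).sub (repK_contDiff a hL)

theorem repP_eq (a : ℂ) (τ L : ℝ) (w : ℂ) :
    repP a τ L w = (repC a L w - repC a τ w) * (w - a)⁻¹ := by
  unfold repP repK; ring

theorem repP_far (hτ : 0 < τ) (hL : τ ≤ L) (hw : L ≤ ‖w - a‖) : repP a τ L w = 0 := by
  rw [repP_eq, repC_far (hτ.trans_le hL) hw, repC_far hτ (hL.trans hw)]; simp

theorem repP_compact (a : ℂ) (hτ : 0 < τ) (hL : τ ≤ L) : HasCompactSupport (repP a τ L) := by
  refine HasCompactSupport.intro (isCompact_closedBall a L) fun w hw => repP_far hτ hL ?_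
  rw [mem_closedBall, dist_eq_norm, not_le] at hw
  exact hw.le

theorem norm_repP_le (a : ℂ) (τ L : ℝ) (w : ℂ) : ‖repP a τ L w‖ ≤ ‖w - a‖⁻¹ := by
  rw [repP_eq, norm_mul, norm_inv]
  exact mul_le_of_le_one_left (by positivity) (norm_repC_sub_le _ _ _ _)

theorem repD_continuous (a : ℂ) (s : ℝ) : Continuous (repD a s) := by
  unfold repD
  have h : Continuous (deriv cut) := cut_contDiff.continuous_deriv (by norm_num)
  refine continuous_ofReal.comp (Continuous.div_const (h.comp ?_) _)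
  fun_prop

theorem repD_integrable (a : ℂ) (hs : 0 < s) : Integrable (repD a s) := by
  refine (repD_continuous a s).integrable_of_hasCompactSupport ?_
  refine HasCompactSupport.intro (isCompact_closedBall a s) fun w hw => repD_far hs ?_
  rw [mem_closedBall, dist_eq_norm, not_le] at hw
  exact hw.le

theorem integral_repD (a : ℂ) (hs : 0 < s) : ∫ w, repD a s w = -(π : ℂ) := by
  unfold repD
  rw [integral_complex_ofReal, integral_div, integral_deriv_cut a hs]
  have : (-(π * s ^ 2) / s ^ 2 : ℝ) = -π := by field_simp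
  rw [this]; simp

theorem rep_dK (s : ℝ) (hw : w ≠ a) :
    dbar (repK a s) w = -repD a s w ∧
    del (repK a s) w = -(repD a s w * (conj (w - a) * (w - a)⁻¹))
      - (1 - repC a s w) * (w - a)⁻¹ ^ 2 := by
  have hne : w - a ≠ 0 := sub_ne_zero.2 hw
  obtain ⟨hd, hb, hl⟩ := dbar_radial (z := w) a s (rep_cut_hasDerivAt (‖w - a‖ ^ 2 / s ^ 2))
  have hinv : HasDerivAt (fun w : ℂ => (w - a)⁻¹) (-(w - a)⁻¹ ^ 2) w := by
    have h := ((hasDerivAt_id' w).sub_const a).fun_inv hne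
    have e : -(w - a)⁻¹ ^ 2 = -1 / (w - a) ^ 2 := by field_simp
    rw [e]; exact h
  have hinvd : DifferentiableAt ℝ (fun w : ℂ => (w - a)⁻¹) w :=
    hinv.differentiableAt.restrictScalars ℝ
  have h1 : DifferentiableAt ℝ (fun _ : ℂ => (1 : ℂ)) w := differentiableAt_const _
  have hc := dbar_of_hasDerivAt (hasDerivAt_const w (1 : ℂ))
  have hi := dbar_of_hasDerivAt hinv
  have hd' : DifferentiableAt ℝ (repC a s) w := hd
  have hb' : dbar (repC a s) w = _ := hb
  have hl' : del (repC a s) w = _ := hl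
  have e1 := dbar_mul (φ := fun w => 1 - repC a s w) (ψ := fun w : ℂ => (w - a)⁻¹)
    (h1.fun_sub hd') hinvd
  have e2 := del_mul (φ := fun w => 1 - repC a s w) (ψ := fun w : ℂ => (w - a)⁻¹)
    (h1.fun_sub hd') hinvd
  have e3 := dbar_sub (φ := fun _ : ℂ => (1 : ℂ)) (ψ := repC a s) h1 hd'
  have e4 := del_sub (φ := fun _ : ℂ => (1 : ℂ)) (ψ := repC a s) h1 hd'
  constructor
  · refine Eq.trans e1 ?_
    rw [e3, hc.1, hi.1, hb']
    unfold repD
    push_cast
    field_simp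
    ring
  · refine Eq.trans e2 ?_
    rw [e4, hc.2, hi.2, hl']
    unfold repD
    push_cast
    ring

theorem rep_dbarK (a : ℂ) (hs : 0 < s) (w : ℂ) : dbar (repK a s) w = -repD a s w := by
  rcases eq_or_ne w a with rfl | hw
  · have h0 : repK w s =ᶠ[𝓝 w] fun _ => (0 : ℂ) := by
      filter_upwards [closedBall_mem_nhds w (half_pos hs)] with z hz
      rw [mem_closedBall, dist_eq_norm] at hz
      unfold repK
      rw [repC_near hs hz]; simp
    rw [dbar_congr h0, (dbar_of_hasDerivAt (hasDerivAt_const w (0 : ℂ))).1]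
    unfold repD
    rw [deriv_cut_eq_zero (Or.inl (by simp))]; simp
  · exact (rep_dK s hw).1

theorem rep_dbarP (a : ℂ) (hτ : 0 < τ) (hL : 0 < L) (w : ℂ) :
    dbar (repP a τ L) w = repD a L w - repD a τ w := by
  have := dbar_sub (φ := repK a τ) (ψ := repK a L) (z := w)
    ((repK_contDiff a hτ).differentiable (by norm_num) w)
    ((repK_contDiff a hL).differentiable (by norm_num) w)
  refine Eq.trans this ?_
  rw [rep_dbarK a hτ, rep_dbarK a hL]; ring

theorem rep_delP (hτ : 0 < τ) (hL : 0 < L) (hw : τ ≤ ‖w - a‖) :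
    del (repP a τ L) w
      = repD a L w * (conj (w - a) * (w - a)⁻¹) - repC a L w * (w - a)⁻¹ ^ 2 := by
  have hne : w ≠ a := by
    rintro rfl
    simp only [sub_self, norm_zero] at hw
    linarith
  have := del_sub (φ := repK a τ) (ψ := repK a L) (z := w)
    ((repK_contDiff a hτ).differentiable (by norm_num) w)
    ((repK_contDiff a hL).differentiable (by norm_num) w)
  refine Eq.trans this ?_
  rw [(rep_dK τ hne).2, (rep_dK L hne).2, repD_far hτ hw, repC_far hτ hw]; ring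

theorem rep_bound {f : ℂ → ℂ} {S : Set ℂ} (hS : MeasurableSet S) (a : ℂ) (L M : ℝ)
    (h0 : ∀ w ∈ S, L ≤ ‖w - a‖ → f w = 0) (hM : ∀ w ∈ S, ‖f w‖ ≤ M) :
    ‖∫ w in S, f w‖ ≤ M * volume.real (S ∩ ball a L) := by
  rw [setIntegral_eq_of_subset_of_forall_sdiff_eq_zero hS (inter_subset_left (t := ball a L))]
  · refine norm_setIntegral_le_of_norm_le_const ?_ fun w hw => hM w hw.1
    exact (measure_mono inter_subset_right).trans_lt measure_ball_lt_top
  · intro w hw
    refine h0 w hw.1 ?_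
    by_contra hlt
    exact hw.2 ⟨hw.1, by rw [mem_ball, dist_eq_norm]; exact not_le.1 hlt⟩

theorem rep_enorm_le {x : ℂ} {r : ℝ} (h : ‖x‖ ≤ r) : ‖x‖ₑ ≤ ENNReal.ofReal r := by
  rw [← ofReal_norm]
  exact ENNReal.ofReal_le_ofReal h

theorem rep1 : S_Rep1 := by
  obtain ⟨C, hC0, hC⟩ := deriv_cut_bound
  refine ⟨C, hC0, fun U h μ hI w hw T hT => ?_⟩
  obtain ⟨ρ, hρ, hball⟩ := Metric.isOpen_iff.1 isOpen_interior w hw
  have hτ : 0 < min ρ T := lt_min hρ hT
  have hτT : min ρ T ≤ T := min_le_right _ _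
  have hF : MeasurableSet (Fz U) := hI.toData.isClosed_Fz.measurableSet
  have hc := hI.c _ (repP_contDiff w hτ hT) (repP_compact w hτ hτT)
  simp only [rep_dbarP w hτ hT] at hc
  rw [integral_sub (repD_integrable w hT).integrableOn (repD_integrable w hτ).integrableOn] at hc
  have h1 : ∫ z in Fz U, repD w (min ρ T) z = -(π : ℂ) := by
    rw [setIntegral_eq_integral_of_forall_compl_eq_zero, integral_repD w hτ]
    intro z hz
    refine repD_far hτ ?_
    by_contra hlt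
    refine hz (interior_subset (hball ?_))
    rw [mem_ball, dist_eq_norm]
    exact (not_le.1 hlt).trans_le (min_le_left _ _)
  have h2 : ‖∫ z in Fz U, repD w T z‖ ≤ C / T ^ 2 * Ar U w T :=
    rep_bound hF w T _ (fun z _ hz => repD_far hT hz) fun z _ => norm_repD_le hC w T z
  have h3 : ‖∫ z, repP w (min ρ T) T z * conj (h z) ∂μ‖ₑ ≤ ∫⁻ z in ball w T, k1 w z ∂μ := by
    refine (enorm_integral_le_lintegral_enorm _).trans ?_
    rw [← lintegral_indicator measurableSet_ball]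
    refine lintegral_mono fun z => ?_
    by_cases hz : z ∈ ball w T
    · rw [indicator_of_mem hz]
      refine rep_enorm_le ?_
      rw [norm_mul, Complex.norm_conj]
      exact (mul_le_of_le_one_right (norm_nonneg _) (hI.le z)).trans (norm_repP_le _ _ _ _)
    · rw [mem_ball, dist_eq_norm, not_lt] at hz
      rw [repP_far hτ hτT hz]; simp
  rw [h1] at hc
  set X := ∫ z, repP w (min ρ T) T z * conj (h z) ∂μ
  set Y := ∫ z in Fz U, repD w T z
  have h4 : (π : ℂ) = 1 / 2 * X - Y := by rw [← hc]; ring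
  have h5 : 1 ≤ ‖X‖ + C * Ar U w T / T ^ 2 := by
    have e : ‖(π : ℂ)‖ = π := by rw [Complex.norm_real, Real.norm_eq_abs, abs_of_pos Real.pi_pos]
    have h6 : ‖1 / 2 * X - Y‖ ≤ ‖1 / 2 * X‖ + ‖Y‖ := norm_sub_le _ _
    rw [← h4, e, norm_mul] at h6
    have e2 : ‖(1 / 2 : ℂ)‖ = 1 / 2 := by simp
    rw [e2] at h6
    have e3 : C / T ^ 2 * Ar U w T = C * Ar U w T / T ^ 2 := by ring
    linarith [Real.pi_gt_three, norm_nonneg X]
  have hA : 0 ≤ C * Ar U w T / T ^ 2 := by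
    have := Ar_nonneg U w T
    positivity
  calc (1 : ℝ≥0∞) = ENNReal.ofReal 1 := by simp
    _ ≤ ENNReal.ofReal (‖X‖ + C * Ar U w T / T ^ 2) := ENNReal.ofReal_le_ofReal h5
    _ = ‖X‖ₑ + ENNReal.ofReal (C * Ar U w T / T ^ 2) := by
        rw [ENNReal.ofReal_add (norm_nonneg _) hA, ofReal_norm]
    _ ≤ _ := by gcongr

variable {U : ℂ → ℝ} {h : ℂ → ℂ} {μ : Measure ℂ}

theorem rep_int_ball (hI : Ids U h μ) (z : ℂ) (L : ℝ) (n : ℕ) :
    IntegrableOn (fun w => ‖h w‖ ^ n) (ball z L) := by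
  refine Measure.integrableOn_of_bounded (M := 1) measure_ball_lt_top.ne
    (hI.meas.norm.pow_const n).aestronglyMeasurable (Eventually.of_forall fun w => ?_)
  rw [Real.norm_eq_abs, abs_of_nonneg (by positivity)]
  exact pow_le_one₀ (norm_nonneg _) (hI.le w)

theorem rep_avg (hC : S_Cacc) (hI : Ids U h μ) (z : ℂ) {ε : ℝ} (hε : 0 < ε) :
    ∀ᶠ L in atTop, ∫ w in ball z L, ‖h w‖ ≤ ε * L ^ 2 := by
  obtain ⟨C, hC0, hC⟩ := hC
  set δ := ε / (2 * π) with hδ
  have hδ0 : 0 < δ := by positivity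
  set η := min 1 (ε * δ / (18 * C)) with hη
  have hη0 : 0 < η := lt_min one_pos (by positivity)
  have hη2 : η ^ 2 ≤ ε * δ / (18 * C) := by
    have h1 : η ≤ 1 := min_le_left _ _
    have h2 : η ≤ ε * δ / (18 * C) := min_le_right _ _
    nlinarith
  obtain ⟨r₀, hr₀, hr⟩ := hI.toData.Mx_sub η hη0
  filter_upwards [eventually_ge_atTop r₀, eventually_ge_atTop ‖z‖] with L hL1 hL2
  have hL : 0 < L := hr₀.trans_le hL1
  have hB : Bd U z (2 * L) (η * (3 * L)) := by
    intro w hw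
    refine (hI.toData.bd_Mx (3 * L) w ?_).trans (hr _ (by linarith))
    rw [mem_closedBall, dist_eq_norm] at hw
    rw [mem_closedBall, dist_zero_right]
    have : ‖w‖ ≤ ‖w - z‖ + ‖z‖ := by simpa using norm_add_le (w - z) z
    linarith
  have h2 := hC U h μ hI z L _ hL hB
  have hvol : volume.real (ball z L) = π * L ^ 2 := by
    rw [Measure.real, Complex.volume_ball]
    simp [hL.le, mul_comm]
  have hc : IntegrableOn (fun _ : ℂ => δ) (ball z L) := integrableOn_const measure_ball_lt_top.ne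
  have h3 : ∫ w in ball z L, ‖h w‖ ≤ ∫ w in ball z L, (δ + ‖h w‖ ^ 2 / δ) := by
    have hint : IntegrableOn (fun w => ‖h w‖) (ball z L) := by simpa using rep_int_ball hI z L 1
    refine integral_mono hint (hc.add ((rep_int_ball hI z L 2).div_const δ)) fun w => ?_
    beta_reduce
    rw [← sub_nonneg]
    have : δ + ‖h w‖ ^ 2 / δ - ‖h w‖ = ((‖h w‖ - δ) ^ 2 + δ * ‖h w‖) / δ := by
      field_simp; ring
    rw [this]; positivity
  rw [integral_add hc ((rep_int_ball hI z L 2).div_const δ), setIntegral_const, hvol, smul_eq_mul,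
    integral_div] at h3
  have h4 : π * L ^ 2 * δ = ε / 2 * L ^ 2 := by
    rw [hδ]; field_simp
  have h5 : (∫ w in ball z L, ‖h w‖ ^ 2) / δ ≤ ε / 2 * L ^ 2 := by
    rw [div_le_iff₀ hδ0]
    refine h2.trans ?_
    rw [le_div_iff₀ (by positivity)] at hη2
    have : C * (η * (3 * L)) ^ 2 = η ^ 2 * (18 * C) * (L ^ 2 / 2) := by ring
    rw [this]
    calc η ^ 2 * (18 * C) * (L ^ 2 / 2) ≤ ε * δ * (L ^ 2 / 2) := by gcongr
      _ = ε / 2 * L ^ 2 * δ := by ring
  linarith

theorem rep_far_tendsto (hC : S_Cacc) (hI : Ids U h μ) (z : ℂ) {H : ℂ → ℂ}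
    (hH : ∀ w, ‖H w‖ ≤ ‖h w‖) :
    Tendsto (fun L : ℝ => ∫ w, H w * repD z L w) atTop (𝓝 0) := by
  obtain ⟨C, hC0, hCb⟩ := deriv_cut_bound
  rw [NormedAddGroup.tendsto_nhds_zero]
  intro ε hε
  filter_upwards [rep_avg hC hI z (ε := ε / (2 * C)) (by positivity), eventually_gt_atTop 0]
    with L h1 hL
  have hint : IntegrableOn (fun w => ‖h w‖) (ball z L) := by simpa using rep_int_ball hI z L 1
  have e : ∫ w, H w * repD z L w = ∫ w in ball z L, H w * repD z L w := by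
    rw [setIntegral_eq_integral_of_forall_compl_eq_zero]
    intro w hw
    rw [mem_ball, dist_eq_norm, not_lt] at hw
    rw [repD_far hL hw, mul_zero]
  have h2 : ‖∫ w in ball z L, H w * repD z L w‖ ≤ ∫ w in ball z L, ‖h w‖ * (C / L ^ 2) := by
    refine norm_integral_le_of_norm_le (hint.mul_const _) (Eventually.of_forall fun w => ?_)
    rw [norm_mul]
    exact mul_le_mul (hH w) (norm_repD_le hCb z L w) (norm_nonneg _) (norm_nonneg _)
  rw [integral_mul_const] at h2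
  rw [e]
  calc _ ≤ _ := h2
    _ ≤ ε / (2 * C) * L ^ 2 * (C / L ^ 2) := by gcongr
    _ = ε / 2 := by field_simp
    _ < ε := half_lt_self hε

theorem rep_lim {A A' : ℝ → ℂ} {x : ℂ} {J : ℝ≥0∞} (h0 : Tendsto A (𝓝[>] 0) (𝓝 x))
    (h1 : Tendsto A' atTop (𝓝 0))
    (h : ∀ᶠ τ in 𝓝[>] (0 : ℝ), ∀ᶠ L in atTop, ‖A τ + A' L‖ₑ ≤ J) : ‖x‖ₑ ≤ J := by
  refine le_of_tendsto h0.enorm ?_
  filter_upwards [h] with τ hτ
  have : Tendsto (fun L => A τ + A' L) atTop (𝓝 (A τ)) := by
    simpa using h1.const_add (A τ)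
  exact le_of_tendsto this.enorm hτ

theorem rep_split {H : ℂ → ℂ} (hm : Measurable H) (hb : ∀ w, ‖H w‖ ≤ 1) (z : ℂ) (hτ : 0 < τ)
    (hL : 0 < L) :
    ∫ w, H w * dbar (repP z τ L) w = (∫ w, H w * repD z L w) - ∫ w, H w * repD z τ w := by
  simp only [rep_dbarP z hτ hL, mul_sub]
  exact integral_sub
    ((repD_integrable z hL).bdd_mul hm.aestronglyMeasurable (Eventually.of_forall hb))
    ((repD_integrable z hτ).bdd_mul hm.aestronglyMeasurable (Eventually.of_forall hb))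

theorem rep_scales {z : ℂ} {B : Set ℂ} (hB : Bornology.IsBounded B) {ρ : ℝ} (hρ : 0 < ρ) :
    ∀ᶠ τ in 𝓝[>] (0 : ℝ), 0 < τ ∧ τ ≤ ρ ∧
      ∀ᶠ L in atTop, τ ≤ L ∧ ∀ w ∈ B, repC z L w = 1 := by
  obtain ⟨R, hR⟩ := hB.subset_closedBall z
  filter_upwards [Ioc_mem_nhdsGT hρ] with τ hτ
  refine ⟨hτ.1, hτ.2, ?_⟩
  filter_upwards [eventually_ge_atTop τ, eventually_ge_atTop (2 * R)] with L h1 h2
  refine ⟨h1, fun w hw => repC_near (hτ.1.trans_le h1) ?_⟩
  have := hR hw
  rw [mem_closedBall, dist_eq_norm] at this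
  linarith

theorem rep_not_Om {z : ℂ} {ρ : ℝ} (hball : ball z ρ ⊆ Om U) (hw : w ∉ Om U) : ρ ≤ ‖w - z‖ := by
  by_contra hlt
  exact hw (hball (by rw [mem_ball, dist_eq_norm]; exact not_le.1 hlt))

theorem repH_of (h : S_Cacc) : S_RepH := by
  intro U g μ hI z hz B hBm hB
  have := hI.fin
  obtain ⟨ρ, hρ, hball⟩ := Metric.isOpen_iff.1 hI.toData.isOpen_Om z hz
  have hcont : ContinuousOn g (ball z ρ) := hI.cont.mono (hball.trans subset_closure)
  have h0 := tendsto_deriv_cut hρ hcont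
  have h1 := rep_far_tendsto h hI z (H := g) fun _ => le_rfl
  have hae : ∀ᵐ w ∂μ, ρ ≤ ‖w - z‖ := by
    have : ∀ᵐ w ∂μ, w ∈ frontier (Om U) := hI.supp
    filter_upwards [this] with w hw
    rw [hI.toData.isOpen_Om.frontier_eq] at hw
    exact rep_not_Om hball hw.2
  have key := rep_lim (A := fun τ => -2 * (∫ w, g w * repD z τ w) - ∫ w in B, (z - w)⁻¹ ∂μ)
    (A' := fun L => 2 * ∫ w, g w * repD z L w)
    (x := -2 * (-(π * g z)) - ∫ w in B, (z - w)⁻¹ ∂μ) (J := ∫⁻ w in Bᶜ, k1 z w ∂μ)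
    ((h0.const_mul (-2)).sub_const _) (by simpa using h1.const_mul 2) ?_
  · convert key using 3
    ring
  filter_upwards [rep_scales (z := z) hB hρ] with τ ⟨hτ, hτρ, hL⟩
  filter_upwards [hL] with L ⟨hτL, hone⟩
  have hL0 : 0 < L := hτ.trans_le hτL
  have hm := hI.m _ (repP_contDiff z hτ hL0) (repP_compact z hτ hτL)
  rw [rep_split hI.meas hI.le z hτ hL0] at hm
  have hint : Integrable (repP z τ L) μ :=
    (repP_contDiff z hτ hL0).continuous.integrable_of_hasCompactSupport (repP_compact z hτ hτL)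
  rw [← integral_add_compl hBm hint] at hm
  have e : ∫ w in B, repP z τ L w ∂μ = -∫ w in B, (z - w)⁻¹ ∂μ := by
    rw [← integral_neg]
    refine setIntegral_congr_ae hBm ?_
    filter_upwards [hae] with w hw hwB
    rw [repP_eq, hone w hwB, repC_far hτ (hτρ.trans hw), ← neg_sub z w, inv_neg]; ring
  rw [e] at hm
  have e2 : -2 * (∫ w, g w * repD z τ w) - (∫ w in B, (z - w)⁻¹ ∂μ) + 2 * ∫ w, g w * repD z L w
      = -∫ w in Bᶜ, repP z τ L w ∂μ := by linear_combination 2 * hm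
  rw [e2, enorm_neg]
  exact (enorm_integral_le_lintegral_enorm _).trans
    (lintegral_mono fun w => rep_enorm_le (norm_repP_le z τ L w))

theorem rep_area_tendsto (h' : S_Dens) (hI : Ids U h μ) (z : ℂ) :
    Tendsto (fun L : ℝ => ∫ w in Fz U, repD z L w * (conj (w - z) * (w - z)⁻¹)) atTop (𝓝 0) := by
  obtain ⟨C, hC0, hCb⟩ := deriv_cut_bound
  have hF : MeasurableSet (Fz U) := hI.toData.isClosed_Fz.measurableSet
  rw [NormedAddGroup.tendsto_nhds_zero]
  intro ε hε
  obtain ⟨r₀, hr₀, hr⟩ := h' U h μ hI (ε / (8 * C)) (by positivity)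
  filter_upwards [eventually_ge_atTop r₀, eventually_ge_atTop ‖z‖] with L hL1 hL2
  have hL : 0 < L := hr₀.trans_le hL1
  have h2 : ‖∫ w in Fz U, repD z L w * (conj (w - z) * (w - z)⁻¹)‖ ≤ C / L ^ 2 * Ar U z L := by
    refine rep_bound hF z L _ (fun w _ hw => by rw [repD_far hL hw, zero_mul]) fun w _ => ?_
    rw [norm_mul]
    refine (mul_le_of_le_one_right (norm_nonneg _) ?_).trans (norm_repD_le hCb z L w)
    rw [norm_mul, Complex.norm_conj, norm_inv]
    exact mul_inv_le_one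
  have h3 : Ar U z L ≤ ε / (8 * C) * (2 * L) ^ 2 := by
    refine (Ar_mono U (ball_subset_ball' ?_)).trans (hr (2 * L) (by linarith))
    rw [dist_zero_right]; linarith
  calc _ ≤ _ := h2
    _ ≤ C / L ^ 2 * (ε / (8 * C) * (2 * L) ^ 2) := by gcongr
    _ = ε / 2 := by field_simp; ring
    _ < ε := half_lt_self hε

theorem repH2_of (h : S_Cacc) (h' : S_Dens) : S_RepH2 := by
  intro U g μ hI z hz B hBm hB
  have hF : MeasurableSet (Fz U) := hI.toData.isClosed_Fz.measurableSet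
  obtain ⟨ρ, hρ, hball⟩ := Metric.isOpen_iff.1 hI.toData.isOpen_Om z hz
  have hcont : ContinuousOn (fun w => g w ^ 2) (ball z ρ) :=
    (hI.cont.mono (hball.trans subset_closure)).pow 2
  have hle : ∀ w, ‖g w ^ 2‖ ≤ ‖g w‖ := fun w => by
    rw [norm_pow, sq]
    exact mul_le_of_le_one_right (norm_nonneg _) (hI.le w)
  have h0 := tendsto_deriv_cut hρ hcont
  have h1 := rep_far_tendsto h hI z (H := fun w => g w ^ 2) hle
  have h2 := rep_area_tendsto h' hI z
  have hfar : ∀ w ∈ Fz U, ρ ≤ ‖w - z‖ := fun w hw => by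
    rw [hI.toData.Fz_eq] at hw
    exact rep_not_Om hball hw
  have key := rep_lim
    (A := fun τ => -(∫ w, g w ^ 2 * repD z τ w) - ∫ w in Fz U ∩ B, (w - z)⁻¹ ^ 2)
    (A' := fun L => (∫ w, g w ^ 2 * repD z L w)
      + ∫ w in Fz U, repD z L w * (conj (w - z) * (w - z)⁻¹))
    (x := -(-(π * g z ^ 2)) - ∫ w in Fz U ∩ B, (w - z)⁻¹ ^ 2) (J := ∫⁻ w in Fz U \ B, k2 z w)
    (h0.neg.sub_const _) (by simpa using h1.add h2) ?_
  · simpa only [neg_neg] using key
  filter_upwards [rep_scales (z := z) hB hρ] with τ ⟨hτ, hτρ, hL⟩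
  filter_upwards [hL] with L ⟨hτL, hone⟩
  have hL0 : 0 < L := hτ.trans_le hτL
  have ha := hI.a _ (repP_contDiff z hτ hL0) (repP_compact z hτ hτL)
  rw [rep_split (H := fun w => g w ^ 2) (hI.meas.pow_const 2) (fun w => (hle w).trans (hI.le w))
    z hτ hL0] at ha
  have hG : Integrable (fun w => repC z L w * repK z τ w ^ 2) :=
    ((repC_contDiff z L).continuous.mul
      ((repK_contDiff z hτ).continuous.pow 2)).integrable_of_hasCompactSupport
      (repC_compact z hL0).mul_right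
  have hGF : ∀ w ∈ Fz U, repC z L w * repK z τ w ^ 2 = repC z L w * (w - z)⁻¹ ^ 2 := by
    intro w hw
    unfold repK
    rw [repC_far hτ (hτρ.trans (hfar w hw))]; ring
  have hdel : Integrable (del (repP z τ L)) :=
    (continuous_dbar (repP_contDiff z hτ hL0)).2.integrable_of_hasCompactSupport
      (hasCompactSupport_dbar (repP_compact z hτ hτL)).2
  have e1 : ∫ w in Fz U, repD z L w * (conj (w - z) * (w - z)⁻¹)
      = (∫ w in Fz U, del (repP z τ L) w) + ∫ w in Fz U, repC z L w * repK z τ w ^ 2 := by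
    rw [← integral_add hdel.integrableOn hG.integrableOn]
    refine setIntegral_congr_fun hF fun w hw => ?_
    rw [hGF w hw, rep_delP hτ hL0 (hτρ.trans (hfar w hw))]; ring
  rw [← integral_inter_add_sdiff hBm hG.integrableOn] at e1
  have e2 : ∫ w in Fz U ∩ B, repC z L w * repK z τ w ^ 2 = ∫ w in Fz U ∩ B, (w - z)⁻¹ ^ 2 := by
    refine setIntegral_congr_fun (hF.inter hBm) fun w hw => ?_
    rw [hGF w hw.1, hone w hw.2, one_mul]
  rw [e2] at e1
  have e3 : -(∫ w, g w ^ 2 * repD z τ w) - (∫ w in Fz U ∩ B, (w - z)⁻¹ ^ 2)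
      + ((∫ w, g w ^ 2 * repD z L w) + ∫ w in Fz U, repD z L w * (conj (w - z) * (w - z)⁻¹))
      = ∫ w in Fz U \ B, repC z L w * repK z τ w ^ 2 := by linear_combination ha + e1
  rw [e3]
  refine (enorm_integral_le_lintegral_enorm _).trans
    (setLIntegral_mono' (hF.diff hBm) fun w hw => rep_enorm_le ?_)
  rw [hGF w hw.1, norm_mul, norm_pow, norm_inv]
  exact mul_le_of_le_one_left (by positivity) (norm_repC_le _ _ _)

end MW.PL
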