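import Pool.Agent.P.MP_064970_gt.PL.Calc

/-! Row PL-Sig: Let `σ k = Mx (2^k) / 2^k → 0`. For large `k` choose `k' ≥ k` with `σ j ≤ 2 σ k'` for all
`j ≥ k`. `S_Grad` at radius `r = 2^(k'+1)` with slope `σ k'`: either the area or the tail hypothesis
fails (`IsT` bounds `σ²`), or `∫ |h|` is small; then `U = Re (h z) - Dil` and `MeanC.sub` give
`∫_{ball 0 r} |Dil| ≥ c σ r³`, and `drop` gives `σ² ≤ C y`. Shift the indices by monotonicity. -/

open Complex InnerProductSpace Set Filter Topology Metric MeasureTheory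
open scoped Real ComplexConjugate ENNReal

namespace MW.PL

open MW.AN

/-- The right-hand side of `S_Sig`. -/
noncomputable def sigY (y : ℝ → ℝ) (k : ℕ) : ℝ :=
  1 / 4 ^ k + ∑ i ∈ Finset.range (k + 1), y (2 ^ i) / 4 ^ (k - i)

theorem sigY_succ (y : ℝ → ℝ) (k : ℕ) : sigY y (k + 1) = sigY y k / 4 + y (2 ^ (k + 1)) := by
  unfold sigY
  rw [Finset.sum_range_succ _ (k + 1), add_div, Finset.sum_div]
  have e : ∑ i ∈ Finset.range (k + 1), y (2 ^ i) / 4 ^ (k + 1 - i)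
      = ∑ i ∈ Finset.range (k + 1), y (2 ^ i) / 4 ^ (k - i) / 4 := by
    refine Finset.sum_congr rfl fun i hi => ?_
    have hi' : i ≤ k := Nat.lt_succ_iff.mp (Finset.mem_range.mp hi)
    rw [show k + 1 - i = (k - i) + 1 by omega, pow_succ, div_div]
  rw [e, Nat.sub_self, pow_zero, div_one, pow_succ (4 : ℝ) k, div_div]
  ring

theorem sigY_ge {y : ℝ → ℝ} (h0 : ∀ r > 0, 0 ≤ y r) (k : ℕ) :
    y (2 ^ k) ≤ sigY y k ∧ 1 / 4 ^ k ≤ sigY y k := by
  unfold sigY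
  have hs : 0 ≤ ∑ i ∈ Finset.range k, y (2 ^ i) / 4 ^ (k - i) :=
    Finset.sum_nonneg fun i _ => div_nonneg (h0 _ (by positivity)) (by positivity)
  have h1 : (0 : ℝ) < 1 / 4 ^ k := by positivity
  have h2 := h0 (2 ^ k) (by positivity)
  rw [Finset.sum_range_succ, Nat.sub_self, pow_zero, div_one]
  constructor <;> linarith

theorem sig_y_mono {y : ℝ → ℝ} (ha : AntitoneOn y (Ioi 0)) {i j : ℕ} (hij : i ≤ j) :
    y (2 ^ j) ≤ y (2 ^ i) :=
  ha (show (0 : ℝ) < 2 ^ i by positivity) (show (0 : ℝ) < 2 ^ j by positivity)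
    (pow_le_pow_right₀ (by norm_num) hij)

theorem sigY_le {y : ℝ → ℝ} (ha : AntitoneOn y (Ioi 0)) (h0 : ∀ r > 0, 0 ≤ y r) {k j : ℕ}
    (hkj : k ≤ j) : sigY y j ≤ 2 * sigY y k := by
  have hk := sigY_ge h0 k
  have h1 : (0 : ℝ) < 1 / 4 ^ k := by positivity
  induction j, hkj using Nat.le_induction with
  | base => linarith [hk.2]
  | succ j hj ih =>
    rw [sigY_succ]
    have := sig_y_mono ha (show k ≤ j + 1 by omega)
    linarith [hk.1, hk.2]

theorem sig_area {U : ℂ → ℝ} {y : ℝ → ℝ} {C' r₀ : ℝ} (hC' : 0 < C') (hT : IsT C' r₀ U y)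
    (ha : AntitoneOn y (Ioi 0)) (h0 : ∀ r > 0, 0 ≤ y r) (m : ℕ) :
    Ar U 0 (2 ^ (m + 1)) ≤ C' * 4 ^ m * sigY y m := by
  refine (hT.area (m + 1)).trans ?_
  unfold sigY
  have e : C' * 4 ^ m * (1 / 4 ^ m + ∑ i ∈ Finset.range (m + 1), y (2 ^ i) / 4 ^ (m - i))
      = C' + C' * ∑ i ∈ Finset.range (m + 1), 4 ^ i * y (2 ^ i) := by
    rw [mul_add, mul_assoc C' _ (∑ i ∈ Finset.range (m + 1), _), Finset.mul_sum]
    congr 1
    · field_simp
    · congr 1
      refine Finset.sum_congr rfl fun i hi => ?_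
      have hi' : i ≤ m := Nat.lt_succ_iff.mp (Finset.mem_range.mp hi)
      have : (4 : ℝ) ^ m = 4 ^ i * 4 ^ (m - i) := by
        rw [← pow_add]; congr 1; omega
      rw [this]
      field_simp
  rw [e]
  have : ∑ i ∈ Finset.range (m + 1), 4 ^ i * (y (2 ^ (i + 2)) - y (2 ^ (i + 3)))
      ≤ ∑ i ∈ Finset.range (m + 1), 4 ^ i * y (2 ^ i) := by
    refine Finset.sum_le_sum fun i _ => ?_
    have h1 := sig_y_mono ha (show i ≤ i + 2 by omega)
    have h2 := h0 (2 ^ (i + 3)) (by positivity)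
    exact mul_le_mul_of_nonneg_left (by linarith) (by positivity)
  nlinarith

theorem sig_int_U {U : ℂ → ℝ} {h : ℂ → ℂ} (hD : Data U h) (c : ℂ) (r : ℝ) :
    IntegrableOn U (ball c r) :=
  (hD.lip.continuous.continuousOn.integrableOn_compact (isCompact_closedBall c r)).mono_set
    ball_subset_closedBall

theorem sig_int_h {U : ℂ → ℝ} {h : ℂ → ℂ} (hD : Data U h) (c : ℂ) (r : ℝ) :
    IntegrableOn (fun z => ‖h z‖) (ball c r) :=
  Measure.integrableOn_of_bounded (M := 1) measure_ball_lt_top.ne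
    hD.meas.norm.aestronglyMeasurable
    (Eventually.of_forall fun z => by rw [norm_norm]; exact hD.le z)

theorem sig_int_Dil {U : ℂ → ℝ} {h : ℂ → ℂ} (hD : Data U h) (r : ℝ) :
    IntegrableOn (fun z => Dil U h z ^ 2) (ball 0 r) := by
  have hm : Measurable fun z => Dil U h z ^ 2 := by
    unfold Dil
    exact ((Complex.measurable_re.comp (hD.meas.mul measurable_id)).sub
      hD.lip.continuous.measurable).pow_const 2
  refine Measure.integrableOn_of_bounded (M := (r + Mx U r) ^ 2) measure_ball_lt_top.ne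
    hm.aestronglyMeasurable ?_
  refine (ae_restrict_iff' measurableSet_ball).mpr (Eventually.of_forall fun z hz => ?_)
  have hz' : ‖z‖ < r := by simpa using hz
  have h1 : |(h z * z).re| ≤ r := by
    refine (Complex.abs_re_le_norm _).trans ?_
    rw [norm_mul]
    have := hD.le z
    nlinarith [norm_nonneg z, norm_nonneg (h z)]
  have h2 : U z ≤ Mx U r := hD.bd_Mx r z (ball_subset_closedBall hz)
  have h3 := hD.nonneg z
  rw [Real.norm_eq_abs, abs_pow]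
  refine pow_le_pow_left₀ (abs_nonneg _) ?_ 2
  unfold Dil
  rw [abs_le] at h1 ⊢
  constructor <;> linarith [h1.1, h1.2]

/-- If the gradient is small in the mean, the slope is bounded by the energy. -/
theorem sig_main {U : ℂ → ℝ} {h : ℂ → ℂ} {μ : Measure ℂ} {Cm C : ℝ} {y : ℝ → ℝ}
    (hD : Data U h) (hCm : 0 < Cm) (hM : MeanC Cm U h μ) (hC : 0 < C) (hW : IsW C U h y)
    {r σ : ℝ} (hr : 0 < r) (hσ : 0 < σ) (hMx : Mx U (r / 2) = σ * (r / 2))
    (hh : ∫ z in ball 0 r, ‖h z‖ ≤ 1 / (16 * Cm) * σ * r ^ 2) :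
    σ ^ 2 ≤ 1024 * Cm ^ 2 * C * y r := by
  obtain ⟨a, ha, hUa⟩ := hD.exists_Mx (show 0 ≤ r / 2 by positivity)
  have h1 := hM.sub a (r / 2) (by positivity)
  have hsub : ball a (r / 2) ⊆ ball 0 r := by
    intro z hz
    rw [mem_ball, dist_eq_norm] at hz ⊢
    calc ‖z - 0‖ = ‖(z - a) + a‖ := by congr 1; ring
      _ ≤ ‖z - a‖ + ‖a‖ := norm_add_le _ _
      _ < r := by linarith
  have h2 : ∫ z in ball a (r / 2), U z ≤ ∫ z in ball 0 r, U z :=
    setIntegral_mono_set (sig_int_U hD 0 r) (Eventually.of_forall hD.nonneg)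
      hsub.eventuallyLE
  set t : ℝ := σ * r / (64 * Cm) with ht
  have htp : 0 < t := by positivity
  have hcI : IntegrableOn (fun _ : ℂ => t / 2) (ball (0 : ℂ) r) :=
    integrableOn_const measure_ball_lt_top.ne
  have h3 : ∫ z in ball 0 r, U z
      ≤ ∫ z in ball 0 r, (r * ‖h z‖ + t / 2 + 1 / (2 * t) * Dil U h z ^ 2) := by
    refine setIntegral_mono_on (sig_int_U hD 0 r)
      ((((sig_int_h hD 0 r).const_mul r).add hcI).add ((sig_int_Dil hD r).const_mul _))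
      measurableSet_ball fun z hz => ?_
    have hz' : ‖z‖ < r := by simpa using hz
    have e1 : (h z * z).re ≤ r * ‖h z‖ := by
      refine (Complex.re_le_norm _).trans ?_
      rw [norm_mul]
      nlinarith [norm_nonneg (h z)]
    have e2 : -Dil U h z ≤ t / 2 + 1 / (2 * t) * Dil U h z ^ 2 := by
      have : t / 2 + 1 / (2 * t) * Dil U h z ^ 2 + Dil U h z
          = (t + Dil U h z) ^ 2 / (2 * t) := by
        field_simp
        ring
      have h5 : 0 ≤ (t + Dil U h z) ^ 2 / (2 * t) := by positivity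
      linarith
    have e3 : U z = (h z * z).re - Dil U h z := by unfold Dil; ring
    linarith
  have h4 : ∫ z in ball 0 r, (r * ‖h z‖ + t / 2 + 1 / (2 * t) * Dil U h z ^ 2)
      = r * (∫ z in ball 0 r, ‖h z‖) + volume.real (ball (0 : ℂ) r) * (t / 2)
        + 1 / (2 * t) * ∫ z in ball 0 r, Dil U h z ^ 2 := by
    have i1 : IntegrableOn (fun z => r * ‖h z‖ + t / 2) (ball (0 : ℂ) r) :=
      ((sig_int_h hD 0 r).const_mul r).add hcI
    rw [integral_add i1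
      ((sig_int_Dil hD r).const_mul _), integral_add ((sig_int_h hD 0 r).const_mul r) hcI,
      integral_const_mul, integral_const_mul, setIntegral_const, smul_eq_mul]
  have h5 : volume.real (ball (0 : ℂ) r) ≤ 4 * r ^ 2 := by
    rw [Measure.real, Complex.volume_ball, ENNReal.toReal_mul, ENNReal.toReal_pow,
      ENNReal.toReal_ofReal hr.le]
    have : ((NNReal.pi : ℝ≥0∞)).toReal = π := rfl
    rw [this]
    nlinarith [Real.pi_le_four, sq_nonneg r]
  have h6 : ∫ z in ball 0 r, Dil U h z ^ 2 ≤ C * r ^ 4 * y r := by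
    refine (hW.drop r hr).trans ?_
    have := hW.nonneg (2 * r) (by positivity)
    exact mul_le_mul_of_nonneg_left (by linarith) (by positivity)
  have h7 : ∫ z in ball 0 r, U z ≤ r * (1 / (16 * Cm) * σ * r ^ 2) + 4 * r ^ 2 * (t / 2)
      + 1 / (2 * t) * (C * r ^ 4 * y r) := by
    rw [h4] at h3
    refine h3.trans ?_
    gcongr
  have h8 : σ * (r / 2) ≤ Cm / (r / 2) ^ 2 * (r * (1 / (16 * Cm) * σ * r ^ 2)
      + 4 * r ^ 2 * (t / 2) + 1 / (2 * t) * (C * r ^ 4 * y r)) := by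
    rw [← hMx, ← hUa]
    exact h1.trans (mul_le_mul_of_nonneg_left (h2.trans h7) (by positivity))
  have h9 : Cm / (r / 2) ^ 2 * (r * (1 / (16 * Cm) * σ * r ^ 2)
      + 4 * r ^ 2 * (t / 2) + 1 / (2 * t) * (C * r ^ 4 * y r))
      = σ * r / 4 + σ * r / 8 + r / σ * (128 * Cm ^ 2 * C * y r) := by
    rw [ht]
    field_simp
    ring
  rw [h9] at h8
  have h10 : σ * r / 8 ≤ r / σ * (128 * Cm ^ 2 * C * y r) := by linarith
  have h11 := mul_le_mul_of_nonneg_left h10 (show 0 ≤ 8 * σ / r by positivity)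
  have e1 : 8 * σ / r * (σ * r / 8) = σ ^ 2 := by field_simp
  have e2 : 8 * σ / r * (r / σ * (128 * Cm ^ 2 * C * y r)) = 1024 * Cm ^ 2 * C * y r := by
    field_simp
    ring
  rwa [e1, e2] at h11

/-- A sequence tending to zero attains its maximum on every tail that starts at a positive term. -/
theorem sig_record {σ : ℕ → ℝ} (hσ : ∀ ε > 0, ∃ N, ∀ j, N ≤ j → σ j ≤ ε) {k : ℕ}
    (hk : 0 < σ k) : ∃ k', k ≤ k' ∧ ∀ j, k ≤ j → σ j ≤ σ k' := by
  obtain ⟨N, hN⟩ := hσ _ hk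
  obtain ⟨k', hk', hmax⟩ := Finset.exists_max_image (Finset.Icc k (k + N)) σ
    ⟨k, Finset.mem_Icc.mpr ⟨le_rfl, by omega⟩⟩
  refine ⟨k', (Finset.mem_Icc.mp hk').1, fun j hj => ?_⟩
  by_cases hjN : j ≤ k + N
  · exact hmax j (Finset.mem_Icc.mpr ⟨hj, hjN⟩)
  · exact (hN j (by omega)).trans (hmax k (Finset.mem_Icc.mpr ⟨le_rfl, by omega⟩))

theorem sig_pow_ge (s : ℝ) : ∃ N : ℕ, ∀ j, N ≤ j → s ≤ (2 : ℝ) ^ j := by
  obtain ⟨N, hN⟩ := pow_unbounded_of_one_lt s (show (1 : ℝ) < 2 by norm_num)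
  exact ⟨N, fun j hj => hN.le.trans (pow_le_pow_right₀ (by norm_num) hj)⟩

theorem sig_of (h₁ : S_Mean) (h₂ : S_Grad) : S_Sig := by
  obtain ⟨Cm, hCm, hMean⟩ := h₁
  obtain ⟨η, hη, hG⟩ := h₂ (1 / (16 * Cm)) 8 (by positivity) (by norm_num)
  intro U h μ C y C' r₀ hI hC hW hC' hr₀ hT
  have hD : Data U h := hI.toData
  have hM := hMean U h μ hI
  set σ : ℕ → ℝ := fun k => Mx U (2 ^ k) / 2 ^ k with hσ
  have hMx : ∀ k : ℕ, Mx U (2 ^ k) = σ k * 2 ^ k := fun k => by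
    simp only [hσ]; field_simp
  have hσ0 : ∀ k, 0 ≤ σ k := fun k =>
    div_nonneg (hD.Mx_mono (r := 2 ^ k) (by positivity) le_rfl).1 (by positivity)
  have hlim : ∀ ε > 0, ∃ N, ∀ j, N ≤ j → σ j ≤ ε := by
    intro ε hε
    obtain ⟨s, -, hs⟩ := hD.Mx_sub ε hε
    obtain ⟨N, hN⟩ := sig_pow_ge s
    refine ⟨N, fun j hj => ?_⟩
    simp only [hσ]
    rw [div_le_iff₀ (by positivity)]
    exact hs _ (hN j hj)
  obtain ⟨N₁, hN₁⟩ := hlim 1 one_pos
  obtain ⟨N₂, hN₂⟩ := sig_pow_ge r₀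
  have hA : 0 ≤ Mx U (2 ^ (N₁ + N₂)) ^ 2 := sq_nonneg _
  have hB : 0 < 2 * C' / η := by positivity
  have hE : 0 < 1024 * Cm ^ 2 * C := by positivity
  refine ⟨Mx U (2 ^ (N₁ + N₂)) ^ 2 + 2 * C' / η + 1024 * Cm ^ 2 * C, fun k => ?_⟩
  change σ k ^ 2 ≤ _ * sigY y k
  have hY := sigY_ge hW.nonneg k
  have hY0 : 0 < sigY y k := lt_of_lt_of_le (by positivity) hY.2
  by_cases hk : k ≤ N₁ + N₂
  · have h1 := hD.Mx_mono (r := 2 ^ k) (r' := 2 ^ (N₁ + N₂)) (by positivity)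
      (pow_le_pow_right₀ (by norm_num) hk)
    have h2 : σ k ^ 2 ≤ Mx U (2 ^ (N₁ + N₂)) ^ 2 * (1 / 4 ^ k) := by
      simp only [hσ]
      rw [div_pow, ← pow_mul, mul_comm k 2, pow_mul, mul_one_div]
      norm_num
      gcongr
      · exact h1.1
      · exact h1.2
    have h3 := mul_le_mul_of_nonneg_left hY.2 hA
    nlinarith
  rcases (hσ0 k).eq_or_lt with h0 | h0
  · rw [← h0, zero_pow two_ne_zero]
    positivity
  obtain ⟨m, hkm, hmax⟩ := sig_record hlim h0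
  have hm0 : 0 < σ m := h0.trans_le (hmax k le_rfl)
  have hkk : σ k ^ 2 ≤ σ m ^ 2 := pow_le_pow_left₀ h0.le (hmax k le_rfl) 2
  have hr : (0 : ℝ) < 2 ^ (m + 1) := by positivity
  have hBd : Bd U 0 (8 * 2 ^ (m + 1)) (8 * σ m * 2 ^ (m + 1)) := by
    intro z hz
    have e : (8 : ℝ) * 2 ^ (m + 1) = 2 ^ (m + 4) := by ring
    rw [e] at hz
    refine (hD.bd_Mx _ z hz).trans ?_
    rw [hMx, ← e]
    have := hmax (m + 4) (by omega)
    nlinarith
  have e2 : (2 : ℝ) * 2 ^ (m + 1) = 2 ^ (m + 1 + 1) := by ring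
  by_cases hAr : Ar U 0 (2 * 2 ^ (m + 1)) ≤ η * σ m ^ 2 * (2 ^ (m + 1)) ^ 2
  swap
  · push Not at hAr
    have h1 := sig_area hC' hT hW.anti hW.nonneg (m + 1)
    rw [← e2] at h1
    have h2 := sigY_le hW.anti hW.nonneg (show k ≤ m + 1 by omega)
    have e3 : ((2 : ℝ) ^ (m + 1)) ^ 2 = 4 ^ (m + 1) := by
      rw [← pow_mul, mul_comm (m + 1) 2, pow_mul]; norm_num
    rw [e3] at hAr
    have h3 : η * σ m ^ 2 * 4 ^ (m + 1) ≤ C' * (2 * sigY y k) * 4 ^ (m + 1) := by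
      have : C' * 4 ^ (m + 1) * sigY y (m + 1) ≤ C' * 4 ^ (m + 1) * (2 * sigY y k) :=
        mul_le_mul_of_nonneg_left h2 (by positivity)
      linarith
    have h4 := le_of_mul_le_mul_right h3 (by positivity)
    have h5 : σ m ^ 2 ≤ 2 * C' / η * sigY y k := by
      rw [div_mul_eq_mul_div, le_div_iff₀ hη]
      linarith
    nlinarith
  by_cases hTl : ∫⁻ w in Fz U \ ball 0 (2 * 2 ^ (m + 1)), k2 0 w ≤ ENNReal.ofReal (η * σ m ^ 2)
  swap
  · push Not at hTl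
    have h1 := hT.tail (2 * 2 ^ (m + 1)) (by rw [e2]; exact hN₂ _ (by omega))
    have h2 := (ENNReal.ofReal_lt_ofReal_iff_of_nonneg (by positivity)).mp (hTl.trans_le h1)
    rw [e2] at h2
    have h3 := sig_y_mono hW.anti (show k ≤ m + 1 + 1 by omega)
    have h4 : C' * y (2 ^ (m + 1 + 1)) ≤ C' * (2 * sigY y k) :=
      mul_le_mul_of_nonneg_left (by linarith [hY.1]) hC'.le
    have h5 : σ m ^ 2 ≤ 2 * C' / η * sigY y k := by
      rw [div_mul_eq_mul_div, le_div_iff₀ hη]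
      linarith
    nlinarith
  have h1 := hG U h μ hI _ _ hr hm0 (hN₁ m (by omega)) hBd hAr hTl
  have e4 : (2 : ℝ) ^ (m + 1) / 2 = 2 ^ m := by ring
  have h2 := sig_main hD hCm hM hC hW hr hm0 (by rw [e4]; exact hMx m) h1
  have h3 := sig_y_mono hW.anti (show k ≤ m + 1 by omega)
  have h4 : 1024 * Cm ^ 2 * C * y (2 ^ (m + 1)) ≤ 1024 * Cm ^ 2 * C * sigY y k :=
    mul_le_mul_of_nonneg_left (h3.trans hY.1) hE.le
  nlinarith

end MW.PL
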