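import Pool.Agent.P.MP_064970_gt.PL.Calc

/-! Row PL-Tail: `g1` and `drop` give `|F ∩ {r ≤ |z| ≤ 2r}| ≤ C r² (y (4r) - y (8r))` for `r ≥ r₀`;
sum over dyadic annuli. -/

open Complex InnerProductSpace Set Filter Topology Metric MeasureTheory
open scoped Real ComplexConjugate ENNReal

namespace MW.PL

open MW.AN

variable {U : ℂ → ℝ} {h : ℂ → ℂ}

theorem tail_measurable_Dil (hD : Data U h) : Measurable (Dil U h) :=
  (Complex.measurable_re.comp (hD.meas.mul measurable_id)).sub hD.lip.continuous.measurable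

theorem tail_abs_Dil (hD : Data U h) (z : ℂ) : |Dil U h z| ≤ 2 * ‖z‖ + U 0 := by
  have h1 : |(h z * z).re| ≤ ‖z‖ := by
    refine (Complex.abs_re_le_norm _).trans ?_
    rw [norm_mul]
    exact mul_le_of_le_one_left (norm_nonneg z) (hD.le z)
  have h2 := hD.lip.dist_le_mul z 0
  rw [Real.dist_eq, dist_zero_right, NNReal.coe_one, one_mul] at h2
  have h3 := hD.nonneg z
  have h4 := hD.nonneg 0
  have h5 := abs_le.1 h1
  have h6 := abs_le.1 h2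
  unfold Dil
  rw [abs_le]
  constructor <;> linarith [norm_nonneg z]

theorem tail_integrableOn (hD : Data U h) (ρ : ℝ) :
    IntegrableOn (fun z => Dil U h z ^ 2) (ball 0 ρ) := by
  refine Measure.integrableOn_of_bounded (M := (2 * ρ + U 0) ^ 2) measure_ball_lt_top.ne
    ((tail_measurable_Dil hD).pow_const 2).aestronglyMeasurable ?_
  refine ae_restrict_of_forall_mem measurableSet_ball fun z hz => ?_
  rw [mem_ball_zero_iff] at hz
  rw [Real.norm_of_nonneg (sq_nonneg _), ← sq_abs]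
  exact pow_le_pow_left₀ (abs_nonneg _) ((tail_abs_Dil hD z).trans (by linarith)) 2

theorem tail_isClosed (a b : ℝ) : IsClosed {z : ℂ | a ≤ ‖z‖ ∧ ‖z‖ ≤ b} :=
  (isClosed_le continuous_const continuous_norm).inter
    (isClosed_le continuous_norm continuous_const)

theorem tail_integral_le (hD : Data U h) {r : ℝ} (hr : 0 < r) :
    ∫ z in Om U ∩ {z | r / 2 ≤ ‖z‖ ∧ ‖z‖ ≤ 4 * r}, Dil U h z ^ 2 / ‖z‖ ^ 2 ≤
      4 / r ^ 2 * ∫ z in ball 0 (4 * r), Dil U h z ^ 2 := by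
  have hS : MeasurableSet (Om U ∩ {z | r / 2 ≤ ‖z‖ ∧ ‖z‖ ≤ 4 * r}) :=
    hD.isOpen_Om.measurableSet.inter (tail_isClosed _ _).measurableSet
  have hsub : (Om U ∩ {z | r / 2 ≤ ‖z‖ ∧ ‖z‖ ≤ 4 * r} : Set ℂ) ≤ᵐ[volume] ball (0 : ℂ) (4 * r) := by
    filter_upwards [measure_eq_zero_iff_ae_notMem.1 (Measure.addHaar_sphere volume (0 : ℂ) (4 * r))]
      with z hz hz'
    rw [mem_sphere_zero_iff_norm] at hz
    exact mem_ball_zero_iff.2 (lt_of_le_of_ne hz'.2.2 hz)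
  have hi := tail_integrableOn hD (4 * r)
  have hi' : IntegrableOn (fun z => Dil U h z ^ 2)
      (Om U ∩ {z | r / 2 ≤ ‖z‖ ∧ ‖z‖ ≤ 4 * r}) := hi.mono_set_ae hsub
  calc ∫ z in Om U ∩ {z | r / 2 ≤ ‖z‖ ∧ ‖z‖ ≤ 4 * r}, Dil U h z ^ 2 / ‖z‖ ^ 2
      ≤ ∫ z in Om U ∩ {z | r / 2 ≤ ‖z‖ ∧ ‖z‖ ≤ 4 * r}, 4 / r ^ 2 * Dil U h z ^ 2 := by
        refine integral_mono_of_nonneg (Eventually.of_forall fun z => by positivity)
          (hi'.const_mul _) (ae_restrict_of_forall_mem hS fun z hz => ?_)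
        have h1 : (r / 2) ^ 2 ≤ ‖z‖ ^ 2 := pow_le_pow_left₀ (by positivity) hz.2.1 2
        calc Dil U h z ^ 2 / ‖z‖ ^ 2 ≤ Dil U h z ^ 2 / (r / 2) ^ 2 :=
              div_le_div_of_nonneg_left (sq_nonneg _) (by positivity) h1
          _ = 4 / r ^ 2 * Dil U h z ^ 2 := by field_simp; ring
    _ = 4 / r ^ 2 * ∫ z in Om U ∩ {z | r / 2 ≤ ‖z‖ ∧ ‖z‖ ≤ 4 * r}, Dil U h z ^ 2 :=
        integral_const_mul _ _
    _ ≤ 4 / r ^ 2 * ∫ z in ball 0 (4 * r), Dil U h z ^ 2 :=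
        mul_le_mul_of_nonneg_left (setIntegral_mono_set hi
          (Eventually.of_forall fun z => sq_nonneg _) hsub) (by positivity)

theorem tail_drop_nonneg {C : ℝ} {y : ℝ → ℝ} (hW : IsW C U h y) {r s : ℝ} (hr : 0 < r)
    (hrs : r ≤ s) : 0 ≤ y r - y s :=
  sub_nonneg.2 (hW.anti hr (hr.trans_le hrs) hrs)

/-- The area of the zero set in a dyadic annulus. -/
theorem tail_annulus (hD : Data U h) {C : ℝ} {y : ℝ → ℝ} (hC : 0 < C) (hW : IsW C U h y) :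
    ∃ K r₀ : ℝ, 0 < K ∧ 0 < r₀ ∧ ∀ r, r₀ ≤ r →
      volume.real (Fz U ∩ {z | r ≤ ‖z‖ ∧ ‖z‖ ≤ 2 * r}) ≤ K * r ^ 2 * (y (4 * r) - y (8 * r)) := by
  obtain ⟨C₁, r₀, hr₀, hg⟩ := hD.g1
  refine ⟨1024 * (|C₁| + 1) * C, r₀, by positivity, hr₀, fun r hr => ?_⟩
  have hr' : 0 < r := hr₀.trans_le hr
  have h0 : 0 ≤ ∫ z in Om U ∩ {z | r / 2 ≤ ‖z‖ ∧ ‖z‖ ≤ 4 * r}, Dil U h z ^ 2 / ‖z‖ ^ 2 :=
    integral_nonneg fun z => by positivity
  have h1 := hW.drop (4 * r) (by positivity)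
  rw [show 2 * (4 * r) = 8 * r by ring] at h1
  calc volume.real (Fz U ∩ {z | r ≤ ‖z‖ ∧ ‖z‖ ≤ 2 * r})
      ≤ (|C₁| + 1) * ∫ z in Om U ∩ {z | r / 2 ≤ ‖z‖ ∧ ‖z‖ ≤ 4 * r}, Dil U h z ^ 2 / ‖z‖ ^ 2 :=
        (hg r hr).trans (mul_le_mul_of_nonneg_right (by linarith [le_abs_self C₁]) h0)
    _ ≤ (|C₁| + 1) * (4 / r ^ 2 * (C * (4 * r) ^ 4 * (y (4 * r) - y (8 * r)))) :=
        mul_le_mul_of_nonneg_left ((tail_integral_le hD hr').trans
          (mul_le_mul_of_nonneg_left h1 (by positivity))) (by positivity)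
    _ = _ := by field_simp; ring

theorem tail_vol_ne_top (U : ℂ → ℝ) (r : ℝ) :
    volume (Fz U ∩ {z | r ≤ ‖z‖ ∧ ‖z‖ ≤ 2 * r}) ≠ ∞ :=
  ((measure_mono fun _ hz => mem_closedBall_zero_iff.2 hz.2.2).trans_lt
    (measure_closedBall_lt_top (x := (0 : ℂ)) (r := 2 * r))).ne

theorem tail_lintegral_annulus (hD : Data U h) {r b : ℝ} (hr : 0 < r)
    (hb : volume.real (Fz U ∩ {z | r ≤ ‖z‖ ∧ ‖z‖ ≤ 2 * r}) ≤ r ^ 2 * b) :
    ∫⁻ w in Fz U ∩ {z | r ≤ ‖z‖ ∧ ‖z‖ ≤ 2 * r}, k2 0 w ≤ ENNReal.ofReal b := by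
  have hS : MeasurableSet (Fz U ∩ {z | r ≤ ‖z‖ ∧ ‖z‖ ≤ 2 * r}) :=
    (hD.isClosed_Fz.inter (tail_isClosed _ _)).measurableSet
  calc ∫⁻ w in Fz U ∩ {z | r ≤ ‖z‖ ∧ ‖z‖ ≤ 2 * r}, k2 0 w
      ≤ ∫⁻ _ in Fz U ∩ {z | r ≤ ‖z‖ ∧ ‖z‖ ≤ 2 * r}, ENNReal.ofReal (r⁻¹ ^ 2) := by
        refine setLIntegral_mono' hS fun w hw => ENNReal.ofReal_le_ofReal ?_
        rw [sub_zero]
        exact pow_le_pow_left₀ (by positivity) (inv_anti₀ hr hw.2.1) 2
    _ = ENNReal.ofReal (r⁻¹ ^ 2 * volume.real (Fz U ∩ {z | r ≤ ‖z‖ ∧ ‖z‖ ≤ 2 * r})) := by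
        rw [setLIntegral_const, ENNReal.ofReal_mul (by positivity),
          ofReal_measureReal (tail_vol_ne_top U r)]
    _ ≤ ENNReal.ofReal b := by
        refine ENNReal.ofReal_le_ofReal ((mul_le_mul_of_nonneg_left hb (by positivity)).trans_eq ?_)
        field_simp

theorem tail : S_Tail := by
  intro U h μ C y hI hC hW
  have hD := hI.toData
  obtain ⟨K, r₀, hK, hr₀, hA⟩ := tail_annulus hD hC hW
  obtain ⟨i₀, hi₀⟩ := pow_unbounded_of_one_lt r₀ (by norm_num : (1 : ℝ) < 2)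
  have hπ := Real.pi_pos
  refine ⟨π * 4 ^ i₀ + K, r₀, by positivity, hr₀, fun ρ hρ => ?_, fun k => ?_⟩
  · have hρ' : 0 < ρ := hr₀.trans_le hρ
    have hcov : Fz U \ ball 0 ρ ⊆
        ⋃ i : ℕ, Fz U ∩ {z | 2 ^ i * ρ ≤ ‖z‖ ∧ ‖z‖ ≤ 2 * (2 ^ i * ρ)} := by
      intro w hw
      have h1 : ρ ≤ ‖w‖ := not_lt.1 fun h1 => hw.2 (mem_ball_zero_iff.2 h1)
      obtain ⟨i, h2, h3⟩ := exists_nat_pow_near ((one_le_div hρ').2 h1) (by norm_num : (1 : ℝ) < 2)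
      rw [le_div_iff₀ hρ'] at h2
      rw [div_lt_iff₀ hρ', pow_succ] at h3
      exact mem_iUnion.2 ⟨i, hw.1, h2, by linarith⟩
    have hle : ∀ i : ℕ, ρ ≤ 2 ^ i * ρ := fun i =>
      le_mul_of_one_le_left hρ'.le (one_le_pow₀ (by norm_num))
    have hnn : ∀ i : ℕ, 0 ≤ K * (y (4 * (2 ^ i * ρ)) - y (4 * (2 ^ (i + 1) * ρ))) := fun i =>
      mul_nonneg hK.le (tail_drop_nonneg hW (by positivity) (by
        rw [pow_succ]; nlinarith [hle i]))
    refine ((lintegral_mono_set hcov).trans (lintegral_iUnion_le _ _)).trans ?_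
    refine (ENNReal.tsum_le_tsum (g := fun i : ℕ =>
      ENNReal.ofReal (K * (y (4 * (2 ^ i * ρ)) - y (4 * (2 ^ (i + 1) * ρ))))) fun i => ?_).trans ?_
    · refine tail_lintegral_annulus hD (by positivity) ((hA _ (hρ.trans (hle i))).trans_eq ?_)
      rw [show 8 * (2 ^ i * ρ) = 4 * (2 ^ (i + 1) * ρ) by ring]
      ring
    · refine ENNReal.summable.tsum_le_of_sum_range_le fun n => ?_
      rw [← ENNReal.ofReal_sum_of_nonneg fun i _ => hnn i]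
      refine ENNReal.ofReal_le_ofReal ?_
      rw [← Finset.mul_sum, Finset.sum_range_sub' fun i => y (4 * (2 ^ i * ρ))]
      have h1 := hW.nonneg (4 * (2 ^ n * ρ)) (by positivity)
      have h2 := tail_drop_nonneg hW hρ' (s := 4 * (2 ^ 0 * ρ)) (by linarith)
      have h3 := hW.nonneg ρ hρ'
      have h4 : 0 ≤ π * 4 ^ i₀ * y ρ := by positivity
      nlinarith
  · have hnn : ∀ i : ℕ, 0 ≤ (4 : ℝ) ^ i * (y (2 ^ (i + 2)) - y (2 ^ (i + 3))) := fun i =>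
      mul_nonneg (by positivity) (tail_drop_nonneg hW (by positivity)
        (pow_le_pow_right₀ (by norm_num) (by omega)))
    have h4 : ∀ i : ℕ, ((2 : ℝ) ^ i) ^ 2 = 4 ^ i := fun i => by
      rw [← pow_mul, mul_comm, pow_mul]; norm_num
    have key : ∀ k : ℕ, Ar U 0 (2 ^ k) ≤ π * 4 ^ i₀ +
        K * ∑ i ∈ Finset.range k, 4 ^ i * (y (2 ^ (i + 2)) - y (2 ^ (i + 3))) := by
      have hsmall : ∀ k ≤ i₀, Ar U 0 (2 ^ k) ≤ π * 4 ^ i₀ +
          K * ∑ i ∈ Finset.range k, 4 ^ i * (y (2 ^ (i + 2)) - y (2 ^ (i + 3))) := by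
        intro k hk
        have h1 := Ar_le U 0 (2 ^ k)
        rw [h4] at h1
        have h2 : π * 4 ^ k ≤ π * 4 ^ i₀ :=
          mul_le_mul_of_nonneg_left (pow_le_pow_right₀ (by norm_num) hk) hπ.le
        have h3 := mul_nonneg hK.le (Finset.sum_nonneg fun i (_ : i ∈ Finset.range k) => hnn i)
        linarith
      intro k
      induction k with
      | zero => exact hsmall 0 (Nat.zero_le _)
      | succ k ih =>
        rcases le_or_gt (k + 1) i₀ with hk | hk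
        · exact hsmall _ hk
        · have h1 := hA (2 ^ k) (hi₀.le.trans (pow_le_pow_right₀ (by norm_num) (by omega)))
          rw [h4, show (4 : ℝ) * 2 ^ k = 2 ^ (k + 2) by ring,
            show (8 : ℝ) * 2 ^ k = 2 ^ (k + 3) by ring] at h1
          have h2 : Ar U 0 (2 ^ (k + 1)) ≤ Ar U 0 (2 ^ k) +
              volume.real (Fz U ∩ {z | 2 ^ k ≤ ‖z‖ ∧ ‖z‖ ≤ 2 * 2 ^ k}) := by
            refine (measureReal_mono ?_ ?_).trans (measureReal_union_le _ _)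
            · rintro z ⟨hz, hz'⟩
              rw [mem_ball_zero_iff, pow_succ] at hz'
              rcases lt_or_ge ‖z‖ (2 ^ k) with h3 | h3
              · exact Or.inl ⟨hz, mem_ball_zero_iff.2 h3⟩
              · exact Or.inr ⟨hz, h3, by linarith⟩
            · exact (measure_union_lt_top ((measure_mono inter_subset_right).trans_lt
                measure_ball_lt_top) (tail_vol_ne_top U _).lt_top).ne
          rw [Finset.sum_range_succ, mul_add]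
          linarith
    have h1 := key k
    have h2 := Finset.sum_nonneg fun i (_ : i ∈ Finset.range k) => hnn i
    have h3 : 0 ≤ π * 4 ^ i₀ := by positivity
    nlinarith [mul_nonneg h3 h2]

end MW.PL
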