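import Pool.Agent.P.MP_064970_gt.PL.Calc

/-! Row PL-Vir: Let `m = μ (ball 0 r)`, `c = L r`, `ρ = L r / 4`, `R₂ = L² r`, `σ = m / ρ`. At a point
`z ∈ ball c ρ ∩ Om` off three small sets (`F`; Chebyshev for `∫_{r ≤ |w| < R₂} k1 dμ`, mass `≤ 3 ε m`;
`S_Key`, with the area of `F ∩ (ball 0 R₂ ∖ ball 0 (2r))` at most `C (3 ε m)²` by `LIC.sq`, `T = r/2`):
`2 π |h z| ≥ (1 - o(1)) m / |z|` (`S_RepH`, `B = ball 0 r`) and
`π |h z|² ≤ Ar 0 (2r) / (|z| - 2r)² + o(1) m² / |z|²` (`S_RepH2`; far part by `Ar 0 s ≤ C μ(ball 0 2s)²`).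
Choose `L`, then `η`, `ε`, then `γ ≤ 1/4` with `(2 L²)^γ ≤ 1 + ε`. -/

open Complex InnerProductSpace Set Filter Topology Metric MeasureTheory
open scoped Real ComplexConjugate ENNReal

namespace MW.PL

open MW.AN

theorem Vir_const {ν : Measure ℂ} {S : Set ℂ} (hS : MeasurableSet S) {f : ℂ → ℝ≥0∞} {b M : ℝ}
    (hb : 0 ≤ b) (hf : ∀ w ∈ S, f w ≤ ENNReal.ofReal b) (hM : ν S ≤ ENNReal.ofReal M) :
    ∫⁻ w in S, f w ∂ν ≤ ENNReal.ofReal (b * M) := by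
  calc ∫⁻ w in S, f w ∂ν ≤ ∫⁻ _ in S, ENNReal.ofReal b ∂ν := setLIntegral_mono' hS hf
    _ = ENNReal.ofReal b * ν S := setLIntegral_const _ _
    _ ≤ ENNReal.ofReal b * ENNReal.ofReal M := by gcongr
    _ = ENNReal.ofReal (b * M) := (ENNReal.ofReal_mul hb).symm

theorem Vir_tail {ν : Measure ℂ} {S : Set ℂ} {f : ℂ → ℝ≥0∞} {R a q : ℝ} (hR : 0 < R) (ha : 0 ≤ a)
    (hq : 0 ≤ q) (hq1 : q < 1)
    (h : ∀ j : ℕ, ∫⁻ w in S ∩ (ball 0 (2 ^ (j + 1) * R) \ ball 0 (2 ^ j * R)), f w ∂ν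
      ≤ ENNReal.ofReal (a * q ^ j)) :
    ∫⁻ w in S \ ball 0 R, f w ∂ν ≤ ENNReal.ofReal (a * (1 - q)⁻¹) := by
  have hsub : S \ ball 0 R ⊆ ⋃ j : ℕ, S ∩ (ball 0 (2 ^ (j + 1) * R) \ ball 0 (2 ^ j * R)) := by
    rintro w ⟨hw, hw'⟩
    rw [mem_ball_zero_iff, not_lt] at hw'
    obtain ⟨j, h1, h2⟩ := exists_nat_pow_near (x := ‖w‖ / R) (y := 2)
      ((one_le_div hR).2 hw') one_lt_two
    refine mem_iUnion.2 ⟨j, hw, ?_, ?_⟩
    · rw [mem_ball_zero_iff]; exact (div_lt_iff₀ hR).1 h2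
    · rw [mem_ball_zero_iff, not_lt]; exact (le_div_iff₀ hR).1 h1
  calc ∫⁻ w in S \ ball 0 R, f w ∂ν
      ≤ ∫⁻ w in ⋃ j : ℕ, S ∩ (ball 0 (2 ^ (j + 1) * R) \ ball 0 (2 ^ j * R)), f w ∂ν :=
        lintegral_mono_set hsub
    _ ≤ ∑' j : ℕ, ∫⁻ w in S ∩ (ball 0 (2 ^ (j + 1) * R) \ ball 0 (2 ^ j * R)), f w ∂ν :=
        lintegral_iUnion_le _ _
    _ ≤ ∑' j : ℕ, ENNReal.ofReal (a * q ^ j) := ENNReal.tsum_le_tsum h
    _ = ENNReal.ofReal (∑' j : ℕ, a * q ^ j) :=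
        (ENNReal.ofReal_tsum_of_nonneg (fun j => by positivity)
          ((summable_geometric_of_lt_one hq hq1).mul_left a)).symm
    _ = ENNReal.ofReal (a * (1 - q)⁻¹) := by
        rw [tsum_mul_left, tsum_geometric_of_lt_one hq hq1]

theorem Vir_inv_le {z w : ℂ} {s : ℝ} (hs : 0 < s) (hz : ‖z‖ ≤ s / 2) (hw : s ≤ ‖w‖) :
    ‖w - z‖⁻¹ ≤ 2 / s := by
  have h1 : ‖w‖ - ‖z‖ ≤ ‖w - z‖ := norm_sub_norm_le w z
  rw [← inv_div]
  exact inv_anti₀ (by positivity) (by linarith)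

theorem Vir_le_ofReal {ν : Measure ℂ} {S : Set ℂ} (hS : ν S ≠ ∞) {M : ℝ} (h : ν.real S ≤ M) :
    ν S ≤ ENNReal.ofReal M := by
  rw [← ofReal_measureReal hS]
  exact ENNReal.ofReal_le_ofReal h

theorem Vir_norm_le {x : ℂ} {b : ℝ} (hb : 0 ≤ b) (h : ‖x‖ₑ ≤ ENNReal.ofReal b) : ‖x‖ ≤ b := by
  rw [← ofReal_norm] at h
  exact (ENNReal.ofReal_le_ofReal_iff hb).1 h

/-- Chebyshev's inequality for the Cauchy kernel. -/
theorem Vir_cheb (ν : Measure ℂ) [SFinite ν] (c : ℂ) {ρ M lam : ℝ} (hρ : 0 < ρ)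
    (hl : 0 < lam) (hν : ν univ ≤ ENNReal.ofReal M) :
    volume (ball c ρ ∩ {z | ENNReal.ofReal lam ≤ ∫⁻ w, k1 z w ∂ν})
      ≤ ENNReal.ofReal (16 * ρ * M / lam) := by
  have hm : Measurable fun z : ℂ => ∫⁻ w, k1 z w ∂ν := measurable_k1.lintegral_prod_right
  have h1 : ∫⁻ z in ball c ρ, ∫⁻ w, k1 z w ∂ν ≤ ENNReal.ofReal (16 * ρ * M) := by
    rw [lintegral_lintegral_swap measurable_k1.aemeasurable]
    have h2 : ∀ w : ℂ, ∫⁻ z in ball c ρ, k1 z w ≤ ENNReal.ofReal (16 * ρ) := by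
      intro w
      have e : (fun z => k1 z w) = fun z => k1 w z := by
        funext z; simp only [k1, norm_sub_rev]
      rw [e]
      refine (lintegral_k1_le w measure_ball_lt_top).trans (ENNReal.ofReal_le_ofReal ?_)
      have h3 : volume.real (ball c ρ) ≤ (2 * ρ) ^ 2 := by
        rw [Measure.real, Complex.volume_ball, ENNReal.toReal_mul, ENNReal.toReal_pow,
          ENNReal.toReal_ofReal hρ.le]
        have : ((NNReal.pi : ℝ≥0∞)).toReal = π := rfl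
        rw [this]
        nlinarith [Real.pi_lt_four, sq_nonneg ρ]
      have h4 : √(volume.real (ball c ρ)) ≤ 2 * ρ := Real.sqrt_le_iff.2 ⟨by positivity, h3⟩
      linarith
    calc ∫⁻ w, (∫⁻ z in ball c ρ, k1 z w) ∂ν ≤ ∫⁻ _, ENNReal.ofReal (16 * ρ) ∂ν :=
          lintegral_mono h2
      _ = ENNReal.ofReal (16 * ρ) * ν univ := lintegral_const _
      _ ≤ ENNReal.ofReal (16 * ρ) * ENNReal.ofReal M := by gcongr
      _ = ENNReal.ofReal (16 * ρ * M) := (ENNReal.ofReal_mul (by positivity)).symm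
  have h2 := meas_ge_le_lintegral_div (μ := volume.restrict (ball c ρ)) hm.aemeasurable
    (ε := ENNReal.ofReal lam) (by simpa using hl) ENNReal.ofReal_ne_top
  rw [Measure.restrict_apply' measurableSet_ball, inter_comm] at h2
  refine h2.trans ?_
  rw [ENNReal.ofReal_div_of_pos hl]
  gcongr

theorem Vir_cauchy (μ : Measure ℂ) [IsFiniteMeasureOnCompacts μ] {z : ℂ} {r : ℝ} (hr : 0 < r)
    (hz : r < ‖z‖) :
    μ.real (ball 0 r) * (1 - r / (‖z‖ - r)) ≤ ‖∫ w in ball 0 r, (z - w)⁻¹ ∂μ‖ * ‖z‖ := by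
  have hz0 : 0 < ‖z‖ := hr.trans hz
  have hz0' : z ≠ 0 := norm_pos_iff.1 hz0
  have hne : ∀ w ∈ closedBall (0 : ℂ) r, z - w ≠ 0 := by
    intro w hw h0
    rw [mem_closedBall_zero_iff, ← sub_eq_zero.1 h0] at hw
    linarith
  have hi : IntegrableOn (fun w : ℂ => (z - w)⁻¹) (ball 0 r) μ :=
    (ContinuousOn.integrableOn_compact (isCompact_closedBall 0 r)
      ((continuousOn_const.sub continuousOn_id).inv₀ hne)).mono_set ball_subset_closedBall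
  have hc : IntegrableOn (fun _ : ℂ => z⁻¹) (ball (0 : ℂ) r) μ :=
    integrableOn_const measure_ball_lt_top.ne
  have h1 : ‖∫ w in ball 0 r, ((z - w)⁻¹ - z⁻¹) ∂μ‖ ≤ r / (‖z‖ - r) / ‖z‖ * μ.real (ball 0 r) := by
    refine norm_setIntegral_le_of_norm_le_const measure_ball_lt_top fun w hw => ?_
    have hw' := hne w (ball_subset_closedBall hw)
    rw [mem_ball_zero_iff] at hw
    have e : (z - w)⁻¹ - z⁻¹ = w / (z - w) / z := by field_simp; ring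
    rw [e, norm_div, norm_div]
    have h2 : ‖z‖ - ‖w‖ ≤ ‖z - w‖ := norm_sub_norm_le z w
    gcongr
    linarith
  rw [integral_sub hi hc, setIntegral_const] at h1
  have h2 : ‖μ.real (ball (0 : ℂ) r) • z⁻¹‖ = μ.real (ball 0 r) / ‖z‖ := by
    rw [norm_smul, norm_inv, Real.norm_of_nonneg measureReal_nonneg, div_eq_mul_inv]
  have h3 := norm_sub_norm_le (μ.real (ball (0 : ℂ) r) • z⁻¹) (∫ w in ball 0 r, (z - w)⁻¹ ∂μ)
  rw [norm_sub_rev, h2] at h3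
  have h4 : μ.real (ball 0 r) * (1 - r / (‖z‖ - r))
      = (μ.real (ball 0 r) / ‖z‖ - r / (‖z‖ - r) / ‖z‖ * μ.real (ball 0 r)) * ‖z‖ := by
    field_simp
  rw [h4]
  gcongr
  linarith

theorem Vir_area (U : ℂ → ℝ) {z : ℂ} {r : ℝ} (hz : r < ‖z‖) :
    ‖∫ w in Fz U ∩ ball 0 r, (w - z)⁻¹ ^ 2‖ ≤ (‖z‖ - r)⁻¹ ^ 2 * Ar U 0 r := by
  refine norm_setIntegral_le_of_norm_le_const
    ((measure_mono inter_subset_right).trans_lt measure_ball_lt_top) fun w hw => ?_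
  have hw' := hw.2
  rw [mem_ball_zero_iff] at hw'
  rw [norm_pow, norm_inv, norm_sub_rev]
  have h2 : ‖z‖ - ‖w‖ ≤ ‖z - w‖ := norm_sub_norm_le z w
  gcongr
  linarith

theorem Vir_final {m A x θ ε' : ℝ} (hm : 0 ≤ m) (hA : 0 ≤ A) (hθ : 0 < θ) (hθ1 : θ ≤ 1 / 6)
    (hθε : 6 * θ ≤ ε') (h1 : m * (1 - θ) ≤ 2 * π * x)
    (h2 : π * x ^ 2 ≤ (1 + θ) ^ 2 * A + θ / 13 * m ^ 2) : (1 - ε') * m ^ 2 / (4 * π) ≤ A := by
  have hπ := Real.pi_pos
  have hπ' : 4 * π ≤ 13 := by linarith [Real.pi_lt_d2]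
  have h3 : (m * (1 - θ)) ^ 2 ≤ (2 * π * x) ^ 2 :=
    pow_le_pow_left₀ (mul_nonneg hm (by linarith)) h1 2
  have h4 : (2 * π * x) ^ 2 ≤ (1 + θ) ^ 2 * (4 * π * A) + θ * m ^ 2 := by
    have h5 : 4 * π * (θ / 13 * m ^ 2) ≤ 13 * (θ / 13 * m ^ 2) := by gcongr
    nlinarith [mul_le_mul_of_nonneg_left h2 (by positivity : 0 ≤ 4 * π)]
  rw [div_le_iff₀ (by positivity)]
  have h6 : 0 ≤ 4 * π * A := by positivity
  have h7 : (1 - 6 * θ) * (1 + θ) ^ 2 ≤ (1 - θ) ^ 2 - θ := by nlinarith [sq_nonneg θ, pow_pos hθ 3]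
  have h8 : (1 + θ) ^ 2 * ((1 - 6 * θ) * m ^ 2) ≤ (1 + θ) ^ 2 * (4 * π * A) := by
    nlinarith [mul_le_mul_of_nonneg_right h7 (sq_nonneg m)]
  have h9 := le_of_mul_le_mul_left h8 (by positivity)
  nlinarith [sq_nonneg m]

theorem Vir_low (h₃ : S_RepH) {U : ℂ → ℝ} {h : ℂ → ℂ} {μ : Measure ℂ} (hI : Ids U h μ) {z : ℂ}
    (hz : z ∈ Om U) {r L θ ρ R m : ℝ} (hr : 0 < r) (hθ : 0 < θ) (hθ1 : θ ≤ 1) (hL : 84 ≤ θ * L)
    (hρ : ρ = L * r / 4) (hR : R = L ^ 2 * r) (hm : m = μ.real (ball 0 r))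
    (hz1 : 3 * ρ ≤ ‖z‖) (hz2 : ‖z‖ ≤ 5 * ρ)
    (hG : ∀ j : ℕ, μ.real (ball 0 (2 ^ (j + 1) * R)) ≤ 4 * m * (3 / 2) ^ j)
    (hmid : ∫⁻ w in ball 0 R \ ball 0 r, k1 z w ∂μ ≤ ENNReal.ofReal (θ / 10 * m / ρ)) :
    m * (1 - θ) ≤ 2 * π * (‖h z‖ * ‖z‖) := by
  have := hI.fin
  have hL1 : 84 ≤ L := by nlinarith
  have hρ0 : 0 < ρ := by rw [hρ]; positivity
  have hR0 : 0 < R := by rw [hR]; positivity
  have hRρ : R = 4 * L * ρ := by rw [hR, hρ]; ring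
  have hrρ : r ≤ ρ := by rw [hρ]; nlinarith
  have hm0 : 0 ≤ m := hm ▸ measureReal_nonneg
  have hfar : ∫⁻ w in univ \ ball 0 R, k1 z w ∂μ
      ≤ ENNReal.ofReal (8 * m / R * (1 - 3 / 4)⁻¹) := by
    refine Vir_tail hR0 (by positivity) (by norm_num) (by norm_num) fun j => ?_
    have h1 : (1 : ℝ) ≤ 2 ^ j := one_le_pow₀ one_le_two
    refine (Vir_const (b := 2 / (2 ^ j * R)) (M := 4 * m * (3 / 2) ^ j)
      (MeasurableSet.univ.inter (measurableSet_ball.diff measurableSet_ball)) (by positivity)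
      (fun w hw => ?_) ?_).trans (le_of_eq ?_)
    · have hw' := hw.2.2
      rw [mem_ball_zero_iff, not_lt] at hw'
      refine ENNReal.ofReal_le_ofReal (Vir_inv_le (by positivity) ?_ hw')
      nlinarith
    · exact (measure_mono (inter_subset_right.trans sdiff_subset)).trans
        (Vir_le_ofReal measure_ball_lt_top.ne (hG j))
    · congr 1
      rw [show (3 / 4 : ℝ) = 3 / 2 / 2 by norm_num, div_pow (3 / 2 : ℝ)]
      field_simp
      ring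
  have hsum : ∫⁻ w in (ball 0 r)ᶜ, k1 z w ∂μ
      ≤ ENNReal.ofReal (θ / 10 * m / ρ + 8 * m / R * (1 - 3 / 4)⁻¹) := by
    rw [ENNReal.ofReal_add (by positivity) (by positivity)]
    refine (lintegral_mono_set (t := (ball 0 R \ ball 0 r) ∪ (univ \ ball 0 R)) ?_).trans
      ((lintegral_union_le _ _ _).trans (add_le_add hmid hfar))
    intro w hw
    by_cases hw' : w ∈ ball (0 : ℂ) R
    · exact Or.inl ⟨hw', hw⟩
    · exact Or.inr ⟨trivial, hw'⟩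
  have h1 := Vir_norm_le (by positivity)
    ((h₃ U h μ hI z hz (ball 0 r) measurableSet_ball isBounded_ball).trans hsum)
  have h2 := Vir_cauchy μ hr (z := z) (by linarith)
  rw [← hm] at h2
  have h3 := norm_sub_norm_le (∫ w in ball 0 r, (z - w)⁻¹ ∂μ) (2 * π * h z)
  rw [norm_sub_rev] at h3
  have h4 : ‖2 * π * h z‖ = 2 * π * ‖h z‖ := by
    rw [norm_mul, norm_mul, Complex.norm_real, Real.norm_of_nonneg Real.pi_pos.le]; norm_num
  have h5 : r / (‖z‖ - r) ≤ 2 / L := by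
    rw [div_le_div_iff₀ (by linarith) (by linarith)]; nlinarith
  have h6 : (θ / 10 * m / ρ + 8 * m / R * (1 - 3 / 4)⁻¹) * ‖z‖ ≤ m * (θ / 2 + 40 / L) := by
    refine (mul_le_mul_of_nonneg_left hz2 (by positivity)).trans (le_of_eq ?_)
    rw [hRρ]; field_simp; ring
  have h7 : 2 / L + 40 / L ≤ θ / 2 := by
    rw [← add_div, div_le_iff₀ (by linarith)]; linarith
  have h8 : ‖∫ w in ball 0 r, (z - w)⁻¹ ∂μ‖ * ‖z‖
      ≤ (2 * π * ‖h z‖ + (θ / 10 * m / ρ + 8 * m / R * (1 - 3 / 4)⁻¹)) * ‖z‖ := by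
    gcongr; linarith
  nlinarith [mul_le_mul_of_nonneg_left h5 hm0, mul_le_mul_of_nonneg_left h7 hm0]

theorem Vir_up (h₄ : S_RepH2) {U : ℂ → ℝ} {h : ℂ → ℂ} {μ : Measure ℂ} (hI : Ids U h μ) {z : ℂ}
    (hz : z ∈ Om U) {r L θ ρ R m C a : ℝ} (hr : 0 < r) (hθ : 0 < θ) (hθ1 : θ ≤ 1)
    (hL : 84 ≤ θ * L) (hC : 0 < C) (hLC : 30000 * C ≤ θ * L) (hρ : ρ = L * r / 4)
    (hR : R = L ^ 2 * r) (hz1 : 3 * ρ ≤ ‖z‖) (hz2 : ‖z‖ ≤ 5 * ρ)
    (hG : ∀ j : ℕ, Ar U 0 (2 ^ (j + 1) * R) ≤ C * (6 * m * (3 / 2) ^ j) ^ 2)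
    (hnear : ∫⁻ w in Fz U ∩ ball z (ρ / 4), k2 z w ≤ ENNReal.ofReal (θ / 1000 * (m / ρ) ^ 2))
    (ha0 : 0 ≤ a) (ha : a ≤ θ / 16000)
    (hmid : volume (Fz U ∩ (ball 0 R \ ball 0 (2 * r))) ≤ ENNReal.ofReal (a * m ^ 2)) :
    π * (‖h z‖ * ‖z‖) ^ 2 ≤ (1 + θ) ^ 2 * Ar U 0 (2 * r) + θ / 13 * m ^ 2 := by
  have hL1 : 84 ≤ L := by nlinarith
  have hρ0 : 0 < ρ := by rw [hρ]; positivity
  have hR0 : 0 < R := by rw [hR]; positivity
  have hRρ : R = 4 * L * ρ := by rw [hR, hρ]; ring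
  have hrρ : 2 * r ≤ ρ := by rw [hρ]; nlinarith
  have hF : MeasurableSet (Fz U) := hI.toData.isClosed_Fz.measurableSet
  have hfar : ∫⁻ w in Fz U \ ball 0 R, k2 z w
      ≤ ENNReal.ofReal (144 * C * m ^ 2 / R ^ 2 * (1 - 9 / 16)⁻¹) := by
    refine Vir_tail hR0 (by positivity) (by norm_num) (by norm_num) fun j => ?_
    have h1 : (1 : ℝ) ≤ 2 ^ j := one_le_pow₀ one_le_two
    refine (Vir_const (b := (2 / (2 ^ j * R)) ^ 2) (M := C * (6 * m * (3 / 2) ^ j) ^ 2)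
      (hF.inter (measurableSet_ball.diff measurableSet_ball)) (by positivity)
      (fun w hw => ?_) ?_).trans (le_of_eq ?_)
    · have hw' := hw.2.2
      rw [mem_ball_zero_iff, not_lt] at hw'
      refine ENNReal.ofReal_le_ofReal (pow_le_pow_left₀ (by positivity)
        (Vir_inv_le (by positivity) ?_ hw') 2)
      nlinarith
    · exact (measure_mono (inter_subset_inter_right _ sdiff_subset)).trans
        (Vir_le_ofReal ((measure_mono inter_subset_right).trans_lt measure_ball_lt_top).ne (hG j))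
    · congr 1
      rw [show (9 / 16 : ℝ) = (3 / 2 / 2) ^ 2 by norm_num, ← pow_mul, mul_comm 2 j, pow_mul,
        div_pow (3 / 2 : ℝ)]
      field_simp
      ring
  have hmid' : ∫⁻ w in (Fz U ∩ (ball 0 R \ ball 0 (2 * r))) \ ball z (ρ / 4), k2 z w
      ≤ ENNReal.ofReal ((4 / ρ) ^ 2 * (a * m ^ 2)) := by
    refine Vir_const ((hF.inter (measurableSet_ball.diff measurableSet_ball)).diff
      measurableSet_ball) (by positivity) (fun w hw => ?_) ((measure_mono sdiff_subset).trans hmid)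
    have hw' := hw.2
    rw [mem_ball_iff_norm, not_lt] at hw'
    refine ENNReal.ofReal_le_ofReal (pow_le_pow_left₀ (by positivity) ?_ 2)
    rw [← inv_div]
    exact inv_anti₀ (by positivity) hw'
  have hsum : ∫⁻ w in Fz U \ ball 0 (2 * r), k2 z w
      ≤ ENNReal.ofReal (θ / 1000 * (m / ρ) ^ 2 + (4 / ρ) ^ 2 * (a * m ^ 2)
        + 144 * C * m ^ 2 / R ^ 2 * (1 - 9 / 16)⁻¹) := by
    rw [ENNReal.ofReal_add (by positivity) (by positivity),
      ENNReal.ofReal_add (by positivity) (by positivity)]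
    refine (lintegral_mono_set (t := (Fz U ∩ ball z (ρ / 4) ∪
        (Fz U ∩ (ball 0 R \ ball 0 (2 * r))) \ ball z (ρ / 4)) ∪ (Fz U \ ball 0 R)) ?_).trans
      ((lintegral_union_le _ _ _).trans
        (add_le_add ((lintegral_union_le _ _ _).trans (add_le_add hnear hmid')) hfar))
    intro w hw
    by_cases hw' : w ∈ ball (0 : ℂ) R
    · by_cases hw'' : w ∈ ball z (ρ / 4)
      · exact Or.inl (Or.inl ⟨hw.1, hw''⟩)
      · exact Or.inl (Or.inr ⟨⟨hw.1, hw', hw.2⟩, hw''⟩)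
    · exact Or.inr ⟨hw.1, hw'⟩
  have h1 := Vir_norm_le (by positivity)
    ((h₄ U h μ hI z hz (ball 0 (2 * r)) measurableSet_ball isBounded_ball).trans hsum)
  have h2 := Vir_area U (z := z) (r := 2 * r) (by linarith)
  have h3 := norm_sub_norm_le (π * h z ^ 2) (∫ w in Fz U ∩ ball 0 (2 * r), (w - z)⁻¹ ^ 2)
  have h4 : ‖π * h z ^ 2‖ = π * ‖h z‖ ^ 2 := by
    rw [norm_mul, norm_pow, Complex.norm_real, Real.norm_of_nonneg Real.pi_pos.le]
  have h5 : (‖z‖ - 2 * r)⁻¹ * ‖z‖ ≤ 1 + θ := by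
    rw [inv_mul_le_iff₀ (by linarith)]
    have : 84 * r ≤ 4 * θ * ρ := by rw [hρ]; nlinarith
    nlinarith
  have h5' : ((‖z‖ - 2 * r)⁻¹ * ‖z‖) ^ 2 ≤ (1 + θ) ^ 2 :=
    pow_le_pow_left₀ (mul_nonneg (inv_nonneg.2 (by linarith)) (norm_nonneg _)) h5 2
  have h6 : (θ / 1000 * (m / ρ) ^ 2 + (4 / ρ) ^ 2 * (a * m ^ 2)
        + 144 * C * m ^ 2 / R ^ 2 * (1 - 9 / 16)⁻¹) * ‖z‖ ^ 2
      ≤ (θ / 40 + 400 * a + 3600 / 7 * (C / L ^ 2)) * m ^ 2 := by
    refine (mul_le_mul_of_nonneg_left (pow_le_pow_left₀ (norm_nonneg _) hz2 2)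
      (by positivity)).trans (le_of_eq ?_)
    rw [hRρ]; field_simp; ring
  have h7 : C / L ^ 2 ≤ θ / 30000 := by
    rw [div_le_div_iff₀ (by positivity) (by norm_num)]; nlinarith
  have h8 : π * ‖h z‖ ^ 2 * ‖z‖ ^ 2 ≤ ((‖z‖ - 2 * r)⁻¹ ^ 2 * Ar U 0 (2 * r)
      + (θ / 1000 * (m / ρ) ^ 2 + (4 / ρ) ^ 2 * (a * m ^ 2)
        + 144 * C * m ^ 2 / R ^ 2 * (1 - 9 / 16)⁻¹)) * ‖z‖ ^ 2 := by
    gcongr; linarith
  have h9 : (θ / 40 + 400 * a + 3600 / 7 * (C / L ^ 2)) * m ^ 2 ≤ θ / 13 * m ^ 2 := by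
    gcongr; linarith
  have h10 := mul_le_mul_of_nonneg_right h5' (Ar_nonneg U 0 (2 * r))
  nlinarith

theorem vir_of (h₁ : S_Mean) (h₂ : S_Dens) (h₃ : S_RepH) (h₄ : S_RepH2) (h₅ : S_LI)
    (h₆ : S_Key) : S_Vir := by
  intro ε' hε'
  obtain ⟨CM, hCM, hM⟩ := h₁
  obtain ⟨c₀, C, hc₀, hC, hLI⟩ := h₅
  obtain ⟨θ, hθ, hθ1, hθε⟩ : ∃ θ : ℝ, 0 < θ ∧ θ ≤ 1 / 6 ∧ 6 * θ ≤ ε' :=
    ⟨min (1 / 6) (ε' / 6), by positivity, min_le_left _ _, by
      linarith [min_le_right (1 / 6 : ℝ) (ε' / 6)]⟩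
  obtain ⟨L, hL, hLC⟩ : ∃ L : ℝ, 84 ≤ θ * L ∧ 30000 * C ≤ θ * L := by
    refine ⟨(84 + 30000 * C) / θ, ?_, ?_⟩ <;> rw [mul_div_cancel₀ _ hθ.ne'] <;> linarith
  have hL1 : 84 ≤ L := by nlinarith
  obtain ⟨η, hη, hK⟩ := h₆ (1 / 2) (θ / 1000) 4 (by norm_num) (by positivity) (by norm_num)
  obtain ⟨ε, hε, hε1, hε2, hε3⟩ : ∃ ε : ℝ, 0 < ε ∧ ε ≤ θ / 960 ∧ 9 * C * ε ≤ η ∧
      9 * C * ε ≤ θ / 16000 := by
    refine ⟨min (θ / 960) (min (η / (9 * C)) (θ / 16000 / (9 * C))), by positivity,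
      min_le_left _ _, ?_, ?_⟩
    · rw [mul_comm, ← le_div_iff₀ (by positivity)]
      exact (min_le_right _ _).trans (min_le_left _ _)
    · rw [mul_comm, ← le_div_iff₀ (by positivity)]
      exact (min_le_right _ _).trans (min_le_right _ _)
  have hL2 : (2 : ℝ) ≤ 2 * L ^ 2 := by nlinarith
  have hlog : 0 < Real.log (2 * L ^ 2) := Real.log_pos (by linarith)
  have hγ : 0 < Real.log (1 + ε) / Real.log (2 * L ^ 2) :=
    div_pos (Real.log_pos (by linarith)) hlog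
  refine ⟨ε, _, hε, hγ, fun U h μ hI => ?_⟩
  have hγ1 : (2 * L ^ 2) ^ (Real.log (1 + ε) / Real.log (2 * L ^ 2)) = 1 + ε := by
    rw [Real.rpow_def_of_pos (by linarith), mul_div_cancel₀ _ hlog.ne', Real.exp_log (by linarith)]
  generalize Real.log (1 + ε) / Real.log (2 * L ^ 2) = γ at hγ hγ1
  have hγ2 : (2 : ℝ) ^ γ ≤ 3 / 2 :=
    (Real.rpow_le_rpow (by norm_num) hL2 hγ.le).trans (by rw [hγ1]; linarith)
  have := hI.fin
  have hF : MeasurableSet (Fz U) := hI.toData.isClosed_Fz.measurableSet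
  obtain ⟨r₁, hr₁, hD⟩ := h₂ U h μ hI (c₀ / (16 * L ^ 4)) (by positivity)
  obtain ⟨r₂, hr₂, hS⟩ := hI.toData.Mx_sub (1 / (8 * CM)) (by positivity)
  refine ⟨max r₁ r₂, lt_max_of_lt_left hr₁, fun r hr H => ?_⟩
  have hrr₁ : r₁ ≤ r := (le_max_left _ _).trans hr
  have hrr₂ : r₂ ≤ r := (le_max_right _ _).trans hr
  have hr0 : 0 < r := hr₁.trans_le hrr₁
  obtain ⟨m, hm⟩ : ∃ m, m = μ.real (ball 0 r) := ⟨_, rfl⟩
  obtain ⟨ρ, hρ⟩ : ∃ ρ, ρ = L * r / 4 := ⟨_, rfl⟩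
  obtain ⟨R, hR⟩ : ∃ R, R = L ^ 2 * r := ⟨_, rfl⟩
  rw [← hm] at H ⊢
  have hm0 : 0 ≤ m := hm ▸ measureReal_nonneg
  rcases hm0.eq_or_lt with hm0' | hm0'
  · rw [← hm0']; simpa using Ar_nonneg U 0 (2 * r)
  have hρ0 : 0 < ρ := by rw [hρ]; positivity
  have hR0 : 0 < R := by rw [hR]; positivity
  have hRρ : R = 4 * L * ρ := by rw [hR, hρ]; ring
  have hrρ : 21 * r ≤ ρ := by
    rw [hρ]; linarith [mul_le_mul_of_nonneg_right hL1 hr0.le]
  have hρR : 336 * ρ ≤ R := by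
    rw [hRρ]; linarith [mul_le_mul_of_nonneg_right hL1 hρ0.le]
  -- growth of the mass
  have hG0 : ∀ j : ℕ, μ.real (ball 0 (2 ^ (j + 1) * R)) ≤ (1 + ε) ^ 2 * m * (3 / 2) ^ j := by
    intro j
    have h1 : (1 : ℝ) ≤ 2 ^ (j + 1) := one_le_pow₀ one_le_two
    refine (H _ (le_trans (by linarith) (le_mul_of_one_le_left hR0.le h1))).trans ?_
    have e : 2 ^ (j + 1) * R / r = 2 ^ j * (2 * L ^ 2) := by rw [hR]; field_simp; ring
    rw [e, Real.mul_rpow (by positivity) (by positivity), hγ1, ← Real.rpow_natCast,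
      ← Real.rpow_mul (by norm_num), mul_comm (j : ℝ), Real.rpow_mul (by norm_num),
      Real.rpow_natCast]
    have h2 : ((2 : ℝ) ^ γ) ^ j ≤ (3 / 2) ^ j := pow_le_pow_left₀ (by positivity) hγ2 j
    calc (1 + ε) * m * ((2 ^ γ) ^ j * (1 + ε)) ≤ (1 + ε) * m * ((3 / 2) ^ j * (1 + ε)) := by
          gcongr
      _ = (1 + ε) ^ 2 * m * (3 / 2) ^ j := by ring
  have hε4 : (1 + ε) ^ 2 ≤ 1 + 3 * ε := by
    have : ε ^ 2 ≤ ε := pow_le_of_le_one hε.le (by linarith) two_ne_zero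
    linarith
  have hG : ∀ j : ℕ, μ.real (ball 0 (2 ^ (j + 1) * R)) ≤ 4 * m * (3 / 2) ^ j := fun j =>
    (hG0 j).trans (by gcongr; linarith)
  have hG1 : μ.real (ball 0 (2 * R)) ≤ (1 + 3 * ε) * m := by
    have := hG0 0
    rw [zero_add, pow_one, pow_zero, mul_one] at this
    exact this.trans (by gcongr)
  have hN : μ.real (ball 0 (2 * R) \ ball 0 r) ≤ 3 * ε * m := by
    rw [measureReal_sdiff (ball_subset_ball (by linarith)) measurableSet_ball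
      measure_ball_lt_top.ne, ← hm]
    linarith
  -- `m ≤ r`
  have hmr : m ≤ r := by
    have h1 := (hM U h μ hI).noat 0 r (2 * r) _ hr0 (by linarith) (hI.toData.bd_Mx _)
    have h2 := hS (2 * (2 * r)) (by linarith)
    rw [mul_div_cancel_right₀ _ hr0.ne', ← hm] at h1
    have h3 : CM * (1 / (8 * CM) * (2 * (2 * r))) = r / 2 := by field_simp; norm_num
    have h4 : m * (1 / 2) ≤ m * Real.log 2 :=
      mul_le_mul_of_nonneg_left (by linarith [Real.log_two_gt_d9]) hm0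
    linarith [mul_le_mul_of_nonneg_left h2 hCM.le]
  -- areas
  have hL4 : (1 : ℝ) ≤ L ^ 4 := one_le_pow₀ (by linarith)
  have hGA : ∀ j : ℕ, Ar U 0 (2 ^ (j + 1) * R) ≤ C * (6 * m * (3 / 2) ^ j) ^ 2 := by
    intro j
    have h1 : (1 : ℝ) ≤ 2 ^ (j + 1) := one_le_pow₀ one_le_two
    have h0 : R ≤ 2 ^ (j + 1) * R := le_mul_of_one_le_left hR0.le h1
    refine ((hLI U h μ hI).disc 0 _ (by positivity) ((hD _ (by linarith)).trans ?_)).trans ?_
    · rw [mul_pow, ← mul_assoc]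
      gcongr
      rw [div_mul_eq_mul_div, div_le_iff₀ (by positivity)]
      linarith [mul_le_mul_of_nonneg_left hL4 hc₀.le]
    · have h2 := hG (j + 1)
      rw [pow_succ' _ (j + 1), mul_assoc, pow_succ (3 / 2 : ℝ)] at h2
      gcongr
      linarith
  have hA : volume.real (Fz U ∩ (ball 0 R \ ball 0 (2 * r))) ≤ 9 * C * ε * m ^ 2 := by
    refine ((hLI U h μ hI).sq _ (ball 0 (2 * R) \ ball 0 r) (r / 2)
      (hF.inter (measurableSet_ball.diff measurableSet_ball)) inter_subset_left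
      (measurableSet_ball.diff measurableSet_ball) (isBounded_ball.subset sdiff_subset)
      (by positivity) (fun w hw v hv => ?_) fun w hw => ?_).trans ?_
    · obtain ⟨-, hw1, hw2⟩ := hw
      rw [mem_ball_zero_iff] at hw1 hw2
      rw [mem_ball_iff_norm] at hv
      have h1 := norm_sub_norm_le v w
      have h2 := norm_sub_norm_le w v
      rw [norm_sub_rev] at h2
      refine ⟨?_, ?_⟩ <;> rw [mem_ball_zero_iff] <;> linarith
    · have hw1 := hw.2.1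
      rw [mem_ball_zero_iff] at hw1
      refine (Ar_mono U (c' := 0) (r' := 2 * R) (ball_subset_ball' ?_)).trans
        ((hD _ (by linarith)).trans (le_of_eq ?_))
      · rw [dist_zero_right]; linarith
      · rw [hR]; field_simp; norm_num
    · have h1 : μ.real (ball 0 (2 * R) \ ball 0 r) ^ 2 ≤ (3 * ε * m) ^ 2 :=
        pow_le_pow_left₀ measureReal_nonneg hN 2
      have h2 : (3 * ε * m) ^ 2 ≤ 9 * ε * m ^ 2 := by
        have : ε ^ 2 ≤ ε := pow_le_of_le_one hε.le (by linarith) two_ne_zero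
        linarith [mul_le_mul_of_nonneg_right this (sq_nonneg m)]
      linarith [mul_le_mul_of_nonneg_left (h1.trans h2) hC.le]
  have hAfin : volume (Fz U ∩ (ball (0 : ℂ) R \ ball 0 (2 * r))) ≠ ∞ :=
    ((measure_mono (inter_subset_right.trans sdiff_subset)).trans_lt measure_ball_lt_top).ne
  obtain ⟨c, hc⟩ : ∃ c : ℂ, ‖c‖ = 4 * ρ :=
    ⟨((4 * ρ : ℝ) : ℂ), by rw [Complex.norm_real, Real.norm_of_nonneg (by positivity)]⟩
  have hcs : ball c (2 * ρ) ⊆ ball 0 R \ ball 0 (2 * r) := by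
    intro v hv
    rw [mem_ball_iff_norm] at hv
    have h1 := norm_sub_norm_le v c
    have h2 := norm_sub_norm_le c v
    rw [norm_sub_rev] at h2
    refine ⟨?_, ?_⟩ <;> rw [mem_ball_zero_iff] <;> linarith
  have hAc : Ar U c (2 * ρ) ≤ 9 * C * ε * m ^ 2 :=
    (measureReal_mono (inter_subset_inter_right _ hcs) hAfin).trans hA
  obtain ⟨Bad, -, hB, hK⟩ := hK U h μ hI c ρ (m / ρ) hρ0 (by positivity)
    ((div_le_one hρ0).2 (by linarith))
    (by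
      have h1 : μ.real (ball c (2 * ρ)) ≤ μ.real (ball 0 (2 * R)) :=
        measureReal_mono (hcs.trans (sdiff_subset.trans (ball_subset_ball (by linarith))))
          measure_ball_lt_top.ne
      rw [mul_assoc, div_mul_cancel₀ _ hρ0.ne']
      linarith [mul_le_mul_of_nonneg_right (show 1 + 3 * ε ≤ 4 by linarith) hm0])
    (by
      rw [mul_assoc, ← mul_pow, div_mul_cancel₀ _ hρ0.ne']
      exact hAc.trans (by gcongr))
  have hch := Vir_cheb (μ.restrict (ball 0 R \ ball 0 r)) c (M := 3 * ε * m)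
    (lam := θ / 10 * m / ρ) hρ0 (by positivity) (by
      rw [Measure.restrict_apply_univ]
      exact (measure_mono (sdiff_subset_sdiff_left (ball_subset_ball (by linarith)))).trans
        (Vir_le_ofReal ((measure_mono sdiff_subset).trans_lt measure_ball_lt_top).ne hN))
  obtain ⟨z, hz, hzF, hzB, hzC⟩ : ∃ z ∈ ball c ρ, z ∉ Fz U ∧ z ∉ Bad ∧
      ¬ ENNReal.ofReal (θ / 10 * m / ρ) ≤ ∫⁻ w in ball 0 R \ ball 0 r, k1 z w ∂μ := by
    by_contra hcon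
    push Not at hcon
    have hsub : ball c ρ ⊆ (Fz U ∩ ball c (2 * ρ)) ∪ Bad ∪ (ball c ρ ∩
        {z | ENNReal.ofReal (θ / 10 * m / ρ) ≤ ∫⁻ w in ball 0 R \ ball 0 r, k1 z w ∂μ}) := by
      intro z hz
      by_cases h1 : z ∈ Fz U
      · exact Or.inl (Or.inl ⟨h1, ball_subset_ball (by linarith) hz⟩)
      · by_cases h2 : z ∈ Bad
        · exact Or.inl (Or.inr h2)
        · exact Or.inr ⟨hz, hcon z hz h1 h2⟩
    have h1 : volume (Fz U ∩ ball c (2 * ρ)) ≤ ENNReal.ofReal (1 / 2 * ρ ^ 2) := by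
      refine Vir_le_ofReal ((measure_mono inter_subset_right).trans_lt measure_ball_lt_top).ne
        (hAc.trans ?_)
      gcongr
      · linarith
      · linarith
    have h2 : 16 * ρ * (3 * ε * m) / (θ / 10 * m / ρ) ≤ 1 / 2 * ρ ^ 2 := by
      rw [div_le_iff₀ (by positivity)]
      have : 1 / 2 * ρ ^ 2 * (θ / 10 * m / ρ) = θ / 20 * (ρ * m) := by field_simp; norm_num
      rw [this]
      linarith [mul_le_mul_of_nonneg_right hε1 (mul_pos hρ0 hm0').le]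
    have h3 := (measure_mono hsub).trans ((measure_union_le _ _).trans (add_le_add
      ((measure_union_le _ _).trans (add_le_add h1 hB))
      (hch.trans (ENNReal.ofReal_le_ofReal h2))))
    rw [← ENNReal.ofReal_add (by positivity) (by positivity),
      ← ENNReal.ofReal_add (by positivity) (by positivity), Complex.volume_ball,
      ← ENNReal.ofReal_pow hρ0.le, ← ENNReal.ofReal_coe_nnreal, NNReal.coe_real_pi,
      ← ENNReal.ofReal_mul (by positivity), ENNReal.ofReal_le_ofReal_iff (by positivity)] at h3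
    linarith [mul_le_mul_of_nonneg_left Real.pi_gt_three.le (pow_pos hρ0 2).le, pow_pos hρ0 2]
  have hzO : z ∈ Om U := by rwa [hI.toData.Fz_eq, notMem_compl_iff] at hzF
  have hz' := mem_ball_iff_norm.1 hz
  have hz1 : 3 * ρ ≤ ‖z‖ := by
    have h2 := norm_sub_norm_le c z
    rw [norm_sub_rev] at h2
    linarith
  have hz2 : ‖z‖ ≤ 5 * ρ := by linarith [norm_sub_norm_le z c]
  exact Vir_final hm0 (Ar_nonneg _ _ _) hθ hθ1 hθε
    (Vir_low h₃ hI hzO hr0 hθ (by linarith) hL hρ hR hm hz1 hz2 hG (not_le.1 hzC).le)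
    (Vir_up h₄ hI hzO hr0 hθ (by linarith) hL hC hLC hρ hR hz1 hz2 hGA (hK z ⟨hz, hzB⟩)
      (by positivity) hε3 (Vir_le_ofReal hAfin hA))

end MW.PL
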