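import Pool.Agent.P.MP_064970_gt.PL.Calc

/-! Row PL-Weiss: `λ t = (1 - t)₊³`, `κ = -λ'`, `s = |z|² / r²`; `H = r⁻² ∫ κ U²`,
`B = r⁻² ∫ κ U Re (h z)`, `A = r⁻² ∫ κ Re (h z)²`, `Dir = ∫ λ |h|² = 2 B` (b),
`r H' = 2 B` (p2 with `conj z κ`), `r Dir' = 4 A - 2 ∫_F (λ - s κ)` ((a) with `z λ`),
`y = r⁻² (∫_F λ - Dir + 2 H)`, `r y' = -4 d²`, `d² = r⁻⁴ ∫ κ Dil²`,
`y = r⁻² ∫_F λ - 2 r⁻⁴ ∫ κ U Dil`. `y → 0`, so `y ≥ 0`. `drop`, `small`: mean value theorem on
`[3ρ/2, 2ρ]`, `[r, 2r]`. (`κ` is `C¹`.) -/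

open Complex InnerProductSpace Set Filter Topology Metric MeasureTheory
open scoped Real ComplexConjugate ENNReal

namespace MW.PL

open MW.AN

namespace Weiss

noncomputable section

theorem hasDerivAt_sq (x : ℝ) : HasDerivAt (fun x : ℝ => max x 0 ^ 2) (2 * max x 0) x := by
  rcases lt_trichotomy x 0 with hx | rfl | hx
  · rw [max_eq_right hx.le, mul_zero]
    refine (hasDerivAt_const x (0 : ℝ)).congr_of_eventuallyEq ?_
    filter_upwards [Iio_mem_nhds hx] with y hy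
    rw [max_eq_right (le_of_lt hy)]
    simp
  · rw [hasDerivAt_iff_isLittleO_nhds_zero]
    refine Asymptotics.IsBigO.trans_isLittleO (g := fun x : ℝ => x ^ 2) ?_
      (Asymptotics.isLittleO_pow_id one_lt_two)
    refine Asymptotics.IsBigO.of_bound 1 (Eventually.of_forall fun y => ?_)
    rcases le_total y 0 with hy | hy
    · simp [max_eq_right hy, sq_nonneg]
    · simp [max_eq_left hy]
  · rw [max_eq_left hx.le]
    have h1 : HasDerivAt (fun x : ℝ => x ^ 2) (2 * x) x := by simpa using hasDerivAt_pow 2 x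
    refine h1.congr_of_eventuallyEq ?_
    filter_upwards [Ioi_mem_nhds hx] with y hy
    rw [max_eq_left (le_of_lt hy)]

theorem hasDerivAt_cube (x : ℝ) :
    HasDerivAt (fun x : ℝ => max x 0 ^ 3) (3 * max x 0 ^ 2) x := by
  have h1 : (fun x : ℝ => max x 0 ^ 3) = fun x => max x 0 ^ 2 * x := by
    funext y
    rcases le_total y 0 with hy | hy
    · simp [max_eq_right hy]
    · rw [max_eq_left hy]; ring
  rw [h1]
  refine ((hasDerivAt_sq x).mul (hasDerivAt_id x)).congr_deriv ?_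
  rcases le_total x 0 with hy | hy
  · simp [max_eq_right hy]
  · rw [max_eq_left hy, id]; ring

/-- `λ`. -/
def wl (t : ℝ) : ℝ := max (1 - t) 0 ^ 3
/-- `κ`. -/
def wk (t : ℝ) : ℝ := 3 * max (1 - t) 0 ^ 2
/-- `κ'`. -/
def wm (t : ℝ) : ℝ := -6 * max (1 - t) 0

theorem wl_deriv (t : ℝ) : HasDerivAt wl (-wk t) t := by
  refine ((hasDerivAt_cube (1 - t)).comp t ((hasDerivAt_id t).const_sub 1)).congr_deriv ?_
  simp [wk]

theorem wk_deriv (t : ℝ) : HasDerivAt wk (wm t) t := by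
  refine (((hasDerivAt_sq (1 - t)).comp t
    ((hasDerivAt_id t).const_sub 1)).const_mul 3).congr_deriv ?_
  simp only [wm]
  ring

theorem wl_cont : Continuous wl := by unfold wl; fun_prop
theorem wk_cont : Continuous wk := by unfold wk; fun_prop
theorem wm_cont : Continuous wm := by unfold wm; fun_prop

theorem wl_zero (t : ℝ) (h : 1 ≤ t) : wl t = 0 := by simp [wl, max_eq_right (sub_nonpos.2 h)]
theorem wk_zero (t : ℝ) (h : 1 ≤ t) : wk t = 0 := by simp [wk, max_eq_right (sub_nonpos.2 h)]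
theorem wm_zero (t : ℝ) (h : 1 ≤ t) : wm t = 0 := by simp [wm, max_eq_right (sub_nonpos.2 h)]

theorem wl_nonneg (t : ℝ) : 0 ≤ wl t := pow_nonneg (le_max_right _ _) _
theorem wk_nonneg (t : ℝ) : 0 ≤ wk t := by unfold wk; positivity

theorem wl_le {t : ℝ} (h : 0 ≤ t) : wl t ≤ 1 :=
  pow_le_one₀ (le_max_right _ _) (max_le (by linarith) zero_le_one)

theorem wk_le {t : ℝ} (h : 0 ≤ t) : wk t ≤ 3 := by
  have h1 : max (1 - t) 0 ^ 2 ≤ 1 :=
    pow_le_one₀ (le_max_right _ _) (max_le (by linarith) zero_le_one)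
  unfold wk
  linarith

theorem le_wk {t : ℝ} (h : t ≤ 1 / 2) : 3 / 4 ≤ wk t := by
  have h1 : (1 / 2 : ℝ) ^ 2 ≤ max (1 - t) 0 ^ 2 :=
    pow_le_pow_left₀ (by norm_num) (le_max_of_le_left (by linarith)) 2
  unfold wk
  linarith

theorem contDiff_of {g g' : ℝ → ℝ} (hg : ∀ t, HasDerivAt g (g' t) t) (hc : Continuous g') :
    ContDiff ℝ 1 g := by
  rw [contDiff_one_iff_deriv]
  refine ⟨fun t => (hg t).differentiableAt, ?_⟩
  rwa [show deriv g = g' from funext fun t => (hg t).deriv]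

/-- Continuous weights which vanish on `[1, ∞)`. -/
structure Wt (g : ℝ → ℝ) : Prop where
  cont : Continuous g
  zero : ∀ t, 1 ≤ t → g t = 0

theorem wt_wl : Wt wl := ⟨wl_cont, wl_zero⟩
theorem wt_wk : Wt wk := ⟨wk_cont, wk_zero⟩
theorem wt_wm : Wt wm := ⟨wm_cont, wm_zero⟩
theorem Wt.mul_id {g : ℝ → ℝ} (h : Wt g) : Wt fun t => t * g t :=
  ⟨continuous_id.mul h.cont, fun t ht => by rw [h.zero t ht, mul_zero]⟩

/-- Measurable and locally bounded. -/
structure Gd {E : Type} [NormedRing E] [MeasurableSpace E] (f : ℂ → E) : Prop where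
  meas : Measurable f
  bd : ∀ R : ℝ, ∃ B : ℝ, ∀ z : ℂ, ‖z‖ ≤ R → ‖f z‖ ≤ B

section
variable {E : Type} [NormedRing E] [MeasurableSpace E] {f f' : ℂ → E}

theorem Gd.of_cont [BorelSpace E] (h : Continuous f) : Gd f := by
  refine ⟨h.measurable, fun R => ?_⟩
  obtain ⟨B, hB⟩ := (isCompact_closedBall (0 : ℂ) R).exists_bound_of_continuousOn h.continuousOn
  exact ⟨B, fun z hz => hB z (mem_closedBall_zero_iff.2 hz)⟩

theorem Gd.mul [MeasurableMul₂ E] (h : Gd f) (h' : Gd f') : Gd fun z => f z * f' z := by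
  refine ⟨h.meas.mul h'.meas, fun R => ?_⟩
  obtain ⟨B, hB⟩ := h.bd R
  obtain ⟨B', hB'⟩ := h'.bd R
  exact ⟨B * B', fun z hz => (norm_mul_le _ _).trans
    (mul_le_mul (hB z hz) (hB' z hz) (norm_nonneg _) ((norm_nonneg _).trans (hB z hz)))⟩

theorem Gd.sub [MeasurableSub₂ E] (h : Gd f) (h' : Gd f') : Gd fun z => f z - f' z := by
  refine ⟨h.meas.sub h'.meas, fun R => ?_⟩
  obtain ⟨B, hB⟩ := h.bd R
  obtain ⟨B', hB'⟩ := h'.bd R
  exact ⟨B + B', fun z hz => (norm_sub_le _ _).trans (add_le_add (hB z hz) (hB' z hz))⟩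

end

theorem Gd.re {f : ℂ → ℂ} (h : Gd f) : Gd fun z => (f z).re :=
  ⟨measurable_re.comp h.meas, fun R => (h.bd R).imp fun _ hB z hz =>
    (abs_re_le_norm _).trans (hB z hz)⟩

theorem Gd.norm {f : ℂ → ℂ} (h : Gd f) : Gd fun z => ‖f z‖ :=
  ⟨h.meas.norm, fun R => (h.bd R).imp fun _ hB z hz => by rw [norm_norm]; exact hB z hz⟩

theorem Gd.conj {f : ℂ → ℂ} (h : Gd f) : Gd fun z => conj (f z) :=
  ⟨continuous_conj.measurable.comp h.meas, fun R => (h.bd R).imp fun _ hB z hz => by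
    rw [norm_conj]; exact hB z hz⟩

theorem Gd.sq {f : ℂ → ℝ} (h : Gd f) : Gd fun z => f z ^ 2 := by
  simpa only [pow_two] using h.mul h

theorem gd_ind {s : Set ℂ} (hs : MeasurableSet s) : Gd (s.indicator (1 : ℂ → ℝ)) :=
  ⟨measurable_one.indicator hs, fun _ => ⟨1, fun z _ => by
    by_cases hz : z ∈ s <;> simp [hz]⟩⟩

variable {g g' : ℝ → ℝ} {r : ℝ}

theorem Wt.zero_of (hg : Wt g) (hr : 0 < r) {z : ℂ} (hz : r ≤ ‖z‖) : g (‖z‖ ^ 2 / r ^ 2) = 0 :=
  hg.zero _ (by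
    rw [le_div_iff₀ (by positivity), one_mul]
    exact pow_le_pow_left₀ hr.le hz 2)

theorem integrable_smul {E : Type} [NormedRing E] [NormedSpace ℝ E] [MeasurableSpace E]
    [BorelSpace E] [SecondCountableTopology E] {f : ℂ → E} (hg : Wt g) (hf : Gd f) (hr : 0 < r) :
    Integrable fun z : ℂ => g (‖z‖ ^ 2 / r ^ 2) • f z := by
  obtain ⟨B, hB⟩ := hf.bd r
  have hc : Continuous fun z : ℂ => g (‖z‖ ^ 2 / r ^ 2) := hg.cont.comp (by fun_prop)
  have h1 : Integrable fun z : ℂ => |g (‖z‖ ^ 2 / r ^ 2)| * B := by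
    refine (hc.abs.mul continuous_const).integrable_of_hasCompactSupport ?_
    refine HasCompactSupport.intro (isCompact_closedBall (0 : ℂ) r) fun z hz => ?_
    rw [mem_closedBall_zero_iff, not_le] at hz
    simp [hg.zero_of hr hz.le]
  refine h1.mono' (hc.measurable.smul hf.meas).aestronglyMeasurable
    (Eventually.of_forall fun z => ?_)
  rw [norm_smul, Real.norm_eq_abs]
  rcases le_total ‖z‖ r with hz | hz
  · exact mul_le_mul_of_nonneg_left (hB z hz) (abs_nonneg _)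
  · simp [hg.zero_of hr hz]

/-- Radial averages. -/
def Iw (g : ℝ → ℝ) (f : ℂ → ℝ) (r : ℝ) : ℝ := ∫ z : ℂ, g (‖z‖ ^ 2 / r ^ 2) * f z

variable {f f' : ℂ → ℝ}

theorem integrable_w (hg : Wt g) (hf : Gd f) (hr : 0 < r) :
    Integrable fun z : ℂ => g (‖z‖ ^ 2 / r ^ 2) * f z := integrable_smul hg hf hr

theorem re_int {G : ℂ → ℂ} (hg : Wt g) (hG : Gd G) (hr : 0 < r) :
    (∫ z : ℂ, g (‖z‖ ^ 2 / r ^ 2) • G z).re = Iw g (fun z => (G z).re) r := by
  have h1 := integral_re (integrable_smul hg hG hr)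
  simp only [RCLike.re_to_complex, smul_re, smul_eq_mul] at h1
  exact h1.symm

theorem Iw_deriv (hg : ∀ t, HasDerivAt g (g' t) t) (hc : Continuous g') (h0 : Wt g) (hf : Gd f)
    (hr : 0 < r) : HasDerivAt (Iw g f) (-2 / r * Iw (fun t => t * g' t) f r) r := by
  have h1 := hasDerivAt_radial_integral volume (contDiff_of hg hc) h0.zero hf.meas hf.bd 0 hr
  simp only [sub_zero] at h1
  refine h1.congr_deriv ?_
  rw [Iw, ← integral_const_mul]
  refine integral_congr_ae (Eventually.of_forall fun z => ?_)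
  simp only [(hg _).deriv]
  ring

theorem Iw_nonneg (hg : ∀ t, 0 ≤ g t) (hf : ∀ z, 0 ≤ f z) : 0 ≤ Iw g f r :=
  integral_nonneg fun z => mul_nonneg (hg _) (hf z)

theorem Iw_abs_le {M : ℝ} (hr : 0 < r) (hf : ∀ z : ℂ, ‖z‖ < r → |f z| ≤ M) :
    |Iw wk f r| ≤ 3 * M * (π * r ^ 2) := by
  have h1 : volume.real (ball (0 : ℂ) r) = π * r ^ 2 := by
    rw [Measure.real, Complex.volume_ball]
    simp [ENNReal.toReal_ofReal hr.le, mul_comm]
  rw [Iw, ← setIntegral_eq_integral_of_forall_compl_eq_zero (s := ball 0 r), ← h1,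
    ← Real.norm_eq_abs]
  · refine norm_setIntegral_le_of_norm_le_const measure_ball_lt_top fun z hz => ?_
    rw [norm_mul, Real.norm_eq_abs, Real.norm_eq_abs, abs_of_nonneg (wk_nonneg _)]
    exact mul_le_mul (wk_le (by positivity)) (hf z (mem_ball_zero_iff.1 hz)) (abs_nonneg _)
      (by norm_num)
  · intro z hz
    rw [mem_ball_zero_iff, not_lt] at hz
    rw [wt_wk.zero_of hr hz, zero_mul]

theorem Iw_ind_le {s : Set ℂ} (hs : MeasurableSet s) (hr : 0 < r) :
    Iw wl (s.indicator 1) r ≤ volume.real (s ∩ ball 0 r) := by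
  have hm : MeasurableSet (s ∩ ball (0 : ℂ) r) := hs.inter measurableSet_ball
  rw [← integral_indicator_one hm]
  refine integral_mono_of_nonneg (Eventually.of_forall fun z => ?_)
    ((integrable_indicator_iff hm).2 (integrableOn_const
      ((measure_mono inter_subset_right).trans_lt measure_ball_lt_top).ne))
    (Eventually.of_forall fun z => ?_)
  · exact mul_nonneg (wl_nonneg _) (indicator_nonneg (fun _ _ => zero_le_one) z)
  · show wl _ * _ ≤ _
    by_cases hz : z ∈ s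
    · rcases lt_or_ge ‖z‖ r with h1 | h1
      · rw [indicator_of_mem hz, indicator_of_mem (mem_inter hz (mem_ball_zero_iff.2 h1))]
        simpa using wl_le (by positivity)
      · rw [wt_wl.zero_of hr h1, zero_mul]
        exact indicator_nonneg (fun _ _ => zero_le_one) z
    · rw [indicator_of_notMem hz, mul_zero]
      exact indicator_nonneg (fun _ _ => zero_le_one) z

theorem le_Iw {ρ : ℝ} (hf : Gd f) (h0 : ∀ z, 0 ≤ f z) (hρ : 0 < ρ) (hr : 3 / 2 * ρ ≤ r) :
    3 / 4 * ∫ z in ball 0 ρ, f z ≤ Iw wk f r := by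
  have hr0 : 0 < r := by linarith
  rw [← integral_indicator measurableSet_ball, ← integral_const_mul]
  refine integral_mono_of_nonneg (Eventually.of_forall fun z => ?_) (integrable_w wt_wk hf hr0)
    (Eventually.of_forall fun z => ?_)
  · exact mul_nonneg (by norm_num) (indicator_nonneg (fun z _ => h0 z) z)
  · show 3 / 4 * _ ≤ wk _ * _
    by_cases hz : z ∈ ball (0 : ℂ) ρ
    · rw [indicator_of_mem hz]
      refine mul_le_mul_of_nonneg_right (le_wk ?_) (h0 z)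
      rw [mem_ball_zero_iff] at hz
      rw [div_le_iff₀ (by positivity)]
      have h1 := norm_nonneg z
      nlinarith
    · rw [indicator_of_notMem hz, mul_zero]
      exact mul_nonneg (wk_nonneg _) (h0 z)

/-- The integral of a quadratic expression. -/
theorem Iw_quad (hg : Wt g) (hf : Gd f) (hf' : Gd f') (hr : 0 < r) (t : ℝ) :
    Iw g (fun z => (t * f z + f' z) ^ 2) r = t ^ 2 * Iw g (fun z => f z ^ 2) r +
      2 * t * Iw g (fun z => f z * f' z) r + Iw g (fun z => f' z ^ 2) r := by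
  unfold Iw
  rw [← integral_const_mul, ← integral_const_mul, ← integral_add, ← integral_add]
  · refine integral_congr_ae (Eventually.of_forall fun z => ?_)
    ring
  · exact ((integrable_w hg hf.sq hr).const_mul _).add
      ((integrable_w hg (hf.mul hf') hr).const_mul _)
  · exact integrable_w hg hf'.sq hr
  · exact (integrable_w hg hf.sq hr).const_mul _
  · exact (integrable_w hg (hf.mul hf') hr).const_mul _

theorem Iw_cs (hf : Gd f) (hf' : Gd f') (hr : 0 < r) :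
    Iw wk (fun z => f z * f' z) r ^ 2 ≤ Iw wk (fun z => f z ^ 2) r * Iw wk (fun z => f' z ^ 2) r := by
  have h1 := discrim_le_zero (a := Iw wk (fun z => f z ^ 2) r)
    (b := 2 * Iw wk (fun z => f z * f' z) r) (c := Iw wk (fun z => f' z ^ 2) r) fun t => by
      have h2 := Iw_nonneg (r := r) wk_nonneg fun z => sq_nonneg (t * f z + f' z)
      rw [Iw_quad wt_wk hf hf' hr] at h2
      linarith
  unfold discrim at h1
  linarith

/-- Radial test functions. -/
def Rd (g : ℝ → ℝ) (r : ℝ) (w : ℂ) : ℂ := ((g (‖w‖ ^ 2 / r ^ 2) : ℝ) : ℂ)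

theorem Rd_dbar (hg : ∀ t, HasDerivAt g (g' t) t) (r : ℝ) (z : ℂ) :
    DifferentiableAt ℝ (Rd g r) z ∧ dbar (Rd g r) z = g' (‖z‖ ^ 2 / r ^ 2) * z / r ^ 2 ∧
      del (Rd g r) z = g' (‖z‖ ^ 2 / r ^ 2) * conj z / r ^ 2 := by
  have h1 := dbar_radial (z := z) 0 r (hg _)
  simp only [sub_zero] at h1
  exact h1

theorem Rd_contDiff (hg : ∀ t, HasDerivAt g (g' t) t) (hc : Continuous g') (r : ℝ) :
    ContDiff ℝ 1 (Rd g r) := by
  have h1 := contDiff_radial (contDiff_of hg hc) 0 r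
  simp only [sub_zero] at h1
  exact h1

theorem Rd_supp (hg : Wt g) (hr : 0 < r) : HasCompactSupport (Rd g r) := by
  have h1 := hasCompactSupport_radial hg.zero 0 hr
  simp only [sub_zero] at h1
  exact h1

variable {U : ℂ → ℝ} {h : ℂ → ℂ} {μ : Measure ℂ}

/-- `Re (h z)`. -/
def Wz (h : ℂ → ℂ) (z : ℂ) : ℝ := (h z * z).re

theorem gd_h (hD : Data U h) : Gd h := ⟨hD.meas, fun _ => ⟨1, fun z _ => hD.le z⟩⟩
theorem gd_U (hD : Data U h) : Gd U := Gd.of_cont hD.lip.continuous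
theorem gd_UC (hD : Data U h) : Gd fun z => (U z : ℂ) :=
  Gd.of_cont (continuous_ofReal.comp hD.lip.continuous)
theorem gd_id : Gd fun z : ℂ => z := Gd.of_cont continuous_id
theorem gd_W (hD : Data U h) : Gd (Wz h) := ((gd_h hD).mul gd_id).re
theorem gd_Dil (hD : Data U h) : Gd (Dil U h) := (gd_W hD).sub (gd_U hD)
theorem gd_h2 (hD : Data U h) : Gd fun z => ‖h z‖ ^ 2 := (gd_h hD).norm.sq
theorem gd_F (hD : Data U h) : Gd ((Fz U).indicator (1 : ℂ → ℝ)) :=
  gd_ind hD.isClosed_Fz.measurableSet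

/-- `Dir = 2 B`. -/
theorem id1 (hI : Ids U h μ) (hr : 0 < r) :
    Iw wl (fun z => ‖h z‖ ^ 2) r = 2 / r ^ 2 * Iw wk (fun z => U z * Wz h z) r := by
  have hD := hI.toData
  have h1 := hI.b (Rd wl r) (Rd_contDiff wl_deriv wk_cont.neg r) (Rd_supp wt_wl hr)
  have h2 : ∫ z, Rd wl r z * ((‖h z‖ ^ 2 : ℝ) : ℂ) = (Iw wl (fun z => ‖h z‖ ^ 2) r : ℝ) := by
    rw [Iw, ← integral_complex_ofReal]
    simp only [Rd, ofReal_mul]
  have h3 : -2 * ∫ z, (U z : ℂ) * h z * dbar (Rd wl r) z =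
      ((2 / r ^ 2 : ℝ) : ℂ) * ∫ z : ℂ, wk (‖z‖ ^ 2 / r ^ 2) • ((U z : ℂ) * (h z * z)) := by
    rw [← integral_const_mul, ← integral_const_mul]
    refine integral_congr_ae (Eventually.of_forall fun z => ?_)
    simp only [(Rd_dbar wl_deriv r z).2.1, real_smul]
    push_cast
    ring
  rw [h2, h3] at h1
  have h4 := congrArg re h1
  rw [ofReal_re, re_ofReal_mul, re_int wt_wk ((gd_UC hD).mul ((gd_h hD).mul gd_id)) hr] at h4
  simp only [re_ofReal_mul] at h4
  exact h4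

/-- `r H' = 2 B`. -/
theorem id2 (hI : Ids U h μ) (hr : 0 < r) :
    Iw wk (fun z => U z ^ 2) r + Iw (fun t => t * wm t) (fun z => U z ^ 2) r =
      -Iw wk (fun z => U z * Wz h z) r := by
  have hD := hI.toData
  have hc : ContDiff ℝ 1 fun w : ℂ => conj w := conjCLE.contDiff
  have h1 := hI.p2 (fun w => conj w * Rd wk r w) (hc.mul (Rd_contDiff wk_deriv wm_cont r))
    (Rd_supp wt_wk hr).mul_left
  have h2 : ∫ z, (U z : ℂ) ^ 2 * dbar (fun w => conj w * Rd wk r w) z =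
      (Iw wk (fun z => U z ^ 2) r + Iw (fun t => t * wm t) (fun z => U z ^ 2) r : ℝ) := by
    rw [Iw, Iw, ← integral_add (integrable_w wt_wk (gd_U hD).sq hr)
      (integrable_w wt_wm.mul_id (gd_U hD).sq hr), ← integral_complex_ofReal]
    refine integral_congr_ae (Eventually.of_forall fun z => ?_)
    have h3 : dbar (fun w : ℂ => conj w) z = 1 := by
      rw [(dbar_conj (fun w => w) z).1, (dbar_of_hasDerivAt (hasDerivAt_id' z)).2, map_one]
    have h4 := conj_mul' z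
    have h5 := dbar_mul (φ := fun w : ℂ => conj w) (ψ := Rd wk r)
      (hc.differentiable one_ne_zero z) (Rd_dbar wk_deriv r z).1
    rw [h3, (Rd_dbar wk_deriv r z).2.1] at h5
    simp only [h5]
    simp only [Rd]
    push_cast
    rw [← h4]
    ring
  have h3 : ∫ z, conj z * Rd wk r z * U z * conj (h z) =
      ∫ z : ℂ, wk (‖z‖ ^ 2 / r ^ 2) • ((U z : ℂ) * conj (h z * z)) := by
    refine integral_congr_ae (Eventually.of_forall fun z => ?_)
    simp only [Rd, real_smul, map_mul]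
    ring
  rw [h2, h3] at h1
  have h4 := congrArg re h1
  rw [ofReal_re, neg_re, re_int wt_wk ((gd_UC hD).mul ((gd_h hD).mul gd_id).conj) hr] at h4
  simp only [re_ofReal_mul, conj_re] at h4
  exact h4

/-- The domain variation formula. -/
theorem id3 (hI : Ids U h μ) (hr : 0 < r) :
    Iw wl ((Fz U).indicator 1) r - Iw (fun t => t * wk t) ((Fz U).indicator 1) r =
      2 / r ^ 2 * Iw wk (fun z => Wz h z ^ 2) r -
        Iw (fun t => t * wk t) (fun z => ‖h z‖ ^ 2) r := by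
  have hD := hI.toData
  have h1 := hI.a (fun w => w * Rd wl r w)
    (contDiff_id.mul (Rd_contDiff wl_deriv wk_cont.neg r)) (Rd_supp wt_wl hr).mul_left
  have hid := fun z : ℂ => dbar_of_hasDerivAt (hasDerivAt_id' z)
  have h2 : ∫ z in Fz U, del (fun w => w * Rd wl r w) z = (Iw wl ((Fz U).indicator 1) r -
      Iw (fun t => t * wk t) ((Fz U).indicator 1) r : ℝ) := by
    rw [Iw, Iw, ← integral_sub (integrable_w wt_wl (gd_F hD) hr)
      (integrable_w wt_wk.mul_id (gd_F hD) hr), ← integral_complex_ofReal,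
      ← integral_indicator hD.isClosed_Fz.measurableSet]
    refine integral_congr_ae (Eventually.of_forall fun z => ?_)
    by_cases hz : z ∈ Fz U
    · have h4 := conj_mul' z
      have h5 := del_mul (φ := fun w : ℂ => w) (ψ := Rd wl r) differentiableAt_id
        (Rd_dbar wl_deriv r z).1
      rw [(hid z).2, (Rd_dbar wl_deriv r z).2.2] at h5
      simp only [indicator_of_mem hz, h5, Pi.one_apply]
      simp only [Rd]
      push_cast
      rw [← h4]
      ring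
    · simp [indicator_of_notMem hz]
  have h3 : ∫ z, h z ^ 2 * dbar (fun w => w * Rd wl r w) z =
      ((-1 / r ^ 2 : ℝ) : ℂ) * ∫ z : ℂ, wk (‖z‖ ^ 2 / r ^ 2) • ((h z * z) * (h z * z)) := by
    rw [← integral_const_mul]
    refine integral_congr_ae (Eventually.of_forall fun z => ?_)
    have h5 := dbar_mul (φ := fun w : ℂ => w) (ψ := Rd wl r) differentiableAt_id
      (Rd_dbar wl_deriv r z).1
    rw [(hid z).1, (Rd_dbar wl_deriv r z).2.1] at h5
    simp only [h5, real_smul]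
    push_cast
    ring
  rw [h2, h3] at h1
  have h4 := congrArg re h1
  rw [add_re, ofReal_re, re_ofReal_mul, zero_re,
    re_int wt_wk (((gd_h hD).mul gd_id).mul ((gd_h hD).mul gd_id)) hr] at h4
  have h5 : -1 / r ^ 2 * Iw wk (fun z => (h z * z * (h z * z)).re) r =
      Iw (fun t => t * wk t) (fun z => ‖h z‖ ^ 2) r -
        2 / r ^ 2 * Iw wk (fun z => Wz h z ^ 2) r := by
    rw [Iw, Iw, Iw, ← integral_const_mul, ← integral_const_mul,
      ← integral_sub (integrable_w wt_wk.mul_id (gd_h2 hD) hr)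
        ((integrable_w wt_wk (gd_W hD).sq hr).const_mul _)]
    refine integral_congr_ae (Eventually.of_forall fun z => ?_)
    have h6 : (h z * z * (h z * z)).re = 2 * Wz h z ^ 2 - ‖h z‖ ^ 2 * ‖z‖ ^ 2 := by
      rw [← mul_pow, ← norm_mul, Complex.sq_norm, normSq_apply, mul_re (h z * z), Wz]
      ring
    simp only [h6]
    ring
  linarith

theorem id4 (hD : Data U h) (hr : 0 < r) :
    Iw wk (fun z => Dil U h z ^ 2) r = Iw wk (fun z => U z ^ 2) r -
      2 * Iw wk (fun z => U z * Wz h z) r + Iw wk (fun z => Wz h z ^ 2) r := by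
  have h1 := Iw_quad wt_wk (gd_U hD) (gd_W hD) hr (-1)
  have h2 : (fun z => Dil U h z ^ 2) = fun z => (-1 * U z + Wz h z) ^ 2 := by
    funext z
    simp only [Dil, Wz]
    ring
  rw [h2, h1]
  ring

theorem id5 (hD : Data U h) (hr : 0 < r) :
    Iw wk (fun z => U z * Dil U h z) r =
      Iw wk (fun z => U z * Wz h z) r - Iw wk (fun z => U z ^ 2) r := by
  rw [Iw, Iw, Iw, ← integral_sub (integrable_w wt_wk ((gd_U hD).mul (gd_W hD)) hr)
    (integrable_w wt_wk (gd_U hD).sq hr)]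
  refine integral_congr_ae (Eventually.of_forall fun z => ?_)
  simp only [Dil, Wz]
  ring

/-- The Weiss energy. -/
def yW (U : ℂ → ℝ) (h : ℂ → ℂ) (r : ℝ) : ℝ :=
  (Iw wl ((Fz U).indicator 1) r - Iw wl (fun z => ‖h z‖ ^ 2) r) / r ^ 2 +
    2 * Iw wk (fun z => U z ^ 2) r / r ^ 4

theorem yW_deriv (hI : Ids U h μ) (hr : 0 < r) :
    HasDerivAt (yW U h) (-4 * Iw wk (fun z => Dil U h z ^ 2) r / r ^ 5) r := by
  have hD := hI.toData
  have hneg : ∀ f : ℂ → ℝ, Iw (fun t => t * -wk t) f r = -Iw (fun t => t * wk t) f r := by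
    intro f
    rw [Iw, Iw, ← integral_neg]
    refine integral_congr_ae (Eventually.of_forall fun z => ?_)
    ring
  have h1 := Iw_deriv wl_deriv wk_cont.neg wt_wl (gd_F hD) hr
  have h2 := Iw_deriv wl_deriv wk_cont.neg wt_wl (gd_h2 hD) hr
  have h3 := Iw_deriv wk_deriv wm_cont wt_wk (gd_U hD).sq hr
  rw [hneg] at h1 h2
  refine (((h1.sub h2).div (hasDerivAt_pow 2 r) (by positivity)).add
    ((h3.const_mul 2).div (hasDerivAt_pow 4 r) (by positivity))).congr_deriv ?_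
  have e1 := id1 hI hr
  have e2 := id2 hI hr
  have e3 := id3 hI hr
  simp only [Pi.sub_apply]
  rw [id4 hD hr, e1, eq_sub_of_add_eq' e2, eq_add_of_sub_eq e3]
  push_cast
  field_simp
  ring

theorem yW_eq (hI : Ids U h μ) (hr : 0 < r) : yW U h r = Iw wl ((Fz U).indicator 1) r / r ^ 2 -
    2 * Iw wk (fun z => U z * Dil U h z) r / r ^ 4 := by
  rw [yW, id5 hI.toData hr, id1 hI hr]
  field_simp
  ring

theorem d2_nonneg : 0 ≤ Iw wk (fun z => Dil U h z ^ 2) r :=
  Iw_nonneg wk_nonneg fun _ => sq_nonneg _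

theorem yW_anti (hI : Ids U h μ) : AntitoneOn (yW U h) (Ioi 0) := by
  refine antitoneOn_of_deriv_nonpos (convex_Ioi 0)
    (fun r hr => (yW_deriv hI hr).continuousAt.continuousWithinAt) ?_ ?_
  · rw [interior_Ioi]
    exact fun r hr => (yW_deriv hI hr).differentiableAt.differentiableWithinAt
  · rw [interior_Ioi]
    intro r hr
    rw [(yW_deriv hI hr).deriv]
    have h1 : (0 : ℝ) < r := hr
    exact div_nonpos_of_nonpos_of_nonneg (by linarith [d2_nonneg (U := U) (h := h) (r := r)])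
      (by positivity)

theorem yW_mvt (hI : Ids U h μ) {a b : ℝ} (ha : 0 < a) (hab : a < b) : ∃ ξ ∈ Ioo a b,
    yW U h a - yW U h b = 4 * Iw wk (fun z => Dil U h z ^ 2) ξ / ξ ^ 5 * (b - a) := by
  obtain ⟨ξ, hξ, h1⟩ := exists_hasDerivAt_eq_slope (yW U h)
    (fun r => -4 * Iw wk (fun z => Dil U h z ^ 2) r / r ^ 5) hab
    (fun r hr => (yW_deriv hI (ha.trans_le hr.1)).continuousAt.continuousWithinAt)
    (fun r hr => yW_deriv hI (ha.trans hr.1))
  refine ⟨ξ, hξ, ?_⟩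
  rw [eq_div_iff (sub_pos.2 hab).ne'] at h1
  linear_combination h1

theorem yW_nonneg (hI : Ids U h μ) (hr : 0 < r) : 0 ≤ yW U h r := by
  have hD := hI.toData
  refine le_of_forall_pos_le_add fun δ hδ => ?_
  obtain ⟨ε, hε, hε1, hε2⟩ : ∃ ε : ℝ, 0 < ε ∧ ε ≤ 1 ∧ 48 * ε ≤ δ :=
    ⟨min 1 (δ / 48), lt_min one_pos (by positivity), min_le_left _ _, by
      linarith [min_le_right 1 (δ / 48)]⟩
  obtain ⟨r₀, hr₀, h1⟩ := hD.Mx_sub ε hε
  set R := max r r₀ with hR
  have hR0 : 0 < R := hr.trans_le (le_max_left _ _)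
  have h2 := yW_anti hI hr hR0 (le_max_left _ _)
  have h3 : |Iw wk (fun z => U z * Dil U h z) R| ≤ 3 * (ε * R * (2 * R)) * (π * R ^ 2) := by
    refine Iw_abs_le hR0 fun z hz => ?_
    have h4 : U z ≤ ε * R :=
      (hD.bd_Mx R z (mem_closedBall_zero_iff.2 hz.le)).trans (h1 R (le_max_right _ _))
    have h5 : |(h z * z).re| ≤ R := by
      refine (abs_re_le_norm _).trans ?_
      rw [norm_mul]
      nlinarith [hD.le z, norm_nonneg z, norm_nonneg (h z)]
    have h6 := hD.nonneg z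
    have h7 : ε * R ≤ R := mul_le_of_le_one_left hR0.le hε1
    rw [abs_mul, abs_of_nonneg h6]
    refine mul_le_mul h4 ?_ (abs_nonneg _) (by positivity)
    rw [abs_le] at h5 ⊢
    unfold Dil
    constructor <;> linarith [h5.1, h5.2]
  have h4 : 0 ≤ Iw wl ((Fz U).indicator 1) R / R ^ 2 :=
    div_nonneg (Iw_nonneg wl_nonneg (indicator_nonneg fun _ _ => zero_le_one)) (by positivity)
  have h5 : 2 * Iw wk (fun z => U z * Dil U h z) R / R ^ 4 ≤ δ := by
    rw [div_le_iff₀ (by positivity)]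
    have h6 : 3 * (ε * R * (2 * R)) * (π * R ^ 2) = 6 * π * (ε * R ^ 4) := by ring
    have h7 : 6 * π * (ε * R ^ 4) ≤ 24 * (ε * R ^ 4) :=
      mul_le_mul_of_nonneg_right (by linarith [Real.pi_le_four]) (by positivity)
    have h8 : 48 * ε * R ^ 4 ≤ δ * R ^ 4 := mul_le_mul_of_nonneg_right hε2 (by positivity)
    linarith [le_abs_self (Iw wk (fun z => U z * Dil U h z) R)]
  rw [yW_eq hI hR0] at h2
  linarith

theorem yW_drop (hI : Ids U h μ) {ρ : ℝ} (hρ : 0 < ρ) :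
    ∫ z in ball 0 ρ, Dil U h z ^ 2 ≤ 22 * ρ ^ 4 * (yW U h ρ - yW U h (2 * ρ)) := by
  obtain ⟨ξ, hξ, h1⟩ := yW_mvt hI (show 0 < 3 / 2 * ρ by positivity) (show _ < 2 * ρ by linarith)
  have hξ0 : 0 < ξ := lt_trans (by positivity) hξ.1
  have h2 := yW_anti hI hρ (show 0 < 3 / 2 * ρ by positivity) (by linarith)
  have h3 := le_Iw (gd_Dil hI.toData).sq (fun _ => sq_nonneg _) hρ hξ.1.le
  have h4 := d2_nonneg (U := U) (h := h) (r := ξ)
  set d := Iw wk (fun z => Dil U h z ^ 2) ξ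
  have h5 : 4 * d / (2 * ρ) ^ 5 ≤ 4 * d / ξ ^ 5 :=
    div_le_div_of_nonneg_left (by positivity) (by positivity) (pow_le_pow_left₀ hξ0.le hξ.2.le 5)
  have h6 : d = 16 * ρ ^ 4 * (4 * d / (2 * ρ) ^ 5 * (2 * ρ - 3 / 2 * ρ)) := by
    field_simp
    ring
  have h7 : 4 * d / (2 * ρ) ^ 5 * (2 * ρ - 3 / 2 * ρ) ≤ yW U h ρ - yW U h (2 * ρ) := by
    have := mul_le_mul_of_nonneg_right h5 (show 0 ≤ 2 * ρ - 3 / 2 * ρ by linarith)
    linarith
  have h8 := mul_le_mul_of_nonneg_left h7 (show 0 ≤ 16 * ρ ^ 4 by positivity)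
  linarith

theorem yW_small (hI : Ids U h μ) (hr : 0 < r) {B : ℝ} (hB : Bd U 0 (2 * r) B) :
    yW U h (2 * r) ≤ 22 * (Ar U 0 (2 * r) / r ^ 2 + B / r * √(yW U h r - yW U h (2 * r))) := by
  have hD := hI.toData
  obtain ⟨ξ, hξ, h1⟩ := yW_mvt hI hr (show r < 2 * r by linarith)
  have hξ0 : 0 < ξ := hr.trans hξ.1
  have h2 := yW_anti hI hξ0 (show 0 < 2 * r by positivity) hξ.2.le
  have hB0 : 0 ≤ B := (hD.nonneg 0).trans (hB 0 (mem_closedBall_self (by positivity)))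
  have h3 : Iw wl ((Fz U).indicator 1) ξ / ξ ^ 2 ≤ Ar U 0 (2 * r) / r ^ 2 :=
    div_le_div₀ (Ar_nonneg _ _ _) ((Iw_ind_le hD.isClosed_Fz.measurableSet hξ0).trans
      (Ar_mono U (ball_subset_ball hξ.2.le))) (by positivity) (pow_le_pow_left₀ hr.le hξ.1.le 2)
  have h4 := Iw_cs (gd_U hD) (gd_Dil hD) hξ0
  have h5 : Iw wk (fun z => U z ^ 2) ξ ≤ 3 * B ^ 2 * (π * ξ ^ 2) := by
    refine (le_abs_self _).trans (Iw_abs_le hξ0 fun z hz => ?_)
    rw [abs_of_nonneg (sq_nonneg _)]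
    exact pow_le_pow_left₀ (hD.nonneg z)
      (hB z (mem_closedBall_zero_iff.2 (hz.le.trans hξ.2.le))) 2
  have h6 := d2_nonneg (U := U) (h := h) (r := ξ)
  set d := Iw wk (fun z => Dil U h z ^ 2) ξ
  set P := Iw wk (fun z => U z * Dil U h z) ξ
  set Δ := yW U h r - yW U h (2 * r)
  have hΔ : d ≤ ξ ^ 4 * Δ := by
    have h7 : ξ ^ 4 * Δ = 4 * d * r / ξ := by
      rw [h1]
      field_simp
      ring
    rw [h7, le_div_iff₀ hξ0]
    nlinarith [hξ.2]
  have hΔ0 : 0 ≤ Δ := by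
    by_contra h7
    have h8 : ξ ^ 4 * Δ < 0 := mul_neg_of_pos_of_neg (by positivity) (not_le.1 h7)
    linarith
  have h7 : P ^ 2 ≤ (4 * B * ξ ^ 3 * √Δ) ^ 2 := by
    have h8 : 3 * B ^ 2 * (π * ξ ^ 2) ≤ 16 * B ^ 2 * ξ ^ 2 := by
      have h9 : 0 ≤ B ^ 2 * ξ ^ 2 := by positivity
      nlinarith [Real.pi_le_four]
    calc P ^ 2 ≤ 16 * B ^ 2 * ξ ^ 2 * (ξ ^ 4 * Δ) :=
          h4.trans (mul_le_mul (h5.trans h8) hΔ h6 (by positivity))
      _ = _ := by rw [mul_pow, Real.sq_sqrt hΔ0]; ring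
  have h8 : -P ≤ 4 * B * ξ ^ 3 * √Δ := by
    linarith [(abs_le_of_sq_le_sq' h7 (by positivity)).1]
  have h9 : -(2 * P / ξ ^ 4) ≤ 8 * (B / r * √Δ) := by
    have h10 : B / ξ * √Δ ≤ B / r * √Δ := mul_le_mul_of_nonneg_right
      (div_le_div_of_nonneg_left hB0 hr hξ.1.le) (Real.sqrt_nonneg _)
    have h11 : -(2 * P / ξ ^ 4) ≤ 8 * (B / ξ * √Δ) := by
      rw [← neg_div, div_le_iff₀ (by positivity)]
      have h12 : 8 * (B / ξ * √Δ) * ξ ^ 4 = 2 * (4 * B * ξ ^ 3 * √Δ) := by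
        field_simp
        ring
      linarith
    linarith
  have h10 : 0 ≤ Ar U 0 (2 * r) / r ^ 2 := div_nonneg (Ar_nonneg _ _ _) (by positivity)
  have h11 : 0 ≤ B / r * √Δ := by positivity
  rw [yW_eq hI hξ0] at h2
  linarith

end

end Weiss

theorem weiss_of (h : S_Dens) : S_Weiss := by
  intro U h μ hI
  exact ⟨22, Weiss.yW U h, by norm_num, Weiss.yW_anti hI, fun _ hr => Weiss.yW_nonneg hI hr,
    fun _ hρ => Weiss.yW_drop hI hρ, fun _ hr _ hB => Weiss.yW_small hI hr hB⟩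

end MW.PL
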