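import Pool.Agent.P.MP_064970_gt.PL.Green
import Pool.Agent.P.MP_064970_gt.PL.IdsP
import Pool.Agent.P.MP_064970_gt.PL.Mean
import Pool.Agent.P.MP_064970_gt.PL.Cacc
import Pool.Agent.P.MP_064970_gt.PL.Rep
import Pool.Agent.P.MP_064970_gt.PL.LI
import Pool.Agent.P.MP_064970_gt.PL.Key
import Pool.Agent.P.MP_064970_gt.PL.Grad
import Pool.Agent.P.MP_064970_gt.PL.Weiss
import Pool.Agent.P.MP_064970_gt.PL.Tail
import Pool.Agent.P.MP_064970_gt.PL.Sig
import Pool.Agent.P.MP_064970_gt.PL.Seq5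
import Pool.Agent.P.MP_064970_gt.PL.P6
import Pool.Agent.P.MP_064970_gt.PL.Vir
import Pool.Agent.P.MP_064970_gt.PL.Iso
import Pool.Agent.P.MP_064970_gt.PL.P7
import Pool.Agent.P.MP_064970_gt.PL.Circ
import Pool.Agent.P.MP_064970_gt.PL.P8

/-! The planar theorem. -/

namespace MW.PL

theorem planar : S_PL := by
  intro U h hD
  obtain ⟨μ, hμ⟩ := green U h hD
  have hI := ids_of U h μ hD hμ
  have hdens := dens_of cacc
  have hH := repH_of cacc
  have hH2 := repH2_of cacc hdens
  have hLI := li_of rep1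
  have hkey := key_of hLI
  have hgrad := grad_of mean cacc hH2 hkey
  have h5 := p5_of (weiss_of hdens) tail (sig_of mean hgrad)
  have h6 := p6_of mean hdens hLI hgrad h5 peak
  have hvir := vir_of mean hdens hH hH2 hLI hkey
  have h7 := p7_of mean hdens hLI hvir iso U h μ hI (h6 U h μ hI)
  exact p8_of mean hH (circ_of mean hdens hLI hvir isoEq) U h μ hI h7

end MW.PL
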