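import Pool.Agent.P.MP_064970_gt.PL.Stmts

/-! Row PL-Calc: calculus of `dbar`, `del`, radial integrals, basic facts about the data. -/

open Complex InnerProductSpace Set Filter Topology Metric MeasureTheory
open scoped Real ComplexConjugate ENNReal

namespace MW.PL

open MW.AN

theorem one_le_ratio {a w : ℂ} {s : ℝ} (hs : 0 < s) (hw : w ∉ closedBall a s) :
    1 < ‖w - a‖ ^ 2 / s ^ 2 := by
  rw [mem_closedBall, dist_eq_norm, not_le] at hw
  rw [lt_div_iff₀ (by positivity)]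
  nlinarith

theorem volume_ball_le (w : ℂ) (s : ℝ) : volume (ball w s) ≤ ENNReal.ofReal (π * s ^ 2) := by
  rcases le_total s 0 with hs | hs
  · rw [ball_eq_empty.2 hs, measure_empty]; exact zero_le
  · rw [Complex.volume_ball, mul_comm π, ENNReal.ofReal_mul (by positivity), ENNReal.ofReal_pow hs,
      ← NNReal.coe_real_pi, ENNReal.ofReal_coe_nnreal]

theorem cut_contDiff : ContDiff ℝ 2 cut := by
  have h : ContDiff ℝ 2 Real.smoothTransition := Real.smoothTransition.contDiff (n := 2)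
  exact h.comp (by fun_prop)

theorem cut_eq_one {t : ℝ} (h : t ≤ 1 / 4) : cut t = 1 := by
  exact Real.smoothTransition.one_of_one_le (by linarith)

theorem cut_eq_zero {t : ℝ} (h : 1 ≤ t) : cut t = 0 := by
  exact Real.smoothTransition.zero_of_nonpos (by linarith)

theorem cut_mem (t : ℝ) : 0 ≤ cut t ∧ cut t ≤ 1 := by
  exact ⟨Real.smoothTransition.nonneg _, Real.smoothTransition.le_one _⟩

theorem deriv_cut_eq_zero {t : ℝ} (h : t < 1 / 4 ∨ 1 ≤ t) : deriv cut t = 0 := by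
  rcases h with h | h
  · refine IsLocalMax.deriv_eq_zero (Eventually.of_forall fun s => ?_)
    rw [cut_eq_one h.le]; exact (cut_mem s).2
  · refine IsLocalMin.deriv_eq_zero (Eventually.of_forall fun s => ?_)
    rw [cut_eq_zero h]; exact (cut_mem s).1

theorem deriv_cut_bound : ∃ C : ℝ, 0 < C ∧ ∀ t, |deriv cut t| ≤ C := by
  have hc : Continuous (deriv cut) := cut_contDiff.continuous_deriv (by norm_num)
  obtain ⟨C, hC⟩ := (isCompact_Icc (a := (0 : ℝ)) (b := 1)).exists_bound_of_continuousOn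
    hc.continuousOn
  refine ⟨|C| + 1, by positivity, fun t => ?_⟩
  by_cases ht : t ∈ Icc (0 : ℝ) 1
  · have := hC t ht
    rw [Real.norm_eq_abs] at this
    linarith [le_abs_self C]
  · have : deriv cut t = 0 := by
      apply deriv_cut_eq_zero
      rw [mem_Icc, not_and_or, not_le, not_le] at ht
      rcases ht with ht | ht
      · left; linarith
      · right; exact ht.le
    rw [this, abs_zero]; positivity

variable {φ ψ : ℂ → ℂ} {z : ℂ}

theorem dbar_congr (h : φ =ᶠ[𝓝 z] ψ) : dbar φ z = dbar ψ z := by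
  unfold dbar; rw [h.fderiv_eq]

theorem del_congr (h : φ =ᶠ[𝓝 z] ψ) : del φ z = del ψ z := by
  unfold del; rw [h.fderiv_eq]

theorem dbar_add (h₁ : DifferentiableAt ℝ φ z) (h₂ : DifferentiableAt ℝ ψ z) :
    dbar (fun w => φ w + ψ w) z = dbar φ z + dbar ψ z := by
  unfold dbar; rw [fderiv_fun_add h₁ h₂]
  simp only [add_apply]; ring

theorem dbar_sub (h₁ : DifferentiableAt ℝ φ z) (h₂ : DifferentiableAt ℝ ψ z) :
    dbar (fun w => φ w - ψ w) z = dbar φ z - dbar ψ z := by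
  unfold dbar; rw [fderiv_fun_sub h₁ h₂]
  simp only [sub_apply]; ring

theorem dbar_mul (h₁ : DifferentiableAt ℝ φ z) (h₂ : DifferentiableAt ℝ ψ z) :
    dbar (fun w => φ w * ψ w) z = dbar φ z * ψ z + φ z * dbar ψ z := by
  unfold dbar; rw [fderiv_fun_mul h₁ h₂]
  simp only [add_apply, smul_apply, smul_eq_mul]; ring

theorem del_sub (h₁ : DifferentiableAt ℝ φ z) (h₂ : DifferentiableAt ℝ ψ z) :
    del (fun w => φ w - ψ w) z = del φ z - del ψ z := by
  unfold del; rw [fderiv_fun_sub h₁ h₂]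
  simp only [sub_apply]; ring

theorem del_mul (h₁ : DifferentiableAt ℝ φ z) (h₂ : DifferentiableAt ℝ ψ z) :
    del (fun w => φ w * ψ w) z = del φ z * ψ z + φ z * del ψ z := by
  unfold del; rw [fderiv_fun_mul h₁ h₂]
  simp only [add_apply, smul_apply, smul_eq_mul]; ring

theorem dbar_of_hasDerivAt {φ' : ℂ} (h : HasDerivAt φ φ' z) : dbar φ z = 0 ∧ del φ z = φ' := by
  have h1 := (h.hasFDerivAt.restrictScalars ℝ).fderiv
  have h2 : ∀ v : ℂ, fderiv ℝ φ z v = v * φ' := by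
    intro v; rw [h1]; simp
  unfold dbar del
  rw [h2, h2]
  constructor
  · linear_combination (φ' / 2) * I_mul_I
  · linear_combination (-φ' / 2) * I_mul_I

theorem dbar_conj (φ : ℂ → ℂ) (z : ℂ) :
    dbar (fun w => conj (φ w)) z = conj (del φ z) ∧
      del (fun w => conj (φ w)) z = conj (dbar φ z) := by
  have h1 : fderiv ℝ (fun w => conj (φ w)) z = (conjCLE : ℂ →L[ℝ] ℂ).comp (fderiv ℝ φ z) :=
    conjCLE.comp_fderiv (f := φ) (x := z)
  have h2 : ∀ v : ℂ, fderiv ℝ (fun w => conj (φ w)) z v = conj (fderiv ℝ φ z v) := by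
    intro v; rw [h1]; simp
  have h3 : conj (2 : ℂ) = 2 := map_ofNat _ 2
  unfold dbar del
  rw [h2, h2]
  constructor
  · rw [map_div₀, map_sub, map_mul, conj_I, h3]; ring
  · rw [map_div₀, map_add, map_mul, conj_I, h3]; ring

theorem norm_dbar_le (φ : ℂ → ℂ) (z : ℂ) :
    ‖dbar φ z‖ ≤ ‖fderiv ℝ φ z‖ ∧ ‖del φ z‖ ≤ ‖fderiv ℝ φ z‖ := by
  have h1 : ‖fderiv ℝ φ z 1‖ ≤ ‖fderiv ℝ φ z‖ := by
    simpa using (fderiv ℝ φ z).le_opNorm 1
  have h2 : ‖I * fderiv ℝ φ z I‖ ≤ ‖fderiv ℝ φ z‖ := by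
    simpa using (fderiv ℝ φ z).le_opNorm I
  have h3 : ‖(2 : ℂ)‖ = 2 := by simp
  unfold dbar del
  rw [norm_div, norm_div, h3]
  constructor
  · linarith [norm_add_le (fderiv ℝ φ z 1) (I * fderiv ℝ φ z I)]
  · linarith [norm_sub_le (fderiv ℝ φ z 1) (I * fderiv ℝ φ z I)]

theorem continuous_dbar (h : ContDiff ℝ 1 φ) : Continuous (dbar φ) ∧ Continuous (del φ) := by
  have hc : Continuous (fderiv ℝ φ) := h.continuous_fderiv one_ne_zero
  have h1 : Continuous fun z => fderiv ℝ φ z 1 := hc.clm_apply continuous_const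
  have h2 : Continuous fun z => fderiv ℝ φ z I := hc.clm_apply continuous_const
  exact ⟨(h1.add (continuous_const.mul h2)).div_const 2,
    (h1.sub (continuous_const.mul h2)).div_const 2⟩

theorem hasCompactSupport_dbar (h : HasCompactSupport φ) :
    HasCompactSupport (dbar φ) ∧ HasCompactSupport (del φ) := by
  have hf : HasCompactSupport (fderiv ℝ φ) := h.fderiv ℝ
  exact ⟨hf.comp_left (g := fun L : ℂ →L[ℝ] ℂ => (L 1 + I * L I) / 2) (by simp),
    hf.comp_left (g := fun L : ℂ →L[ℝ] ℂ => (L 1 - I * L I) / 2) (by simp)⟩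

/-- Radial functions. -/
theorem dbar_radial {g : ℝ → ℝ} {g' : ℝ} (a : ℂ) (s : ℝ)
    (hg : HasDerivAt g g' (‖z - a‖ ^ 2 / s ^ 2)) :
    DifferentiableAt ℝ (fun w => ((g (‖w - a‖ ^ 2 / s ^ 2) : ℝ) : ℂ)) z ∧
    dbar (fun w => ((g (‖w - a‖ ^ 2 / s ^ 2) : ℝ) : ℂ)) z = g' * (z - a) / s ^ 2 ∧
    del (fun w => ((g (‖w - a‖ ^ 2 / s ^ 2) : ℝ) : ℂ)) z = g' * conj (z - a) / s ^ 2 := by
  have h1 := (((hasFDerivAt_id (𝕜 := ℝ) z).sub_const a).norm_sq).mul_const (s ^ 2)⁻¹
  have h1' : HasFDerivAt (fun w : ℂ => ‖w - a‖ ^ 2 / s ^ 2) _ z :=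
    h1.congr_of_eventuallyEq (Eventually.of_forall fun w => div_eq_mul_inv _ _)
  have h2 := hg.comp_hasFDerivAt z h1'
  have h3 := ofRealCLM.hasFDerivAt.comp z h2
  have h4 : HasFDerivAt (fun w : ℂ => ((g (‖w - a‖ ^ 2 / s ^ 2) : ℝ) : ℂ)) _ z := h3
  obtain ⟨x, y, hu⟩ : ∃ x y : ℝ, z - a = x + y * I := ⟨_, _, (re_add_im _).symm⟩
  have e1 : fderiv ℝ (fun w : ℂ => ((g (‖w - a‖ ^ 2 / s ^ 2) : ℝ) : ℂ)) z 1
      = g' * (2 * x) / s ^ 2 := by
    rw [h4.fderiv]; simp [hu]; ring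
  have e2 : fderiv ℝ (fun w : ℂ => ((g (‖w - a‖ ^ 2 / s ^ 2) : ℝ) : ℂ)) z I
      = g' * (2 * y) / s ^ 2 := by
    rw [h4.fderiv]; simp [hu]; ring
  refine ⟨h4.differentiableAt, ?_, ?_⟩
  · unfold dbar; rw [e1, e2, hu]; ring
  · unfold del; rw [e1, e2, hu]
    simp only [map_add, map_mul, conj_ofReal, conj_I]; ring

theorem contDiff_radial {g : ℝ → ℝ} (hg : ContDiff ℝ 1 g) (a : ℂ) (s : ℝ) :
    ContDiff ℝ 1 (fun w : ℂ => ((g (‖w - a‖ ^ 2 / s ^ 2) : ℝ) : ℂ)) := by
  have h1 : ContDiff ℝ 1 (fun w : ℂ => ‖w - a‖ ^ 2 / s ^ 2) :=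
    ((contDiff_id.sub contDiff_const).norm_sq ℝ).div_const _
  exact ofRealCLM.contDiff.comp (hg.comp h1)

theorem hasCompactSupport_radial {g : ℝ → ℝ} (hg : ∀ t, 1 ≤ t → g t = 0) (a : ℂ) {s : ℝ}
    (hs : 0 < s) : HasCompactSupport (fun w : ℂ => ((g (‖w - a‖ ^ 2 / s ^ 2) : ℝ) : ℂ)) := by
  refine HasCompactSupport.intro (isCompact_closedBall a s) fun w hw => ?_
  rw [hg _ (one_le_ratio hs hw).le, ofReal_zero]

/-- The regularised Cauchy kernel `(1 - cut (|w - a|² / τ²)) / (w - a)` is `C¹`. -/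
theorem contDiff_cauchy (a : ℂ) {τ : ℝ} (hτ : 0 < τ) :
    ContDiff ℝ 1 (fun w : ℂ => (1 - ((cut (‖w - a‖ ^ 2 / τ ^ 2) : ℝ) : ℂ)) * (w - a)⁻¹) := by
  rw [contDiff_iff_contDiffAt]
  intro w
  by_cases hw : w = a
  · subst hw
    have hev : (fun v : ℂ => (1 - ((cut (‖v - w‖ ^ 2 / τ ^ 2) : ℝ) : ℂ)) * (v - w)⁻¹)
        =ᶠ[𝓝 w] fun _ => 0 := by
      filter_upwards [ball_mem_nhds w (half_pos hτ)] with v hv
      rw [mem_ball, dist_eq_norm] at hv
      have : ‖v - w‖ ^ 2 / τ ^ 2 ≤ 1 / 4 := by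
        rw [div_le_iff₀ (by positivity)]
        nlinarith [norm_nonneg (v - w)]
      rw [cut_eq_one this]; simp
    exact contDiffAt_const.congr_of_eventuallyEq hev
  · have h1 := (contDiff_radial (cut_contDiff.of_le (by norm_num)) a τ).contDiffAt (x := w)
    exact (contDiffAt_const.sub h1).mul
      ((contDiffAt_id.sub contDiffAt_const).inv (sub_ne_zero.2 hw))

theorem integral_dbar_eq_zero (h : ContDiff ℝ 1 φ) (hc : HasCompactSupport φ) :
    ∫ z, dbar φ z = 0 ∧ ∫ z, del φ z = 0 := by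
  have hcf : Continuous (fderiv ℝ φ) := h.continuous_fderiv one_ne_zero
  have hi : ∀ v : ℂ, Integrable (fun z => fderiv ℝ φ z v) := fun v =>
    (hcf.clm_apply continuous_const).integrable_of_hasCompactSupport
      ((hc.fderiv ℝ).comp_left (g := fun L : ℂ →L[ℝ] ℂ => L v) (by simp))
  have h0 : ∀ v : ℂ, ∫ z, fderiv ℝ φ z v = 0 := by
    intro v
    have := integral_mul_fderiv_eq_neg_fderiv_mul_of_integrable (μ := (volume : Measure ℂ))
      (f := fun _ : ℂ => (1 : ℂ)) (g := φ) (v := v) (by simp) (by simpa using hi v)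
      (by simpa using h.continuous.integrable_of_hasCompactSupport hc)
      (fun x _ => differentiableAt_const _) (fun x _ => h.differentiable one_ne_zero x)
    simpa using this
  unfold dbar del
  constructor
  · rw [integral_div, integral_add (hi 1) ((hi I).const_mul I), integral_const_mul, h0, h0]; simp
  · rw [integral_div, integral_sub (hi 1) ((hi I).const_mul I), integral_const_mul, h0, h0]; simp

theorem integral_radial {g : ℝ → ℝ} (hg : Continuous g) (h0 : ∀ t, 1 ≤ t → g t = 0) (a : ℂ)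
    {s : ℝ} (hs : 0 < s) :
    ∫ w : ℂ, g (‖w - a‖ ^ 2 / s ^ 2) = π * s ^ 2 * ∫ t in (0 : ℝ)..1, g t := by
  rw [integral_sub_right_eq_self (fun w : ℂ => g (‖w‖ ^ 2 / s ^ 2)) a,
    integral_fun_norm_addHaar volume (fun r : ℝ => g (r ^ 2 / s ^ 2))]
  have hv : (volume : Measure ℂ).real (ball 0 1) = π := by
    simp [measureReal_def]
  have h1 : ∫ y in Ioi (0 : ℝ), y ^ (Module.finrank ℝ ℂ - 1) • g (y ^ 2 / s ^ 2)
      = ∫ y in (0 : ℝ)..s, y * g (y ^ 2 / s ^ 2) := by
    rw [intervalIntegral.integral_of_le hs.le, finrank_real_complex]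
    simp only [Nat.add_one_sub_one, pow_one, smul_eq_mul]
    refine setIntegral_eq_of_subset_of_forall_sdiff_eq_zero measurableSet_Ioi Ioc_subset_Ioi_self
      fun y hy => ?_
    have hy1 : s < y := by
      by_contra hn
      exact hy.2 ⟨hy.1, not_lt.1 hn⟩
    rw [h0 _ (by rw [le_div_iff₀ (by positivity)]; nlinarith), mul_zero]
  have h2 := intervalIntegral.integral_comp_mul_deriv (a := 0) (b := s)
    (f := fun y : ℝ => y ^ 2 / s ^ 2) (f' := fun y : ℝ => 2 * y / s ^ 2) (g := g)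
    (fun x _ => by simpa using (hasDerivAt_pow 2 x).div_const (s ^ 2)) (by fun_prop) hg
  have h3 : ∫ y in (0 : ℝ)..s, y * g (y ^ 2 / s ^ 2)
      = s ^ 2 / 2 * ∫ y in (0 : ℝ)..s, (g ∘ fun y : ℝ => y ^ 2 / s ^ 2) y * (2 * y / s ^ 2) := by
    rw [← intervalIntegral.integral_const_mul]
    refine intervalIntegral.integral_congr fun y _ => ?_
    simp only [Function.comp]
    field_simp
  have h4 : s ^ 2 / s ^ 2 = 1 := div_self (by positivity)
  rw [h1, h3, h2, hv, finrank_real_complex, h4]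
  simp only [ne_eq, OfNat.ofNat_ne_zero, not_false_eq_true, zero_pow, zero_div, smul_eq_mul,
    nsmul_eq_mul, Nat.cast_ofNat]
  ring

theorem integral_deriv_cut (a : ℂ) {s : ℝ} (hs : 0 < s) :
    ∫ w : ℂ, deriv cut (‖w - a‖ ^ 2 / s ^ 2) = -(π * s ^ 2) := by
  have hc : Continuous (deriv cut) := cut_contDiff.continuous_deriv (by norm_num)
  rw [integral_radial hc (fun t ht => deriv_cut_eq_zero (Or.inr ht)) a hs,
    intervalIntegral.integral_deriv_eq_sub
      (fun x _ => cut_contDiff.differentiable (by norm_num) x) (hc.intervalIntegrable _ _),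
    cut_eq_zero le_rfl, cut_eq_one (by norm_num)]
  ring

/-- `-deriv cut (|w - a|² / τ²) / τ²` concentrates to `π δ_a`. -/
theorem tendsto_deriv_cut {H : ℂ → ℂ} {a : ℂ} {ρ : ℝ} (hρ : 0 < ρ)
    (hH : ContinuousOn H (ball a ρ)) :
    Tendsto (fun τ : ℝ => ∫ w : ℂ, H w * ((deriv cut (‖w - a‖ ^ 2 / τ ^ 2) / τ ^ 2 : ℝ) : ℂ))
      (𝓝[>] 0) (𝓝 (-(π * H a))) := by
  obtain ⟨C, hC, hCb⟩ := deriv_cut_bound
  have hc : Continuous (deriv cut) := cut_contDiff.continuous_deriv (by norm_num)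
  rw [Metric.tendsto_nhdsWithin_nhds]
  intro ε hε
  have hca : ContinuousAt H a := hH.continuousAt (ball_mem_nhds a hρ)
  have hε' : 0 < ε / (2 * C * π) := by positivity
  obtain ⟨δ, hδ, hδH⟩ := Metric.continuousAt_iff.1 hca _ hε'
  refine ⟨min δ ρ, lt_min hδ hρ, fun τ hτ hτd => ?_⟩
  have hτ0 : 0 < τ := hτ
  rw [Real.dist_eq, sub_zero, abs_of_pos hτ0, lt_min_iff] at hτd
  set k : ℂ → ℂ := fun w => ((deriv cut (‖w - a‖ ^ 2 / τ ^ 2) / τ ^ 2 : ℝ) : ℂ) with hk
  have hkc : Continuous k := by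
    refine continuous_ofReal.comp ((hc.comp ?_).div_const _)
    fun_prop
  have hk0 : ∀ w, w ∉ closedBall a τ → k w = 0 := by
    intro w hw
    simp only [hk]
    rw [deriv_cut_eq_zero (Or.inr (one_le_ratio hτ0 hw).le)]; simp
  have hki : ∫ w, k w = -π := by
    simp only [hk]
    rw [integral_complex_ofReal, integral_div, integral_deriv_cut a hτ0]
    have : -(π * τ ^ 2) / τ ^ 2 = -π := by field_simp
    rw [this]; simp
  have hsub : closedBall a τ ⊆ ball a ρ := closedBall_subset_ball hτd.2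
  have i1 : IntegrableOn (fun w => H w * k w) (closedBall a τ) :=
    ((hH.mono hsub).mul hkc.continuousOn).integrableOn_compact (isCompact_closedBall a τ)
  have i2 : IntegrableOn (fun w => H a * k w) (closedBall a τ) :=
    (continuousOn_const.mul hkc.continuousOn).integrableOn_compact (isCompact_closedBall a τ)
  have e1 : ∫ w, H w * k w = ∫ w in closedBall a τ, H w * k w :=
    (setIntegral_eq_integral_of_forall_compl_eq_zero fun w hw => by rw [hk0 w hw, mul_zero]).symm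
  have e2 : -(π * H a) = ∫ w in closedBall a τ, H a * k w := by
    rw [setIntegral_eq_integral_of_forall_compl_eq_zero fun w hw => by rw [hk0 w hw, mul_zero],
      integral_const_mul, hki]
    ring
  rw [dist_eq_norm, e1, e2, ← integral_sub i1 i2]
  have hb : ∀ w ∈ closedBall a τ, ‖H w * k w - H a * k w‖ ≤ ε / (2 * C * π) * (C / τ ^ 2) := by
    intro w hw
    rw [← sub_mul, norm_mul]
    have h1 : ‖H w - H a‖ ≤ ε / (2 * C * π) := by
      rw [← dist_eq_norm]
      exact (hδH (lt_of_le_of_lt (mem_closedBall.1 hw) hτd.1)).le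
    have h2 : ‖k w‖ ≤ C / τ ^ 2 := by
      simp only [hk]
      rw [norm_real, Real.norm_eq_abs, abs_div, abs_of_pos (a := τ ^ 2) (by positivity)]
      exact div_le_div_of_nonneg_right (hCb _) (by positivity)
    exact mul_le_mul h1 h2 (norm_nonneg _) hε'.le
  have hfin : volume (closedBall a τ) < ∞ := (isCompact_closedBall a τ).measure_lt_top
  have hv : (volume : Measure ℂ).real (closedBall a τ) = τ ^ 2 * π := by
    simp [measureReal_def, hτ0.le]
  refine lt_of_le_of_lt (norm_setIntegral_le_of_norm_le_const hfin hb) ?_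
  rw [hv]
  have : ε / (2 * C * π) * (C / τ ^ 2) * (τ ^ 2 * π) = ε / 2 := by field_simp
  rw [this]; linarith

theorem measurable_k1 : Measurable (Function.uncurry k1) := by
  have : Measurable fun p : ℂ × ℂ => ‖p.2 - p.1‖⁻¹ := by fun_prop
  exact this.ennreal_ofReal

theorem measurable_k2 : Measurable (Function.uncurry k2) := by
  have : Measurable fun p : ℂ × ℂ => ‖p.2 - p.1‖⁻¹ ^ 2 := by fun_prop
  exact this.ennreal_ofReal

theorem lintegral_k1_ball (a : ℂ) {ρ : ℝ} (hρ : 0 ≤ ρ) :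
    ∫⁻ w in ball a ρ, k1 a w = ENNReal.ofReal (2 * π * ρ) := by
  set F : ℂ → ℝ≥0∞ := fun w => if ‖w‖ < ρ then ENNReal.ofReal ‖w‖⁻¹ else 0 with hF
  have e1 : ∫⁻ w in ball a ρ, k1 a w = ∫⁻ w, F (w - a) := by
    rw [← lintegral_indicator measurableSet_ball]
    refine lintegral_congr fun w => ?_
    simp only [hF, Set.indicator, mem_ball, dist_eq_norm, k1]
  rw [e1, lintegral_sub_right_eq_self F a, ← Complex.lintegral_comp_polarCoord_symm]
  have hm : MeasurableSet (Ioo (0 : ℝ) ρ ×ˢ Ioo (-π) π) := measurableSet_Ioo.prod measurableSet_Ioo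
  have e2 : ∫⁻ p in polarCoord.target, ENNReal.ofReal p.1 • F (Complex.polarCoord.symm p)
      = ∫⁻ p in polarCoord.target, (Ioo (0 : ℝ) ρ ×ˢ Ioo (-π) π).indicator 1 p := by
    refine setLIntegral_congr_fun polarCoord.open_target.measurableSet fun p hp => ?_
    have hp1 : 0 < p.1 := hp.1
    have hp2 : p.2 ∈ Ioo (-π) π := hp.2
    simp only [hF, norm_polarCoord_symm, abs_of_pos hp1, smul_eq_mul]
    by_cases h : p.1 < ρ
    · rw [if_pos h, indicator_of_mem (show p ∈ Ioo (0 : ℝ) ρ ×ˢ Ioo (-π) π from ⟨⟨hp1, h⟩, hp2⟩),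
        ← ENNReal.ofReal_mul hp1.le, mul_inv_cancel₀ hp1.ne']
      simp
    · rw [if_neg h, indicator_of_notMem (fun hh => h hh.1.2), mul_zero]
  have hsub : (Ioo (0 : ℝ) ρ ×ˢ Ioo (-π) π) ⊆ polarCoord.target := fun p hp => ⟨hp.1.1, hp.2⟩
  rw [e2, lintegral_indicator_one hm, Measure.restrict_apply hm, inter_eq_left.2 hsub,
    Measure.volume_eq_prod, Measure.prod_prod, Real.volume_Ioo, Real.volume_Ioo,
    ← ENNReal.ofReal_mul (by linarith)]
  congr 1; ring

theorem lintegral_k1_le (a : ℂ) {A : Set ℂ} (hA : volume A < ∞) :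
    ∫⁻ w in A, k1 a w ≤ ENNReal.ofReal (8 * √(volume.real A)) := by
  by_cases h0 : volume A = 0
  · rw [setLIntegral_measure_zero _ _ h0]; exact zero_le
  have hV : 0 < volume.real A := ENNReal.toReal_pos h0 hA.ne
  set ρ := √(volume.real A) with hρ
  have hρ0 : 0 < ρ := Real.sqrt_pos.2 hV
  have hρ2 : ρ * ρ = volume.real A := Real.mul_self_sqrt hV.le
  have hA' : volume A = ENNReal.ofReal (ρ * ρ) := by
    rw [hρ2, measureReal_def, ENNReal.ofReal_toReal hA.ne]
  have hp : ∀ w, k1 a w ≤ (ball a ρ).indicator (k1 a) w + ENNReal.ofReal ρ⁻¹ := by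
    intro w
    by_cases hw : w ∈ ball a ρ
    · rw [indicator_of_mem hw]; exact le_self_add
    · rw [indicator_of_notMem hw, zero_add]
      rw [mem_ball, dist_eq_norm, not_lt] at hw
      exact ENNReal.ofReal_le_ofReal (inv_anti₀ hρ0 hw)
  calc ∫⁻ w in A, k1 a w ≤ ∫⁻ w in A, ((ball a ρ).indicator (k1 a) w + ENNReal.ofReal ρ⁻¹) :=
        lintegral_mono hp
    _ = (∫⁻ w in A, (ball a ρ).indicator (k1 a) w) + ENNReal.ofReal ρ⁻¹ * volume A := by
        rw [lintegral_add_right _ measurable_const, lintegral_const, Measure.restrict_apply_univ]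
    _ ≤ ENNReal.ofReal (2 * π * ρ) + ENNReal.ofReal ρ := by
        refine add_le_add ?_ (le_of_eq ?_)
        · refine (setLIntegral_le_lintegral _ _).trans (le_of_eq ?_)
          rw [lintegral_indicator measurableSet_ball, lintegral_k1_ball a hρ0.le]
        · rw [hA', ← ENNReal.ofReal_mul (by positivity)]
          congr 1; field_simp
    _ ≤ ENNReal.ofReal (8 * ρ) := by
        rw [← ENNReal.ofReal_add (by positivity) hρ0.le]
        refine ENNReal.ofReal_le_ofReal ?_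
        nlinarith [Real.pi_lt_d2]

/-- Fubini for balls of a fixed radius. -/
theorem lintegral_measure_ball (ν : Measure ℂ) [SFinite ν] (c : ℂ) (r s : ℝ) :
    ∫⁻ z in ball c r, ν (ball z s) ≤ ENNReal.ofReal (π * s ^ 2) * ν (ball c (r + s)) := by
  set S : Set (ℂ × ℂ) := {p | dist p.2 p.1 < s} with hS
  have hSm : MeasurableSet S := (isOpen_lt (by fun_prop) continuous_const).measurableSet
  have hFm : Measurable (S.indicator (1 : ℂ × ℂ → ℝ≥0∞)) := measurable_one.indicator hSm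
  have e1 : ∫⁻ z in ball c r, ν (ball z s)
      = ∫⁻ z in ball c r, ∫⁻ w in ball c (r + s), S.indicator 1 (z, w) ∂ν := by
    refine setLIntegral_congr_fun measurableSet_ball fun z hz => ?_
    have : (fun w => S.indicator (1 : ℂ × ℂ → ℝ≥0∞) (z, w)) = (ball z s).indicator 1 := by
      funext w; simp [hS, Set.indicator]
    have hsub : ball z s ⊆ ball c (r + s) := fun w hw => by
      rw [mem_ball] at *
      linarith [dist_triangle w z c]
    rw [this, lintegral_indicator_one measurableSet_ball, Measure.restrict_apply measurableSet_ball,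
      inter_eq_left.2 hsub]
  rw [e1, lintegral_lintegral_swap (f := fun z w => S.indicator (1 : ℂ × ℂ → ℝ≥0∞) (z, w))
    hFm.aemeasurable]
  have hb : ∀ w : ℂ, ∫⁻ z in ball c r, S.indicator (1 : ℂ × ℂ → ℝ≥0∞) (z, w)
      ≤ ENNReal.ofReal (π * s ^ 2) := by
    intro w
    have : (fun z => S.indicator (1 : ℂ × ℂ → ℝ≥0∞) (z, w)) = (ball w s).indicator 1 := by
      funext z; simp [hS, Set.indicator, dist_comm]
    refine (setLIntegral_le_lintegral _ _).trans ?_
    rw [this, lintegral_indicator_one measurableSet_ball]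
    exact volume_ball_le w s
  refine (lintegral_mono hb).trans (le_of_eq ?_)
  rw [lintegral_const, Measure.restrict_apply_univ]

theorem measurable_measure_ball (ν : Measure ℂ) [SFinite ν] (s : ℝ) :
    Measurable fun z : ℂ => ν (ball z s) := by
  have hSm : MeasurableSet {p : ℂ × ℂ | dist p.2 p.1 < s} :=
    (isOpen_lt (by fun_prop) continuous_const).measurableSet
  exact measurable_measure_prodMk_left (ν := ν) hSm

/-- Differentiation of radial averages in the radius. -/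
theorem hasDerivAt_radial_integral (ν : Measure ℂ) [IsFiniteMeasureOnCompacts ν] {g : ℝ → ℝ}
    (hg : ContDiff ℝ 1 g) (h0 : ∀ t, 1 ≤ t → g t = 0) {f : ℂ → ℝ} (hf : Measurable f)
    (hb : ∀ R : ℝ, ∃ B : ℝ, ∀ z : ℂ, ‖z‖ ≤ R → |f z| ≤ B) (a : ℂ) {r : ℝ} (hr : 0 < r) :
    HasDerivAt (fun s : ℝ => ∫ z, g (‖z - a‖ ^ 2 / s ^ 2) * f z ∂ν)
      (∫ z, -2 * (‖z - a‖ ^ 2 / r ^ 2) * deriv g (‖z - a‖ ^ 2 / r ^ 2) / r * f z ∂ν) r := by
  have hdc : Continuous (deriv g) := hg.continuous_deriv le_rfl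
  have hd0 : ∀ t, 1 < t → deriv g t = 0 := by
    intro t ht
    have : g =ᶠ[𝓝 t] fun _ => 0 := by
      filter_upwards [Ioi_mem_nhds ht] with u hu using h0 u (le_of_lt hu)
    rw [this.deriv_eq]; simp
  obtain ⟨M₀, hM₀⟩ := (isCompact_Icc (a := (0 : ℝ)) (b := 1)).exists_bound_of_continuousOn
    hg.continuous.continuousOn
  obtain ⟨M₁, hM₁⟩ := (isCompact_Icc (a := (0 : ℝ)) (b := 1)).exists_bound_of_continuousOn
    (f := fun t => -2 * t * deriv g t) (by fun_prop)
  have hM₀' : ∀ t, 0 ≤ t → |g t| ≤ M₀ := by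
    intro t ht
    by_cases h1 : t ≤ 1
    · exact hM₀ t ⟨ht, h1⟩
    · rw [h0 t (not_le.1 h1).le, abs_zero]
      exact (norm_nonneg _).trans (hM₀ 0 ⟨le_rfl, zero_le_one⟩)
  have hM₁0 : 0 ≤ M₁ := (norm_nonneg _).trans (hM₁ 0 ⟨le_rfl, zero_le_one⟩)
  have hM₁' : ∀ t, 0 ≤ t → |-2 * t * deriv g t| ≤ M₁ := by
    intro t ht
    by_cases h1 : t ≤ 1
    · exact hM₁ t ⟨ht, h1⟩
    · rw [hd0 t (not_le.1 h1), mul_zero, abs_zero]; exact hM₁0
  obtain ⟨B, hB⟩ := hb (‖a‖ + 2 * r)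
  have hB' : ∀ z ∈ closedBall a (2 * r), |f z| ≤ B := by
    intro z hz
    refine hB z ?_
    rw [mem_closedBall, dist_eq_norm] at hz
    linarith [norm_sub_norm_le z a]
  have hind : ∀ K : ℝ, Integrable ((closedBall a (2 * r)).indicator fun _ : ℂ => K) ν := fun K =>
    (integrable_indicator_iff measurableSet_closedBall).2
      (integrableOn_const (isCompact_closedBall a (2 * r)).measure_lt_top.ne)
  have hout : ∀ s : ℝ, 0 < s → s < 2 * r → ∀ z, z ∉ closedBall a (2 * r) →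
      1 < ‖z - a‖ ^ 2 / s ^ 2 := fun s hs hs2 z hz =>
    one_le_ratio hs fun hh => hz (closedBall_subset_closedBall hs2.le hh)
  have hmF : ∀ s : ℝ, Measurable fun z : ℂ => g (‖z - a‖ ^ 2 / s ^ 2) * f z := by
    intro s
    have : Continuous fun z : ℂ => g (‖z - a‖ ^ 2 / s ^ 2) := hg.continuous.comp (by fun_prop)
    exact this.measurable.mul hf
  have hmF' : Measurable fun z : ℂ =>
      -2 * (‖z - a‖ ^ 2 / r ^ 2) * deriv g (‖z - a‖ ^ 2 / r ^ 2) / r * f z := by
    have : Continuous fun z : ℂ =>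
        -2 * (‖z - a‖ ^ 2 / r ^ 2) * deriv g (‖z - a‖ ^ 2 / r ^ 2) / r := by fun_prop
    exact this.measurable.mul hf
  refine (hasDerivAt_integral_of_dominated_loc_of_deriv_le (μ := ν) (s := Ioo (r / 2) (2 * r))
    (F := fun s z => g (‖z - a‖ ^ 2 / s ^ 2) * f z)
    (F' := fun s z => -2 * (‖z - a‖ ^ 2 / s ^ 2) * deriv g (‖z - a‖ ^ 2 / s ^ 2) / s * f z)
    (bound := (closedBall a (2 * r)).indicator fun _ : ℂ => M₁ / (r / 2) * B)
    (Ioo_mem_nhds (by linarith) (by linarith))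
    (Eventually.of_forall fun s => (hmF s).aestronglyMeasurable) ?_ hmF'.aestronglyMeasurable
    (Eventually.of_forall fun z s hs => ?_) (hind _) (Eventually.of_forall fun z s hs => ?_)).2
  · refine (hind (M₀ * B)).mono' (hmF r).aestronglyMeasurable (Eventually.of_forall fun z => ?_)
    by_cases hz : z ∈ closedBall a (2 * r)
    · rw [indicator_of_mem hz, Real.norm_eq_abs, abs_mul]
      exact mul_le_mul (hM₀' _ (by positivity)) (hB' z hz) (abs_nonneg _)
        ((abs_nonneg _).trans (hM₀' 0 le_rfl))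
    · rw [indicator_of_notMem hz, h0 _ (hout r hr (by linarith) z hz).le]; simp
  · have hs0 : 0 < s := lt_trans (half_pos hr) hs.1
    by_cases hz : z ∈ closedBall a (2 * r)
    · rw [indicator_of_mem hz, Real.norm_eq_abs, abs_mul, abs_div, abs_of_pos hs0]
      refine mul_le_mul ?_ (hB' z hz) (abs_nonneg _) (by positivity)
      exact div_le_div₀ hM₁0 (hM₁' _ (by positivity)) (half_pos hr) hs.1.le
    · rw [indicator_of_notMem hz, hd0 _ (hout s hs0 hs.2 z hz)]; simp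
  · have hs0 : 0 < s := lt_trans (half_pos hr) hs.1
    have h1 : HasDerivAt (fun s : ℝ => ‖z - a‖ ^ 2 / s ^ 2) (-2 * (‖z - a‖ ^ 2 / s ^ 2) / s) s := by
      have := (hasDerivAt_const s (‖z - a‖ ^ 2)).div (hasDerivAt_pow 2 s) (by positivity)
      refine this.congr_deriv ?_
      simp only [Nat.cast_ofNat, Nat.add_one_sub_one, pow_one]
      field_simp
      ring
    have h2 := ((hg.differentiable one_ne_zero _).hasDerivAt.comp s h1).mul_const (f z)
    refine h2.congr_deriv ?_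
    ring

variable {U : ℂ → ℝ} {h : ℂ → ℂ}

theorem Data.isOpen_Om (hD : Data U h) : IsOpen (Om U) := by
  exact isOpen_lt continuous_const hD.lip.continuous

theorem Data.Fz_eq (hD : Data U h) : Fz U = (Om U)ᶜ := by
  ext z
  simp only [Fz, Om, mem_ofPred_eq, mem_compl_iff, not_lt]
  exact ⟨fun h => h.le, fun h => le_antisymm h (hD.nonneg z)⟩

theorem Data.isClosed_Fz (hD : Data U h) : IsClosed (Fz U) := by
  rw [hD.Fz_eq]; exact hD.isOpen_Om.isClosed_compl

theorem Data.interior_Fz (hD : Data U h) : interior (Fz U) = (closure (Om U))ᶜ := by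
  rw [hD.Fz_eq, interior_compl]

theorem Data.ae_interior (hD : Data U h) : ∀ᵐ z : ℂ, z ∈ Fz U → z ∈ interior (Fz U) := by
  filter_upwards [measure_eq_zero_iff_ae_notMem.1 hD.null] with z hz hF
  rw [hD.interior_Fz]
  rw [hD.Fz_eq] at hF
  exact fun hc => hz ⟨hc, fun hi => hF (interior_subset hi)⟩

theorem Data.ae_zero (hD : Data U h) : ∀ᵐ z : ℂ, z ∉ Om U → h z = 0 := by
  filter_upwards [measure_eq_zero_iff_ae_notMem.1 hD.null] with z hz hF
  exact hD.zero z fun hc => hz ⟨hc, fun hi => hF (interior_subset hi)⟩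

theorem Data.h_diff (hD : Data U h) : DifferentiableOn ℂ h (Om U) := by
  intro z hz
  exact (D_analyticAt (hD.harm z hz)).differentiableAt.differentiableWithinAt.congr
    (fun y hy => hD.hD y hy) (hD.hD z hz)

theorem Data.U_contDiffOn (hD : Data U h) : ContDiffOn ℝ 2 U (Om U) := by
  exact fun z hz => (hD.harm z hz).1.contDiffWithinAt

theorem Data.fderiv_U (hD : Data U h) {z : ℂ} (hz : z ∈ Om U) (v : ℂ) :
    fderiv ℝ U z v = (h z * v).re := by
  rw [hD.hD z hz, fderiv_eq_re_D]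

theorem Data.dbar_U (hD : Data U h) {z : ℂ} (hz : z ∈ Om U) :
    dbar (fun w => (U w : ℂ)) z = conj (h z) / 2 ∧ del (fun w => (U w : ℂ)) z = h z / 2 := by
  have h1 : HasFDerivAt (fun w => (U w : ℂ)) (ofRealCLM.comp (fderiv ℝ U z)) z :=
    ofRealCLM.hasFDerivAt.comp z (harm_diff (hD.harm z hz)).hasFDerivAt
  unfold dbar del
  rw [h1.fderiv, hD.hD z hz]
  unfold D
  simp only [ContinuousLinearMap.comp_apply, ofRealCLM_apply, map_sub, map_mul, conj_ofReal, conj_I]
  constructor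
  · ring
  · trivial

theorem Ar_nonneg (U : ℂ → ℝ) (c : ℂ) (r : ℝ) : 0 ≤ Ar U c r := by
  exact measureReal_nonneg

theorem Ar_mono (U : ℂ → ℝ) {c c' : ℂ} {r r' : ℝ} (h : ball c r ⊆ ball c' r') :
    Ar U c r ≤ Ar U c' r' := by
  exact measureReal_mono (inter_subset_inter_right _ h)
    ((measure_mono inter_subset_right).trans_lt measure_ball_lt_top).ne

theorem Ar_le (U : ℂ → ℝ) (c : ℂ) (r : ℝ) : Ar U c r ≤ π * r ^ 2 := by
  exact ENNReal.toReal_le_of_le_ofReal (by positivity)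
    ((measure_mono inter_subset_right).trans (volume_ball_le c r))

theorem Data.bd_Mx (hD : Data U h) (r : ℝ) : Bd U 0 r (Mx U r) := by
  intro z hz
  exact le_csSup ((isCompact_closedBall 0 r).image hD.lip.continuous).bddAbove ⟨z, hz, rfl⟩

theorem Data.exists_Mx (hD : Data U h) {r : ℝ} (hr : 0 ≤ r) :
    ∃ z : ℂ, ‖z‖ ≤ r ∧ U z = Mx U r := by
  obtain ⟨z, hz, h⟩ := (isCompact_closedBall (0 : ℂ) r).exists_sSup_image_eq
    (nonempty_closedBall.2 hr) hD.lip.continuous.continuousOn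
  exact ⟨z, mem_closedBall_zero_iff.1 hz, h.symm⟩

theorem Data.Mx_mono (hD : Data U h) {r r' : ℝ} (hr : 0 ≤ r) (hrr : r ≤ r') :
    0 ≤ Mx U r ∧ Mx U r ≤ Mx U r' := by
  obtain ⟨z, hz, h⟩ := hD.exists_Mx hr
  rw [← h]
  exact ⟨hD.nonneg z, hD.bd_Mx r' z (mem_closedBall_zero_iff.2 (hz.trans hrr))⟩

theorem Data.Mx_sub (hD : Data U h) : ∀ ε > 0, ∃ r₀ : ℝ, 0 < r₀ ∧ ∀ r, r₀ ≤ r → Mx U r ≤ ε * r := by
  intro ε hε
  obtain ⟨R, hR⟩ := hD.sub ε hε
  refine ⟨max 1 (Mx U R / ε), lt_max_of_lt_left one_pos, fun r hr => ?_⟩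
  have hr1 : 1 ≤ r := (le_max_left _ _).trans hr
  have hr2 : Mx U R / ε ≤ r := (le_max_right _ _).trans hr
  obtain ⟨z, hz, h⟩ := hD.exists_Mx (r := r) (by linarith)
  rw [← h]
  by_cases hzR : R ≤ ‖z‖
  · exact (hR z hzR).trans (mul_le_mul_of_nonneg_left hz hε.le)
  · have := hD.bd_Mx R z (mem_closedBall_zero_iff.2 (not_le.1 hzR).le)
    rw [div_le_iff₀ hε] at hr2
    linarith

end MW.PL
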