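import Pool.Agent.P.MP_064970_gt.PL.Calc

/-! Row PL-Green: Let `β` be `C¹`, increasing, `0` on `(-∞, 1]`, `1` on `[2, ∞)`, `β_ε t = β (t / ε)`,
`Λ_ε ζ = ∫ ζ β_ε'(U) |h|²`. For `H` holomorphic on `Om` the function `β_ε(U) H φ` (extended by zero)
is `C¹` with compact support, so `∫ β_ε(U) H dbar φ = -½ ∫ φ H β_ε'(U) conj h`. With `H = h` and a
cutoff, `Λ_ε ζ` is bounded uniformly in `ε`. `Λ` = limit along an ultrafilter, `μ` by
`RealRMK.rieszMeasure`; `μ` vanishes near points off the frontier; `|h| → 1` uniformly on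
`{0 < U ≤ 2 ε}` in a compact set, so `β_ε'(U) (1 - |h|²)` is negligible; Tietze for
`φ H conj h` on `closure Om`. -/

open Complex InnerProductSpace Set Filter Topology Metric MeasureTheory
open scoped Real ComplexConjugate ENNReal

namespace MW.PL

open MW.AN

/-- The cutoff of the positivity set. -/
noncomputable def grB (ε t : ℝ) : ℝ := Real.smoothTransition (t / ε - 1)

/-- The derivative of the cutoff. -/
noncomputable def grW (ε t : ℝ) : ℝ := deriv Real.smoothTransition (t / ε - 1) / ε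

theorem gr_st : ContDiff ℝ 1 Real.smoothTransition := Real.smoothTransition.contDiff (n := 1)

theorem grB_contDiff (ε : ℝ) : ContDiff ℝ 1 (grB ε) :=
  gr_st.comp ((contDiff_id.div_const ε).sub contDiff_const)

theorem grB_deriv (ε t : ℝ) : HasDerivAt (grB ε) (grW ε t) t := by
  have h1 : HasDerivAt (fun s : ℝ => s / ε - 1) (1 / ε) t :=
    ((hasDerivAt_id t).div_const ε).sub_const 1
  have h2 := (gr_st.differentiable one_ne_zero (t / ε - 1)).hasDerivAt.comp t h1
  rw [mul_one_div] at h2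
  exact h2

theorem grW_cont (ε : ℝ) : Continuous (grW ε) :=
  ((gr_st.continuous_deriv le_rfl).comp ((continuous_id.div_const ε).sub continuous_const)).div_const ε

variable {ε t : ℝ}

theorem grW_nonneg (hε : 0 < ε) (t : ℝ) : 0 ≤ grW ε t :=
  div_nonneg Real.smoothTransition.monotone.deriv_nonneg hε.le

theorem grB_lo (hε : 0 < ε) (ht : t < ε) : grB ε t = 0 :=
  Real.smoothTransition.zero_of_nonpos (by have := (div_lt_one hε).2 ht; linarith)

theorem grB_hi (hε : 0 < ε) (ht : 2 * ε < t) : grB ε t = 1 :=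
  Real.smoothTransition.one_of_one_le (by have := (lt_div_iff₀ hε).2 ht; linarith)

theorem grW_lo (hε : 0 < ε) (ht : t < ε) : grW ε t = 0 := by
  have : grB ε =ᶠ[𝓝 t] fun _ => 0 := by
    filter_upwards [Iio_mem_nhds ht] with s hs using grB_lo hε hs
  exact (grB_deriv ε t).unique ((hasDerivAt_const t 0).congr_of_eventuallyEq this)

theorem grW_hi (hε : 0 < ε) (ht : 2 * ε < t) : grW ε t = 0 := by
  have : grB ε =ᶠ[𝓝 t] fun _ => 1 := by
    filter_upwards [Ioi_mem_nhds ht] with s hs using grB_hi hε hs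
  exact (grB_deriv ε t).unique ((hasDerivAt_const t 1).congr_of_eventuallyEq this)

theorem grB_abs (ε t : ℝ) : |grB ε t| ≤ 1 := by
  rw [grB, abs_of_nonneg (Real.smoothTransition.nonneg _)]
  exact Real.smoothTransition.le_one _

variable {U : ℂ → ℝ} {h : ℂ → ℂ}

theorem gr_zero (hD : Data U h) {z : ℂ} (hz : z ∉ Om U) : U z = 0 :=
  le_antisymm (not_lt.1 hz) (hD.nonneg z)

theorem gr_near (hD : Data U h) (hε : 0 < ε) {z : ℂ} (hz : z ∉ Om U) : ∀ᶠ w in 𝓝 z, U w < ε :=
  hD.lip.continuous.continuousAt.eventually_lt_const (by rwa [gr_zero hD hz])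

theorem gr_mem (hD : Data U h) (hε : 0 < ε) {z : ℂ} (hz : grW ε (U z) ≠ 0) :
    z ∈ Om U ∧ U z ≤ 2 * ε :=
  ⟨by_contra fun hn => hz (grW_lo hε (by rwa [gr_zero hD hn])),
    not_lt.1 fun hn => hz (grW_hi hε hn)⟩

theorem gr_frontier {z : ℂ} (hz : z ∈ closure (Om U)) (h0 : z ∉ Om U) :
    z ∈ frontier (Om U) := ⟨hz, fun hi => h0 (interior_subset hi)⟩

/-- On a compact subset of the positivity set the weight vanishes for small `ε`. -/
theorem gr_away (hD : Data U h) {K : Set ℂ} (hK : IsCompact K) (hs : K ⊆ Om U) :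
    ∀ᶠ ε in 𝓝[>] (0 : ℝ), 0 < ε ∧ ∀ z ∈ K, grW ε (U z) = 0 := by
  obtain ⟨δ, hδ, h1⟩ := hK.exists_forall_le' hD.lip.continuous.continuousOn (a := 0) hs
  filter_upwards [Ioo_mem_nhdsGT (half_pos hδ)] with ε hε
  exact ⟨hε.1, fun z hz => grW_hi hε.1 (by linarith [h1 z hz, hε.2])⟩

theorem gr_cont (hD : Data U h) (hε : 0 < ε) {F : ℂ → ℂ} (hF : ContinuousOn F (Om U)) :
    Continuous fun z => (grW ε (U z) : ℂ) * F z := by
  refine continuous_iff_continuousAt.2 fun z => ?_
  by_cases hz : z ∈ Om U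
  · exact (continuous_ofReal.comp ((grW_cont ε).comp hD.lip.continuous)).continuousAt.mul
      (hF.continuousAt (hD.isOpen_Om.mem_nhds hz))
  · refine (continuousAt_const (y := (0 : ℂ))).congr ?_
    filter_upwards [gr_near hD hε hz] with w hw
    rw [grW_lo hε hw, ofReal_zero, zero_mul]

theorem gr_chain (hD : Data U h) (ε : ℝ) {z : ℂ} (hz : z ∈ Om U) :
    dbar (fun w => (grB ε (U w) : ℂ)) z = grW ε (U z) * (conj (h z) / 2) := by
  have h1 : HasFDerivAt U (fderiv ℝ U z) z :=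
    ((hD.U_contDiffOn.contDiffAt (hD.isOpen_Om.mem_nhds hz)).differentiableAt
      two_ne_zero).hasFDerivAt
  have h2 : HasFDerivAt (fun w => (grB ε (U w) : ℂ)) _ z :=
    ofRealCLM.hasFDerivAt.comp z ((grB_deriv ε (U z)).comp_hasFDerivAt z h1)
  rw [dbar, h2.fderiv]
  simp only [ContinuousLinearMap.comp_apply, smul_apply, hD.fderiv_U hz,
    ofRealCLM_apply, smul_eq_mul]
  apply Complex.ext <;> simp <;> ring

/-- The basic identity. -/
theorem gr_key (hD : Data U h) (hε : 0 < ε) {H φ : ℂ → ℂ} (hH : DifferentiableOn ℂ H (Om U))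
    (hc : HasCompactSupport φ) (hφ : ContDiffOn ℝ 1 φ (Om U)) :
    ∫ z, (grB ε (U z) : ℂ) * (H z * dbar φ z) =
      -(1 / 2) * ∫ z, (grW ε (U z) : ℂ) * (φ z * H z * conj (h z)) := by
  have hO := hD.isOpen_Om
  have hH1 : ContDiffOn ℝ 1 H (Om U) := (hH.contDiffOn hO).restrict_scalars ℝ
  have hB : ContDiffOn ℝ 1 (fun w => (grB ε (U w) : ℂ)) (Om U) :=
    ofRealCLM.contDiff.comp_contDiffOn
      ((grB_contDiff ε).comp_contDiffOn (hD.U_contDiffOn.of_le one_le_two))
  have h0 : ∀ z ∉ Om U, (fun w => (grB ε (U w) : ℂ) * (φ w * H w)) =ᶠ[𝓝 z] fun _ => 0 := by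
    intro z hz
    filter_upwards [gr_near hD hε hz] with w hw
    rw [grB_lo hε hw, ofReal_zero, zero_mul]
  have h1 : ContDiff ℝ 1 fun w => (grB ε (U w) : ℂ) * (φ w * H w) := by
    refine contDiff_iff_contDiffAt.2 fun z => ?_
    by_cases hz : z ∈ Om U
    · exact (hB.mul (hφ.mul hH1)).contDiffAt (hO.mem_nhds hz)
    · exact contDiffAt_const.congr_of_eventuallyEq (h0 z hz)
  have h2 : HasCompactSupport fun w => (grB ε (U w) : ℂ) * (φ w * H w) := hc.mul_right.mul_left
  have h3 : ∀ z, (grB ε (U z) : ℂ) * (H z * dbar φ z) =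
      dbar (fun w => (grB ε (U w) : ℂ) * (φ w * H w)) z -
        1 / 2 * ((grW ε (U z) : ℂ) * (φ z * H z * conj (h z))) := by
    intro z
    by_cases hz : z ∈ Om U
    · have d1 := (hB.contDiffAt (hO.mem_nhds hz)).differentiableAt one_ne_zero
      have d2 := (hφ.contDiffAt (hO.mem_nhds hz)).differentiableAt one_ne_zero
      have d3 := (hH1.contDiffAt (hO.mem_nhds hz)).differentiableAt one_ne_zero
      rw [dbar_mul (ψ := fun w => φ w * H w) d1 (d2.mul d3), dbar_mul d2 d3, gr_chain hD ε hz,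
        (dbar_of_hasDerivAt (hH.differentiableAt (hO.mem_nhds hz)).hasDerivAt).1]
      ring
    · rw [dbar_congr (h0 z hz), (dbar_of_hasDerivAt (hasDerivAt_const z (0 : ℂ))).1,
        gr_zero hD hz, grB_lo hε hε, grW_lo hε hε]
      simp
  have h4 : Integrable fun z => (grW ε (U z) : ℂ) * (φ z * H z * conj (h z)) :=
    (gr_cont hD hε ((hφ.continuousOn.mul hH.continuousOn).mul
      (continuous_conj.comp_continuousOn hD.h_diff.continuousOn))).integrable_of_hasCompactSupport
      hc.mul_right.mul_right.mul_left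
  simp only [h3]
  rw [integral_sub ((continuous_dbar h1).1.integrable_of_hasCompactSupport
    (hasCompactSupport_dbar h2).1) (h4.const_mul _), (integral_dbar_eq_zero h1 h2).1,
    integral_const_mul]
  ring

theorem gr_int (hD : Data U h) (ε : ℝ) {ζ : ℂ → ℝ} (hζ : Continuous ζ)
    (hc : HasCompactSupport ζ) : Integrable fun z => grW ε (U z) * ζ z :=
  (((grW_cont ε).comp hD.lip.continuous).mul hζ).integrable_of_hasCompactSupport hc.mul_left

/-- The uniform bound for a radial cutoff. -/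
theorem gr_bound_cut (hD : Data U h) {s : ℝ} (hs : 0 < s) : ∃ B : ℝ, ∀ᶠ ε in 𝓝[>] (0 : ℝ),
    ∫ z, grW ε (U z) * cut (‖z - 0‖ ^ 2 / s ^ 2) ≤ B := by
  have c1 := contDiff_radial (cut_contDiff.of_le one_le_two) 0 s
  have c2 := hasCompactSupport_radial (fun t => cut_eq_zero) 0 hs
  set χ : ℂ → ℂ := fun w => ((cut (‖w - 0‖ ^ 2 / s ^ 2) : ℝ) : ℂ) with hχ
  have c3 : Continuous fun w : ℂ => cut (‖w - 0‖ ^ 2 / s ^ 2) :=
    cut_contDiff.continuous.comp (by fun_prop)
  have c4 : HasCompactSupport fun w : ℂ => cut (‖w - 0‖ ^ 2 / s ^ 2) :=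
    c2.comp_left (g := Complex.re) zero_re
  have i1 : Integrable fun z => ‖dbar χ z‖ :=
    ((continuous_dbar c1).1.integrable_of_hasCompactSupport (hasCompactSupport_dbar c2).1).norm
  have k1 : IsClosed (closure (Om U) ∩ (fun z => ‖h z‖) ⁻¹' Iic (1 / 2)) :=
    hD.cont.norm.preimage_isClosed_of_isClosed isClosed_closure isClosed_Iic
  refine ⟨8 * ∫ z, ‖dbar χ z‖, ?_⟩
  filter_upwards [gr_away hD (c2.isCompact.inter_right k1) fun z hz => by_contra fun hn => by
    have h1 := hD.one z (gr_frontier hz.2.1 hn)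
    have h2 : ‖h z‖ ≤ 1 / 2 := hz.2.2
    linarith] with ε ⟨hε, h0⟩
  have e1 := gr_key hD hε hD.h_diff c2 c1.contDiffOn
  have e2 : ∀ z, (grW ε (U z) : ℂ) * (χ z * h z * conj (h z)) =
      ((grW ε (U z) * cut (‖z - 0‖ ^ 2 / s ^ 2) * ‖h z‖ ^ 2 : ℝ) : ℂ) := by
    intro z
    rw [mul_assoc (χ z), mul_conj', hχ]
    push_cast
    ring
  have i2 : Integrable fun z => grW ε (U z) * cut (‖z - 0‖ ^ 2 / s ^ 2) * ‖h z‖ ^ 2 := by
    have := ((gr_cont hD hε ((c1.continuous.continuousOn.mul hD.h_diff.continuousOn).mul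
      (continuous_conj.comp_continuousOn hD.h_diff.continuousOn))).integrable_of_hasCompactSupport
      (μ := volume) c2.mul_right.mul_right.mul_left).re
    refine this.congr (Eventually.of_forall fun z => ?_)
    exact (congrArg Complex.re (e2 z)).trans (ofReal_re _)
  have e3 : ‖∫ z, (grB ε (U z) : ℂ) * (h z * dbar χ z)‖ ≤ ∫ z, ‖dbar χ z‖ := by
    refine norm_integral_le_of_norm_le i1 (Eventually.of_forall fun z => ?_)
    rw [norm_mul, norm_mul, norm_real, Real.norm_eq_abs]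
    exact (mul_le_of_le_one_left (by positivity) (grB_abs _ _)).trans
      (mul_le_of_le_one_left (norm_nonneg _) (hD.le z))
  simp only [e2, integral_complex_ofReal] at e1
  rw [e1, norm_mul, norm_neg, norm_real, Real.norm_eq_abs] at e3
  have e4 : ∫ z, grW ε (U z) * cut (‖z - 0‖ ^ 2 / s ^ 2) ≤
      ∫ z, 4 * (grW ε (U z) * cut (‖z - 0‖ ^ 2 / s ^ 2) * ‖h z‖ ^ 2) := by
    refine integral_mono (gr_int hD ε c3 c4) (i2.const_mul 4) fun z => ?_
    have p1 := mul_nonneg (grW_nonneg hε (U z)) (cut_mem (‖z - 0‖ ^ 2 / s ^ 2)).1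
    rcases p1.eq_or_lt with p2 | p2
    · simp only [← p2, zero_mul, mul_zero, le_refl]
    have p3 : 1 / 2 < ‖h z‖ := by
      by_contra hn
      refine left_ne_zero_of_mul p2.ne' (h0 z ⟨subset_tsupport _ ?_,
        subset_closure (gr_mem hD hε (left_ne_zero_of_mul p2.ne')).1, not_lt.1 hn⟩)
      exact ofReal_ne_zero.2 (right_ne_zero_of_mul p2.ne')
    have p4 : 1 ≤ 4 * ‖h z‖ ^ 2 := by nlinarith
    simp only
    nlinarith
  rw [integral_const_mul] at e4
  have e5 : ‖(1 / 2 : ℂ)‖ = 1 / 2 := by simp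
  rw [e5] at e3
  linarith [le_abs_self (∫ z, grW ε (U z) * cut (‖z - 0‖ ^ 2 / s ^ 2) * ‖h z‖ ^ 2)]

theorem gr_bound (hD : Data U h) {ζ : ℂ → ℝ} (hζ : Continuous ζ) (hc : HasCompactSupport ζ) :
    ∃ B : ℝ, ∀ᶠ ε in 𝓝[>] (0 : ℝ), |∫ z, grW ε (U z) * ζ z| ≤ B := by
  obtain ⟨R, hR, h1⟩ := hc.isCompact.isBounded.subset_closedBall_lt 0 0
  obtain ⟨M, hM⟩ := hζ.bounded_above_of_compact_support hc
  have hM0 : 0 ≤ M := (norm_nonneg _).trans (hM 0)
  have hs : 0 < 2 * R := by linarith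
  obtain ⟨B, hB⟩ := gr_bound_cut hD hs
  have c3 : Continuous fun w : ℂ => cut (‖w - 0‖ ^ 2 / (2 * R) ^ 2) :=
    cut_contDiff.continuous.comp (by fun_prop)
  have c4 : HasCompactSupport fun w : ℂ => cut (‖w - 0‖ ^ 2 / (2 * R) ^ 2) :=
    (hasCompactSupport_radial (fun t => cut_eq_zero) 0 hs).comp_left (g := Complex.re) zero_re
  refine ⟨M * B, ?_⟩
  filter_upwards [hB, self_mem_nhdsWithin] with ε h2 hε
  refine le_trans ?_ (mul_le_mul_of_nonneg_left h2 hM0)
  rw [← integral_const_mul, ← Real.norm_eq_abs]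
  refine norm_integral_le_of_norm_le ((gr_int hD ε c3 c4).const_mul M)
    (Eventually.of_forall fun z => ?_)
  rw [norm_mul, Real.norm_of_nonneg (grW_nonneg hε _), mul_left_comm]
  refine mul_le_mul_of_nonneg_left ?_ (grW_nonneg hε _)
  by_cases hz : z ∈ tsupport ζ
  · have h3 : ‖z‖ ≤ R := mem_closedBall_zero_iff.1 (h1 hz)
    rw [cut_eq_one, mul_one]
    · exact hM z
    · rw [sub_zero, div_le_iff₀ (by positivity)]
      nlinarith [norm_nonneg z]
  · rw [image_eq_zero_of_notMem_tsupport hz, norm_zero]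
    exact mul_nonneg hM0 (cut_mem _).1

theorem gr_exists (hD : Data U h) : ∃ (μ : Measure ℂ) (l : Filter ℝ),
    IsFiniteMeasureOnCompacts μ ∧ l.NeBot ∧ l ≤ 𝓝[>] 0 ∧ ∀ ζ : ℂ → ℝ, Continuous ζ →
      HasCompactSupport ζ → Tendsto (fun ε => ∫ z, grW ε (U z) * ζ z) l (𝓝 (∫ z, ζ z ∂μ)) := by
  have hl : (Ultrafilter.of (𝓝[>] (0 : ℝ)) : Filter ℝ) ≤ 𝓝[>] 0 := Ultrafilter.of_le _
  have ex : ∀ ζ : CompactlySupportedContinuousMap ℂ ℝ, ∃ a : ℝ,
      Tendsto (fun ε => ∫ z, grW ε (U z) * ζ z) (Ultrafilter.of (𝓝[>] (0 : ℝ))) (𝓝 a) := by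
    intro ζ
    obtain ⟨B, hB⟩ := gr_bound hD (map_continuous ζ) ζ.hasCompactSupport
    obtain ⟨a, -, ha⟩ := (isCompact_Icc (a := -B) (b := B)).ultrafilter_le_nhds
      ((Ultrafilter.of (𝓝[>] (0 : ℝ))).map fun ε => ∫ z, grW ε (U z) * ζ z)
      (le_principal_iff.2 ((hB.filter_mono hl).mono fun ε hε => abs_le.1 hε))
    exact ⟨a, ha⟩
  choose Λ hΛ using ex
  have hi := fun (ε : ℝ) (ζ : CompactlySupportedContinuousMap ℂ ℝ) =>
    gr_int hD ε (map_continuous ζ) ζ.hasCompactSupport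
  let Λ₁ : CompactlySupportedContinuousMap ℂ ℝ →ₗ[ℝ] ℝ :=
    { toFun := Λ
      map_add' := fun f g => tendsto_nhds_unique (hΛ (f + g)) (((hΛ f).add (hΛ g)).congr fun ε => by
        rw [← integral_add (hi ε f) (hi ε g)]
        simp [mul_add])
      map_smul' := fun c f => tendsto_nhds_unique (hΛ (c • f)) (((hΛ f).const_mul c).congr fun ε => by
        rw [← integral_const_mul]
        simp [mul_left_comm]) }
  have hp : ∀ f, 0 ≤ f → 0 ≤ Λ₁ f := fun f hf => by
    refine ge_of_tendsto (hΛ f) ?_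
    filter_upwards [hl self_mem_nhdsWithin] with ε hε
    exact integral_nonneg fun z => mul_nonneg (grW_nonneg hε _) (hf z)
  refine ⟨RealRMK.rieszMeasure (PositiveLinearMap.mk₀ Λ₁ hp), _, inferInstance, inferInstance, hl,
    fun ζ h1 h2 => ?_⟩
  have := RealRMK.integral_rieszMeasure (PositiveLinearMap.mk₀ Λ₁ hp) ⟨⟨ζ, h1⟩, h2⟩
  exact this ▸ hΛ ⟨⟨ζ, h1⟩, h2⟩

section

variable {μ : Measure ℂ} [IsFiniteMeasureOnCompacts μ] {l : Filter ℝ}

theorem gr_complex (hD : Data U h) (H : ∀ ζ : ℂ → ℝ, Continuous ζ →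
      HasCompactSupport ζ → Tendsto (fun ε => ∫ z, grW ε (U z) * ζ z) l (𝓝 (∫ z, ζ z ∂μ)))
    {F : ℂ → ℂ} (hF : Continuous F) (hc : HasCompactSupport F) :
    Tendsto (fun ε => ∫ z, (grW ε (U z) : ℂ) * F z) l (𝓝 (∫ z, F z ∂μ)) := by
  have h1 := H _ (continuous_re.comp hF) (hc.comp_left zero_re)
  have h2 := H _ (continuous_im.comp hF) (hc.comp_left zero_im)
  have h3 := ((continuous_ofReal.tendsto _).comp h1).add
    (((continuous_ofReal.tendsto _).comp h2).mul_const I)
  have e := integral_re_add_im (hF.integrable_of_hasCompactSupport (μ := μ) hc)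
  refine e ▸ h3.congr fun ε => ?_
  have i1 : Integrable fun z => (grW ε (U z) : ℂ) * F z :=
    ((continuous_ofReal.comp ((grW_cont ε).comp hD.lip.continuous)).mul
      hF).integrable_of_hasCompactSupport hc.mul_left
  rw [← integral_re_add_im i1]
  simp

theorem gr_supp (hD : Data U h) [l.NeBot] (hl : l ≤ 𝓝[>] 0) (H : ∀ ζ : ℂ → ℝ, Continuous ζ →
      HasCompactSupport ζ → Tendsto (fun ε => ∫ z, grW ε (U z) * ζ z) l (𝓝 (∫ z, ζ z ∂μ))) :
    μ (frontier (Om U))ᶜ = 0 := by
  refine measure_null_of_locally_null _ fun a ha => ?_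
  obtain ⟨s, hs, h1⟩ := nhds_basis_closedBall.mem_iff.1
    (isClosed_frontier.isOpen_compl.mem_nhds ha)
  obtain ⟨f, f1, f0, fc, fm⟩ := exists_continuous_one_zero_of_isCompact
    (isCompact_closedBall a (s / 2)) (isOpen_ball (x := a) (ε := s)).isClosed_compl
    (disjoint_compl_right_iff_subset.2 (closedBall_subset_ball (half_lt_self hs)))
  have h2 : ∫ z, f z ∂μ = 0 := by
    refine tendsto_nhds_unique (H f f.continuous fc) (tendsto_const_nhds.congr' ?_)
    filter_upwards [hl (gr_away hD ((isCompact_closedBall a s).inter_right isClosed_closure)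
      fun z hz => by_contra fun hn => h1 hz.1 (gr_frontier hz.2 hn))] with ε ⟨hε, h0⟩
    refine (integral_eq_zero_of_ae (Eventually.of_forall fun z => ?_)).symm
    by_contra hn
    refine left_ne_zero_of_mul hn (h0 z ⟨ball_subset_closedBall ?_,
      subset_closure (gr_mem hD hε (left_ne_zero_of_mul hn)).1⟩)
    exact by_contra fun hb => right_ne_zero_of_mul hn (f0 hb)
  have h3 := (integral_eq_zero_iff_of_nonneg (fun z => (fm z).1)
    (f.continuous.integrable_of_hasCompactSupport fc)).1 h2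
  refine ⟨closedBall a (s / 2), mem_nhdsWithin_of_mem_nhds (closedBall_mem_nhds a (half_pos hs)),
    measure_mono_null (fun z hz => ?_) h3⟩
  simp only [mem_compl_iff, mem_ofPred_eq, f1 hz]
  simp

end

theorem gr_lim (hD : Data U h) {H φ : ℂ → ℂ} (hH : ContinuousOn H (closure (Om U)))
    (hc : HasCompactSupport φ) (hφ : ContDiffOn ℝ 1 φ (Om U)) {B : ℝ}
    (hB : ∀ z ∈ Om U, ‖fderiv ℝ φ z‖ ≤ B) :
    Tendsto (fun ε => ∫ z, (grB ε (U z) : ℂ) * (H z * dbar φ z)) (𝓝[>] 0)
      (𝓝 (∫ z in Om U, H z * dbar φ z)) := by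
  have hO := hD.isOpen_Om
  obtain ⟨M, hM⟩ := (hc.isCompact.inter_right isClosed_closure).exists_bound_of_continuousOn
    (hH.mono inter_subset_right)
  have c1 : ContinuousOn (fderiv ℝ φ) (Om U) := hφ.continuousOn_fderiv_of_isOpen hO le_rfl
  have c2 : ContinuousOn (dbar φ) (Om U) :=
    ((c1.clm_apply continuousOn_const).add
      (continuousOn_const.mul (c1.clm_apply continuousOn_const))).div_const 2
  have h1 : Tendsto (fun ε => ∫ z in Om U, (grB ε (U z) : ℂ) * (H z * dbar φ z)) (𝓝[>] 0)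
      (𝓝 (∫ z in Om U, H z * dbar φ z)) := by
    refine tendsto_integral_filter_of_dominated_convergence
      ((tsupport φ).indicator fun _ => M * B) (Eventually.of_forall fun ε => ?_)
      (Eventually.of_forall fun ε => ?_) ?_ ?_
    · exact ((continuous_ofReal.comp ((grB_contDiff ε).continuous.comp
        hD.lip.continuous)).continuousOn.mul ((hH.mono subset_closure).mul c2)).aestronglyMeasurable
        hO.measurableSet
    · filter_upwards [ae_restrict_mem hO.measurableSet] with z hz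
      rw [norm_mul, norm_mul, norm_real, Real.norm_eq_abs]
      refine (mul_le_of_le_one_left (by positivity) (grB_abs _ _)).trans ?_
      by_cases hs : z ∈ tsupport φ
      · have := hM z ⟨hs, subset_closure hz⟩
        rw [indicator_of_mem hs]
        exact mul_le_mul this ((norm_dbar_le φ z).1.trans (hB z hz)) (norm_nonneg _)
          ((norm_nonneg _).trans this)
      · rw [indicator_of_notMem hs, dbar_congr (ψ := fun _ => 0) (notMem_tsupport_iff_eventuallyEq.1 hs),
          (dbar_of_hasDerivAt (hasDerivAt_const z (0 : ℂ))).1, norm_zero, mul_zero]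
    · exact ((integrable_indicator_iff (isClosed_tsupport φ).measurableSet).2
        (integrableOn_const hc.isCompact.measure_lt_top.ne)).integrableOn
    · filter_upwards [ae_restrict_mem hO.measurableSet] with z hz
      refine tendsto_const_nhds.congr' ?_
      filter_upwards [Ioo_mem_nhdsGT (half_pos hz)] with ε hε
      rw [grB_hi hε.1 (by linarith [hε.2]), ofReal_one, one_mul]
  refine h1.congr' ?_
  filter_upwards [self_mem_nhdsWithin] with ε hε
  refine setIntegral_eq_integral_of_forall_compl_eq_zero fun z hz => ?_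
  rw [gr_zero hD hz, grB_lo hε hε, ofReal_zero, zero_mul]

theorem green : S_Green := by
  intro U h hD
  obtain ⟨μ, l, hμ, hne, hl, H0⟩ := gr_exists hD
  have hs := gr_supp hD hl H0
  refine ⟨μ, hμ, hs, fun H φ hH hHd hφ hc hφ1 ⟨B, hB⟩ => ?_⟩
  have c1 : ContinuousOn (fun z => φ z * H z * conj (h z)) (closure (Om U)) :=
    (hφ.continuousOn.mul hH).mul (continuous_conj.comp_continuousOn hD.cont)
  obtain ⟨G, hG⟩ := ContinuousMap.exists_restrict_eq isClosed_closure
    (⟨_, c1.domRestrict⟩ : C(closure (Om U), ℂ))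
  obtain ⟨f, f1, -, fc, -⟩ := exists_continuous_one_zero_of_isCompact hc.isCompact isClosed_empty
    (disjoint_empty _)
  have e : ∀ z ∈ closure (Om U), (f z : ℂ) * G z = φ z * H z * conj (h z) := by
    intro z hz
    have h1 : G z = φ z * H z * conj (h z) := congrArg (fun g => g ⟨z, hz⟩) hG
    rw [h1]
    by_cases h2 : z ∈ tsupport φ
    · rw [f1 h2]
      simp
    · rw [image_eq_zero_of_notMem_tsupport h2]
      simp
  have h1 := gr_complex hD H0 (F := fun z => (f z : ℂ) * G z)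
    ((continuous_ofReal.comp f.continuous).mul G.continuous)
    (fc.comp_left (g := fun x : ℝ => (x : ℂ)) ofReal_zero).mul_right
  have h2 : ∫ z, (f z : ℂ) * G z ∂μ = ∫ z, φ z * H z * conj (h z) ∂μ := by
    refine integral_congr_ae ?_
    filter_upwards [(hs : frontier (Om U) ∈ ae μ)] with z hz
    exact e z (frontier_subset_closure hz)
  rw [h2] at h1
  refine tendsto_nhds_unique ((gr_lim hD hH hc hφ1 hB).mono_left hl)
    ((h1.const_mul (-(1 / 2))).congr' ?_)
  filter_upwards [hl self_mem_nhdsWithin] with ε hε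
  rw [gr_key hD hε hHd hc hφ1]
  congr 1
  refine integral_congr_ae (Eventually.of_forall fun z => ?_)
  by_cases hz : grW ε (U z) = 0
  · simp only [hz, ofReal_zero, zero_mul]
  · simp only [e z (subset_closure (gr_mem hD hε hz).1)]

end MW.PL
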