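import Pool.Agent.P.MP_064970_gt.PL.Calc

/-! Row PL-Seq5: If `y k θ^{-k}` is unbounded, at a record index `K` all drops satisfy
`y i - y K ≤ (θ^{-(K-i)} - 1) y K`; the third hypothesis at `k + 1 = K - 2` gives
`y K ≤ y K / 2` when `θ` is close to `1`. Peaks: a record of `M j / q₁ ^ j`, then the maximum
of `M j / q₂ ^ j` after it. -/

open Complex InnerProductSpace Set Filter Topology Metric MeasureTheory
open scoped Real ComplexConjugate ENNReal

namespace MW.PL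

open MW.AN

namespace Seq5

theorem pow_sub_one_le {l : ℝ} (h1 : 1 ≤ l) (h2 : l ≤ 2) (j : ℕ) :
    l ^ j - 1 ≤ (l - 1) * 3 ^ j := by
  induction j with
  | zero => simp; linarith
  | succ j ih =>
    have h3 : (1 : ℝ) ≤ 3 ^ j := one_le_pow₀ (by norm_num)
    have h4 : 0 ≤ (l - 1) * 3 ^ j := mul_nonneg (by linarith) (by positivity)
    have h5 : l * (l ^ j - 1) ≤ l * ((l - 1) * 3 ^ j) :=
      mul_le_mul_of_nonneg_left ih (by linarith)
    have h6 : l * ((l - 1) * 3 ^ j) ≤ 2 * ((l - 1) * 3 ^ j) :=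
      mul_le_mul_of_nonneg_right h2 h4
    have h7 : (l - 1) * 1 ≤ (l - 1) * 3 ^ j := mul_le_mul_of_nonneg_left h3 (by linarith)
    rw [pow_succ, pow_succ]
    nlinarith

theorem sum43 (m : ℕ) : ∑ i ∈ Finset.range m, (4 : ℝ) ^ i * 3 ^ (m - i) ≤ 3 * 4 ^ m := by
  induction m with
  | zero => simp
  | succ m ih =>
    rw [Finset.sum_range_succ]
    have h : ∑ i ∈ Finset.range m, (4 : ℝ) ^ i * 3 ^ (m + 1 - i)
        = 3 * ∑ i ∈ Finset.range m, (4 : ℝ) ^ i * 3 ^ (m - i) := by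
      rw [Finset.mul_sum]
      refine Finset.sum_congr rfl fun i hi => ?_
      have hi' : i < m := Finset.mem_range.1 hi
      have : m + 1 - i = (m - i) + 1 := by omega
      rw [this, pow_succ]; ring
    rw [h]
    have : m + 1 - m = 1 := by omega
    rw [this, pow_succ (4 : ℝ) m]
    nlinarith

theorem sum_half (m : ℕ) : ∑ i ∈ Finset.range (m + 1), (1 / 2 : ℝ) ^ (m - i) ≤ 2 := by
  have h := Finset.sum_range_reflect (fun j => (1 / 2 : ℝ) ^ j) (m + 1)
  simp only [Nat.add_sub_cancel] at h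
  rw [h]
  exact sum_geometric_two_le (m + 1)

/-- If `y i ≤ l ^ (m - i) * A` for `i ≤ m`, the weighted sum is at most `2 A`. -/
theorem wsum_le {y : ℕ → ℝ} {l A : ℝ} (h0 : 0 ≤ l) (h2 : l ≤ 2) (hA : 0 ≤ A) (m : ℕ)
    (hy : ∀ i ≤ m, y i ≤ l ^ (m - i) * A) :
    ∑ i ∈ Finset.range (m + 1), y i / 4 ^ (m - i) ≤ 2 * A := by
  calc ∑ i ∈ Finset.range (m + 1), y i / 4 ^ (m - i)
      ≤ ∑ i ∈ Finset.range (m + 1), (1 / 2 : ℝ) ^ (m - i) * A := by
        refine Finset.sum_le_sum fun i hi => ?_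
        have hi' : i ≤ m := Nat.lt_succ_iff.1 (Finset.mem_range.1 hi)
        have h4 : (0 : ℝ) < 4 ^ (m - i) := by positivity
        rw [div_le_iff₀ h4]
        have h5 : l ^ (m - i) ≤ 2 ^ (m - i) := pow_le_pow_left₀ h0 h2 _
        have h6 : (1 / 2 : ℝ) ^ (m - i) * 4 ^ (m - i) = 2 ^ (m - i) := by
          rw [← mul_pow]; norm_num
        calc y i ≤ l ^ (m - i) * A := hy i hi'
          _ ≤ 2 ^ (m - i) * A := mul_le_mul_of_nonneg_right h5 hA
          _ = (1 / 2 : ℝ) ^ (m - i) * A * 4 ^ (m - i) := by rw [← h6]; ring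
    _ = (∑ i ∈ Finset.range (m + 1), (1 / 2 : ℝ) ^ (m - i)) * A := by rw [Finset.sum_mul]
    _ ≤ 2 * A := mul_le_mul_of_nonneg_right (sum_half m) hA

theorem decay (y φ σ : ℕ → ℝ) (C : ℝ) (hC : 0 ≤ C) (ha : Antitone y) (hy : ∀ k, 0 ≤ y k)
    (hσ : ∀ k, 0 ≤ σ k)
    (H1 : ∀ k, φ k * 4 ^ k ≤ C + C * ∑ i ∈ Finset.range k, 4 ^ i * (y (i + 2) - y (i + 3)))
    (H2 : ∀ k, σ k ^ 2 ≤ C * (1 / 4 ^ k + ∑ i ∈ Finset.range (k + 1), y i / 4 ^ (k - i)))
    (H3 : ∀ k, y (k + 1) ≤ C * (φ (k + 1) + σ (k + 1) * √(y k - y (k + 1)))) :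
    ∃ l D : ℝ, 1 < l ∧ l ≤ 2 ∧ 0 ≤ D ∧ ∀ k, y k * l ^ k ≤ D := by
  obtain ⟨η, hη0, hη1, hη⟩ : ∃ η : ℝ, 0 < η ∧ η ≤ 1 ∧ C * (13 * C + 27) * η ≤ 1 / 2 := by
    have hp : 0 ≤ C * (13 * C + 27) := by positivity
    refine ⟨1 / (2 * (C * (13 * C + 27) + 1)), by positivity, ?_, ?_⟩
    · rw [div_le_one (by positivity)]; linarith
    · rw [mul_one_div, div_le_iff₀ (by positivity)]; linarith
  set l : ℝ := 1 + η ^ 2 with hl
  have hη2 : η ^ 2 ≤ η := by nlinarith
  have hl1 : 1 < l := by have := pow_pos hη0 2; linarith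
  have hl2 : l ≤ 2 := by linarith
  refine ⟨l, 4 * y 0 + 4 / η, hl1, hl2, by have := hy 0; positivity, fun K => ?_⟩
  set D : ℝ := 4 * y 0 + 4 / η with hD
  have hDη : 4 / η ≤ D := by have := hy 0; linarith
  have h4η : 0 < 4 / η := by positivity
  induction K using Nat.strong_induction_on with
  | _ K ih =>
  by_contra hK
  push Not at hK
  have hK3 : 3 ≤ K := by
    by_contra h3
    have h1 : l ^ K ≤ l ^ 2 := pow_le_pow_right₀ hl1.le (by omega)
    have h2 : l ^ 2 ≤ 4 := by nlinarith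
    have h4 : y K ≤ y 0 := ha (Nat.zero_le K)
    have h5 : y K * l ^ K ≤ y 0 * 4 :=
      mul_le_mul h4 (h1.trans h2) (by positivity) (hy 0)
    linarith
  obtain ⟨n, rfl⟩ : ∃ n, K = n + 3 := ⟨K - 3, by omega⟩
  set A : ℝ := y (n + 3) with hA
  have hA0 : 0 ≤ A := hy _
  have hApos : 0 < A := by
    rcases hA0.lt_or_eq with h | h
    · exact h
    · rw [← h] at hK; linarith
  -- record property
  have hrec : ∀ i ≤ n + 3, y i ≤ l ^ (n + 3 - i) * A := by
    intro i hi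
    have hli : 0 < l ^ i := by positivity
    have h1 : y i * l ^ i ≤ A * l ^ (n + 3) := by
      rcases hi.lt_or_eq with h | h
      · exact (ih i h).trans hK.le
      · rw [h]
    have h2 : l ^ (n + 3) = l ^ (n + 3 - i) * l ^ i := by rw [← pow_add]; congr 1; omega
    rw [h2] at h1
    refine le_of_mul_le_mul_right ?_ hli
    linarith
  have hdrop : ∀ i ≤ n + 3, y i - A ≤ η ^ 2 * 3 ^ (n + 3 - i) * A := by
    intro i hi
    have h1 := hrec i hi
    have h2 := pow_sub_one_le hl1.le hl2 (n + 3 - i)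
    have h3 : l - 1 = η ^ 2 := by rw [hl]; ring
    rw [h3] at h2
    have h4 := mul_le_mul_of_nonneg_right h2 hA0
    linarith
  -- `4 ^ {-(n+1)} ≤ η A`
  have h4m : (0 : ℝ) < 4 ^ (n + 1) := by positivity
  have hsm : 1 / 4 ^ (n + 1) ≤ η * A := by
    have h1 : l ^ (n + 3) ≤ 2 ^ (n + 3) := pow_le_pow_left₀ (by linarith) hl2 _
    have h2 : (2 : ℝ) ^ (n + 1) ≤ 4 ^ (n + 1) := pow_le_pow_left₀ (by norm_num) (by norm_num) _
    have h3 : (2 : ℝ) ^ (n + 3) = 4 * 2 ^ (n + 1) := by ring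
    have h4 : A * l ^ (n + 3) ≤ A * (4 * 4 ^ (n + 1)) :=
      mul_le_mul_of_nonneg_left (by linarith) hA0
    have h5 : 4 / η ≤ A * (4 * 4 ^ (n + 1)) := by linarith
    rw [div_le_iff₀ hη0] at h5
    rw [div_le_iff₀ h4m]
    linarith
  -- the bound for `φ (n+1)`
  have hφ : φ (n + 1) ≤ 4 * C * η * A := by
    have h1 := H1 (n + 1)
    have h2 : ∑ i ∈ Finset.range (n + 1), 4 ^ i * (y (i + 2) - y (i + 3))
        ≤ ∑ i ∈ Finset.range (n + 1), (4 : ℝ) ^ i * 3 ^ (n + 1 - i) * (η ^ 2 * A) := by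
      refine Finset.sum_le_sum fun i hi => ?_
      have hi' : i < n + 1 := Finset.mem_range.1 hi
      have h3 := hdrop (i + 2) (by omega)
      have h4 : n + 3 - (i + 2) = n + 1 - i := by omega
      rw [h4] at h3
      have h5 : A ≤ y (i + 3) := ha (by omega)
      have h6 : (0 : ℝ) ≤ 4 ^ i := by positivity
      calc 4 ^ i * (y (i + 2) - y (i + 3)) ≤ 4 ^ i * (η ^ 2 * 3 ^ (n + 1 - i) * A) :=
            mul_le_mul_of_nonneg_left (by linarith) h6
        _ = _ := by ring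
    rw [← Finset.sum_mul] at h2
    have h3 := mul_le_mul_of_nonneg_right (sum43 (n + 1)) (by positivity : 0 ≤ η ^ 2 * A)
    have h4 : η ^ 2 * A ≤ η * A := mul_le_mul_of_nonneg_right hη2 hA0
    have h5 : 3 * 4 ^ (n + 1) * (η ^ 2 * A) ≤ 3 * 4 ^ (n + 1) * (η * A) :=
      mul_le_mul_of_nonneg_left h4 (by positivity)
    have h6 : 1 ≤ η * A * 4 ^ (n + 1) := by rwa [div_le_iff₀ h4m] at hsm
    have h7 : φ (n + 1) * 4 ^ (n + 1) ≤ 4 * C * η * A * 4 ^ (n + 1) := by
      have h8 := mul_le_mul_of_nonneg_left (h2.trans (h3.trans h5)) hC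
      have h9 := mul_le_mul_of_nonneg_left h6 hC
      nlinarith
    exact le_of_mul_le_mul_right h7 h4m
  -- the bound for `σ (n+1)`
  have hσ2 : σ (n + 1) ^ 2 ≤ 9 * C * A := by
    have h1 := H2 (n + 1)
    have h2 : ∑ i ∈ Finset.range (n + 1 + 1), y i / 4 ^ (n + 1 - i) ≤ 2 * (4 * A) := by
      refine wsum_le (l := l) (by linarith) hl2 (by positivity) (n + 1) fun i hi => ?_
      have h3 := hrec i (by omega)
      have h4 : n + 3 - i = (n + 1 - i) + 2 := by omega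
      rw [h4, pow_add] at h3
      have h5 : l ^ 2 ≤ 4 := by nlinarith
      have h6 : 0 ≤ l ^ (n + 1 - i) := by positivity
      have h7 : l ^ 2 * A ≤ 4 * A := mul_le_mul_of_nonneg_right h5 hA0
      have h8 := mul_le_mul_of_nonneg_left h7 h6
      linarith
    have h3 : η * A ≤ 1 * A := mul_le_mul_of_nonneg_right hη1 hA0
    have h4 := mul_le_mul_of_nonneg_left
      (show 1 / 4 ^ (n + 1) + ∑ i ∈ Finset.range (n + 1 + 1), y i / 4 ^ (n + 1 - i) ≤ 9 * A by
        linarith) hC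
    linarith
  have hx0 : 0 ≤ y n - y (n + 1) := sub_nonneg.2 (ha (Nat.le_succ n))
  have hAn : A ≤ y (n + 1) := ha (by omega)
  have hx : y n - y (n + 1) ≤ 27 * η ^ 2 * A := by
    have h1 := hdrop n (by omega)
    have h2 : n + 3 - n = 3 := by omega
    rw [h2] at h1
    linarith
  have hr : √(y n - y (n + 1)) ^ 2 = y n - y (n + 1) := Real.sq_sqrt hx0
  have hr0 : 0 ≤ √(y n - y (n + 1)) := Real.sqrt_nonneg _
  set r := √(y n - y (n + 1))
  have hσr : σ (n + 1) * r ≤ (9 * C + 27) * η * A := by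
    have h1 : η * (σ (n + 1) * r) ≤ η ^ 2 * σ (n + 1) ^ 2 + r ^ 2 := by
      have := mul_nonneg hη0.le (mul_nonneg (hσ (n + 1)) hr0)
      nlinarith [sq_nonneg (η * σ (n + 1) - r)]
    have h2 := mul_le_mul_of_nonneg_left hσ2 (sq_nonneg η)
    refine le_of_mul_le_mul_left ?_ hη0
    nlinarith
  have h1 := H3 n
  have h2 := mul_le_mul_of_nonneg_left (add_le_add hφ hσr) hC
  have h3 := mul_le_mul_of_nonneg_right hη hA0
  nlinarith

end Seq5

open Seq5 in
theorem seq5 : S_Seq5 := by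
  intro y φ σ C ha hy hσ H1 H2 H3
  have hC : 0 ≤ C := by
    have h := H2 0
    simp only [pow_zero, zero_add, Finset.range_one, Finset.sum_singleton, Nat.sub_self,
      div_one] at h
    have h1 := hy 0
    by_contra hc
    push Not at hc
    nlinarith [sq_nonneg (σ 0)]
  obtain ⟨l, D, hl1, hl2, hD, hb⟩ := decay y φ σ C hC ha hy hσ H1 H2 H3
  have hl0 : 0 < l := by linarith
  refine ⟨√(l⁻¹), √(C * (1 + 2 * D)), Real.sqrt_pos.2 (by positivity), ?_, fun k => ?_⟩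
  · rw [Real.sqrt_lt' one_pos, one_pow]
    exact inv_lt_one_of_one_lt₀ hl1
  · have hk : 0 < l ^ k := by positivity
    have h1 : ∑ i ∈ Finset.range (k + 1), y i / 4 ^ (k - i) ≤ 2 * (D / l ^ k) := by
      refine wsum_le hl0.le hl2 (by positivity) k fun i hi => ?_
      have h2 : l ^ k = l ^ (k - i) * l ^ i := by rw [← pow_add]; congr 1; omega
      have h3 : 0 < l ^ i := by positivity
      have h4 : 0 < l ^ (k - i) := by positivity
      have h5 : l ^ (k - i) * (D / l ^ k) = D / l ^ i := by rw [h2]; field_simp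
      rw [h5, le_div_iff₀ h3]
      exact hb i
    have h2 : (1 : ℝ) / 4 ^ k ≤ 1 / l ^ k :=
      one_div_le_one_div_of_le hk (pow_le_pow_left₀ hl0.le (by linarith) k)
    have h3 : σ k ^ 2 ≤ C * (1 + 2 * D) * l⁻¹ ^ k := by
      have h4 := mul_le_mul_of_nonneg_left (add_le_add h2 h1) hC
      have h5 : C * (1 / l ^ k + 2 * (D / l ^ k)) = C * (1 + 2 * D) * l⁻¹ ^ k := by
        rw [inv_pow]; field_simp
      linarith [H2 k]
    refine abs_le_of_sq_le_sq' ?_ (by positivity) |>.2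
    rw [mul_pow, Real.sq_sqrt (by positivity), ← pow_mul, mul_comm k 2, pow_mul,
      Real.sq_sqrt (by positivity)]
    exact h3

theorem peak : S_Peak := by
  intro M C q₀ q₁ q₂ hM h0 h02 h1 h12 hb hu T
  classical
  have h2 : 0 < q₂ := h0.trans h02
  -- a record of `M j / q₁ ^ j` beyond `T`
  set C' : ℝ := ∑ i ∈ Finset.range (T + 1), M i / q₁ ^ i with hC'
  have hC0 : 0 ≤ C' := Finset.sum_nonneg fun i _ => div_nonneg (hM i) (by positivity)
  have hex := hu C'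
  set T' := Nat.find hex with hT'
  have hT1 : C' * q₁ ^ T' < M T' := Nat.find_spec hex
  have hT2 : ∀ i < T', M i ≤ C' * q₁ ^ i := fun i hi => not_lt.1 (Nat.find_min hex hi)
  have hTT : T ≤ T' := by
    by_contra hc
    have h3 : M T' / q₁ ^ T' ≤ C' :=
      Finset.single_le_sum (f := fun i => M i / q₁ ^ i)
        (fun i _ => div_nonneg (hM i) (by positivity)) (Finset.mem_range.2 (by omega))
    rw [div_le_iff₀ (by positivity)] at h3
    linarith
  have hMT : 0 < M T' := lt_of_le_of_lt (by positivity) hT1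
  -- the maximum of `M j / q₂ ^ j` after the record
  have hlim : Tendsto (fun j : ℕ => C * (q₀ / q₂) ^ j) atTop (𝓝 0) := by
    have := (tendsto_pow_atTop_nhds_zero_of_lt_one (r := q₀ / q₂) (by positivity)
      ((div_lt_one h2).2 h02)).const_mul C
    simpa using this
  have hpos : 0 < M T' / q₂ ^ T' := by positivity
  obtain ⟨N, hN⟩ := eventually_atTop.1 (hlim.eventually (gt_mem_nhds hpos))
  obtain ⟨k, hk, hmax⟩ := Finset.exists_max_image (Finset.Icc T' (T' + N))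
    (fun j => M j / q₂ ^ j) ⟨T', by simp⟩
  have hk1 : T' ≤ k := (Finset.mem_Icc.1 hk).1
  have hTk : M T' / q₂ ^ T' ≤ M k / q₂ ^ k := hmax T' (by simp)
  have hall : ∀ j, T' ≤ j → M j / q₂ ^ j ≤ M k / q₂ ^ k := by
    intro j hj
    by_cases hj2 : j ≤ T' + N
    · exact hmax j (Finset.mem_Icc.2 ⟨hj, hj2⟩)
    · have h3 := hN j (by omega)
      have h4 : M j / q₂ ^ j ≤ C * (q₀ / q₂) ^ j := by
        rw [div_pow, ← mul_div_assoc]
        exact div_le_div_of_nonneg_right (hb j) (by positivity)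
      linarith
  have hMk : 0 < M k := by
    have h3 : 0 < M k / q₂ ^ k := lt_of_lt_of_le hpos hTk
    exact (div_pos_iff_of_pos_right (by positivity)).1 h3
  have hback : ∀ i, T' ≤ i → i ≤ k → M i * q₁ ^ (k - i) ≤ M k := by
    intro i hi hik
    have h3 := hall i hi
    have h4 : q₂ ^ k = q₂ ^ (k - i) * q₂ ^ i := by rw [← pow_add]; congr 1; omega
    rw [div_le_div_iff₀ (by positivity) (by positivity), h4, ← mul_assoc] at h3
    have h5 : M i * q₂ ^ (k - i) ≤ M k := le_of_mul_le_mul_right h3 (by positivity)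
    exact (mul_le_mul_of_nonneg_left (pow_le_pow_left₀ h1.le h12 _) (hM i)).trans h5
  refine ⟨k, hTT.trans hk1, hMk, fun j => ?_, fun j hj => ?_⟩
  · have h3 := hall (k + j) (by omega)
    rw [div_le_div_iff₀ (by positivity) (by positivity), pow_add] at h3
    refine le_of_mul_le_mul_right (a := q₂ ^ k) ?_ (by positivity)
    linarith
  · by_cases hc : T' ≤ k - j
    · have h3 := hback (k - j) hc (by omega)
      rwa [show k - (k - j) = j by omega] at h3
    · have h3 := hT2 (k - j) (by omega)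
      have h4 := hback T' le_rfl hk1
      have h5 : q₁ ^ (k - j) * q₁ ^ j = q₁ ^ T' * q₁ ^ (k - T') := by
        rw [← pow_add, ← pow_add]; congr 1; omega
      calc M (k - j) * q₁ ^ j ≤ C' * q₁ ^ (k - j) * q₁ ^ j :=
            mul_le_mul_of_nonneg_right h3 (by positivity)
        _ = C' * q₁ ^ T' * q₁ ^ (k - T') := by rw [mul_assoc, h5, mul_assoc]
        _ ≤ M T' * q₁ ^ (k - T') := mul_le_mul_of_nonneg_right hT1.le (by positivity)
        _ ≤ M k := h4

theorem p5_of (h₁ : S_Weiss) (h₂ : S_Tail) (h₃ : S_Sig) : S_P5 := by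
  intro U h μ hI
  obtain ⟨C, y, hC, hW⟩ := h₁ U h μ hI
  obtain ⟨C', r₀, hC', hr₀, hT⟩ := h₂ U h μ C y hI hC hW
  obtain ⟨C'', hS⟩ := h₃ U h μ C y C' r₀ hI hC hW hC' hr₀ hT
  have hD : Data U h := hI.toData
  have hp : ∀ k : ℕ, (0 : ℝ) < 2 ^ k := fun k => by positivity
  have ha : Antitone fun k : ℕ => y (2 ^ k) := fun i j hij =>
    hW.anti (hp i) (hp j) (pow_le_pow_right₀ (by norm_num) hij)
  have hy : ∀ k : ℕ, 0 ≤ y (2 ^ k) := fun k => hW.nonneg _ (hp k)
  have hM : ∀ k : ℕ, 0 ≤ Mx U (2 ^ k) := fun k => (hD.Mx_mono (hp k).le le_rfl).1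
  have habs := abs_nonneg C''
  obtain ⟨θ, D, hθ0, hθ1, hb⟩ := seq5 (fun k => y (2 ^ k)) (fun k => Ar U 0 (2 ^ k) / 4 ^ k)
    (fun k => Mx U (2 ^ k) / 2 ^ k) (C' + |C''| + 4 * C) ha hy
    (fun k => div_nonneg (hM k) (hp k).le)
    (fun k => by
      have h1 := hT.area k
      have h2 : 0 ≤ ∑ i ∈ Finset.range k, 4 ^ i * (y (2 ^ (i + 2)) - y (2 ^ (i + 3))) :=
        Finset.sum_nonneg fun i _ => mul_nonneg (by positivity)
          (sub_nonneg.2 (ha (show i + 2 ≤ i + 3 by omega)))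
      rw [div_mul_cancel₀ _ (by positivity : (4 : ℝ) ^ k ≠ 0)]
      have h3 := mul_nonneg (show 0 ≤ |C''| + 4 * C by positivity) h2
      nlinarith)
    (fun k => by
      have h1 := hS k
      have h2 : 0 ≤ 1 / 4 ^ k + ∑ i ∈ Finset.range (k + 1), y (2 ^ i) / 4 ^ (k - i) :=
        add_nonneg (by positivity)
          (Finset.sum_nonneg fun i _ => div_nonneg (hy i) (by positivity))
      refine h1.trans (mul_le_mul_of_nonneg_right ?_ h2)
      linarith [le_abs_self C''])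
    (fun k => by
      have h1 := hW.small (2 ^ k) (hp k) _ (hD.bd_Mx (2 * 2 ^ k))
      have h2 : (2 : ℝ) * 2 ^ k = 2 ^ (k + 1) := by ring
      rw [h2] at h1
      have h3 : Ar U 0 (2 ^ (k + 1)) / (2 ^ k) ^ 2 = 4 * (Ar U 0 (2 ^ (k + 1)) / 4 ^ (k + 1)) := by
        have : ((2 : ℝ) ^ k) ^ 2 = 4 ^ k := by
          rw [← pow_mul, mul_comm, pow_mul]; norm_num
        rw [this, pow_succ (4 : ℝ) k]; field_simp
      have h4 : Mx U (2 ^ (k + 1)) / 2 ^ k = 2 * (Mx U (2 ^ (k + 1)) / 2 ^ (k + 1)) := by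
        rw [pow_succ (2 : ℝ) k]; field_simp
      rw [h3, h4] at h1
      have h5 : 0 ≤ Ar U 0 (2 ^ (k + 1)) / 4 ^ (k + 1) :=
        div_nonneg (Ar_nonneg _ _ _) (by positivity)
      have h6 : 0 ≤ Mx U (2 ^ (k + 1)) / 2 ^ (k + 1) * √(y (2 ^ k) - y (2 ^ (k + 1))) :=
        mul_nonneg (div_nonneg (hM _) (hp _).le) (Real.sqrt_nonneg _)
      have h7 := mul_nonneg (show 0 ≤ C' + |C''| by positivity) (add_nonneg h5 h6)
      have h8 := mul_nonneg hC.le h6
      nlinarith)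
  refine ⟨2 * θ, D, by positivity, by linarith, fun k => ?_⟩
  have h1 := hb k
  rw [div_le_iff₀ (hp k)] at h1
  rw [mul_pow]
  linarith

end MW.PL
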