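import Pool.Agent.P.MP_064970_gt.AN.Bas

/-!
# Meeks–Wolf, the planar theorem `PL`: definitions and statements

`U ≥ 0` is harmonic on `Om U = {U > 0}`, `|∇U| = 1` on the frontier, `U = o(|z|)`.
-/

open Complex InnerProductSpace Set Filter Topology Metric MeasureTheory
open scoped Real ComplexConjugate ENNReal

noncomputable section

namespace MW.PL

open MW.AN

/-- `∂φ/∂z̄`. -/
def dbar (φ : ℂ → ℂ) (z : ℂ) : ℂ := (fderiv ℝ φ z 1 + I * fderiv ℝ φ z I) / 2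

/-- `∂φ/∂z`. -/
def del (φ : ℂ → ℂ) (z : ℂ) : ℂ := (fderiv ℝ φ z 1 - I * fderiv ℝ φ z I) / 2

/-- The positivity set. -/
def Om (U : ℂ → ℝ) : Set ℂ := {z | 0 < U z}

/-- The zero set. -/
def Fz (U : ℂ → ℝ) : Set ℂ := {z | U z = 0}

/-- Area of the zero set in a disc. -/
def Ar (U : ℂ → ℝ) (c : ℂ) (r : ℝ) : ℝ := volume.real (Fz U ∩ ball c r)

/-- `U ≤ B` on the closed disc. -/
def Bd (U : ℂ → ℝ) (c : ℂ) (r B : ℝ) : Prop := ∀ z ∈ closedBall c r, U z ≤ B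

/-- Defect of homogeneity of degree one. -/
def Dil (U : ℂ → ℝ) (h : ℂ → ℂ) (z : ℂ) : ℝ := (h z * z).re - U z

/-- `1 / |w - z|`. -/
def k1 (z w : ℂ) : ℝ≥0∞ := ENNReal.ofReal ‖w - z‖⁻¹

/-- `1 / |w - z|²`. -/
def k2 (z w : ℂ) : ℝ≥0∞ := ENNReal.ofReal (‖w - z‖⁻¹ ^ 2)

/-- A smooth cutoff: `1` on `(-∞, 1/4]`, `0` on `[1, ∞)`. -/
def cut (t : ℝ) : ℝ := Real.smoothTransition ((4 - 4 * t) / 3)

/-- The data of the planar theorem. -/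
structure Data (U : ℂ → ℝ) (h : ℂ → ℂ) : Prop where
  lip : LipschitzWith 1 U
  nonneg : ∀ z, 0 ≤ U z
  harm : ∀ z, 0 < U z → HarmonicAt U z
  hD : ∀ z, 0 < U z → h z = D U z
  meas : Measurable h
  le : ∀ z, ‖h z‖ ≤ 1
  zero : ∀ z, z ∉ closure (Om U) → h z = 0
  cont : ContinuousOn h (closure (Om U))
  one : ∀ z ∈ frontier (Om U), ‖h z‖ = 1
  null : volume (frontier (Om U)) = 0
  ne : (frontier (Om U)).Nonempty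
  sub : ∀ ε > 0, ∃ R : ℝ, ∀ z : ℂ, R ≤ ‖z‖ → U z ≤ ε * ‖z‖
  g1 : ∃ C r₀ : ℝ, 0 < r₀ ∧ ∀ r, r₀ ≤ r →
    volume.real (Fz U ∩ {z | r ≤ ‖z‖ ∧ ‖z‖ ≤ 2 * r})
      ≤ C * ∫ z in Om U ∩ {z | r / 2 ≤ ‖z‖ ∧ ‖z‖ ≤ 4 * r}, Dil U h z ^ 2 / ‖z‖ ^ 2

/-- The conclusion of the planar theorem. -/
def Concl (U : ℂ → ℝ) (h : ℂ → ℂ) : Prop :=
  ∃ (z₀ : ℂ) (R : ℝ), 0 < R ∧ (∀ z, ‖z - z₀‖ ≤ R → U z = 0) ∧
    ∀ z, R ≤ ‖z - z₀‖ → U z = R * Real.log (‖z - z₀‖ / R) ∧ h z = R / (z - z₀)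

/-- The boundary measure `μ = ΔU` and Green's formula on `Om U`. -/
structure Mu (U : ℂ → ℝ) (h : ℂ → ℂ) (μ : Measure ℂ) : Prop where
  fin : IsFiniteMeasureOnCompacts μ
  supp : μ (frontier (Om U))ᶜ = 0
  green : ∀ H φ : ℂ → ℂ, ContinuousOn H (closure (Om U)) → DifferentiableOn ℂ H (Om U) →
    Continuous φ → HasCompactSupport φ → ContDiffOn ℝ 1 φ (Om U) →
    (∃ B : ℝ, ∀ z ∈ Om U, ‖fderiv ℝ φ z‖ ≤ B) →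
    ∫ z in Om U, H z * dbar φ z = -(1 / 2) * ∫ z, φ z * H z * conj (h z) ∂μ

/-- The identities used in the proof. -/
structure Ids (U : ℂ → ℝ) (h : ℂ → ℂ) (μ : Measure ℂ) : Prop extends Data U h where
  fin : IsFiniteMeasureOnCompacts μ
  supp : μ (frontier (Om U))ᶜ = 0
  c : ∀ φ : ℂ → ℂ, ContDiff ℝ 1 φ → HasCompactSupport φ →
    ∫ z in Fz U, dbar φ z = (1 / 2) * ∫ z, φ z * conj (h z) ∂μ
  m : ∀ φ : ℂ → ℂ, ContDiff ℝ 1 φ → HasCompactSupport φ →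
    ∫ z, h z * dbar φ z = -(1 / 2) * ∫ z, φ z ∂μ
  a : ∀ φ : ℂ → ℂ, ContDiff ℝ 1 φ → HasCompactSupport φ →
    (∫ z in Fz U, del φ z) + ∫ z, h z ^ 2 * dbar φ z = 0
  b : ∀ φ : ℂ → ℂ, ContDiff ℝ 1 φ → HasCompactSupport φ →
    ∫ z, φ z * ((‖h z‖ ^ 2 : ℝ) : ℂ) = -2 * ∫ z, (U z : ℂ) * h z * dbar φ z
  p1 : ∀ φ : ℂ → ℂ, ContDiff ℝ 1 φ → HasCompactSupport φ →
    ∫ z, (U z : ℂ) * dbar φ z = -(1 / 2) * ∫ z, φ z * conj (h z)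
  p2 : ∀ φ : ℂ → ℂ, ContDiff ℝ 1 φ → HasCompactSupport φ →
    ∫ z, (U z : ℂ) ^ 2 * dbar φ z = -∫ z, φ z * U z * conj (h z)

/-- Existence of `μ`. -/
def S_Green : Prop := ∀ U h, Data U h → ∃ μ, Mu U h μ

def S_Ids : Prop := ∀ U h μ, Data U h → Mu U h μ → Ids U h μ

/-- Consequences of the formula for the derivative of the radial means. -/
structure MeanC (C : ℝ) (U : ℂ → ℝ) (h : ℂ → ℂ) (μ : Measure ℂ) : Prop where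
  noat : ∀ (a : ℂ) (ρ s B : ℝ), 0 < ρ → ρ < s → Bd U a (2 * s) B →
    μ.real (ball a ρ) * Real.log (s / ρ) ≤ C * B
  sub : ∀ (a : ℂ) (s : ℝ), 0 < s → U a ≤ C / s ^ 2 * ∫ z in ball a s, U z
  trans : ∀ (a b : ℂ) (s R B : ℝ), 0 < s → ‖a‖ + s ≤ R → ‖b‖ + s ≤ R → Bd U b s B →
    U a ≤ B + C * ‖a - b‖ / s ^ 2 * ∫ z in ball 0 R, ‖h z‖
  up : ∀ (a : ℂ) (s₁ s₂ s₃ B : ℝ), 0 < s₁ → s₁ ≤ s₂ → s₂ ≤ s₃ → 4 * ‖a‖ ≤ s₃ → Bd U 0 s₁ B →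
    U a ≤ C * (B + μ.real (ball 0 s₂) * Real.log (s₂ / s₁)
      + μ.real (ball 0 s₃) * Real.log (s₃ / s₂))
  supp : ∀ z ∈ frontier (Om U), ∀ s > 0, 0 < μ.real (ball z s)

def S_Mean : Prop := ∃ C : ℝ, 0 < C ∧ ∀ U h μ, Ids U h μ → MeanC C U h μ

/-- Caccioppoli inequality. -/
def S_Cacc : Prop := ∃ C : ℝ, 0 < C ∧ ∀ U h μ, Ids U h μ → ∀ (a : ℂ) (s B : ℝ), 0 < s →
  Bd U a (2 * s) B → ∫ z in ball a s, ‖h z‖ ^ 2 ≤ C * B ^ 2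

/-- The zero set has density zero at infinity. -/
def S_Dens : Prop := ∀ U h μ, Ids U h μ → ∀ ε > 0, ∃ r₀ : ℝ, 0 < r₀ ∧ ∀ r, r₀ ≤ r →
  Ar U 0 r ≤ ε * r ^ 2

/-- Cauchy–Pompeiu for the indicator of the zero set. -/
def S_Rep1 : Prop := ∃ C : ℝ, 0 < C ∧ ∀ U h μ, Ids U h μ → ∀ w ∈ interior (Fz U), ∀ T > 0,
  (1 : ℝ≥0∞) ≤ (∫⁻ z in ball w T, k1 w z ∂μ) + ENNReal.ofReal (C * Ar U w T / T ^ 2)

/-- `2 π h = ∫ dμ / (z - w)`. -/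
def S_RepH : Prop := ∀ U h μ, Ids U h μ → ∀ z ∈ Om U, ∀ B : Set ℂ, MeasurableSet B →
  Bornology.IsBounded B →
  ‖2 * π * h z - ∫ w in B, (z - w)⁻¹ ∂μ‖ₑ ≤ ∫⁻ w in Bᶜ, k1 z w ∂μ

/-- `π h² = ∫_F dA / (w - z)²`. -/
def S_RepH2 : Prop := ∀ U h μ, Ids U h μ → ∀ z ∈ Om U, ∀ B : Set ℂ, MeasurableSet B →
  Bornology.IsBounded B →
  ‖π * h z ^ 2 - ∫ w in Fz U ∩ B, (w - z)⁻¹ ^ 2‖ₑ ≤ ∫⁻ w in Fz U \ B, k2 z w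

/-- Local isoperimetric inequalities. -/
structure LIC (c₀ C : ℝ) (U : ℂ → ℝ) (μ : Measure ℂ) : Prop where
  gen : ∀ (A N : Set ℂ) (T B : ℝ), MeasurableSet A → A ⊆ Fz U → MeasurableSet N →
    Bornology.IsBounded N → 0 < T → 0 ≤ B → (∀ w ∈ A, ball w T ⊆ N) →
    (∀ w ∈ A, Ar U w T ≤ c₀ * T ^ 2) → (∀ ζ ∈ N, volume.real (A ∩ ball ζ T) ≤ B ^ 2) →
    volume.real A ≤ C * B * μ.real N
  sq : ∀ (A N : Set ℂ) (T : ℝ), MeasurableSet A → A ⊆ Fz U → MeasurableSet N →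
    Bornology.IsBounded N → 0 < T → (∀ w ∈ A, ball w T ⊆ N) →
    (∀ w ∈ A, Ar U w T ≤ c₀ * T ^ 2) → volume.real A ≤ C * μ.real N ^ 2
  disc : ∀ (z : ℂ) (s : ℝ), 0 < s → Ar U z (2 * s) ≤ c₀ * s ^ 2 →
    Ar U z s ≤ C * μ.real (ball z (2 * s)) ^ 2

def S_LI : Prop := ∃ c₀ C : ℝ, 0 < c₀ ∧ 0 < C ∧ ∀ U h μ, Ids U h μ → LIC c₀ C U μ

/-- The singular integral of the zero set is small off a small set. -/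
def S_Key : Prop := ∀ δ η' K : ℝ, 0 < δ → 0 < η' → 0 < K → ∃ η : ℝ, 0 < η ∧
  ∀ U h μ, Ids U h μ → ∀ (c : ℂ) (r σ : ℝ), 0 < r → 0 < σ → σ ≤ 1 →
    μ.real (ball c (2 * r)) ≤ K * σ * r → Ar U c (2 * r) ≤ η * σ ^ 2 * r ^ 2 →
    ∃ Bad : Set ℂ, MeasurableSet Bad ∧ volume Bad ≤ ENNReal.ofReal (δ * r ^ 2) ∧
      ∀ z ∈ ball c r \ Bad, ∫⁻ w in Fz U ∩ ball z (r / 4), k2 z w ≤ ENNReal.ofReal (η' * σ ^ 2)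

/-- If the zero set is small against `σ²`, the gradient is small against `σ` in the mean. -/
def S_Grad : Prop := ∀ ε K : ℝ, 0 < ε → 0 < K → ∃ η : ℝ, 0 < η ∧
  ∀ U h μ, Ids U h μ → ∀ r σ : ℝ, 0 < r → 0 < σ → σ ≤ 1 → Bd U 0 (8 * r) (K * σ * r) →
    Ar U 0 (2 * r) ≤ η * σ ^ 2 * r ^ 2 →
    ∫⁻ w in Fz U \ ball 0 (2 * r), k2 0 w ≤ ENNReal.ofReal (η * σ ^ 2) →
    ∫ z in ball 0 r, ‖h z‖ ≤ ε * σ * r ^ 2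

/-- What is used of the Weiss energy `y`. -/
structure IsW (C : ℝ) (U : ℂ → ℝ) (h : ℂ → ℂ) (y : ℝ → ℝ) : Prop where
  anti : AntitoneOn y (Ioi 0)
  nonneg : ∀ r > 0, 0 ≤ y r
  drop : ∀ ρ > 0, ∫ z in ball 0 ρ, Dil U h z ^ 2 ≤ C * ρ ^ 4 * (y ρ - y (2 * ρ))
  small : ∀ r > 0, ∀ B : ℝ, Bd U 0 (2 * r) B →
    y (2 * r) ≤ C * (Ar U 0 (2 * r) / r ^ 2 + B / r * √(y r - y (2 * r)))

def S_Weiss : Prop := ∀ U h μ, Ids U h μ → ∃ C y, 0 < C ∧ IsW C U h y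

/-- `G1` in terms of the Weiss energy. -/
structure IsT (C r₀ : ℝ) (U : ℂ → ℝ) (y : ℝ → ℝ) : Prop where
  tail : ∀ ρ, r₀ ≤ ρ → ∫⁻ w in Fz U \ ball 0 ρ, k2 0 w ≤ ENNReal.ofReal (C * y ρ)
  area : ∀ k : ℕ, Ar U 0 (2 ^ k)
    ≤ C + C * ∑ i ∈ Finset.range k, 4 ^ i * (y (2 ^ (i + 2)) - y (2 ^ (i + 3)))

def S_Tail : Prop := ∀ U h μ C y, Ids U h μ → 0 < C → IsW C U h y →
  ∃ C' r₀ : ℝ, 0 < C' ∧ 0 < r₀ ∧ IsT C' r₀ U y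

/-- The maximum of `U` on the closed disc of radius `r`. -/
def Mx (U : ℂ → ℝ) (r : ℝ) : ℝ := sSup (U '' closedBall 0 r)

/-- The slope is controlled by the Weiss energy. -/
def S_Sig : Prop := ∀ U h μ C y C' r₀, Ids U h μ → 0 < C → IsW C U h y → 0 < C' → 0 < r₀ →
  IsT C' r₀ U y → ∃ C'' : ℝ, ∀ k : ℕ, (Mx U (2 ^ k) / 2 ^ k) ^ 2
    ≤ C'' * (1 / 4 ^ k + ∑ i ∈ Finset.range (k + 1), y (2 ^ i) / 4 ^ (k - i))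

/-- The record argument. -/
def S_Seq5 : Prop := ∀ (y φ σ : ℕ → ℝ) (C : ℝ), Antitone y → (∀ k, 0 ≤ y k) → (∀ k, 0 ≤ σ k) →
  (∀ k, φ k * 4 ^ k ≤ C + C * ∑ i ∈ Finset.range k, 4 ^ i * (y (i + 2) - y (i + 3))) →
  (∀ k, σ k ^ 2 ≤ C * (1 / 4 ^ k + ∑ i ∈ Finset.range (k + 1), y i / 4 ^ (k - i))) →
  (∀ k, y (k + 1) ≤ C * (φ (k + 1) + σ (k + 1) * √(y k - y (k + 1)))) →
  ∃ θ C' : ℝ, 0 < θ ∧ θ < 1 ∧ ∀ k, σ k ≤ C' * θ ^ k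

/-- Order less than one. -/
def S_P5 : Prop := ∀ U h μ, Ids U h μ →
  ∃ q C : ℝ, 0 < q ∧ q < 2 ∧ ∀ k : ℕ, Mx U (2 ^ k) ≤ C * q ^ k

/-- Pólya peaks. -/
def S_Peak : Prop := ∀ (M : ℕ → ℝ) (C q₀ q₁ q₂ : ℝ), (∀ k, 0 ≤ M k) → 0 < q₀ → q₀ < q₂ →
  0 < q₁ → q₁ ≤ q₂ → (∀ k, M k ≤ C * q₀ ^ k) → (∀ C', ∃ k, C' * q₁ ^ k < M k) →
  ∀ T : ℕ, ∃ k, T ≤ k ∧ 0 < M k ∧ (∀ j, M (k + j) ≤ M k * q₂ ^ j) ∧
    ∀ j ≤ k, M (k - j) * q₁ ^ j ≤ M k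

/-- Order zero. -/
def Ord0 (U : ℂ → ℝ) : Prop := ∀ q : ℝ, 1 < q → ∃ C : ℝ, ∀ k : ℕ, Mx U (2 ^ k) ≤ C * q ^ k

def S_P6 : Prop := ∀ U h μ, Ids U h μ → Ord0 U

/-- The virial bound, from both representations at one good point. -/
def S_Vir : Prop := ∀ ε' : ℝ, 0 < ε' → ∃ ε γ : ℝ, 0 < ε ∧ 0 < γ ∧
  ∀ U h μ, Ids U h μ → ∃ r₀ : ℝ, 0 < r₀ ∧ ∀ r, r₀ ≤ r →
    (∀ s, r ≤ s → μ.real (ball 0 s) ≤ (1 + ε) * μ.real (ball 0 r) * (s / r) ^ γ) →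
    (1 - ε') * μ.real (ball 0 r) ^ 2 / (4 * π) ≤ Ar U 0 (2 * r)

/-- The isoperimetric inequality with the sharp constant, localised at scale `T`. -/
def S_Iso : Prop := ∃ C : ℝ, 0 < C ∧ ∀ U h μ, Ids U h μ → ∀ R T Q : ℝ, 0 < T → T ≤ R →
  (∀ w ∈ ball (0 : ℂ) (2 * R), μ.real (ball w T) ≤ Q) →
  Ar U 0 R ≤ Q * μ.real (ball 0 (2 * R)) / (4 * π)
    + C * (Ar U 0 (3 * R) ^ 2 / T ^ 2 + μ.real (ball 0 (3 * R)) * Ar U 0 (3 * R) / T)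

/-- The isoperimetric identity. -/
def S_IsoEq : Prop := ∀ U h μ, Ids U h μ → μ univ < ∞ → volume (Fz U) < ∞ →
  4 * π * volume.real (Fz U)
    = -∫ z, ∫ w, (conj (h z) * conj (h w) * (conj (w - z) / (w - z))).re ∂μ ∂μ

/-- Finite total mass. -/
def S_P7 : Prop := ∀ U h μ, Ids U h μ → Ord0 U → μ univ < ∞

/-- The frontier lies on a circle. -/
def S_Circ : Prop := ∀ U h μ, Ids U h μ → μ univ < ∞ →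
  volume (Fz U) < ∞ ∧ μ.real univ ^ 2 = 4 * π * volume.real (Fz U) ∧
    ∃ (z₀ : ℂ) (R : ℝ), ∀ z ∈ frontier (Om U), z = z₀ + R * conj (h z)

def S_P8 : Prop := ∀ U h μ, Ids U h μ → μ univ < ∞ → Concl U h

/-- The planar theorem. -/
def S_PL : Prop := ∀ U h, Data U h → Concl U h

end MW.PL
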